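import Mathlib

/-! Basic finite-dimensional definitions: 3-tensors on `ℝ⁶`, the action of matrices. -/

namespace Pool.Agent.H83.Curv

open Finset

/-- 3-tensors with coefficients in `A`. -/
abbrev T3 (A : Type*) := Fin 6 → Fin 6 → Fin 6 → A

/-- 2-tensors (matrices) with coefficients in `A`. -/
abbrev T2 (A : Type*) := Fin 6 → Fin 6 → A

/-- Alternating 3-tensors. -/
def Alt3 {ι A : Type*} [CommRing A] (w : ι → ι → ι → A) : Prop :=
  (∀ i j k, w j i k = -w i j k) ∧ (∀ i j k, w i k j = -w i j k)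

/-- The derivation action of a matrix on 3-tensors. -/
def act3 {ι A : Type*} [Fintype ι] [CommRing A] (Y : ι → ι → A) (w : ι → ι → ι → A) :
    ι → ι → ι → A :=
  fun i j k => ∑ e, (Y i e * w e j k + Y j e * w i e k + Y k e * w i j e)

/-- The pairing of 3-tensors. -/
def ip3 {ι A : Type*} [Fintype ι] [CommRing A] (v w : ι → ι → ι → A) : A :=
  ∑ i, ∑ j, ∑ k, v i j k * w i j k

/-- Ordered pairs of indices, indexing the standard basis of `Λ²ℝ⁶`. -/
abbrev Pair := {p : Fin 6 × Fin 6 // p.1 < p.2}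

/-- The skew matrix with coordinates `y`. -/
def toSkew (y : Pair → ℝ) : T2 ℝ := fun i j =>
  if h : i < j then y ⟨(i, j), h⟩ else if h' : j < i then -y ⟨(j, i), h'⟩ else 0

lemma Alt3.zero12 {w : T3 ℝ} (h : Alt3 w) (i k : Fin 6) : w i i k = 0 := by
  have := h.1 i i k; linarith

lemma Alt3.zero23 {w : T3 ℝ} (h : Alt3 w) (i k : Fin 6) : w i k k = 0 := by
  have := h.2 i k k; linarith

lemma Alt3.zero13 {w : T3 ℝ} (h : Alt3 w) (i k : Fin 6) : w i k i = 0 := by
  have h1 := h.1 i k i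
  have h2 := h.zero23 k i
  linarith

/-- The norm of an alternating tensor in terms of its 20 independent components. -/
lemma ip3_alt {v w : T3 ℝ} (hv : Alt3 v) (hw : Alt3 w) :
    ip3 v w = 6 * (v 0 1 2 * w 0 1 2 + v 0 1 3 * w 0 1 3 + v 0 1 4 * w 0 1 4 + v 0 1 5 * w 0 1 5 +
      v 0 2 3 * w 0 2 3 + v 0 2 4 * w 0 2 4 + v 0 2 5 * w 0 2 5 + v 0 3 4 * w 0 3 4 +
      v 0 3 5 * w 0 3 5 + v 0 4 5 * w 0 4 5 + v 1 2 3 * w 1 2 3 + v 1 2 4 * w 1 2 4 +
      v 1 2 5 * w 1 2 5 + v 1 3 4 * w 1 3 4 + v 1 3 5 * w 1 3 5 + v 1 4 5 * w 1 4 5 +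
      v 2 3 4 * w 2 3 4 + v 2 3 5 * w 2 3 5 + v 2 4 5 * w 2 4 5 + v 3 4 5 * w 3 4 5) := by
  -- the six permutations of a triple contribute the same amount
  have key : ∀ i j k : Fin 6, v i j k * w i j k + v i k j * w i k j + v j i k * w j i k +
      v j k i * w j k i + v k i j * w k i j + v k j i * w k j i = 6 * (v i j k * w i j k) := by
    intro i j k
    rw [hv.2 i j k, hw.2 i j k, hv.1 i j k, hw.1 i j k, hv.2 j i k, hw.2 j i k, hv.1 i j k,
      hw.1 i j k, hv.1 i k j, hw.1 i k j, hv.2 i j k, hw.2 i j k, hv.2 k i j, hw.2 k i j,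
      hv.1 i k j, hw.1 i k j, hv.2 i j k, hw.2 i j k]
    ring
  simp only [ip3, Fin.sum_univ_six]
  simp only [hv.zero12, hv.zero23, hv.zero13, zero_mul, add_zero, zero_add]
  linear_combination key 0 1 2 + key 0 1 3 + key 0 1 4 + key 0 1 5 + key 0 2 3 + key 0 2 4 +
    key 0 2 5 + key 0 3 4 + key 0 3 5 + key 0 4 5 + key 1 2 3 + key 1 2 4 + key 1 2 5 +
    key 1 3 4 + key 1 3 5 + key 1 4 5 + key 2 3 4 + key 2 3 5 + key 2 4 5 + key 3 4 5

lemma act3_alt {Y : T2 ℝ} {w : T3 ℝ} (hw : Alt3 w) : Alt3 (act3 Y w) := by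
  constructor
  · intro i j k
    simp only [act3, ← sum_neg_distrib]
    refine sum_congr rfl fun e _ => ?_
    rw [hw.1 e i k, hw.1 j e k, hw.1 i j e]; ring
  · intro i j k
    simp only [act3, ← sum_neg_distrib]
    refine sum_congr rfl fun e _ => ?_
    rw [hw.2 e j k, hw.2 i e j, hw.2 i k e]; ring

end Pool.Agent.H83.Curv
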