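import Mathlib
import Pool.Agent.H83.Curv.Basic

/-! Explicit components of the action on a 3-form in normal form. -/

set_option linter.unusedSimpArgs false

namespace Pool.Agent.H83.Curv

lemma Alt3.c1 {w : T3 ℝ} (h : Alt3 w) (i j k : Fin 6) : w j k i = w i j k := by
  rw [h.2 j i k, h.1 i j k]; ring

lemma Alt3.c2 {w : T3 ℝ} (h : Alt3 w) (i j k : Fin 6) : w k i j = w i j k := by
  rw [h.1 i k j, h.2 i j k]; ring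

lemma Alt3.c3 {w : T3 ℝ} (h : Alt3 w) (i j k : Fin 6) : w k j i = -w i j k := by
  rw [h.1 j k i, h.c1 i j k]

/-- A 3-form in normal form: the only nonzero components have one index in each of the pairs
`{0,1}`, `{2,3}`, `{4,5}`. -/
structure NF (w : T3 ℝ) : Prop where
  alt : Alt3 w
  z012 : w 0 1 2 = 0
  z013 : w 0 1 3 = 0
  z014 : w 0 1 4 = 0
  z015 : w 0 1 5 = 0
  z023 : w 0 2 3 = 0
  z045 : w 0 4 5 = 0
  z123 : w 1 2 3 = 0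
  z145 : w 1 4 5 = 0
  z234 : w 2 3 4 = 0
  z235 : w 2 3 5 = 0
  z245 : w 2 4 5 = 0
  z345 : w 3 4 5 = 0

lemma comp012 {w : T3 ℝ} (h : NF w) {Y : T2 ℝ} (hY : ∀ i j, Y j i = -Y i j) :
    act3 Y w 0 1 2 = 0 + Y 0 4 * w 1 2 4 - Y 1 4 * w 0 2 4 + Y 0 5 * w 1 2 5 - Y 1 5 * w 0 2 5 := by
  have d : ∀ i, Y i i = 0 := fun i => by have := hY i i; linarith
  simp only [act3, Fin.sum_univ_six, h.alt.zero12, h.alt.zero13, h.alt.zero23, h.alt.c2 1 2 3, h.alt.2 0 2 3, h.alt.c2 1 2 4, h.alt.2 0 2 4, h.alt.c2 1 2 5, h.alt.2 0 2 5, h.z012, h.z013, h.z014, h.z015, h.z023, h.z045, h.z123, h.z145, h.z234, h.z235, h.z245, h.z345, hY 0 1, hY 0 2, hY 1 2, d]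
  ring

lemma comp013 {w : T3 ℝ} (h : NF w) {Y : T2 ℝ} (hY : ∀ i j, Y j i = -Y i j) :
    act3 Y w 0 1 3 = 0 + Y 0 4 * w 1 3 4 - Y 1 4 * w 0 3 4 + Y 0 5 * w 1 3 5 - Y 1 5 * w 0 3 5 := by
  have d : ∀ i, Y i i = 0 := fun i => by have := hY i i; linarith
  simp only [act3, Fin.sum_univ_six, h.alt.zero12, h.alt.zero13, h.alt.zero23, h.alt.1 1 2 3, h.alt.c2 1 3 4, h.alt.2 0 3 4, h.alt.c2 1 3 5, h.alt.2 0 3 5, h.z012, h.z013, h.z014, h.z015, h.z023, h.z045, h.z123, h.z145, h.z234, h.z235, h.z245, h.z345, hY 0 1, hY 0 3, hY 1 3, hY 2 3, d]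
  ring

lemma comp014 {w : T3 ℝ} (h : NF w) {Y : T2 ℝ} (hY : ∀ i j, Y j i = -Y i j) :
    act3 Y w 0 1 4 = 0 - Y 0 2 * w 1 2 4 + Y 1 2 * w 0 2 4 - Y 0 3 * w 1 3 4 + Y 1 3 * w 0 3 4 := by
  have d : ∀ i, Y i i = 0 := fun i => by have := hY i i; linarith
  simp only [act3, Fin.sum_univ_six, h.alt.zero12, h.alt.zero13, h.alt.zero23, h.alt.1 1 2 4, h.alt.1 1 3 4, h.alt.c2 1 4 5, h.alt.2 0 4 5, h.z012, h.z013, h.z014, h.z015, h.z023, h.z045, h.z123, h.z145, h.z234, h.z235, h.z245, h.z345, hY 0 1, hY 0 4, hY 1 4, hY 2 4, hY 3 4, d]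
  ring

lemma comp015 {w : T3 ℝ} (h : NF w) {Y : T2 ℝ} (hY : ∀ i j, Y j i = -Y i j) :
    act3 Y w 0 1 5 = 0 - Y 0 2 * w 1 2 5 + Y 1 2 * w 0 2 5 - Y 0 3 * w 1 3 5 + Y 1 3 * w 0 3 5 := by
  have d : ∀ i, Y i i = 0 := fun i => by have := hY i i; linarith
  simp only [act3, Fin.sum_univ_six, h.alt.zero12, h.alt.zero13, h.alt.zero23, h.alt.1 1 2 5, h.alt.1 1 3 5, h.alt.1 1 4 5, h.z012, h.z013, h.z014, h.z015, h.z023, h.z045, h.z123, h.z145, h.z234, h.z235, h.z245, h.z345, hY 0 1, hY 0 5, hY 1 5, hY 2 5, hY 3 5, hY 4 5, d]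
  ring

lemma comp023 {w : T3 ℝ} (h : NF w) {Y : T2 ℝ} (hY : ∀ i j, Y j i = -Y i j) :
    act3 Y w 0 2 3 = 0 - Y 2 4 * w 0 3 4 + Y 3 4 * w 0 2 4 - Y 2 5 * w 0 3 5 + Y 3 5 * w 0 2 5 := by
  have d : ∀ i, Y i i = 0 := fun i => by have := hY i i; linarith
  simp only [act3, Fin.sum_univ_six, h.alt.zero12, h.alt.zero13, h.alt.zero23, h.alt.2 0 1 2, h.alt.c2 2 3 4, h.alt.2 0 3 4, h.alt.c2 2 3 5, h.alt.2 0 3 5, h.z012, h.z013, h.z014, h.z015, h.z023, h.z045, h.z123, h.z145, h.z234, h.z235, h.z245, h.z345, hY 0 2, hY 1 2, hY 0 3, hY 1 3, hY 2 3, d]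
  ring

lemma comp024 {w : T3 ℝ} (h : NF w) {Y : T2 ℝ} (hY : ∀ i j, Y j i = -Y i j) :
    act3 Y w 0 2 4 = 0 + Y 0 1 * w 1 2 4 + Y 2 3 * w 0 3 4 + Y 4 5 * w 0 2 5 := by
  have d : ∀ i, Y i i = 0 := fun i => by have := hY i i; linarith
  simp only [act3, Fin.sum_univ_six, h.alt.zero12, h.alt.zero13, h.alt.zero23, h.alt.2 0 1 2, h.alt.1 2 3 4, h.alt.c2 2 4 5, h.alt.2 0 4 5, h.z012, h.z013, h.z014, h.z015, h.z023, h.z045, h.z123, h.z145, h.z234, h.z235, h.z245, h.z345, hY 0 2, hY 1 2, hY 0 4, hY 1 4, hY 2 4, hY 3 4, d]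
  ring

lemma comp025 {w : T3 ℝ} (h : NF w) {Y : T2 ℝ} (hY : ∀ i j, Y j i = -Y i j) :
    act3 Y w 0 2 5 = 0 + Y 0 1 * w 1 2 5 + Y 2 3 * w 0 3 5 - Y 4 5 * w 0 2 4 := by
  have d : ∀ i, Y i i = 0 := fun i => by have := hY i i; linarith
  simp only [act3, Fin.sum_univ_six, h.alt.zero12, h.alt.zero13, h.alt.zero23, h.alt.2 0 1 2, h.alt.1 2 3 5, h.alt.1 2 4 5, h.z012, h.z013, h.z014, h.z015, h.z023, h.z045, h.z123, h.z145, h.z234, h.z235, h.z245, h.z345, hY 0 2, hY 1 2, hY 0 5, hY 1 5, hY 2 5, hY 3 5, hY 4 5, d]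
  ring

lemma comp034 {w : T3 ℝ} (h : NF w) {Y : T2 ℝ} (hY : ∀ i j, Y j i = -Y i j) :
    act3 Y w 0 3 4 = 0 + Y 0 1 * w 1 3 4 - Y 2 3 * w 0 2 4 + Y 4 5 * w 0 3 5 := by
  have d : ∀ i, Y i i = 0 := fun i => by have := hY i i; linarith
  simp only [act3, Fin.sum_univ_six, h.alt.zero12, h.alt.zero13, h.alt.zero23, h.alt.2 0 1 3, h.alt.2 0 2 3, h.alt.c2 3 4 5, h.alt.2 0 4 5, h.z012, h.z013, h.z014, h.z015, h.z023, h.z045, h.z123, h.z145, h.z234, h.z235, h.z245, h.z345, hY 0 3, hY 1 3, hY 2 3, hY 0 4, hY 1 4, hY 2 4, hY 3 4, d]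
  ring

lemma comp035 {w : T3 ℝ} (h : NF w) {Y : T2 ℝ} (hY : ∀ i j, Y j i = -Y i j) :
    act3 Y w 0 3 5 = 0 + Y 0 1 * w 1 3 5 - Y 2 3 * w 0 2 5 - Y 4 5 * w 0 3 4 := by
  have d : ∀ i, Y i i = 0 := fun i => by have := hY i i; linarith
  simp only [act3, Fin.sum_univ_six, h.alt.zero12, h.alt.zero13, h.alt.zero23, h.alt.2 0 1 3, h.alt.2 0 2 3, h.alt.1 3 4 5, h.z012, h.z013, h.z014, h.z015, h.z023, h.z045, h.z123, h.z145, h.z234, h.z235, h.z245, h.z345, hY 0 3, hY 1 3, hY 2 3, hY 0 5, hY 1 5, hY 2 5, hY 3 5, hY 4 5, d]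
  ring

lemma comp045 {w : T3 ℝ} (h : NF w) {Y : T2 ℝ} (hY : ∀ i j, Y j i = -Y i j) :
    act3 Y w 0 4 5 = 0 - Y 2 4 * w 0 2 5 + Y 2 5 * w 0 2 4 - Y 3 4 * w 0 3 5 + Y 3 5 * w 0 3 4 := by
  have d : ∀ i, Y i i = 0 := fun i => by have := hY i i; linarith
  simp only [act3, Fin.sum_univ_six, h.alt.zero12, h.alt.zero13, h.alt.zero23, h.alt.2 0 1 4, h.alt.2 0 2 4, h.alt.2 0 3 4, h.z012, h.z013, h.z014, h.z015, h.z023, h.z045, h.z123, h.z145, h.z234, h.z235, h.z245, h.z345, hY 0 4, hY 1 4, hY 2 4, hY 3 4, hY 0 5, hY 1 5, hY 2 5, hY 3 5, hY 4 5, d]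
  ring

lemma comp123 {w : T3 ℝ} (h : NF w) {Y : T2 ℝ} (hY : ∀ i j, Y j i = -Y i j) :
    act3 Y w 1 2 3 = 0 - Y 2 4 * w 1 3 4 + Y 3 4 * w 1 2 4 - Y 2 5 * w 1 3 5 + Y 3 5 * w 1 2 5 := by
  have d : ∀ i, Y i i = 0 := fun i => by have := hY i i; linarith
  simp only [act3, Fin.sum_univ_six, h.alt.zero12, h.alt.zero13, h.alt.zero23, h.alt.1 0 1 3, h.alt.c1 0 1 2, h.alt.c2 2 3 4, h.alt.2 1 3 4, h.alt.c2 2 3 5, h.alt.2 1 3 5, h.z012, h.z013, h.z014, h.z015, h.z023, h.z045, h.z123, h.z145, h.z234, h.z235, h.z245, h.z345, hY 0 1, hY 0 2, hY 1 2, hY 0 3, hY 1 3, hY 2 3, d]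
  ring

lemma comp124 {w : T3 ℝ} (h : NF w) {Y : T2 ℝ} (hY : ∀ i j, Y j i = -Y i j) :
    act3 Y w 1 2 4 = 0 - Y 0 1 * w 0 2 4 + Y 2 3 * w 1 3 4 + Y 4 5 * w 1 2 5 := by
  have d : ∀ i, Y i i = 0 := fun i => by have := hY i i; linarith
  simp only [act3, Fin.sum_univ_six, h.alt.zero12, h.alt.zero13, h.alt.zero23, h.alt.1 0 1 4, h.alt.c1 0 1 2, h.alt.1 2 3 4, h.alt.c2 2 4 5, h.alt.2 1 4 5, h.z012, h.z013, h.z014, h.z015, h.z023, h.z045, h.z123, h.z145, h.z234, h.z235, h.z245, h.z345, hY 0 1, hY 0 2, hY 1 2, hY 0 4, hY 1 4, hY 2 4, hY 3 4, d]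
  ring

lemma comp125 {w : T3 ℝ} (h : NF w) {Y : T2 ℝ} (hY : ∀ i j, Y j i = -Y i j) :
    act3 Y w 1 2 5 = 0 - Y 0 1 * w 0 2 5 + Y 2 3 * w 1 3 5 - Y 4 5 * w 1 2 4 := by
  have d : ∀ i, Y i i = 0 := fun i => by have := hY i i; linarith
  simp only [act3, Fin.sum_univ_six, h.alt.zero12, h.alt.zero13, h.alt.zero23, h.alt.1 0 1 5, h.alt.c1 0 1 2, h.alt.1 2 3 5, h.alt.1 2 4 5, h.z012, h.z013, h.z014, h.z015, h.z023, h.z045, h.z123, h.z145, h.z234, h.z235, h.z245, h.z345, hY 0 1, hY 0 2, hY 1 2, hY 0 5, hY 1 5, hY 2 5, hY 3 5, hY 4 5, d]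
  ring

lemma comp134 {w : T3 ℝ} (h : NF w) {Y : T2 ℝ} (hY : ∀ i j, Y j i = -Y i j) :
    act3 Y w 1 3 4 = 0 - Y 0 1 * w 0 3 4 - Y 2 3 * w 1 2 4 + Y 4 5 * w 1 3 5 := by
  have d : ∀ i, Y i i = 0 := fun i => by have := hY i i; linarith
  simp only [act3, Fin.sum_univ_six, h.alt.zero12, h.alt.zero13, h.alt.zero23, h.alt.1 0 1 4, h.alt.c1 0 1 3, h.alt.2 1 2 3, h.alt.c2 3 4 5, h.alt.2 1 4 5, h.z012, h.z013, h.z014, h.z015, h.z023, h.z045, h.z123, h.z145, h.z234, h.z235, h.z245, h.z345, hY 0 1, hY 0 3, hY 1 3, hY 2 3, hY 0 4, hY 1 4, hY 2 4, hY 3 4, d]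
  ring

lemma comp135 {w : T3 ℝ} (h : NF w) {Y : T2 ℝ} (hY : ∀ i j, Y j i = -Y i j) :
    act3 Y w 1 3 5 = 0 - Y 0 1 * w 0 3 5 - Y 2 3 * w 1 2 5 - Y 4 5 * w 1 3 4 := by
  have d : ∀ i, Y i i = 0 := fun i => by have := hY i i; linarith
  simp only [act3, Fin.sum_univ_six, h.alt.zero12, h.alt.zero13, h.alt.zero23, h.alt.1 0 1 5, h.alt.c1 0 1 3, h.alt.2 1 2 3, h.alt.1 3 4 5, h.z012, h.z013, h.z014, h.z015, h.z023, h.z045, h.z123, h.z145, h.z234, h.z235, h.z245, h.z345, hY 0 1, hY 0 3, hY 1 3, hY 2 3, hY 0 5, hY 1 5, hY 2 5, hY 3 5, hY 4 5, d]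
  ring

lemma comp145 {w : T3 ℝ} (h : NF w) {Y : T2 ℝ} (hY : ∀ i j, Y j i = -Y i j) :
    act3 Y w 1 4 5 = 0 - Y 2 4 * w 1 2 5 + Y 2 5 * w 1 2 4 - Y 3 4 * w 1 3 5 + Y 3 5 * w 1 3 4 := by
  have d : ∀ i, Y i i = 0 := fun i => by have := hY i i; linarith
  simp only [act3, Fin.sum_univ_six, h.alt.zero12, h.alt.zero13, h.alt.zero23, h.alt.1 0 1 5, h.alt.c1 0 1 4, h.alt.2 1 2 4, h.alt.2 1 3 4, h.z012, h.z013, h.z014, h.z015, h.z023, h.z045, h.z123, h.z145, h.z234, h.z235, h.z245, h.z345, hY 0 1, hY 0 4, hY 1 4, hY 2 4, hY 3 4, hY 0 5, hY 1 5, hY 2 5, hY 3 5, hY 4 5, d]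
  ring

lemma comp234 {w : T3 ℝ} (h : NF w) {Y : T2 ℝ} (hY : ∀ i j, Y j i = -Y i j) :
    act3 Y w 2 3 4 = 0 - Y 0 2 * w 0 3 4 + Y 0 3 * w 0 2 4 - Y 1 2 * w 1 3 4 + Y 1 3 * w 1 2 4 := by
  have d : ∀ i, Y i i = 0 := fun i => by have := hY i i; linarith
  simp only [act3, Fin.sum_univ_six, h.alt.zero12, h.alt.zero13, h.alt.zero23, h.alt.1 0 2 4, h.alt.c1 0 2 3, h.alt.1 1 2 4, h.alt.c1 1 2 3, h.alt.c2 3 4 5, h.alt.2 2 4 5, h.z012, h.z013, h.z014, h.z015, h.z023, h.z045, h.z123, h.z145, h.z234, h.z235, h.z245, h.z345, hY 0 2, hY 1 2, hY 0 3, hY 1 3, hY 2 3, hY 0 4, hY 1 4, hY 2 4, hY 3 4, d]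
  ring

lemma comp235 {w : T3 ℝ} (h : NF w) {Y : T2 ℝ} (hY : ∀ i j, Y j i = -Y i j) :
    act3 Y w 2 3 5 = 0 - Y 0 2 * w 0 3 5 + Y 0 3 * w 0 2 5 - Y 1 2 * w 1 3 5 + Y 1 3 * w 1 2 5 := by
  have d : ∀ i, Y i i = 0 := fun i => by have := hY i i; linarith
  simp only [act3, Fin.sum_univ_six, h.alt.zero12, h.alt.zero13, h.alt.zero23, h.alt.1 0 2 5, h.alt.c1 0 2 3, h.alt.1 1 2 5, h.alt.c1 1 2 3, h.alt.1 3 4 5, h.z012, h.z013, h.z014, h.z015, h.z023, h.z045, h.z123, h.z145, h.z234, h.z235, h.z245, h.z345, hY 0 2, hY 1 2, hY 0 3, hY 1 3, hY 2 3, hY 0 5, hY 1 5, hY 2 5, hY 3 5, hY 4 5, d]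
  ring

lemma comp245 {w : T3 ℝ} (h : NF w) {Y : T2 ℝ} (hY : ∀ i j, Y j i = -Y i j) :
    act3 Y w 2 4 5 = 0 + Y 0 4 * w 0 2 5 - Y 0 5 * w 0 2 4 + Y 1 4 * w 1 2 5 - Y 1 5 * w 1 2 4 := by
  have d : ∀ i, Y i i = 0 := fun i => by have := hY i i; linarith
  simp only [act3, Fin.sum_univ_six, h.alt.zero12, h.alt.zero13, h.alt.zero23, h.alt.1 0 2 5, h.alt.c1 0 2 4, h.alt.1 1 2 5, h.alt.c1 1 2 4, h.alt.2 2 3 4, h.z012, h.z013, h.z014, h.z015, h.z023, h.z045, h.z123, h.z145, h.z234, h.z235, h.z245, h.z345, hY 0 2, hY 1 2, hY 0 4, hY 1 4, hY 2 4, hY 3 4, hY 0 5, hY 1 5, hY 2 5, hY 3 5, hY 4 5, d]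
  ring

lemma comp345 {w : T3 ℝ} (h : NF w) {Y : T2 ℝ} (hY : ∀ i j, Y j i = -Y i j) :
    act3 Y w 3 4 5 = 0 + Y 0 4 * w 0 3 5 - Y 0 5 * w 0 3 4 + Y 1 4 * w 1 3 5 - Y 1 5 * w 1 3 4 := by
  have d : ∀ i, Y i i = 0 := fun i => by have := hY i i; linarith
  simp only [act3, Fin.sum_univ_six, h.alt.zero12, h.alt.zero13, h.alt.zero23, h.alt.1 0 3 5, h.alt.c1 0 3 4, h.alt.1 1 3 5, h.alt.c1 1 3 4, h.alt.1 2 3 5, h.alt.c1 2 3 4, h.z012, h.z013, h.z014, h.z015, h.z023, h.z045, h.z123, h.z145, h.z234, h.z235, h.z245, h.z345, hY 0 3, hY 1 3, hY 2 3, hY 0 4, hY 1 4, hY 2 4, hY 3 4, hY 0 5, hY 1 5, hY 2 5, hY 3 5, hY 4 5, d]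
  ring

end Pool.Agent.H83.Curv
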