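import Mathlib
import Pool.Agent.H83.Curv.Comps

/-! The certificate: for a 3-form in normal form, the Bianchi-corrected quadratic form
`P(Y) = |Y·w|² + T(Y)` satisfies `0 ≤ P(Y) ≤ (9/4) |w|² |Y|²`. -/

namespace Pool.Agent.H83.Curv

/-- `|Re(z² p̄ q)| ≤ |z|² |p| |q|`. -/
lemma reBound {x y p p' q q' s t : ℝ} (hs : 0 ≤ s) (ht : 0 ≤ t) (hp : p ^ 2 + p' ^ 2 = 4 * s ^ 2)
    (hq : q ^ 2 + q' ^ 2 = 4 * t ^ 2) :
    |(x ^ 2 - y ^ 2) * (p * q + p' * q') - 2 * x * y * (p * q' - p' * q)| ≤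
      4 * (x ^ 2 + y ^ 2) * s * t := by
  apply abs_le_of_sq_le_sq _ (by positivity)
  have h1 : (4 * (x ^ 2 + y ^ 2) * s * t) ^ 2 =
      (x ^ 2 + y ^ 2) ^ 2 * (p ^ 2 + p' ^ 2) * (q ^ 2 + q' ^ 2) := by rw [hp, hq]; ring
  rw [h1]
  nlinarith [sq_nonneg ((x ^ 2 - y ^ 2) * (p * q' - p' * q) + 2 * x * y * (p * q + p' * q'))]

/-- Bounds on one half of a mixed block. -/
lemma blockBound {x y p p' q q' s t u v : ℝ} (hs : 0 ≤ s) (ht : 0 ≤ t) (hu : 0 ≤ u) (hv : 0 ≤ v)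
    (hp : p ^ 2 + p' ^ 2 = 4 * s ^ 2) (hq : q ^ 2 + q' ^ 2 = 4 * t ^ 2) :
    0 ≤ 1 / 2 * (x ^ 2 + y ^ 2) * (s ^ 2 + t ^ 2) -
        1 / 4 * ((x ^ 2 - y ^ 2) * (p * q + p' * q') - 2 * x * y * (p * q' - p' * q)) +
        1 / 4 * ((u - v) ^ 2 - (s - t) ^ 2) * (x ^ 2 + y ^ 2) ∧
    1 / 2 * (x ^ 2 + y ^ 2) * (s ^ 2 + t ^ 2) -
        1 / 4 * ((x ^ 2 - y ^ 2) * (p * q + p' * q') - 2 * x * y * (p * q' - p' * q)) +
        1 / 4 * ((u - v) ^ 2 - (s - t) ^ 2) * (x ^ 2 + y ^ 2) ≤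
      (x ^ 2 + y ^ 2) * (s ^ 2 + t ^ 2 + u ^ 2 + v ^ 2) := by
  have h := abs_le.mp (reBound (x := x) (y := y) hs ht hp hq)
  obtain ⟨h1, h2⟩ := h
  have hz : 0 ≤ x ^ 2 + y ^ 2 := by positivity
  constructor
  · nlinarith [mul_nonneg hz (sq_nonneg (u - v)), mul_nonneg hz (sq_nonneg (s - t))]
  · nlinarith [mul_nonneg hz (sq_nonneg (s - t)), mul_nonneg hz (mul_nonneg hu hv),
      mul_nonneg hz (sq_nonneg u), mul_nonneg hz (sq_nonneg v), mul_nonneg hz (sq_nonneg (s - t))]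

/-- a three-variable inequality -/
lemma key3 {a b c : ℝ} (ha : 0 ≤ a) (hb : 0 ≤ b) (hc : 0 ≤ c) (x y z : ℝ) :
    0 ≤ (a^2+b^2+c^2+a*b+a*c+b*c)*(x^2+y^2+z^2) - 2*(a+b+c)*(c*x*y+b*x*z+a*y*z) := by
  set σ := a + b + c with hσ
  set p := a * b + a * c + b * c with hp
  set r := a * b * c with hr
  set q := a^2+b^2+c^2+a*b+a*c+b*c with hq
  have hσ0 : 0 ≤ σ := by positivity
  have hp0 : 0 ≤ p := by positivity
  have hr0 : 0 ≤ r := by positivity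
  have hqe : q = σ^2 - p := by rw [hq, hσ, hp]; ring
  have h1 : 3 * p ≤ σ^2 := by rw [hσ, hp]; nlinarith [sq_nonneg (a-b), sq_nonneg (a-c), sq_nonneg (b-c)]
  have h2 : 3 * σ * r ≤ p^2 := by
    rw [hσ, hp, hr]; nlinarith [sq_nonneg (a*b-a*c), sq_nonneg (a*b-b*c), sq_nonneg (a*c-b*c)]
  have hdet : 0 ≤ (σ^2 - p) * p^2 - 2*σ^3*r := by
    nlinarith [mul_nonneg (sq_nonneg σ) hσ0, mul_nonneg hσ0 hr0, mul_nonneg (sq_nonneg σ) (sub_nonneg.mpr h2),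
      mul_nonneg (sq_nonneg p) (sub_nonneg.mpr h1), mul_nonneg hp0 (sq_nonneg p)]
  by_cases hab : a = 0 ∧ b = 0
  · obtain ⟨rfl, rfl⟩ := hab
    have : q * (x^2+y^2+z^2) - 2*σ*(c*x*y+0*x*z+0*y*z) = c^2 * (z^2 + (x-y)^2) := by
      rw [hq, hσ]; ring
    rw [this]; positivity
  · have habpos : 0 < a^2+b^2+a*b := by
      rcases lt_or_eq_of_le ha with h | h
      · nlinarith [mul_nonneg ha hb, sq_nonneg b, mul_pos h h]
      · rcases lt_or_eq_of_le hb with h' | h'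
        · nlinarith [mul_nonneg ha hb, sq_nonneg a, mul_pos h' h']
        · exact absurd ⟨h.symm, h'.symm⟩ hab
    have hqc : σ * c < q := by rw [hq, hσ]; nlinarith
    have hq0 : 0 < q := lt_of_le_of_lt (mul_nonneg hσ0 hc) hqc
    set α := q^2 - σ^2*c^2 with hα
    set β := σ*a*q + σ^2*b*c with hβ
    set γ := q^2 - σ^2*b^2 with hγ
    have hα0 : 0 < α := by
      have : α = (q - σ*c)*(q+σ*c) := by rw [hα]; ring
      rw [this]
      exact mul_pos (by linarith) (by nlinarith [mul_nonneg hσ0 hc])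
    have e1 : q * (q * (x^2+y^2+z^2) - 2*σ*(c*x*y+b*x*z+a*y*z)) =
        (q*x-σ*c*y-σ*b*z)^2 + (α*y^2+γ*z^2-2*β*y*z) := by
      rw [hα, hβ, hγ]; ring
    have e2 : α * (α*y^2+γ*z^2-2*β*y*z) = (α*y-β*z)^2 + (α*γ-β^2)*z^2 := by ring
    have e3 : α*γ-β^2 = q * ((σ^2 - p) * p^2 - 2*σ^3*r) := by
      rw [hα, hβ, hγ, hqe, hσ, hp, hr]; ring
    have h3 : 0 ≤ α * (α*y^2+γ*z^2-2*β*y*z) := by
      rw [e2, e3]; positivity
    have h4 : 0 ≤ α*y^2+γ*z^2-2*β*y*z := nonneg_of_mul_nonneg_right h3 hα0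
    have h5 : 0 ≤ q * (q * (x^2+y^2+z^2) - 2*σ*(c*x*y+b*x*z+a*y*z)) := by
      rw [e1]; positivity
    exact nonneg_of_mul_nonneg_right h5 hq0

/-- positive branch: the constraint `t0 ≥ |t1|+|t2|+|t3|`. -/
lemma diagLowerB {t a b c x y z : ℝ} (ha : 0 ≤ a) (hb : 0 ≤ b) (hc : 0 ≤ c) (ht : a + b + c ≤ t) :
    4 * t * (c*x*y+b*x*z+a*y*z) ≤ (t^2+a^2+b^2+c^2)*(x^2+y^2+z^2) := by
  have h1 := key3 ha hb hc x y z
  have hxy : 2 * (c*x*y+b*x*z+a*y*z) ≤ (a+b+c)*(x^2+y^2+z^2) := by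
    nlinarith [mul_nonneg hc (sq_nonneg (x-y)), mul_nonneg hb (sq_nonneg (x-z)),
      mul_nonneg ha (sq_nonneg (y-z)), mul_nonneg ha (sq_nonneg x), mul_nonneg hb (sq_nonneg y),
      mul_nonneg hc (sq_nonneg z)]
  have h2 : 0 ≤ (t-(a+b+c))*((t+(a+b+c))*(x^2+y^2+z^2) - 4*(c*x*y+b*x*z+a*y*z)) := by
    apply mul_nonneg (by linarith)
    have : 0 ≤ (t-(a+b+c))*(x^2+y^2+z^2) := mul_nonneg (by linarith) (by positivity)
    nlinarith
  nlinarith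

/-- the case where at most two of the three products contribute. -/
lemma diagLowerA {t a b c x y z : ℝ} :
    4 * t * (c*x*y+b*x*z) ≤ (t^2+a^2+b^2+c^2)*(x^2+y^2+z^2) := by
  have h : |4 * t * (c*x*y+b*x*z)| ≤ (t^2+(b^2+c^2))*(x^2+y^2+z^2) := by
    apply abs_le_of_sq_le_sq _ (by positivity)
    have h1 : (c*x*y+b*x*z)^2 ≤ (b^2+c^2)*(x^2*(y^2+z^2)) := by
      nlinarith [sq_nonneg (x*(c*z-b*y))]
    have h2 : 4*(x^2*(y^2+z^2)) ≤ (x^2+y^2+z^2)^2 := by nlinarith [sq_nonneg (x^2-(y^2+z^2))]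
    have h3 : 4*(t^2*(b^2+c^2)) ≤ (t^2+(b^2+c^2))^2 := by nlinarith [sq_nonneg (t^2-(b^2+c^2))]
    calc (4 * t * (c*x*y+b*x*z))^2 = 16 * t^2 * (c*x*y+b*x*z)^2 := by ring
      _ ≤ 16 * t^2 * ((b^2+c^2)*(x^2*(y^2+z^2))) := by gcongr
      _ = (4*(t^2*(b^2+c^2))) * (4*(x^2*(y^2+z^2))) := by ring
      _ ≤ (t^2+(b^2+c^2))^2 * (x^2+y^2+z^2)^2 := by gcongr
      _ = _ := by ring
  have h4 := (abs_le.mp h).2
  nlinarith [mul_nonneg (sq_nonneg a) (show 0 ≤ x^2+y^2+z^2 by positivity)]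

/-- The diagonal block, in Hadamard coordinates. -/
lemma diagLower {t a b c x y z : ℝ} (ht : 0 ≤ t) (h1 : 0 ≤ t + a + b + c) (h2 : 0 ≤ t + a - b - c)
    (h3 : 0 ≤ t - a + b - c) (h4 : 0 ≤ t - a - b + c) :
    0 ≤ (t^2+a^2+b^2+c^2)*(x^2+y^2+z^2) + 4 * t * (c*x*y+b*x*z+a*y*z) := by
  by_cases hneg : a*b*c < 0
  · -- all three absolute values are dominated by t
    have habs : |a| + |b| + |c| ≤ t := by
      rcases lt_trichotomy a 0 with ha | ha | ha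
      · rcases lt_trichotomy b 0 with hb | hb | hb
        · have hc : c < 0 := by
            by_contra hc
            have := mul_nonneg (mul_nonneg_of_nonpos_of_nonpos ha.le hb.le) (not_lt.mp hc)
            linarith
          rw [abs_of_neg ha, abs_of_neg hb, abs_of_neg hc]; linarith
        · rw [hb] at hneg; simp at hneg
        · have hc : 0 < c := by
            by_contra hc
            have := mul_nonneg_of_nonpos_of_nonpos (mul_nonpos_of_nonpos_of_nonneg ha.le hb.le)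
              (not_lt.mp hc)
            linarith
          rw [abs_of_neg ha, abs_of_pos hb, abs_of_pos hc]; linarith
      · rw [ha] at hneg; simp at hneg
      · rcases lt_trichotomy b 0 with hb | hb | hb
        · have hc : 0 < c := by
            by_contra hc
            have := mul_nonneg_of_nonpos_of_nonpos (mul_nonpos_of_nonneg_of_nonpos ha.le hb.le)
              (not_lt.mp hc)
            linarith
          rw [abs_of_pos ha, abs_of_neg hb, abs_of_pos hc]; linarith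
        · rw [hb] at hneg; simp at hneg
        · have hc : c < 0 := by
            by_contra hc
            have := mul_nonneg (mul_nonneg ha.le hb.le) (not_lt.mp hc)
            linarith
          rw [abs_of_pos ha, abs_of_pos hb, abs_of_neg hc]; linarith
    have hB := diagLowerB (x := |x|) (y := |y|) (z := |z|) (abs_nonneg a) (abs_nonneg b)
      (abs_nonneg c) habs
    simp only [sq_abs] at hB
    have e1 : -(c*x*y) ≤ |c| * |x| * |y| := by rw [← abs_mul, ← abs_mul]; exact neg_le_abs _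
    have e2 : -(b*x*z) ≤ |b| * |x| * |z| := by rw [← abs_mul, ← abs_mul]; exact neg_le_abs _
    have e3 : -(a*y*z) ≤ |a| * |y| * |z| := by rw [← abs_mul, ← abs_mul]; exact neg_le_abs _
    nlinarith [mul_le_mul_of_nonneg_left (add_le_add (add_le_add e1 e2) e3) (show 0 ≤ 4*t by linarith)]
  · rw [not_lt] at hneg
    have hprod : 0 ≤ (c*x*y)*(b*x*z)*(a*y*z) := by
      have : (c*x*y)*(b*x*z)*(a*y*z) = (a*b*c)*(x*y*z)^2 := by ring
      rw [this]; positivity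
    -- one of the three products is nonnegative
    rcases le_or_gt 0 (a*y*z) with h | h
    · have := @diagLowerA t a (-b) (-c) x y z
      nlinarith [mul_nonneg ht h]
    · rcases le_or_gt 0 (b*x*z) with h' | h'
      · have := @diagLowerA t b (-a) (-c) y x z
        nlinarith [mul_nonneg ht h']
      · have h'' : 0 ≤ c*x*y := by
          by_contra hcon
          rw [not_le] at hcon
          have := mul_neg_of_pos_of_neg (mul_pos_of_neg_of_neg hcon h') h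
          linarith
        have := @diagLowerA t c (-a) (-b) z x y
        nlinarith [mul_nonneg ht h'']

lemma diagUpper {t a b c x y z : ℝ} :
    4 * t * (c*x*y+b*x*z+a*y*z) ≤ 5/4*((t^2+a^2+b^2+c^2)*(x^2+y^2+z^2)) := by
  have h : |4 * t * (c*x*y+b*x*z+a*y*z)| ≤ 5/4*((t^2+(a^2+b^2+c^2))*(x^2+y^2+z^2)) := by
    apply abs_le_of_sq_le_sq _ (by positivity)
    have h1 : (c*x*y+b*x*z+a*y*z)^2 ≤ (a^2+b^2+c^2)*(x^2*y^2+x^2*z^2+y^2*z^2) := by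
      nlinarith [sq_nonneg (c*(x*z)-b*(x*y)), sq_nonneg (c*(y*z)-a*(x*y)), sq_nonneg (b*(y*z)-a*(x*z))]
    have h2 : 3*(x^2*y^2+x^2*z^2+y^2*z^2) ≤ (x^2+y^2+z^2)^2 := by
      nlinarith [sq_nonneg (x^2-y^2), sq_nonneg (x^2-z^2), sq_nonneg (y^2-z^2)]
    have h3 : 4*(t^2*(a^2+b^2+c^2)) ≤ (t^2+(a^2+b^2+c^2))^2 := by
      nlinarith [sq_nonneg (t^2-(a^2+b^2+c^2))]
    have h5 : 0 ≤ (t^2+(a^2+b^2+c^2))^2 * (x^2+y^2+z^2)^2 := by positivity
    calc (4 * t * (c*x*y+b*x*z+a*y*z))^2 = 16 * t^2 * (c*x*y+b*x*z+a*y*z)^2 := by ring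
      _ ≤ 16 * t^2 * ((a^2+b^2+c^2)*(x^2*y^2+x^2*z^2+y^2*z^2)) := by gcongr
      _ = (4/3) * ((4*(t^2*(a^2+b^2+c^2))) * (3*(x^2*y^2+x^2*z^2+y^2*z^2))) := by ring
      _ ≤ (4/3) * ((t^2+(a^2+b^2+c^2))^2 * (x^2+y^2+z^2)^2) := by gcongr
      _ ≤ _ := by nlinarith
  have h4 := (abs_le.mp h).2
  nlinarith

/-- Bounds on the diagonal block. -/
lemma diagBound {s t u v x y z : ℝ} (hs : 0 ≤ s) (ht : 0 ≤ t) (hu : 0 ≤ u) (hv : 0 ≤ v) :
    0 ≤ s^2*(x+y+z)^2 + t^2*(x-y-z)^2 + u^2*(-x+y-z)^2 + v^2*(-x-y+z)^2 +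
        ((t-u)^2-(s-v)^2)*(x*y) + ((t-v)^2-(s-u)^2)*(x*z) + ((u-v)^2-(s-t)^2)*(y*z) ∧
    s^2*(x+y+z)^2 + t^2*(x-y-z)^2 + u^2*(-x+y-z)^2 + v^2*(-x-y+z)^2 +
        ((t-u)^2-(s-v)^2)*(x*y) + ((t-v)^2-(s-u)^2)*(x*z) + ((u-v)^2-(s-t)^2)*(y*z) ≤
      9/4*((s^2+t^2+u^2+v^2)*(x^2+y^2+z^2)) := by
  have hl := @diagLower ((s+t+u+v)/2) ((s+t-u-v)/2) ((s-t+u-v)/2) ((s-t-u+v)/2) x y z
    (by positivity) (by linarith) (by linarith) (by linarith) (by linarith)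
  have hu' := @diagUpper ((s+t+u+v)/2) ((s+t-u-v)/2) ((s-t+u-v)/2) ((s-t-u+v)/2) x y z
  constructor
  · nlinarith
  · nlinarith

end Pool.Agent.H83.Curv
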