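import Mathlib
import Pool.Agent.H83.Curv.Comps
import Pool.Agent.H83.Curv.Cert

/-! The certificate for 3-forms in normal form. -/

namespace Pool.Agent.H83.Curv

/-- The squared norm (20 components) of a 3-form in normal form. -/
def W8 (w : T3 ℝ) : ℝ := w 0 2 4 ^ 2 + w 0 2 5 ^ 2 + w 0 3 4 ^ 2 + w 0 3 5 ^ 2 + w 1 2 4 ^ 2 +
  w 1 2 5 ^ 2 + w 1 3 4 ^ 2 + w 1 3 5 ^ 2

/-- The squared norm (15 components) of a skew matrix. -/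
def nsq (Y : T2 ℝ) : ℝ := Y 0 1 ^ 2 + Y 0 2 ^ 2 + Y 0 3 ^ 2 + Y 0 4 ^ 2 + Y 0 5 ^ 2 + Y 1 2 ^ 2 +
  Y 1 3 ^ 2 + Y 1 4 ^ 2 + Y 1 5 ^ 2 + Y 2 3 ^ 2 + Y 2 4 ^ 2 + Y 2 5 ^ 2 + Y 3 4 ^ 2 + Y 3 5 ^ 2 +
  Y 4 5 ^ 2

/-- The 4-form correction. -/
def T4 (t1 t2 t3 : ℝ) (Y : T2 ℝ) : ℝ :=
  2 * (t3 * (Y 0 1 * Y 2 3 - Y 0 2 * Y 1 3 + Y 0 3 * Y 1 2) +
    t2 * (Y 0 1 * Y 4 5 - Y 0 4 * Y 1 5 + Y 0 5 * Y 1 4) +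
    t1 * (Y 2 3 * Y 4 5 - Y 2 4 * Y 3 5 + Y 2 5 * Y 3 4))

lemma ip3_nf {w : T3 ℝ} (h : NF w) : ip3 w w = 6 * W8 w := by
  rw [ip3_alt h.alt h.alt, h.z012, h.z013, h.z014, h.z015, h.z023, h.z045, h.z123, h.z145, h.z234,
    h.z235, h.z245, h.z345, W8]
  ring

theorem cert {w : T3 ℝ} (h : NF w) : ∃ t1 t2 t3 : ℝ, ∀ Y : T2 ℝ, (∀ i j, Y j i = -Y i j) →
    0 ≤ ip3 (act3 Y w) (act3 Y w) / 6 + T4 t1 t2 t3 Y ∧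
    ip3 (act3 Y w) (act3 Y w) / 6 + T4 t1 t2 t3 Y ≤ 9 / 4 * (W8 w * nsq Y) := by
  obtain ⟨a, ha⟩ : ∃ a, a = w 0 2 4 := ⟨_, rfl⟩
  obtain ⟨b, hb⟩ : ∃ a, a = w 0 2 5 := ⟨_, rfl⟩
  obtain ⟨c, hc⟩ : ∃ a, a = w 0 3 4 := ⟨_, rfl⟩
  obtain ⟨d, hd⟩ : ∃ a, a = w 0 3 5 := ⟨_, rfl⟩
  obtain ⟨e, he⟩ : ∃ a, a = w 1 2 4 := ⟨_, rfl⟩
  obtain ⟨f, hf⟩ : ∃ a, a = w 1 2 5 := ⟨_, rfl⟩
  obtain ⟨g, hg⟩ : ∃ a, a = w 1 3 4 := ⟨_, rfl⟩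
  obtain ⟨k, hk⟩ : ∃ a, a = w 1 3 5 := ⟨_, rfl⟩
  obtain ⟨s1, hs1, e1⟩ : ∃ s : ℝ, 0 ≤ s ∧ (a - d - f - g) ^ 2 + (b + c + e - k) ^ 2 = 4 * s ^ 2 :=
    ⟨Real.sqrt ((a - d - f - g) ^ 2 + (b + c + e - k) ^ 2) / 2, by positivity, by
      rw [div_pow, Real.sq_sqrt (by positivity)]; ring⟩
  obtain ⟨s2, hs2, e2⟩ : ∃ s : ℝ, 0 ≤ s ∧ (a - d + f + g) ^ 2 + (-b - c + e - k) ^ 2 = 4 * s ^ 2 :=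
    ⟨Real.sqrt ((a - d + f + g) ^ 2 + (-b - c + e - k) ^ 2) / 2, by positivity, by
      rw [div_pow, Real.sq_sqrt (by positivity)]; ring⟩
  obtain ⟨s3, hs3, e3⟩ : ∃ s : ℝ, 0 ≤ s ∧ (a + d - f + g) ^ 2 + (-b + c - e - k) ^ 2 = 4 * s ^ 2 :=
    ⟨Real.sqrt ((a + d - f + g) ^ 2 + (-b + c - e - k) ^ 2) / 2, by positivity, by
      rw [div_pow, Real.sq_sqrt (by positivity)]; ring⟩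
  obtain ⟨s4, hs4, e4⟩ : ∃ s : ℝ, 0 ≤ s ∧ (a + d + f - g) ^ 2 + (b - c - e - k) ^ 2 = 4 * s ^ 2 :=
    ⟨Real.sqrt ((a + d + f - g) ^ 2 + (b - c - e - k) ^ 2) / 2, by positivity, by
      rw [div_pow, Real.sq_sqrt (by positivity)]; ring⟩
  have hW : W8 w = s1 ^ 2 + s2 ^ 2 + s3 ^ 2 + s4 ^ 2 := by
    rw [W8, ← ha, ← hb, ← hc, ← hd, ← he, ← hf, ← hg, ← hk]
    linear_combination (e1 + e2 + e3 + e4) / 4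
  refine ⟨((s3 - s4) ^ 2 - (s1 - s2) ^ 2) / 2, ((s2 - s4) ^ 2 - (s1 - s3) ^ 2) / 2,
    ((s2 - s3) ^ 2 - (s1 - s4) ^ 2) / 2, fun Y hY => ?_⟩
  have hN : ip3 (act3 Y w) (act3 Y w) / 6 =
      (act3 Y w 0 1 2 ^ 2 + act3 Y w 0 1 3 ^ 2 + act3 Y w 2 4 5 ^ 2 + act3 Y w 3 4 5 ^ 2) +
      (act3 Y w 0 1 4 ^ 2 + act3 Y w 0 1 5 ^ 2 + act3 Y w 2 3 4 ^ 2 + act3 Y w 2 3 5 ^ 2) +
      (act3 Y w 0 2 3 ^ 2 + act3 Y w 1 2 3 ^ 2 + act3 Y w 0 4 5 ^ 2 + act3 Y w 1 4 5 ^ 2) +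
      (act3 Y w 0 2 4 ^ 2 + act3 Y w 0 2 5 ^ 2 + act3 Y w 0 3 4 ^ 2 + act3 Y w 0 3 5 ^ 2 +
        act3 Y w 1 2 4 ^ 2 + act3 Y w 1 2 5 ^ 2 + act3 Y w 1 3 4 ^ 2 + act3 Y w 1 3 5 ^ 2) := by
    rw [ip3_alt (act3_alt h.alt) (act3_alt h.alt)]; ring
  have bA1 := blockBound (x := Y 0 2 - Y 1 3) (y := Y 0 3 + Y 1 2) hs1 hs4 hs2 hs3 e1 e4
  have bA2 := blockBound (x := Y 0 2 + Y 1 3) (y := Y 1 2 - Y 0 3) hs2 hs3 hs1 hs4 e2 e3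
  have bB1 := blockBound (x := Y 0 4 - Y 1 5) (y := Y 0 5 + Y 1 4) hs1 hs3 hs2 hs4 e1 e3
  have bB2 := blockBound (x := Y 0 4 + Y 1 5) (y := Y 1 4 - Y 0 5) hs2 hs4 hs1 hs3 e2 e4
  have bC1 := blockBound (x := Y 2 4 - Y 3 5) (y := Y 2 5 + Y 3 4) hs1 hs2 hs3 hs4 e1 e2
  have bC2 := blockBound (x := Y 2 4 + Y 3 5) (y := Y 3 4 - Y 2 5) hs3 hs4 hs1 hs2 e3 e4
  have bD := diagBound (x := Y 0 1) (y := Y 2 3) (z := Y 4 5) hs1 hs2 hs3 hs4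
  have iA : act3 Y w 0 1 4 ^ 2 + act3 Y w 0 1 5 ^ 2 + act3 Y w 2 3 4 ^ 2 + act3 Y w 2 3 5 ^ 2 +
      ((s2 - s3) ^ 2 - (s1 - s4) ^ 2) * (- Y 0 2 * Y 1 3 + Y 0 3 * Y 1 2) =
      (1 / 2 * ((Y 0 2 - Y 1 3) ^ 2 + (Y 0 3 + Y 1 2) ^ 2) * (s1 ^ 2 + s4 ^ 2) -
        1 / 4 * (((Y 0 2 - Y 1 3) ^ 2 - (Y 0 3 + Y 1 2) ^ 2) *
          ((a - d - f - g) * (a + d + f - g) + (b + c + e - k) * (b - c - e - k)) -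
          2 * (Y 0 2 - Y 1 3) * (Y 0 3 + Y 1 2) *
          ((a - d - f - g) * (b - c - e - k) - (b + c + e - k) * (a + d + f - g))) +
        1 / 4 * ((s2 - s3) ^ 2 - (s1 - s4) ^ 2) * ((Y 0 2 - Y 1 3) ^ 2 + (Y 0 3 + Y 1 2) ^ 2)) +
      (1 / 2 * ((Y 0 2 + Y 1 3) ^ 2 + (Y 1 2 - Y 0 3) ^ 2) * (s2 ^ 2 + s3 ^ 2) -
        1 / 4 * (((Y 0 2 + Y 1 3) ^ 2 - (Y 1 2 - Y 0 3) ^ 2) *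
          ((a - d + f + g) * (a + d - f + g) + (-b - c + e - k) * (-b + c - e - k)) -
          2 * (Y 0 2 + Y 1 3) * (Y 1 2 - Y 0 3) *
          ((a - d + f + g) * (-b + c - e - k) - (-b - c + e - k) * (a + d - f + g))) +
        1 / 4 * ((s1 - s4) ^ 2 - (s2 - s3) ^ 2) * ((Y 0 2 + Y 1 3) ^ 2 + (Y 1 2 - Y 0 3) ^ 2)) := by
    rw [comp014 h hY, comp015 h hY, comp234 h hY, comp235 h hY, ← ha, ← hb, ← hc, ← hd, ← he, ← hf,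
      ← hg, ← hk]
    linear_combination ((Y 0 2 - Y 1 3) ^ 2 + (Y 0 3 + Y 1 2) ^ 2) / 8 * (e1 + e4) +
      ((Y 0 2 + Y 1 3) ^ 2 + (Y 1 2 - Y 0 3) ^ 2) / 8 * (e2 + e3)
  have iB : act3 Y w 0 1 2 ^ 2 + act3 Y w 0 1 3 ^ 2 + act3 Y w 2 4 5 ^ 2 + act3 Y w 3 4 5 ^ 2 +
      ((s2 - s4) ^ 2 - (s1 - s3) ^ 2) * (- Y 0 4 * Y 1 5 + Y 0 5 * Y 1 4) =
      (1 / 2 * ((Y 0 4 - Y 1 5) ^ 2 + (Y 0 5 + Y 1 4) ^ 2) * (s1 ^ 2 + s3 ^ 2) -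
        1 / 4 * (((Y 0 4 - Y 1 5) ^ 2 - (Y 0 5 + Y 1 4) ^ 2) *
          ((a - d - f - g) * (a + d - f + g) + (b + c + e - k) * (-b + c - e - k)) -
          2 * (Y 0 4 - Y 1 5) * (Y 0 5 + Y 1 4) *
          ((a - d - f - g) * (-b + c - e - k) - (b + c + e - k) * (a + d - f + g))) +
        1 / 4 * ((s2 - s4) ^ 2 - (s1 - s3) ^ 2) * ((Y 0 4 - Y 1 5) ^ 2 + (Y 0 5 + Y 1 4) ^ 2)) +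
      (1 / 2 * ((Y 0 4 + Y 1 5) ^ 2 + (Y 1 4 - Y 0 5) ^ 2) * (s2 ^ 2 + s4 ^ 2) -
        1 / 4 * (((Y 0 4 + Y 1 5) ^ 2 - (Y 1 4 - Y 0 5) ^ 2) *
          ((a - d + f + g) * (a + d + f - g) + (-b - c + e - k) * (b - c - e - k)) -
          2 * (Y 0 4 + Y 1 5) * (Y 1 4 - Y 0 5) *
          ((a - d + f + g) * (b - c - e - k) - (-b - c + e - k) * (a + d + f - g))) +
        1 / 4 * ((s1 - s3) ^ 2 - (s2 - s4) ^ 2) * ((Y 0 4 + Y 1 5) ^ 2 + (Y 1 4 - Y 0 5) ^ 2)) := by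
    rw [comp012 h hY, comp013 h hY, comp245 h hY, comp345 h hY, ← ha, ← hb, ← hc, ← hd, ← he, ← hf,
      ← hg, ← hk]
    linear_combination ((Y 0 4 - Y 1 5) ^ 2 + (Y 0 5 + Y 1 4) ^ 2) / 8 * (e1 + e3) +
      ((Y 0 4 + Y 1 5) ^ 2 + (Y 1 4 - Y 0 5) ^ 2) / 8 * (e2 + e4)
  have iC : act3 Y w 0 2 3 ^ 2 + act3 Y w 1 2 3 ^ 2 + act3 Y w 0 4 5 ^ 2 + act3 Y w 1 4 5 ^ 2 +
      ((s3 - s4) ^ 2 - (s1 - s2) ^ 2) * (- Y 2 4 * Y 3 5 + Y 2 5 * Y 3 4) =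
      (1 / 2 * ((Y 2 4 - Y 3 5) ^ 2 + (Y 2 5 + Y 3 4) ^ 2) * (s1 ^ 2 + s2 ^ 2) -
        1 / 4 * (((Y 2 4 - Y 3 5) ^ 2 - (Y 2 5 + Y 3 4) ^ 2) *
          ((a - d - f - g) * (a - d + f + g) + (b + c + e - k) * (-b - c + e - k)) -
          2 * (Y 2 4 - Y 3 5) * (Y 2 5 + Y 3 4) *
          ((a - d - f - g) * (-b - c + e - k) - (b + c + e - k) * (a - d + f + g))) +
        1 / 4 * ((s3 - s4) ^ 2 - (s1 - s2) ^ 2) * ((Y 2 4 - Y 3 5) ^ 2 + (Y 2 5 + Y 3 4) ^ 2)) +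
      (1 / 2 * ((Y 2 4 + Y 3 5) ^ 2 + (Y 3 4 - Y 2 5) ^ 2) * (s3 ^ 2 + s4 ^ 2) -
        1 / 4 * (((Y 2 4 + Y 3 5) ^ 2 - (Y 3 4 - Y 2 5) ^ 2) *
          ((a + d - f + g) * (a + d + f - g) + (-b + c - e - k) * (b - c - e - k)) -
          2 * (Y 2 4 + Y 3 5) * (Y 3 4 - Y 2 5) *
          ((a + d - f + g) * (b - c - e - k) - (-b + c - e - k) * (a + d + f - g))) +
        1 / 4 * ((s1 - s2) ^ 2 - (s3 - s4) ^ 2) * ((Y 2 4 + Y 3 5) ^ 2 + (Y 3 4 - Y 2 5) ^ 2)) := by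
    rw [comp023 h hY, comp123 h hY, comp045 h hY, comp145 h hY, ← ha, ← hb, ← hc, ← hd, ← he, ← hf,
      ← hg, ← hk]
    linear_combination ((Y 2 4 - Y 3 5) ^ 2 + (Y 2 5 + Y 3 4) ^ 2) / 8 * (e1 + e2) +
      ((Y 2 4 + Y 3 5) ^ 2 + (Y 3 4 - Y 2 5) ^ 2) / 8 * (e3 + e4)
  have iD : act3 Y w 0 2 4 ^ 2 + act3 Y w 0 2 5 ^ 2 + act3 Y w 0 3 4 ^ 2 + act3 Y w 0 3 5 ^ 2 +
        act3 Y w 1 2 4 ^ 2 + act3 Y w 1 2 5 ^ 2 + act3 Y w 1 3 4 ^ 2 + act3 Y w 1 3 5 ^ 2 =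
      s1 ^ 2 * (Y 0 1 + Y 2 3 + Y 4 5) ^ 2 + s2 ^ 2 * (Y 0 1 - Y 2 3 - Y 4 5) ^ 2 +
      s3 ^ 2 * (-Y 0 1 + Y 2 3 - Y 4 5) ^ 2 + s4 ^ 2 * (-Y 0 1 - Y 2 3 + Y 4 5) ^ 2 := by
    rw [comp024 h hY, comp025 h hY, comp034 h hY, comp035 h hY, comp124 h hY, comp125 h hY,
      comp134 h hY, comp135 h hY, ← ha, ← hb, ← hc, ← hd, ← he, ← hf, ← hg, ← hk]
    linear_combination (Y 0 1 + Y 2 3 + Y 4 5) ^ 2 / 4 * e1 + (Y 0 1 - Y 2 3 - Y 4 5) ^ 2 / 4 * e2 +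
      (-Y 0 1 + Y 2 3 - Y 4 5) ^ 2 / 4 * e3 + (-Y 0 1 - Y 2 3 + Y 4 5) ^ 2 / 4 * e4
  have hT : T4 (((s3 - s4) ^ 2 - (s1 - s2) ^ 2) / 2) (((s2 - s4) ^ 2 - (s1 - s3) ^ 2) / 2)
      (((s2 - s3) ^ 2 - (s1 - s4) ^ 2) / 2) Y =
      ((s2 - s3) ^ 2 - (s1 - s4) ^ 2) * (- Y 0 2 * Y 1 3 + Y 0 3 * Y 1 2) +
      ((s2 - s4) ^ 2 - (s1 - s3) ^ 2) * (- Y 0 4 * Y 1 5 + Y 0 5 * Y 1 4) +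
      ((s3 - s4) ^ 2 - (s1 - s2) ^ 2) * (- Y 2 4 * Y 3 5 + Y 2 5 * Y 3 4) +
      (((s2 - s3) ^ 2 - (s1 - s4) ^ 2) * (Y 0 1 * Y 2 3) +
        ((s2 - s4) ^ 2 - (s1 - s3) ^ 2) * (Y 0 1 * Y 4 5) +
        ((s3 - s4) ^ 2 - (s1 - s2) ^ 2) * (Y 2 3 * Y 4 5)) := by
    rw [T4]; ring
  rw [hN, hT, hW, nsq]
  have hWn : 0 ≤ s1 ^ 2 + s2 ^ 2 + s3 ^ 2 + s4 ^ 2 := by positivity
  constructor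
  · linarith [bA1.1, bA2.1, bB1.1, bB2.1, bC1.1, bC2.1, bD.1]
  · have hm : 0 ≤ (s1 ^ 2 + s2 ^ 2 + s3 ^ 2 + s4 ^ 2) * (Y 0 2 ^ 2 + Y 0 3 ^ 2 + Y 0 4 ^ 2 +
      Y 0 5 ^ 2 + Y 1 2 ^ 2 + Y 1 3 ^ 2 + Y 1 4 ^ 2 + Y 1 5 ^ 2 + Y 2 4 ^ 2 + Y 2 5 ^ 2 +
      Y 3 4 ^ 2 + Y 3 5 ^ 2) := by positivity
    linarith [bA1.2, bA2.2, bB1.2, bB2.2, bC1.2, bC2.2, bD.2]

end Pool.Agent.H83.Curv
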