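import Mathlib
import Pool.Agent.H83.Curv.Comps

/-! Every alternating 3-tensor on `ℝ⁶` can be rotated into normal form. -/

set_option linter.unusedSimpArgs false

namespace Pool.Agent.H83.Curv

open Finset

/-- Evaluation of a 3-tensor on three vectors. -/
def ev (w : T3 ℝ) (u v z : Fin 6 → ℝ) : ℝ := ∑ a, ∑ b, ∑ c, u a * v b * z c * w a b c

lemma ev_comb1 (w : T3 ℝ) (c s : ℝ) (u u' v z : Fin 6 → ℝ) :
    ev w (c • u + s • u') v z = c * ev w u v z + s * ev w u' v z := by
  simp only [ev, mul_sum, ← sum_add_distrib, Pi.add_apply, Pi.smul_apply, smul_eq_mul]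
  refine sum_congr rfl fun a _ => sum_congr rfl fun b _ => sum_congr rfl fun d _ => ?_
  ring

lemma ev_comb2 (w : T3 ℝ) (c s : ℝ) (u v v' z : Fin 6 → ℝ) :
    ev w u (c • v + s • v') z = c * ev w u v z + s * ev w u v' z := by
  simp only [ev, mul_sum, ← sum_add_distrib, Pi.add_apply, Pi.smul_apply, smul_eq_mul]
  refine sum_congr rfl fun a _ => sum_congr rfl fun b _ => sum_congr rfl fun d _ => ?_
  ring

lemma ev_comb3 (w : T3 ℝ) (c s : ℝ) (u v z z' : Fin 6 → ℝ) :
    ev w u v (c • z + s • z') = c * ev w u v z + s * ev w u v z' := by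
  simp only [ev, mul_sum, ← sum_add_distrib, Pi.add_apply, Pi.smul_apply, smul_eq_mul]
  refine sum_congr rfl fun a _ => sum_congr rfl fun b _ => sum_congr rfl fun d _ => ?_
  ring

lemma ev_swap12 {w : T3 ℝ} (hw : Alt3 w) (u v z : Fin 6 → ℝ) : ev w v u z = -ev w u v z := by
  simp only [ev, ← sum_neg_distrib]
  rw [sum_comm]
  refine sum_congr rfl fun a _ => sum_congr rfl fun b _ => sum_congr rfl fun d _ => ?_
  rw [hw.1 a b d]; ring

lemma ev_swap23 {w : T3 ℝ} (hw : Alt3 w) (u v z : Fin 6 → ℝ) : ev w u z v = -ev w u v z := by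
  simp only [ev, ← sum_neg_distrib]
  refine sum_congr rfl fun a _ => ?_
  rw [sum_comm]
  refine sum_congr rfl fun b _ => sum_congr rfl fun d _ => ?_
  rw [hw.2 a b d]; ring

/-- Rotation of a 3-tensor by a matrix. -/
def rot (U : Matrix (Fin 6) (Fin 6) ℝ) (w : T3 ℝ) : T3 ℝ := fun i j k => ev w (U i) (U j) (U k)

lemma rot_alt {U : Matrix (Fin 6) (Fin 6) ℝ} {w : T3 ℝ} (hw : Alt3 w) : Alt3 (rot U w) :=
  ⟨fun _ _ _ => ev_swap12 hw _ _ _, fun _ _ _ => ev_swap23 hw _ _ _⟩

/-- rows orthonormal -/
def ONRows (U : Matrix (Fin 6) (Fin 6) ℝ) : Prop :=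
  ∀ i j, ∑ a, U i a * U j a = if i = j then 1 else 0

/-- Rotate the rows `p` and `q`. -/
def rotRows (U : Matrix (Fin 6) (Fin 6) ℝ) (p q : Fin 6) (c s : ℝ) : Matrix (Fin 6) (Fin 6) ℝ :=
  fun i => if i = p then c • U p + s • U q else if i = q then (-s) • U p + c • U q else U i

lemma rotRows_on {U : Matrix (Fin 6) (Fin 6) ℝ} (hU : ONRows U) {p q : Fin 6} (hpq : p ≠ q)
    {c s : ℝ} (hcs : c ^ 2 + s ^ 2 = 1) : ONRows (rotRows U p q c s) := by
  have key : ∀ (x y x' y' : ℝ) (i j i' j' : Fin 6),
      ∑ a, (x • U i + y • U j) a * (x' • U i' + y' • U j') a =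
        x * x' * (∑ a, U i a * U i' a) + x * y' * (∑ a, U i a * U j' a) +
        y * x' * (∑ a, U j a * U i' a) + y * y' * (∑ a, U j a * U j' a) := by
    intro x y x' y' i j i' j'
    simp only [mul_sum, ← sum_add_distrib, Pi.add_apply, Pi.smul_apply, smul_eq_mul]
    exact sum_congr rfl fun a _ => by ring
  have key1 : ∀ (x y : ℝ) (i j i' : Fin 6),
      ∑ a, (x • U i + y • U j) a * U i' a =
        x * (∑ a, U i a * U i' a) + y * (∑ a, U j a * U i' a) := by
    intro x y i j i'
    simp only [mul_sum, ← sum_add_distrib, Pi.add_apply, Pi.smul_apply, smul_eq_mul]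
    exact sum_congr rfl fun a _ => by ring
  have key2 : ∀ (x y : ℝ) (i j i' : Fin 6),
      ∑ a, U i' a * (x • U i + y • U j) a =
        x * (∑ a, U i' a * U i a) + y * (∑ a, U i' a * U j a) := by
    intro x y i j i'
    simp only [mul_sum, ← sum_add_distrib, Pi.add_apply, Pi.smul_apply, smul_eq_mul]
    exact sum_congr rfl fun a _ => by ring
  intro i j
  have hqp : q ≠ p := hpq.symm
  by_cases hip : i = p
  · subst hip
    by_cases hjp : j = i
    · subst hjp
      simp only [rotRows, if_true, key, hU j j, hU j q, hU q j, hU q q, if_neg hpq, if_neg hqp]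
      linarith
    · by_cases hjq : j = q
      · subst hjq
        simp only [rotRows, if_true, if_neg hqp, if_neg hpq, key, hU i i, hU i j, hU j i, hU j j]
        ring
      · have h1 : i ≠ j := fun h => hjp h.symm
        have h2 : q ≠ j := fun h => hjq h.symm
        simp only [rotRows, if_true, if_neg hjp, if_neg hjq, key1, hU i j, hU q j, if_neg h1,
          if_neg h2]
        ring
  · by_cases hiq : i = q
    · subst hiq
      by_cases hjp : j = p
      · subst hjp
        simp only [rotRows, if_true, if_neg hip, key, hU j j, hU j i, hU i j, hU i i, if_neg hpq]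
        ring
      · by_cases hjq : j = i
        · subst hjq
          simp only [rotRows, if_true, if_neg hip, key, hU p p, hU p j, hU j p, hU j j, if_neg hpq]
          linarith
        · have h1 : p ≠ j := fun h => hjp h.symm
          have h2 : i ≠ j := fun h => hjq h.symm
          simp only [rotRows, if_true, if_neg hip, if_neg hjp, if_neg hjq, key1, hU p j, hU i j,
            if_neg h1, if_neg h2]
          ring
    · by_cases hjp : j = p
      · subst hjp
        simp only [rotRows, if_true, if_neg hip, if_neg hiq, key2, hU i j, hU i q]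
        ring
      · by_cases hjq : j = q
        · subst hjq
          simp only [rotRows, if_true, if_neg hip, if_neg hiq, if_neg hjp, key2, hU i p, hU i j]
          ring
        · simp only [rotRows, if_neg hip, if_neg hiq, if_neg hjp, if_neg hjq, hU i j]

/-- The functional to be maximised. -/
def phi (w : T3 ℝ) (U : Matrix (Fin 6) (Fin 6) ℝ) : ℝ :=
  5 * ev w (U 0) (U 2) (U 4) + 2 * ev w (U 0) (U 3) (U 5) + ev w (U 1) (U 2) (U 5)

lemma crit {P Q : ℝ} (h : ∀ c s : ℝ, c ^ 2 + s ^ 2 = 1 → c * P + s * Q ≤ P) : Q = 0 := by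
  by_contra hQ
  have hpos : 0 < P ^ 2 + Q ^ 2 := by positivity
  set r := Real.sqrt (P ^ 2 + Q ^ 2) with hr
  have hr0 : 0 < r := Real.sqrt_pos.mpr hpos
  have hr2 : r ^ 2 = P ^ 2 + Q ^ 2 := Real.sq_sqrt hpos.le
  have h1 := h (P / r) (Q / r) (by field_simp; linarith)
  have h2 : P / r * P + Q / r * Q = r := by field_simp; linarith
  rw [h2] at h1
  nlinarith [sq_nonneg Q, sq_pos_of_ne_zero hQ]

lemma isCompact_onRows : IsCompact {U : Matrix (Fin 6) (Fin 6) ℝ | ONRows U} := by
  have hsub : {U : Matrix (Fin 6) (Fin 6) ℝ | ONRows U} ⊆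
      Set.pi Set.univ (fun _ => Set.pi Set.univ (fun _ => Set.Icc (-1 : ℝ) 1)) := by
    intro U hU i _ a _
    have h := hU i i
    rw [if_pos rfl] at h
    have h2 : U i a * U i a ≤ 1 := by
      rw [← h]
      exact single_le_sum (f := fun a => U i a * U i a) (fun b _ => mul_self_nonneg _) (mem_univ a)
    exact abs_le.mp (abs_le_one_iff_mul_self_le_one.mpr h2)
  refine IsCompact.of_isClosed_subset
    (isCompact_univ_pi fun _ => isCompact_univ_pi fun _ => isCompact_Icc) ?_ hsub
  have : {U : Matrix (Fin 6) (Fin 6) ℝ | ONRows U} =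
      ⋂ i, ⋂ j, {U : Matrix (Fin 6) (Fin 6) ℝ | ∑ a, U i a * U j a = if i = j then 1 else 0} := by
    ext U; simp [ONRows]
  rw [this]
  refine isClosed_iInter fun i => isClosed_iInter fun j => isClosed_eq ?_ continuous_const
  fun_prop

lemma phi_continuous (w : T3 ℝ) : Continuous (phi w) := by
  unfold phi ev
  fun_prop

theorem exists_normal_form (w : T3 ℝ) (hw : Alt3 w) :
    ∃ U : Matrix (Fin 6) (Fin 6) ℝ, ONRows U ∧ NF (rot U w) := by
  have hne : {U : Matrix (Fin 6) (Fin 6) ℝ | ONRows U}.Nonempty := by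
    refine ⟨1, ?_⟩
    intro i j
    simp [Matrix.one_apply]
  obtain ⟨U, hU, hmax⟩ := isCompact_onRows.exists_isMaxOn hne (phi_continuous w).continuousOn
  refine ⟨U, hU, ?_⟩
  have hmax' : ∀ (p q : Fin 6) (_ : p ≠ q) (c s : ℝ), c ^ 2 + s ^ 2 = 1 →
      phi w (rotRows U p q c s) ≤ phi w U := fun p q hpq c s hcs => hmax (rotRows_on hU hpq hcs)
  have z12 : ∀ u z, ev w u u z = 0 := fun u z => by have := ev_swap12 hw u u z; linarith
  have z23 : ∀ u z, ev w u z z = 0 := fun u z => by have := ev_swap23 hw u z z; linarith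
  have z13 : ∀ u z, ev w u z u = 0 := fun u z => by
    have h1 := ev_swap12 hw u z u; have h2 := z23 z u; linarith
  have ha := rot_alt (U := U) hw
  have r : ∀ i j k, ev w (U i) (U j) (U k) = rot U w i j k := fun _ _ _ => rfl
  -- the twelve first-order conditions
  have e02 : 2 * rot U w 2 3 5 + 1 * rot U w 0 1 5 = 0 := by
    apply crit (P := 2 * rot U w 0 3 5 + 1 * rot U w 1 2 5)
    intro c s hcs
    have h := hmax' 0 2 (by decide) c s hcs
    simp only [phi, rotRows, Fin.reduceEq, if_true, if_false, ev_comb1, ev_comb2, ev_comb3, z12, z13,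
      z23, r] at h
    rw [ha.1 0 1 5, ha.1 0 2 4] at h
    linear_combination h - 5 * rot U w 0 2 4 * hcs
  have e03 : (-5) * rot U w 2 3 4 = 0 := by
    apply crit (P := 5 * rot U w 0 2 4)
    intro c s hcs
    have h := hmax' 0 3 (by decide) c s hcs
    simp only [phi, rotRows, Fin.reduceEq, if_true, if_false, ev_comb1, ev_comb2, ev_comb3, z12, z13,
      z23, r] at h
    rw [ha.1 0 3 5, ha.1 2 3 4] at h
    linear_combination h - 2 * rot U w 0 3 5 * hcs
  have e12 : (-5) * rot U w 0 1 4 = 0 := by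
    apply crit (P := 5 * rot U w 0 2 4)
    intro c s hcs
    have h := hmax' 1 2 (by decide) c s hcs
    simp only [phi, rotRows, Fin.reduceEq, if_true, if_false, ev_comb1, ev_comb2, ev_comb3, z12, z13,
      z23, r] at h
    rw [ha.1 1 2 5] at h
    linear_combination h - 1 * rot U w 1 2 5 * hcs
  have e13 : (-2) * rot U w 0 1 5 + (-1) * rot U w 2 3 5 = 0 := by
    apply crit (P := 2 * rot U w 0 3 5 + 1 * rot U w 1 2 5)
    intro c s hcs
    have h := hmax' 1 3 (by decide) c s hcs
    simp only [phi, rotRows, Fin.reduceEq, if_true, if_false, ev_comb1, ev_comb2, ev_comb3, z12, z13,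
      z23, r] at h
    rw [ha.1 2 3 5] at h
    linear_combination h
  have e04 : (-2) * rot U w 3 4 5 = 0 := by
    apply crit (P := 2 * rot U w 0 3 5)
    intro c s hcs
    have h := hmax' 0 4 (by decide) c s hcs
    simp only [phi, rotRows, Fin.reduceEq, if_true, if_false, ev_comb1, ev_comb2, ev_comb3, z12, z13,
      z23, r] at h
    rw [ha.c3 0 2 4, ha.1 3 4 5] at h
    linear_combination h - 5 * rot U w 0 2 4 * hcs
  have e05 : 5 * rot U w 2 4 5 + (-1) * rot U w 0 1 2 = 0 := by
    apply crit (P := 5 * rot U w 0 2 4 + 1 * rot U w 1 2 5)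
    intro c s hcs
    have h := hmax' 0 5 (by decide) c s hcs
    simp only [phi, rotRows, Fin.reduceEq, if_true, if_false, ev_comb1, ev_comb2, ev_comb3, z12, z13,
      z23, r] at h
    rw [ha.c1 0 1 2, ha.c2 2 4 5, ha.c3 0 3 5] at h
    linear_combination h - 2 * rot U w 0 3 5 * hcs
  have e14 : 5 * rot U w 0 1 2 + (-1) * rot U w 2 4 5 = 0 := by
    apply crit (P := 5 * rot U w 0 2 4 + 1 * rot U w 1 2 5)
    intro c s hcs
    have h := hmax' 1 4 (by decide) c s hcs
    simp only [phi, rotRows, Fin.reduceEq, if_true, if_false, ev_comb1, ev_comb2, ev_comb3, z12, z13,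
      z23, r] at h
    rw [ha.2 0 1 2, ha.1 2 4 5] at h
    linear_combination h
  have e15 : 2 * rot U w 0 1 3 = 0 := by
    apply crit (P := 2 * rot U w 0 3 5)
    intro c s hcs
    have h := hmax' 1 5 (by decide) c s hcs
    simp only [phi, rotRows, Fin.reduceEq, if_true, if_false, ev_comb1, ev_comb2, ev_comb3, z12, z13,
      z23, r] at h
    rw [ha.2 0 1 3, ha.c3 1 2 5] at h
    linear_combination h - 1 * rot U w 1 2 5 * hcs
  have e24 : 1 * rot U w 1 4 5 = 0 := by
    apply crit (P := 1 * rot U w 1 2 5)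
    intro c s hcs
    have h := hmax' 2 4 (by decide) c s hcs
    simp only [phi, rotRows, Fin.reduceEq, if_true, if_false, ev_comb1, ev_comb2, ev_comb3, z12, z13,
      z23, r] at h
    rw [ha.2 0 2 4] at h
    linear_combination h - 5 * rot U w 0 2 4 * hcs
  have e25 : (-5) * rot U w 0 4 5 + 2 * rot U w 0 2 3 = 0 := by
    apply crit (P := 5 * rot U w 0 2 4 + 2 * rot U w 0 3 5)
    intro c s hcs
    have h := hmax' 2 5 (by decide) c s hcs
    simp only [phi, rotRows, Fin.reduceEq, if_true, if_false, ev_comb1, ev_comb2, ev_comb3, z12, z13,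
      z23, r] at h
    rw [ha.2 0 2 3, ha.2 0 4 5, ha.2 1 2 5] at h
    linear_combination h - 1 * rot U w 1 2 5 * hcs
  have e34 : (-5) * rot U w 0 2 3 + 2 * rot U w 0 4 5 = 0 := by
    apply crit (P := 5 * rot U w 0 2 4 + 2 * rot U w 0 3 5)
    intro c s hcs
    have h := hmax' 3 4 (by decide) c s hcs
    simp only [phi, rotRows, Fin.reduceEq, if_true, if_false, ev_comb1, ev_comb2, ev_comb3, z12, z13,
      z23, r] at h
    linear_combination h
  have e35 : (-1) * rot U w 1 2 3 = 0 := by
    apply crit (P := 1 * rot U w 1 2 5)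
    intro c s hcs
    have h := hmax' 3 5 (by decide) c s hcs
    simp only [phi, rotRows, Fin.reduceEq, if_true, if_false, ev_comb1, ev_comb2, ev_comb3, z12, z13,
      z23, r] at h
    rw [ha.2 0 3 5] at h
    linear_combination h - 2 * rot U w 0 3 5 * hcs
  exact ⟨ha, by linarith, by linarith, by linarith, by linarith, by linarith, by linarith, by linarith, by linarith, by linarith, by linarith, by linarith, by linarith⟩

end Pool.Agent.H83.Curv
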