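import Mathlib
import Pool.Agent.H83.Curv.NormalForm
import Pool.Agent.H83.Curv.CertNF

/-! Equivariance of the action, and orthonormal families of skew matrices. -/

namespace Pool.Agent.H83.Curv

open Finset

/-- Kronecker delta. -/
def dl (i j : Fin 6) : ℝ := if i = j then 1 else 0

lemma dl_self (i : Fin 6) : dl i i = 1 := if_pos rfl

lemma dl_comm (i j : Fin 6) : dl i j = dl j i := by
  unfold dl; simp only [eq_comm]

lemma sum_dl (i : Fin 6) (f : Fin 6 → ℝ) : ∑ j, dl i j * f j = f i := by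
  simp [dl]

lemma sum_dl' (i : Fin 6) (f : Fin 6 → ℝ) : ∑ j, dl j i * f j = f i := by
  simp [dl]

lemma ONRows.rows {U : Matrix (Fin 6) (Fin 6) ℝ} (h : ONRows U) (i j : Fin 6) :
    ∑ a, U i a * U j a = dl i j := h i j

lemma ONRows.cols {U : Matrix (Fin 6) (Fin 6) ℝ} (h : ONRows U) (a b : Fin 6) :
    ∑ i, U i a * U i b = dl a b := by
  have h1 : U * U.transpose = 1 := by
    ext i j
    rw [Matrix.mul_apply, Matrix.one_apply]
    simpa using h i j
  have h2 : U.transpose * U = 1 := mul_eq_one_comm.mp h1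
  have h3 := congrFun (congrFun h2 a) b
  rw [Matrix.mul_apply, Matrix.one_apply] at h3
  simpa [dl] using h3

/-- Conjugation of a matrix. -/
def conj2 (U : Matrix (Fin 6) (Fin 6) ℝ) (Y : T2 ℝ) : T2 ℝ :=
  fun i j => ∑ a, ∑ b, U i a * U j b * Y a b

lemma conj2_skew {U : Matrix (Fin 6) (Fin 6) ℝ} {Y : T2 ℝ} (hY : ∀ i j, Y j i = -Y i j) :
    ∀ i j, conj2 U Y j i = -conj2 U Y i j := by
  intro i j
  simp only [conj2, ← sum_neg_distrib]
  rw [sum_comm]
  refine sum_congr rfl fun a _ => sum_congr rfl fun b _ => ?_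
  rw [hY a b]; ring

/-- contraction of the conjugated matrix with a rotated vector -/
lemma conj2_contract {U : Matrix (Fin 6) (Fin 6) ℝ} (hU : ONRows U) (Y : T2 ℝ) (i : Fin 6)
    (f : Fin 6 → ℝ) : ∑ e, conj2 U Y i e * (∑ a, U e a * f a) = ∑ a, U i a * ∑ b, Y a b * f b := by
  have h1 : ∀ e, conj2 U Y i e * (∑ a, U e a * f a) =
      ∑ a, ∑ b, ∑ c, U i a * Y a b * f c * (U e b * U e c) := by
    intro e
    rw [conj2, sum_mul]
    refine sum_congr rfl fun a _ => ?_
    rw [sum_mul]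
    refine sum_congr rfl fun b _ => ?_
    rw [mul_sum]
    refine sum_congr rfl fun c _ => ?_
    ring
  simp only [h1]
  rw [sum_comm]
  refine sum_congr rfl fun a _ => ?_
  rw [sum_comm, mul_sum]
  refine sum_congr rfl fun b _ => ?_
  rw [sum_comm]
  simp only [← mul_sum, hU.cols]
  have : ∀ c, U i a * Y a b * f c * dl b c = dl b c * (U i a * Y a b * f c) := fun c => by ring
  simp only [this, sum_dl]
  ring

lemma rot_eq1 (U : Matrix (Fin 6) (Fin 6) ℝ) (w : T3 ℝ) (i j k : Fin 6) :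
    rot U w i j k = ∑ a, U i a * (∑ b, ∑ c, U j b * U k c * w a b c) := by
  simp only [rot, ev, mul_sum]
  refine sum_congr rfl fun a _ => sum_congr rfl fun b _ => sum_congr rfl fun c _ => ?_
  ring

lemma rot_eq2 (U : Matrix (Fin 6) (Fin 6) ℝ) (w : T3 ℝ) (i j k : Fin 6) :
    rot U w i j k = ∑ b, U j b * (∑ a, ∑ c, U i a * U k c * w a b c) := by
  simp only [rot, ev, mul_sum]
  rw [sum_comm]
  refine sum_congr rfl fun a _ => sum_congr rfl fun b _ => sum_congr rfl fun c _ => ?_
  ring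

lemma rot_eq3 (U : Matrix (Fin 6) (Fin 6) ℝ) (w : T3 ℝ) (i j k : Fin 6) :
    rot U w i j k = ∑ c, U k c * (∑ a, ∑ b, U i a * U j b * w a b c) := by
  simp only [rot, ev, mul_sum]
  rw [sum_congr rfl fun a _ => sum_comm]
  rw [sum_comm]
  refine sum_congr rfl fun a _ => sum_congr rfl fun b _ => sum_congr rfl fun c _ => ?_
  ring

lemma act3_rot {U : Matrix (Fin 6) (Fin 6) ℝ} (hU : ONRows U) (Y : T2 ℝ) (w : T3 ℝ) :
    act3 (conj2 U Y) (rot U w) = rot U (act3 Y w) := by
  funext i j k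
  have h0 : rot U (act3 Y w) i j k =
      (∑ a, U i a * ∑ d, Y a d * (∑ b, ∑ c, U j b * U k c * w d b c)) +
      (∑ b, U j b * ∑ d, Y b d * (∑ a, ∑ c, U i a * U k c * w a d c)) +
      (∑ c, U k c * ∑ d, Y c d * (∑ a, ∑ b, U i a * U j b * w a b d)) := by
    have e1 : (∑ a, U i a * ∑ d, Y a d * (∑ b, ∑ c, U j b * U k c * w d b c)) =
        ∑ a, ∑ b, ∑ c, U i a * U j b * U k c * ∑ d, Y a d * w d b c := by
      refine sum_congr rfl fun a _ => ?_
      simp only [mul_sum]
      rw [sum_comm]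
      refine sum_congr rfl fun b _ => ?_
      rw [sum_comm]
      refine sum_congr rfl fun c _ => sum_congr rfl fun d _ => ?_
      ring
    have e2 : (∑ b, U j b * ∑ d, Y b d * (∑ a, ∑ c, U i a * U k c * w a d c)) =
        ∑ a, ∑ b, ∑ c, U i a * U j b * U k c * ∑ d, Y b d * w a d c := by
      rw [sum_comm]
      refine sum_congr rfl fun b _ => ?_
      simp only [mul_sum]
      rw [sum_comm]
      refine sum_congr rfl fun a _ => ?_
      rw [sum_comm]
      refine sum_congr rfl fun c _ => sum_congr rfl fun d _ => ?_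
      ring
    have e3 : (∑ c, U k c * ∑ d, Y c d * (∑ a, ∑ b, U i a * U j b * w a b d)) =
        ∑ a, ∑ b, ∑ c, U i a * U j b * U k c * ∑ d, Y c d * w a b d := by
      have : ∀ (F : Fin 6 → Fin 6 → Fin 6 → ℝ), ∑ a, ∑ b, ∑ c, F a b c = ∑ c, ∑ a, ∑ b, F a b c := by
        intro F
        rw [sum_congr rfl fun a _ => sum_comm]
        rw [sum_comm]
      rw [this]
      refine sum_congr rfl fun c _ => ?_
      simp only [mul_sum]
      rw [sum_comm]
      refine sum_congr rfl fun a _ => ?_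
      rw [sum_comm]
      refine sum_congr rfl fun b _ => sum_congr rfl fun d _ => ?_
      ring
    rw [e1, e2, e3]
    simp only [rot, ev, act3, ← sum_add_distrib]
    refine sum_congr rfl fun a _ => sum_congr rfl fun b _ => sum_congr rfl fun c _ => ?_
    simp only [mul_sum, ← sum_add_distrib]
    refine sum_congr rfl fun d _ => ?_
    ring
  rw [h0, act3, sum_add_distrib, sum_add_distrib]
  congr 1
  · congr 1
    · rw [← conj2_contract hU]
      exact sum_congr rfl fun e _ => by rw [rot_eq1]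
    · rw [← conj2_contract hU]
      exact sum_congr rfl fun e _ => by rw [rot_eq2]
  · rw [← conj2_contract hU]
    exact sum_congr rfl fun e _ => by rw [rot_eq3]

/-- one-slot isometry -/
lemma slot_iso {U : Matrix (Fin 6) (Fin 6) ℝ} (hU : ONRows U) (f g : Fin 6 → ℝ) :
    ∑ i, (∑ a, U i a * f a) * (∑ a, U i a * g a) = ∑ a, f a * g a := by
  have h1 : ∀ i, (∑ a, U i a * f a) * (∑ a, U i a * g a) =
      ∑ a, ∑ b, f a * g b * (U i a * U i b) := by
    intro i
    rw [sum_mul_sum]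
    refine sum_congr rfl fun a _ => sum_congr rfl fun b _ => ?_
    ring
  simp only [h1]
  rw [sum_comm]
  refine sum_congr rfl fun a _ => ?_
  rw [sum_comm]
  simp only [← mul_sum, hU.cols]
  have : ∀ c, f a * g c * dl a c = dl a c * (f a * g c) := fun c => by ring
  simp only [this, sum_dl]

/-- one-slot rotations -/
def S1 (U : Matrix (Fin 6) (Fin 6) ℝ) (v : T3 ℝ) : T3 ℝ := fun i j k => ∑ a, U i a * v a j k
/-- one-slot rotations -/
def S2 (U : Matrix (Fin 6) (Fin 6) ℝ) (v : T3 ℝ) : T3 ℝ := fun i j k => ∑ a, U j a * v i a k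
/-- one-slot rotations -/
def S3 (U : Matrix (Fin 6) (Fin 6) ℝ) (v : T3 ℝ) : T3 ℝ := fun i j k => ∑ a, U k a * v i j a

lemma rot_eq (U : Matrix (Fin 6) (Fin 6) ℝ) (v : T3 ℝ) : rot U v = S1 U (S2 U (S3 U v)) := by
  funext i j k
  simp only [rot, ev, S1, S2, S3, mul_sum]
  refine sum_congr rfl fun a _ => sum_congr rfl fun b _ => sum_congr rfl fun c _ => ?_
  ring

lemma ip3_S1 {U : Matrix (Fin 6) (Fin 6) ℝ} (hU : ONRows U) (v w : T3 ℝ) :
    ip3 (S1 U v) (S1 U w) = ip3 v w := by
  have h : ∀ F : T3 ℝ, ∑ i, ∑ j, ∑ k, F i j k = ∑ j, ∑ k, ∑ i, F i j k := by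
    intro F
    rw [sum_comm]
    exact sum_congr rfl fun j _ => sum_comm
  simp only [ip3]
  rw [h, h (fun i j k => v i j k * w i j k)]
  refine sum_congr rfl fun j _ => sum_congr rfl fun k _ => ?_
  exact slot_iso hU (fun a => v a j k) (fun a => w a j k)

lemma ip3_S2 {U : Matrix (Fin 6) (Fin 6) ℝ} (hU : ONRows U) (v w : T3 ℝ) :
    ip3 (S2 U v) (S2 U w) = ip3 v w := by
  simp only [ip3]
  refine sum_congr rfl fun i _ => ?_
  rw [sum_comm]
  conv_rhs => rw [sum_comm]
  refine sum_congr rfl fun k _ => ?_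
  exact slot_iso hU (fun a => v i a k) (fun a => w i a k)

lemma ip3_S3 {U : Matrix (Fin 6) (Fin 6) ℝ} (hU : ONRows U) (v w : T3 ℝ) :
    ip3 (S3 U v) (S3 U w) = ip3 v w := by
  simp only [ip3]
  refine sum_congr rfl fun i _ => sum_congr rfl fun j _ => ?_
  exact slot_iso hU (fun a => v i j a) (fun a => w i j a)

lemma ip3_rot {U : Matrix (Fin 6) (Fin 6) ℝ} (hU : ONRows U) (v w : T3 ℝ) :
    ip3 (rot U v) (rot U w) = ip3 v w := by
  rw [rot_eq, rot_eq, ip3_S1 hU, ip3_S2 hU, ip3_S3 hU]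

/-- The inner product of skew matrices, polarised: the tensor `K`. -/
def K4 (i j k l : Fin 6) : ℝ := dl i k * dl j l - dl i l * dl j k

lemma toSkew_skew (y : Pair → ℝ) : ∀ i j, toSkew y j i = -toSkew y i j := by
  intro i j
  unfold toSkew
  rcases lt_trichotomy i j with h | h | h
  · rw [dif_neg (not_lt.mpr h.le), dif_pos h, dif_pos h]
  · subst h; simp
  · rw [dif_pos h, dif_neg (not_lt.mpr h.le), dif_pos h]; ring

lemma toSkew_of_lt (y : Pair → ℝ) {i j : Fin 6} (h : i < j) : toSkew y i j = y ⟨(i, j), h⟩ := by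
  unfold toSkew; rw [dif_pos h]

lemma toSkew_add (y z : Pair → ℝ) : toSkew (y + z) = toSkew y + toSkew z := by
  funext i j
  unfold toSkew
  simp only [Pi.add_apply]
  split_ifs <;> simp <;> ring

/-- Two tensors, skew in the first two and in the last two indices, agree if they agree on
ordered pairs. -/
lemma skew4_ext {F G : Fin 6 → Fin 6 → Fin 6 → Fin 6 → ℝ} (hF1 : ∀ i j k l, F j i k l = -F i j k l)
    (hF2 : ∀ i j k l, F i j l k = -F i j k l) (hG1 : ∀ i j k l, G j i k l = -G i j k l)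
    (hG2 : ∀ i j k l, G i j l k = -G i j k l) (h : ∀ i j k l, i < j → k < l → F i j k l = G i j k l) :
    F = G := by
  have d1 : ∀ i k l, F i i k l = 0 := fun i k l => by have := hF1 i i k l; linarith
  have d2 : ∀ i j k, F i j k k = 0 := fun i j k => by have := hF2 i j k k; linarith
  have d3 : ∀ i k l, G i i k l = 0 := fun i k l => by have := hG1 i i k l; linarith
  have d4 : ∀ i j k, G i j k k = 0 := fun i j k => by have := hG2 i j k k; linarith
  funext i j k l
  rcases lt_trichotomy i j with h1 | h1 | h1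
  · rcases lt_trichotomy k l with h2 | h2 | h2
    · exact h i j k l h1 h2
    · subst h2; rw [d2, d4]
    · rw [hF2, hG2, h i j l k h1 h2]
  · subst h1; rw [d1, d3]
  · rcases lt_trichotomy k l with h2 | h2 | h2
    · rw [hF1, hG1, h j i k l h1 h2]
    · subst h2; rw [d2, d4]
    · rw [hF1, hG1, hF2, hG2, h j i l k h1 h2]

/-- weighted sums of products of skew matrices -/
lemma sum_toSkew {ι : Type*} [Fintype ι] (c : ι → ℝ) (u : ι → Pair → ℝ)
    (R : Fin 6 → Fin 6 → Fin 6 → Fin 6 → ℝ)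
    (hR1 : ∀ i j k l, R j i k l = -R i j k l) (hR2 : ∀ i j k l, R i j l k = -R i j k l)
    (h : ∀ p q : Pair, ∑ α, c α * (u α p * u α q) = R p.1.1 p.1.2 q.1.1 q.1.2) (i j k l : Fin 6) :
    ∑ α, c α * (toSkew (u α) i j * toSkew (u α) k l) = R i j k l := by
  have : (fun i j k l => ∑ α, c α * (toSkew (u α) i j * toSkew (u α) k l)) = R := by
    refine skew4_ext ?_ ?_ hR1 hR2 ?_
    · intro i j k l
      simp only [← sum_neg_distrib]
      exact sum_congr rfl fun α _ => by rw [toSkew_skew (u α) i j]; ring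
    · intro i j k l
      simp only [← sum_neg_distrib]
      exact sum_congr rfl fun α _ => by rw [toSkew_skew (u α) k l]; ring
    · intro i j k l h1 h2
      rw [← h ⟨(i, j), h1⟩ ⟨(k, l), h2⟩]
      exact sum_congr rfl fun α _ => by rw [toSkew_of_lt _ h1, toSkew_of_lt _ h2]
  exact congrFun (congrFun (congrFun (congrFun this i) j) k) l

/-- conjugated family -/
lemma sum_conj2 {ι : Type*} [Fintype ι] (c : ι → ℝ) (Y : ι → T2 ℝ)
    (R : Fin 6 → Fin 6 → Fin 6 → Fin 6 → ℝ) (U : Matrix (Fin 6) (Fin 6) ℝ)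
    (h : ∀ i j k l, ∑ α, c α * (Y α i j * Y α k l) = R i j k l) (i j k l : Fin 6) :
    ∑ α, c α * (conj2 U (Y α) i j * conj2 U (Y α) k l) =
      ∑ a, ∑ b, ∑ d, ∑ e, U i a * U j b * U k d * U l e * R a b d e := by
  have h1 : ∀ α, c α * (conj2 U (Y α) i j * conj2 U (Y α) k l) =
      ∑ a, ∑ b, ∑ d, ∑ e, U i a * U j b * U k d * U l e * (c α * (Y α a b * Y α d e)) := by
    intro α
    simp only [conj2]
    rw [sum_mul, mul_sum]
    refine sum_congr rfl fun a _ => ?_
    rw [sum_mul, mul_sum]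
    refine sum_congr rfl fun b _ => ?_
    rw [mul_sum, mul_sum]
    refine sum_congr rfl fun d _ => ?_
    rw [mul_sum, mul_sum]
    refine sum_congr rfl fun e _ => ?_
    ring
  simp only [h1]
  rw [sum_comm]
  refine sum_congr rfl fun a _ => ?_
  rw [sum_comm]
  refine sum_congr rfl fun b _ => ?_
  rw [sum_comm]
  refine sum_congr rfl fun d _ => ?_
  rw [sum_comm]
  refine sum_congr rfl fun e _ => ?_
  rw [← h, mul_sum]

end Pool.Agent.H83.Curv
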