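import Mathlib
import Pool.Agent.H83.Curv.Equiv

/-! The trace of the quadratic form `Y ↦ |Y·w|²`. -/

namespace Pool.Agent.H83.Curv

open Finset

lemma four {ι : Type*} [Fintype ι] (l1 l2 l3 l4 : ℝ) (f1 f2 f3 f4 : ι → ℝ)
    (h11 : ∑ α, f1 α * f1 α = 1) (h22 : ∑ α, f2 α * f2 α = 1) (h33 : ∑ α, f3 α * f3 α = 1)
    (h44 : ∑ α, f4 α * f4 α = 1)
    (h12 : ∑ α, f1 α * f2 α = 0) (h13 : ∑ α, f1 α * f3 α = 0) (h14 : ∑ α, f1 α * f4 α = 0)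
    (h23 : ∑ α, f2 α * f3 α = 0) (h24 : ∑ α, f2 α * f4 α = 0) (h34 : ∑ α, f3 α * f4 α = 0) :
    ∑ α, (l1 * f1 α + l2 * f2 α + l3 * f3 α + l4 * f4 α) ^ 2 =
      l1 ^ 2 + l2 ^ 2 + l3 ^ 2 + l4 ^ 2 := by
  have e : ∀ α, (l1 * f1 α + l2 * f2 α + l3 * f3 α + l4 * f4 α) ^ 2 =
      l1 ^ 2 * (f1 α * f1 α) + l2 ^ 2 * (f2 α * f2 α) + l3 ^ 2 * (f3 α * f3 α) +
      l4 ^ 2 * (f4 α * f4 α) + 2 * l1 * l2 * (f1 α * f2 α) + 2 * l1 * l3 * (f1 α * f3 α) +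
      2 * l1 * l4 * (f1 α * f4 α) + 2 * l2 * l3 * (f2 α * f3 α) + 2 * l2 * l4 * (f2 α * f4 α) +
      2 * l3 * l4 * (f3 α * f4 α) := fun α => by ring
  simp only [e, sum_add_distrib, ← mul_sum, h11, h22, h33, h44, h12, h13, h14, h23, h24, h34]
  ring

lemma three {ι : Type*} [Fintype ι] (l1 l2 l3 : ℝ) (f1 f2 f3 : ι → ℝ)
    (h11 : ∑ α, f1 α * f1 α = 1) (h22 : ∑ α, f2 α * f2 α = 1) (h33 : ∑ α, f3 α * f3 α = 1)
    (h12 : ∑ α, f1 α * f2 α = 0) (h13 : ∑ α, f1 α * f3 α = 0)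
    (h23 : ∑ α, f2 α * f3 α = 0) :
    ∑ α, (l1 * f1 α + l2 * f2 α + l3 * f3 α) ^ 2 = l1 ^ 2 + l2 ^ 2 + l3 ^ 2 := by
  have e : ∀ α, (l1 * f1 α + l2 * f2 α + l3 * f3 α) ^ 2 =
      l1 ^ 2 * (f1 α * f1 α) + l2 ^ 2 * (f2 α * f2 α) + l3 ^ 2 * (f3 α * f3 α) +
      2 * l1 * l2 * (f1 α * f2 α) + 2 * l1 * l3 * (f1 α * f3 α) +
      2 * l2 * l3 * (f2 α * f3 α) := fun α => by ring
  simp only [e, sum_add_distrib, ← mul_sum, h11, h22, h33, h12, h13, h23]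
  ring

/-- The trace of `Y ↦ |Y·w|²` over an orthonormal basis of skew matrices is `9 |w|²`. -/
theorem trace_nf {ι : Type*} [Fintype ι] {w : T3 ℝ} (h : NF w) (Y : ι → T2 ℝ)
    (hY : ∀ α i j, Y α j i = -Y α i j)
    (hK : ∀ i j k l, ∑ α, Y α i j * Y α k l = K4 i j k l) :
    ∑ α, ip3 (act3 (Y α) w) (act3 (Y α) w) = 54 * W8 w := by
  have k1 : ∀ i j, i ≠ j → ∑ α, Y α i j * Y α i j = 1 := by
    intro i j hij
    rw [hK]; simp [K4, dl, hij]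
  have k0 : ∀ i j k l, (i ≠ k ∨ j ≠ l) ∧ (i ≠ l ∨ j ≠ k) → ∑ α, Y α i j * Y α k l = 0 := by
    intro i j k l hh
    rw [hK]
    have a1 : dl i k * dl j l = 0 := by
      rcases hh.1 with h1 | h1 <;> simp [dl, h1]
    have a2 : dl i l * dl j k = 0 := by
      rcases hh.2 with h1 | h1 <;> simp [dl, h1]
    rw [K4, a1, a2, sub_zero]
  have t012 : ∑ α, act3 (Y α) w 0 1 2 ^ 2 =
      w 1 2 4 ^ 2 + w 0 2 4 ^ 2 + w 1 2 5 ^ 2 + w 0 2 5 ^ 2 := by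
    have e : ∀ α, act3 (Y α) w 0 1 2 ^ 2 =
        ((w 1 2 4) * Y α 0 4 + (-w 0 2 4) * Y α 1 4 + (w 1 2 5) * Y α 0 5 + (-w 0 2 5) * Y α 1 5) ^ 2 := by
      intro α; rw [comp012 h (hY α)]; ring
    rw [sum_congr rfl fun α _ => e α]
    refine (four (w 1 2 4) (-w 0 2 4) (w 1 2 5) (-w 0 2 5)
      (fun α => Y α 0 4) (fun α => Y α 1 4) (fun α => Y α 0 5) (fun α => Y α 1 5)
      (k1 0 4 (by decide)) (k1 1 4 (by decide)) (k1 0 5 (by decide)) (k1 1 5 (by decide)) (k0 0 4 1 4 (by decide)) (k0 0 4 0 5 (by decide)) (k0 0 4 1 5 (by decide)) (k0 1 4 0 5 (by decide)) (k0 1 4 1 5 (by decide)) (k0 0 5 1 5 (by decide))).trans (by ring)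
  have t013 : ∑ α, act3 (Y α) w 0 1 3 ^ 2 =
      w 1 3 4 ^ 2 + w 0 3 4 ^ 2 + w 1 3 5 ^ 2 + w 0 3 5 ^ 2 := by
    have e : ∀ α, act3 (Y α) w 0 1 3 ^ 2 =
        ((w 1 3 4) * Y α 0 4 + (-w 0 3 4) * Y α 1 4 + (w 1 3 5) * Y α 0 5 + (-w 0 3 5) * Y α 1 5) ^ 2 := by
      intro α; rw [comp013 h (hY α)]; ring
    rw [sum_congr rfl fun α _ => e α]
    refine (four (w 1 3 4) (-w 0 3 4) (w 1 3 5) (-w 0 3 5)
      (fun α => Y α 0 4) (fun α => Y α 1 4) (fun α => Y α 0 5) (fun α => Y α 1 5)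
      (k1 0 4 (by decide)) (k1 1 4 (by decide)) (k1 0 5 (by decide)) (k1 1 5 (by decide)) (k0 0 4 1 4 (by decide)) (k0 0 4 0 5 (by decide)) (k0 0 4 1 5 (by decide)) (k0 1 4 0 5 (by decide)) (k0 1 4 1 5 (by decide)) (k0 0 5 1 5 (by decide))).trans (by ring)
  have t014 : ∑ α, act3 (Y α) w 0 1 4 ^ 2 =
      w 1 2 4 ^ 2 + w 0 2 4 ^ 2 + w 1 3 4 ^ 2 + w 0 3 4 ^ 2 := by
    have e : ∀ α, act3 (Y α) w 0 1 4 ^ 2 =
        ((-w 1 2 4) * Y α 0 2 + (w 0 2 4) * Y α 1 2 + (-w 1 3 4) * Y α 0 3 + (w 0 3 4) * Y α 1 3) ^ 2 := by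
      intro α; rw [comp014 h (hY α)]; ring
    rw [sum_congr rfl fun α _ => e α]
    refine (four (-w 1 2 4) (w 0 2 4) (-w 1 3 4) (w 0 3 4)
      (fun α => Y α 0 2) (fun α => Y α 1 2) (fun α => Y α 0 3) (fun α => Y α 1 3)
      (k1 0 2 (by decide)) (k1 1 2 (by decide)) (k1 0 3 (by decide)) (k1 1 3 (by decide)) (k0 0 2 1 2 (by decide)) (k0 0 2 0 3 (by decide)) (k0 0 2 1 3 (by decide)) (k0 1 2 0 3 (by decide)) (k0 1 2 1 3 (by decide)) (k0 0 3 1 3 (by decide))).trans (by ring)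
  have t015 : ∑ α, act3 (Y α) w 0 1 5 ^ 2 =
      w 1 2 5 ^ 2 + w 0 2 5 ^ 2 + w 1 3 5 ^ 2 + w 0 3 5 ^ 2 := by
    have e : ∀ α, act3 (Y α) w 0 1 5 ^ 2 =
        ((-w 1 2 5) * Y α 0 2 + (w 0 2 5) * Y α 1 2 + (-w 1 3 5) * Y α 0 3 + (w 0 3 5) * Y α 1 3) ^ 2 := by
      intro α; rw [comp015 h (hY α)]; ring
    rw [sum_congr rfl fun α _ => e α]
    refine (four (-w 1 2 5) (w 0 2 5) (-w 1 3 5) (w 0 3 5)
      (fun α => Y α 0 2) (fun α => Y α 1 2) (fun α => Y α 0 3) (fun α => Y α 1 3)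
      (k1 0 2 (by decide)) (k1 1 2 (by decide)) (k1 0 3 (by decide)) (k1 1 3 (by decide)) (k0 0 2 1 2 (by decide)) (k0 0 2 0 3 (by decide)) (k0 0 2 1 3 (by decide)) (k0 1 2 0 3 (by decide)) (k0 1 2 1 3 (by decide)) (k0 0 3 1 3 (by decide))).trans (by ring)
  have t023 : ∑ α, act3 (Y α) w 0 2 3 ^ 2 =
      w 0 3 4 ^ 2 + w 0 2 4 ^ 2 + w 0 3 5 ^ 2 + w 0 2 5 ^ 2 := by
    have e : ∀ α, act3 (Y α) w 0 2 3 ^ 2 =
        ((-w 0 3 4) * Y α 2 4 + (w 0 2 4) * Y α 3 4 + (-w 0 3 5) * Y α 2 5 + (w 0 2 5) * Y α 3 5) ^ 2 := by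
      intro α; rw [comp023 h (hY α)]; ring
    rw [sum_congr rfl fun α _ => e α]
    refine (four (-w 0 3 4) (w 0 2 4) (-w 0 3 5) (w 0 2 5)
      (fun α => Y α 2 4) (fun α => Y α 3 4) (fun α => Y α 2 5) (fun α => Y α 3 5)
      (k1 2 4 (by decide)) (k1 3 4 (by decide)) (k1 2 5 (by decide)) (k1 3 5 (by decide)) (k0 2 4 3 4 (by decide)) (k0 2 4 2 5 (by decide)) (k0 2 4 3 5 (by decide)) (k0 3 4 2 5 (by decide)) (k0 3 4 3 5 (by decide)) (k0 2 5 3 5 (by decide))).trans (by ring)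
  have t024 : ∑ α, act3 (Y α) w 0 2 4 ^ 2 =
      w 1 2 4 ^ 2 + w 0 3 4 ^ 2 + w 0 2 5 ^ 2 := by
    have e : ∀ α, act3 (Y α) w 0 2 4 ^ 2 =
        ((w 1 2 4) * Y α 0 1 + (w 0 3 4) * Y α 2 3 + (w 0 2 5) * Y α 4 5) ^ 2 := by
      intro α; rw [comp024 h (hY α)]; ring
    rw [sum_congr rfl fun α _ => e α]
    refine (three (w 1 2 4) (w 0 3 4) (w 0 2 5)
      (fun α => Y α 0 1) (fun α => Y α 2 3) (fun α => Y α 4 5)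
      (k1 0 1 (by decide)) (k1 2 3 (by decide)) (k1 4 5 (by decide)) (k0 0 1 2 3 (by decide)) (k0 0 1 4 5 (by decide)) (k0 2 3 4 5 (by decide))).trans (by ring)
  have t025 : ∑ α, act3 (Y α) w 0 2 5 ^ 2 =
      w 1 2 5 ^ 2 + w 0 3 5 ^ 2 + w 0 2 4 ^ 2 := by
    have e : ∀ α, act3 (Y α) w 0 2 5 ^ 2 =
        ((w 1 2 5) * Y α 0 1 + (w 0 3 5) * Y α 2 3 + (-w 0 2 4) * Y α 4 5) ^ 2 := by
      intro α; rw [comp025 h (hY α)]; ring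
    rw [sum_congr rfl fun α _ => e α]
    refine (three (w 1 2 5) (w 0 3 5) (-w 0 2 4)
      (fun α => Y α 0 1) (fun α => Y α 2 3) (fun α => Y α 4 5)
      (k1 0 1 (by decide)) (k1 2 3 (by decide)) (k1 4 5 (by decide)) (k0 0 1 2 3 (by decide)) (k0 0 1 4 5 (by decide)) (k0 2 3 4 5 (by decide))).trans (by ring)
  have t034 : ∑ α, act3 (Y α) w 0 3 4 ^ 2 =
      w 1 3 4 ^ 2 + w 0 2 4 ^ 2 + w 0 3 5 ^ 2 := by
    have e : ∀ α, act3 (Y α) w 0 3 4 ^ 2 =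
        ((w 1 3 4) * Y α 0 1 + (-w 0 2 4) * Y α 2 3 + (w 0 3 5) * Y α 4 5) ^ 2 := by
      intro α; rw [comp034 h (hY α)]; ring
    rw [sum_congr rfl fun α _ => e α]
    refine (three (w 1 3 4) (-w 0 2 4) (w 0 3 5)
      (fun α => Y α 0 1) (fun α => Y α 2 3) (fun α => Y α 4 5)
      (k1 0 1 (by decide)) (k1 2 3 (by decide)) (k1 4 5 (by decide)) (k0 0 1 2 3 (by decide)) (k0 0 1 4 5 (by decide)) (k0 2 3 4 5 (by decide))).trans (by ring)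
  have t035 : ∑ α, act3 (Y α) w 0 3 5 ^ 2 =
      w 1 3 5 ^ 2 + w 0 2 5 ^ 2 + w 0 3 4 ^ 2 := by
    have e : ∀ α, act3 (Y α) w 0 3 5 ^ 2 =
        ((w 1 3 5) * Y α 0 1 + (-w 0 2 5) * Y α 2 3 + (-w 0 3 4) * Y α 4 5) ^ 2 := by
      intro α; rw [comp035 h (hY α)]; ring
    rw [sum_congr rfl fun α _ => e α]
    refine (three (w 1 3 5) (-w 0 2 5) (-w 0 3 4)
      (fun α => Y α 0 1) (fun α => Y α 2 3) (fun α => Y α 4 5)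
      (k1 0 1 (by decide)) (k1 2 3 (by decide)) (k1 4 5 (by decide)) (k0 0 1 2 3 (by decide)) (k0 0 1 4 5 (by decide)) (k0 2 3 4 5 (by decide))).trans (by ring)
  have t045 : ∑ α, act3 (Y α) w 0 4 5 ^ 2 =
      w 0 2 5 ^ 2 + w 0 2 4 ^ 2 + w 0 3 5 ^ 2 + w 0 3 4 ^ 2 := by
    have e : ∀ α, act3 (Y α) w 0 4 5 ^ 2 =
        ((-w 0 2 5) * Y α 2 4 + (w 0 2 4) * Y α 2 5 + (-w 0 3 5) * Y α 3 4 + (w 0 3 4) * Y α 3 5) ^ 2 := by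
      intro α; rw [comp045 h (hY α)]; ring
    rw [sum_congr rfl fun α _ => e α]
    refine (four (-w 0 2 5) (w 0 2 4) (-w 0 3 5) (w 0 3 4)
      (fun α => Y α 2 4) (fun α => Y α 2 5) (fun α => Y α 3 4) (fun α => Y α 3 5)
      (k1 2 4 (by decide)) (k1 2 5 (by decide)) (k1 3 4 (by decide)) (k1 3 5 (by decide)) (k0 2 4 2 5 (by decide)) (k0 2 4 3 4 (by decide)) (k0 2 4 3 5 (by decide)) (k0 2 5 3 4 (by decide)) (k0 2 5 3 5 (by decide)) (k0 3 4 3 5 (by decide))).trans (by ring)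
  have t123 : ∑ α, act3 (Y α) w 1 2 3 ^ 2 =
      w 1 3 4 ^ 2 + w 1 2 4 ^ 2 + w 1 3 5 ^ 2 + w 1 2 5 ^ 2 := by
    have e : ∀ α, act3 (Y α) w 1 2 3 ^ 2 =
        ((-w 1 3 4) * Y α 2 4 + (w 1 2 4) * Y α 3 4 + (-w 1 3 5) * Y α 2 5 + (w 1 2 5) * Y α 3 5) ^ 2 := by
      intro α; rw [comp123 h (hY α)]; ring
    rw [sum_congr rfl fun α _ => e α]
    refine (four (-w 1 3 4) (w 1 2 4) (-w 1 3 5) (w 1 2 5)
      (fun α => Y α 2 4) (fun α => Y α 3 4) (fun α => Y α 2 5) (fun α => Y α 3 5)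
      (k1 2 4 (by decide)) (k1 3 4 (by decide)) (k1 2 5 (by decide)) (k1 3 5 (by decide)) (k0 2 4 3 4 (by decide)) (k0 2 4 2 5 (by decide)) (k0 2 4 3 5 (by decide)) (k0 3 4 2 5 (by decide)) (k0 3 4 3 5 (by decide)) (k0 2 5 3 5 (by decide))).trans (by ring)
  have t124 : ∑ α, act3 (Y α) w 1 2 4 ^ 2 =
      w 0 2 4 ^ 2 + w 1 3 4 ^ 2 + w 1 2 5 ^ 2 := by
    have e : ∀ α, act3 (Y α) w 1 2 4 ^ 2 =
        ((-w 0 2 4) * Y α 0 1 + (w 1 3 4) * Y α 2 3 + (w 1 2 5) * Y α 4 5) ^ 2 := by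
      intro α; rw [comp124 h (hY α)]; ring
    rw [sum_congr rfl fun α _ => e α]
    refine (three (-w 0 2 4) (w 1 3 4) (w 1 2 5)
      (fun α => Y α 0 1) (fun α => Y α 2 3) (fun α => Y α 4 5)
      (k1 0 1 (by decide)) (k1 2 3 (by decide)) (k1 4 5 (by decide)) (k0 0 1 2 3 (by decide)) (k0 0 1 4 5 (by decide)) (k0 2 3 4 5 (by decide))).trans (by ring)
  have t125 : ∑ α, act3 (Y α) w 1 2 5 ^ 2 =
      w 0 2 5 ^ 2 + w 1 3 5 ^ 2 + w 1 2 4 ^ 2 := by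
    have e : ∀ α, act3 (Y α) w 1 2 5 ^ 2 =
        ((-w 0 2 5) * Y α 0 1 + (w 1 3 5) * Y α 2 3 + (-w 1 2 4) * Y α 4 5) ^ 2 := by
      intro α; rw [comp125 h (hY α)]; ring
    rw [sum_congr rfl fun α _ => e α]
    refine (three (-w 0 2 5) (w 1 3 5) (-w 1 2 4)
      (fun α => Y α 0 1) (fun α => Y α 2 3) (fun α => Y α 4 5)
      (k1 0 1 (by decide)) (k1 2 3 (by decide)) (k1 4 5 (by decide)) (k0 0 1 2 3 (by decide)) (k0 0 1 4 5 (by decide)) (k0 2 3 4 5 (by decide))).trans (by ring)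
  have t134 : ∑ α, act3 (Y α) w 1 3 4 ^ 2 =
      w 0 3 4 ^ 2 + w 1 2 4 ^ 2 + w 1 3 5 ^ 2 := by
    have e : ∀ α, act3 (Y α) w 1 3 4 ^ 2 =
        ((-w 0 3 4) * Y α 0 1 + (-w 1 2 4) * Y α 2 3 + (w 1 3 5) * Y α 4 5) ^ 2 := by
      intro α; rw [comp134 h (hY α)]; ring
    rw [sum_congr rfl fun α _ => e α]
    refine (three (-w 0 3 4) (-w 1 2 4) (w 1 3 5)
      (fun α => Y α 0 1) (fun α => Y α 2 3) (fun α => Y α 4 5)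
      (k1 0 1 (by decide)) (k1 2 3 (by decide)) (k1 4 5 (by decide)) (k0 0 1 2 3 (by decide)) (k0 0 1 4 5 (by decide)) (k0 2 3 4 5 (by decide))).trans (by ring)
  have t135 : ∑ α, act3 (Y α) w 1 3 5 ^ 2 =
      w 0 3 5 ^ 2 + w 1 2 5 ^ 2 + w 1 3 4 ^ 2 := by
    have e : ∀ α, act3 (Y α) w 1 3 5 ^ 2 =
        ((-w 0 3 5) * Y α 0 1 + (-w 1 2 5) * Y α 2 3 + (-w 1 3 4) * Y α 4 5) ^ 2 := by
      intro α; rw [comp135 h (hY α)]; ring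
    rw [sum_congr rfl fun α _ => e α]
    refine (three (-w 0 3 5) (-w 1 2 5) (-w 1 3 4)
      (fun α => Y α 0 1) (fun α => Y α 2 3) (fun α => Y α 4 5)
      (k1 0 1 (by decide)) (k1 2 3 (by decide)) (k1 4 5 (by decide)) (k0 0 1 2 3 (by decide)) (k0 0 1 4 5 (by decide)) (k0 2 3 4 5 (by decide))).trans (by ring)
  have t145 : ∑ α, act3 (Y α) w 1 4 5 ^ 2 =
      w 1 2 5 ^ 2 + w 1 2 4 ^ 2 + w 1 3 5 ^ 2 + w 1 3 4 ^ 2 := by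
    have e : ∀ α, act3 (Y α) w 1 4 5 ^ 2 =
        ((-w 1 2 5) * Y α 2 4 + (w 1 2 4) * Y α 2 5 + (-w 1 3 5) * Y α 3 4 + (w 1 3 4) * Y α 3 5) ^ 2 := by
      intro α; rw [comp145 h (hY α)]; ring
    rw [sum_congr rfl fun α _ => e α]
    refine (four (-w 1 2 5) (w 1 2 4) (-w 1 3 5) (w 1 3 4)
      (fun α => Y α 2 4) (fun α => Y α 2 5) (fun α => Y α 3 4) (fun α => Y α 3 5)
      (k1 2 4 (by decide)) (k1 2 5 (by decide)) (k1 3 4 (by decide)) (k1 3 5 (by decide)) (k0 2 4 2 5 (by decide)) (k0 2 4 3 4 (by decide)) (k0 2 4 3 5 (by decide)) (k0 2 5 3 4 (by decide)) (k0 2 5 3 5 (by decide)) (k0 3 4 3 5 (by decide))).trans (by ring)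
  have t234 : ∑ α, act3 (Y α) w 2 3 4 ^ 2 =
      w 0 3 4 ^ 2 + w 0 2 4 ^ 2 + w 1 3 4 ^ 2 + w 1 2 4 ^ 2 := by
    have e : ∀ α, act3 (Y α) w 2 3 4 ^ 2 =
        ((-w 0 3 4) * Y α 0 2 + (w 0 2 4) * Y α 0 3 + (-w 1 3 4) * Y α 1 2 + (w 1 2 4) * Y α 1 3) ^ 2 := by
      intro α; rw [comp234 h (hY α)]; ring
    rw [sum_congr rfl fun α _ => e α]
    refine (four (-w 0 3 4) (w 0 2 4) (-w 1 3 4) (w 1 2 4)
      (fun α => Y α 0 2) (fun α => Y α 0 3) (fun α => Y α 1 2) (fun α => Y α 1 3)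
      (k1 0 2 (by decide)) (k1 0 3 (by decide)) (k1 1 2 (by decide)) (k1 1 3 (by decide)) (k0 0 2 0 3 (by decide)) (k0 0 2 1 2 (by decide)) (k0 0 2 1 3 (by decide)) (k0 0 3 1 2 (by decide)) (k0 0 3 1 3 (by decide)) (k0 1 2 1 3 (by decide))).trans (by ring)
  have t235 : ∑ α, act3 (Y α) w 2 3 5 ^ 2 =
      w 0 3 5 ^ 2 + w 0 2 5 ^ 2 + w 1 3 5 ^ 2 + w 1 2 5 ^ 2 := by
    have e : ∀ α, act3 (Y α) w 2 3 5 ^ 2 =
        ((-w 0 3 5) * Y α 0 2 + (w 0 2 5) * Y α 0 3 + (-w 1 3 5) * Y α 1 2 + (w 1 2 5) * Y α 1 3) ^ 2 := by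
      intro α; rw [comp235 h (hY α)]; ring
    rw [sum_congr rfl fun α _ => e α]
    refine (four (-w 0 3 5) (w 0 2 5) (-w 1 3 5) (w 1 2 5)
      (fun α => Y α 0 2) (fun α => Y α 0 3) (fun α => Y α 1 2) (fun α => Y α 1 3)
      (k1 0 2 (by decide)) (k1 0 3 (by decide)) (k1 1 2 (by decide)) (k1 1 3 (by decide)) (k0 0 2 0 3 (by decide)) (k0 0 2 1 2 (by decide)) (k0 0 2 1 3 (by decide)) (k0 0 3 1 2 (by decide)) (k0 0 3 1 3 (by decide)) (k0 1 2 1 3 (by decide))).trans (by ring)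
  have t245 : ∑ α, act3 (Y α) w 2 4 5 ^ 2 =
      w 0 2 5 ^ 2 + w 0 2 4 ^ 2 + w 1 2 5 ^ 2 + w 1 2 4 ^ 2 := by
    have e : ∀ α, act3 (Y α) w 2 4 5 ^ 2 =
        ((w 0 2 5) * Y α 0 4 + (-w 0 2 4) * Y α 0 5 + (w 1 2 5) * Y α 1 4 + (-w 1 2 4) * Y α 1 5) ^ 2 := by
      intro α; rw [comp245 h (hY α)]; ring
    rw [sum_congr rfl fun α _ => e α]
    refine (four (w 0 2 5) (-w 0 2 4) (w 1 2 5) (-w 1 2 4)
      (fun α => Y α 0 4) (fun α => Y α 0 5) (fun α => Y α 1 4) (fun α => Y α 1 5)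
      (k1 0 4 (by decide)) (k1 0 5 (by decide)) (k1 1 4 (by decide)) (k1 1 5 (by decide)) (k0 0 4 0 5 (by decide)) (k0 0 4 1 4 (by decide)) (k0 0 4 1 5 (by decide)) (k0 0 5 1 4 (by decide)) (k0 0 5 1 5 (by decide)) (k0 1 4 1 5 (by decide))).trans (by ring)
  have t345 : ∑ α, act3 (Y α) w 3 4 5 ^ 2 =
      w 0 3 5 ^ 2 + w 0 3 4 ^ 2 + w 1 3 5 ^ 2 + w 1 3 4 ^ 2 := by
    have e : ∀ α, act3 (Y α) w 3 4 5 ^ 2 =
        ((w 0 3 5) * Y α 0 4 + (-w 0 3 4) * Y α 0 5 + (w 1 3 5) * Y α 1 4 + (-w 1 3 4) * Y α 1 5) ^ 2 := by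
      intro α; rw [comp345 h (hY α)]; ring
    rw [sum_congr rfl fun α _ => e α]
    refine (four (w 0 3 5) (-w 0 3 4) (w 1 3 5) (-w 1 3 4)
      (fun α => Y α 0 4) (fun α => Y α 0 5) (fun α => Y α 1 4) (fun α => Y α 1 5)
      (k1 0 4 (by decide)) (k1 0 5 (by decide)) (k1 1 4 (by decide)) (k1 1 5 (by decide)) (k0 0 4 0 5 (by decide)) (k0 0 4 1 4 (by decide)) (k0 0 4 1 5 (by decide)) (k0 0 5 1 4 (by decide)) (k0 0 5 1 5 (by decide)) (k0 1 4 1 5 (by decide))).trans (by ring)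
  have hN : ∀ α, ip3 (act3 (Y α) w) (act3 (Y α) w) = 6 * (act3 (Y α) w 0 1 2 ^ 2 + act3 (Y α) w 0 1 3 ^ 2 + act3 (Y α) w 0 1 4 ^ 2 + act3 (Y α) w 0 1 5 ^ 2 + act3 (Y α) w 0 2 3 ^ 2 + act3 (Y α) w 0 2 4 ^ 2 + act3 (Y α) w 0 2 5 ^ 2 + act3 (Y α) w 0 3 4 ^ 2 + act3 (Y α) w 0 3 5 ^ 2 + act3 (Y α) w 0 4 5 ^ 2 + act3 (Y α) w 1 2 3 ^ 2 + act3 (Y α) w 1 2 4 ^ 2 + act3 (Y α) w 1 2 5 ^ 2 + act3 (Y α) w 1 3 4 ^ 2 + act3 (Y α) w 1 3 5 ^ 2 + act3 (Y α) w 1 4 5 ^ 2 + act3 (Y α) w 2 3 4 ^ 2 + act3 (Y α) w 2 3 5 ^ 2 + act3 (Y α) w 2 4 5 ^ 2 + act3 (Y α) w 3 4 5 ^ 2) := by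
    intro α
    rw [ip3_alt (act3_alt h.alt) (act3_alt h.alt)]; ring
  simp only [hN, ← mul_sum, sum_add_distrib]
  rw [t012, t013, t014, t015, t023, t024, t025, t034, t035, t045, t123, t124, t125, t134, t135, t145, t234, t235, t245, t345, W8]
  ring

end Pool.Agent.H83.Curv
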