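import Mathlib
import Pool.Agent.H83.Curv.Trace

/-! The algebraic inequality: a 4-positive curvature tensor on `ℝ⁶` acts positively on 3-forms. -/

namespace Pool.Agent.H83.Curv

open Finset

/-- Weights bounded by `μ` of total mass at least `k μ`, against numbers all of whose `k`-element
sums are positive. -/
theorem weighted_pos {ι : Type*} [Fintype ι] [DecidableEq ι] {k : ℕ} (hcard : k ≤ Fintype.card ι)
    (r p : ι → ℝ) {μ : ℝ} (hμ : 0 < μ) (hp0 : ∀ α, 0 ≤ p α) (hp1 : ∀ α, p α ≤ μ)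
    (hsum : k * μ ≤ ∑ α, p α) (hr : ∀ S : Finset ι, S.card = k → 0 < ∑ α ∈ S, r α) :
    0 < ∑ α, p α * r α := by
  obtain ⟨S, hS, hmin⟩ := exists_min_image ((univ : Finset ι).powersetCard k)
    (fun S => ∑ α ∈ S, r α) (powersetCard_nonempty.mpr (by simpa using hcard))
  rw [mem_powersetCard] at hS
  have hScard := hS.2
  have hSpos := hr S hScard
  have hSne : S.Nonempty := by
    by_contra h
    rw [not_nonempty_iff_eq_empty] at h
    rw [h, sum_empty] at hSpos
    exact lt_irrefl _ hSpos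
  obtain ⟨m, hmS, hmax⟩ := exists_max_image S r hSne
  have hm : ∀ α, α ∉ S → r m ≤ r α := by
    intro α hα
    have h1 := hmin (insert α (S.erase m)) (by
      rw [mem_powersetCard]
      refine ⟨subset_univ _, ?_⟩
      rw [card_insert_of_notMem (by simp [hα]), card_erase_of_mem hmS, hScard]
      have : 0 < k := by rw [← hScard]; exact card_pos.mpr hSne
      omega)
    rw [sum_insert (by simp [hα])] at h1
    have h2 := add_sum_erase S r hmS
    linarith
  have hmpos : 0 < r m := by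
    by_contra h
    rw [not_lt] at h
    have : ∑ α ∈ S, r α ≤ 0 := sum_nonpos fun α hα => (hmax α hα).trans h
    linarith
  have hsplit : ∀ f : ι → ℝ, ∑ α, f α = ∑ α ∈ S, f α + ∑ α ∈ univ \ S, f α := by
    intro f
    rw [add_comm]
    exact (sum_sdiff (subset_univ S)).symm
  have h1 : r m * ∑ α ∈ univ \ S, p α ≤ ∑ α ∈ univ \ S, p α * r α := by
    rw [mul_sum]
    refine sum_le_sum fun α hα => ?_
    rw [mem_sdiff] at hα
    nlinarith [hm α hα.2, hp0 α]
  have h2 : ∑ α ∈ S, (μ - p α) ≤ ∑ α ∈ univ \ S, p α := by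
    rw [sum_sub_distrib, sum_const, nsmul_eq_mul, hScard]
    have := hsplit p
    linarith
  have h3 : ∑ α ∈ S, (μ - p α) * r α ≤ r m * ∑ α ∈ S, (μ - p α) := by
    rw [mul_sum]
    refine sum_le_sum fun α hα => ?_
    nlinarith [hmax α hα, hp1 α]
  have h4 : ∑ α ∈ S, (μ - p α) * r α = μ * ∑ α ∈ S, r α - ∑ α ∈ S, p α * r α := by
    rw [mul_sum, ← sum_sub_distrib]
    exact sum_congr rfl fun α _ => by ring
  have h5 : 0 < μ * ∑ α ∈ S, r α := mul_pos hμ hSpos
  rw [hsplit]
  nlinarith [mul_le_mul_of_nonneg_left h2 hmpos.le]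

/-- The symmetries of a curvature tensor. -/
structure IsCurv (R : Fin 6 → Fin 6 → Fin 6 → Fin 6 → ℝ) : Prop where
  skew1 : ∀ i j k l, R j i k l = -R i j k l
  skew2 : ∀ i j k l, R i j l k = -R i j k l
  pair : ∀ i j k l, R k l i j = R i j k l
  bianchi : ∀ i j k l, R i j k l + R j k i l + R k i j l = 0

/-- Positivity of the sum of the four smallest eigenvalues of the curvature operator. -/
def FourPos (R : Fin 6 → Fin 6 → Fin 6 → Fin 6 → ℝ) : Prop :=
  ∀ v : Fin 4 → Pair → ℝ, (∀ i j, ∑ p, v i p * v j p = if i = j then 1 else 0) →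
    0 < ∑ i, ∑ p : Pair, ∑ q : Pair, v i p * R p.1.1 p.1.2 q.1.1 q.1.2 * v i q

/-- elementary skew matrices -/
def Ep (p : Pair) : T2 ℝ := toSkew (Pi.single p 1)

/-- The curvature term of the Weitzenböck formula. -/
def curvTerm (R : Fin 6 → Fin 6 → Fin 6 → Fin 6 → ℝ) (w : T3 ℝ) : ℝ :=
  ∑ p : Pair, ∑ q : Pair, R p.1.1 p.1.2 q.1.1 q.1.2 * ip3 (act3 (Ep p) w) (act3 (Ep q) w)

lemma toSkew_eq_sum (y : Pair → ℝ) (i j : Fin 6) : toSkew y i j = ∑ p, y p * Ep p i j := by
  rcases lt_trichotomy i j with h | h | h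
  · simp only [Ep, toSkew_of_lt _ h]
    rw [Finset.sum_eq_single ⟨(i, j), h⟩]
    · simp
    · intro b _ hb
      rw [Pi.single_eq_of_ne (Ne.symm hb), mul_zero]
    · simp
  · subst h
    have : ∀ y : Pair → ℝ, toSkew y i i = 0 := fun y => by
      have := toSkew_skew y i i; linarith
    simp [Ep, this]
  · simp only [Ep]
    rw [toSkew_skew y j i, sum_congr rfl fun p _ => by rw [toSkew_skew (Pi.single p 1) j i]]
    simp only [toSkew_of_lt _ h]
    rw [Finset.sum_eq_single ⟨(j, i), h⟩]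
    · simp
    · intro b _ hb
      rw [Pi.single_eq_of_ne (Ne.symm hb)]; simp
    · simp

lemma act3_toSkew (y : Pair → ℝ) (w : T3 ℝ) :
    act3 (toSkew y) w = fun i j k => ∑ p, y p * act3 (Ep p) w i j k := by
  funext i j k
  simp only [act3, toSkew_eq_sum y, mul_sum]
  rw [sum_comm]
  refine sum_congr rfl fun e _ => ?_
  simp only [sum_mul, ← sum_add_distrib]
  refine sum_congr rfl fun p _ => ?_
  ring

lemma ip3_sum {ι κ : Type*} [Fintype ι] [Fintype κ] (a : ι → ℝ) (b : κ → ℝ) (f : ι → T3 ℝ)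
    (g : κ → T3 ℝ) : ip3 (fun i j k => ∑ p, a p * f p i j k) (fun i j k => ∑ q, b q * g q i j k) =
      ∑ p, ∑ q, a p * b q * ip3 (f p) (g q) := by
  have h : ∀ i j k, (∑ p, a p * f p i j k) * (∑ q, b q * g q i j k) =
      ∑ p, ∑ q, a p * b q * (f p i j k * g q i j k) := by
    intro i j k
    rw [sum_mul_sum]
    exact sum_congr rfl fun p _ => sum_congr rfl fun q _ => by ring
  simp only [ip3, h]
  have e1 : ∀ (F : Fin 6 → ι → ℝ), ∑ k, ∑ p, F k p = ∑ p, ∑ k, F k p := fun F => sum_comm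
  have e2 : ∀ (F : Fin 6 → κ → ℝ), ∑ k, ∑ p, F k p = ∑ p, ∑ k, F k p := fun F => sum_comm
  simp only [mul_sum]
  simp only [e1, e2]

/-- spectral decomposition of a symmetric real matrix, in coordinates -/
lemma spectral {n : Type*} [Fintype n] [DecidableEq n] (A : Matrix n n ℝ)
    (hA : ∀ p q, A p q = A q p) :
    ∃ (l : n → ℝ) (u : n → n → ℝ), (∀ p q, ∑ α, l α * (u α p * u α q) = A p q) ∧
      (∀ p q, ∑ α, u α p * u α q = if p = q then 1 else 0) ∧
      (∀ α β, ∑ p, u α p * u β p = if α = β then 1 else 0) := by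
  have hA' : A.IsHermitian := by
    ext p q
    simp [Matrix.conjTranspose_apply, hA p q]
  have hs := hA'.spectral_theorem
  set V : Matrix n n ℝ := (hA'.eigenvectorUnitary : Matrix n n ℝ) with hV
  have hV1 : V * star V = 1 := Matrix.mem_unitaryGroup_iff.mp hA'.eigenvectorUnitary.2
  have hV2 : star V * V = 1 := Matrix.mem_unitaryGroup_iff'.mp hA'.eigenvectorUnitary.2
  refine ⟨hA'.eigenvalues, fun α p => V p α, ?_, ?_, ?_⟩
  · intro p q
    have h1 : A = V * Matrix.diagonal hA'.eigenvalues * star V := by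
      conv_lhs => rw [hs]
      rfl
    have h2 := congrFun (congrFun h1 p) q
    rw [Matrix.mul_apply] at h2
    rw [h2]
    refine sum_congr rfl fun α _ => ?_
    rw [Matrix.mul_diagonal, Matrix.star_apply, star_trivial]
    ring
  · intro p q
    have := congrFun (congrFun hV1 p) q
    rw [Matrix.mul_apply, Matrix.one_apply] at this
    rw [← this]
    exact sum_congr rfl fun α _ => by rw [Matrix.star_apply, star_trivial]
  · intro α β
    have := congrFun (congrFun hV2 α) β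
    rw [Matrix.mul_apply, Matrix.one_apply] at this
    rw [← this]
    exact sum_congr rfl fun p _ => by rw [Matrix.star_apply, star_trivial]

lemma K4_conj {U : Matrix (Fin 6) (Fin 6) ℝ} (hU : ONRows U) (i j k l : Fin 6) :
    ∑ a, ∑ b, ∑ d, ∑ e, U i a * U j b * U k d * U l e * K4 a b d e = K4 i j k l := by
  have h1 : ∀ a b, ∑ d, ∑ e, U i a * U j b * U k d * U l e * K4 a b d e =
      (U i a * U k a) * (U j b * U l b) - (U i a * U l a) * (U j b * U k b) := by
    intro a b
    have h2 : ∀ d e, U i a * U j b * U k d * U l e * K4 a b d e =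
        dl a d * (dl b e * (U i a * U j b * U k d * U l e)) -
        dl b d * (dl a e * (U i a * U j b * U k d * U l e)) := by
      intro d e; rw [K4]; ring
    simp only [h2, sum_sub_distrib, ← mul_sum, sum_dl]
    ring
  simp only [h1, sum_sub_distrib, ← mul_sum, ← sum_mul, hU.rows]
  rw [K4]

lemma K4_pair (p q : Pair) : K4 p.1.1 p.1.2 q.1.1 q.1.2 = if p = q then 1 else 0 := by
  have h2 : dl p.1.1 q.1.2 * dl p.1.2 q.1.1 = 0 := by
    by_cases h1 : p.1.1 = q.1.2
    · have h3 : p.1.2 ≠ q.1.1 := by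
        intro h
        have hp := p.2
        have hq := q.2
        rw [h1, h] at hp
        exact lt_asymm hp hq
      rw [dl, dl, if_neg h3, mul_zero]
    · rw [dl, if_neg h1, zero_mul]
  rw [K4, h2, sub_zero]
  by_cases h : p = q
  · subst h; simp [dl]
  · rw [if_neg h]
    by_cases h1 : p.1.1 = q.1.1
    · have h3 : p.1.2 ≠ q.1.2 := fun h3 => h (Subtype.ext (Prod.ext h1 h3))
      rw [dl, dl, if_neg h3, mul_zero]
    · rw [dl, if_neg h1, zero_mul]

lemma bianchi_conj {R : Fin 6 → Fin 6 → Fin 6 → Fin 6 → ℝ} (hR : IsCurv R)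
    (U : Matrix (Fin 6) (Fin 6) ℝ) (i j k l : Fin 6) :
    (∑ a, ∑ b, ∑ d, ∑ e, U i a * U j b * U k d * U l e * R a b d e) -
    (∑ a, ∑ b, ∑ d, ∑ e, U i a * U k b * U j d * U l e * R a b d e) +
    (∑ a, ∑ b, ∑ d, ∑ e, U i a * U l b * U j d * U k e * R a b d e) = 0 := by
  have h2 : (∑ a, ∑ b, ∑ d, ∑ e, U i a * U k b * U j d * U l e * R a b d e) =
      ∑ a, ∑ b, ∑ d, ∑ e, U i a * U j b * U k d * U l e * R a d b e := by
    refine sum_congr rfl fun a _ => ?_
    rw [sum_comm]
    refine sum_congr rfl fun b _ => sum_congr rfl fun d _ => sum_congr rfl fun e _ => ?_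
    ring
  have h3 : (∑ a, ∑ b, ∑ d, ∑ e, U i a * U l b * U j d * U k e * R a b d e) =
      ∑ a, ∑ b, ∑ d, ∑ e, U i a * U j b * U k d * U l e * R a e b d := by
    refine sum_congr rfl fun a _ => ?_
    have : ∀ F : Fin 6 → Fin 6 → Fin 6 → ℝ, ∑ b, ∑ d, ∑ e, F b d e = ∑ d, ∑ e, ∑ b, F b d e := by
      intro F
      rw [sum_comm]
      exact sum_congr rfl fun _ _ => sum_comm
    rw [this]
    refine sum_congr rfl fun b _ => sum_congr rfl fun d _ => sum_congr rfl fun e _ => ?_
    ring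
  rw [h2, h3, ← sum_sub_distrib, ← sum_add_distrib]
  refine sum_eq_zero fun a _ => ?_
  rw [← sum_sub_distrib, ← sum_add_distrib]
  refine sum_eq_zero fun b _ => ?_
  rw [← sum_sub_distrib, ← sum_add_distrib]
  refine sum_eq_zero fun d _ => ?_
  rw [← sum_sub_distrib, ← sum_add_distrib]
  refine sum_eq_zero fun e _ => ?_
  have h := hR.bianchi a b d e
  -- `R a b d e - R a d b e + R a e b d = 0`
  have e1 : R a d b e = -R d a b e := hR.skew1 d a b e
  have e2 : R a e b d = R b d a e := hR.pair b d a e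
  rw [e1, e2]
  linear_combination (U i a * U j b * U k d * U l e) * h

lemma sum_pair (f : Pair → ℝ) : ∑ p, f p =
    f ⟨(0, 1), by decide⟩ + f ⟨(0, 2), by decide⟩ + f ⟨(0, 3), by decide⟩ +
    f ⟨(0, 4), by decide⟩ + f ⟨(0, 5), by decide⟩ + f ⟨(1, 2), by decide⟩ +
    f ⟨(1, 3), by decide⟩ + f ⟨(1, 4), by decide⟩ + f ⟨(1, 5), by decide⟩ +
    f ⟨(2, 3), by decide⟩ + f ⟨(2, 4), by decide⟩ + f ⟨(2, 5), by decide⟩ +
    f ⟨(3, 4), by decide⟩ + f ⟨(3, 5), by decide⟩ + f ⟨(4, 5), by decide⟩ := by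
  have : (Finset.univ : Finset Pair) = {⟨(0, 1), by decide⟩, ⟨(0, 2), by decide⟩,
      ⟨(0, 3), by decide⟩, ⟨(0, 4), by decide⟩, ⟨(0, 5), by decide⟩, ⟨(1, 2), by decide⟩,
      ⟨(1, 3), by decide⟩, ⟨(1, 4), by decide⟩, ⟨(1, 5), by decide⟩, ⟨(2, 3), by decide⟩,
      ⟨(2, 4), by decide⟩, ⟨(2, 5), by decide⟩, ⟨(3, 4), by decide⟩, ⟨(3, 5), by decide⟩,
      ⟨(4, 5), by decide⟩} := by decide
  rw [this]
  rw [Finset.sum_insert (by decide), Finset.sum_insert (by decide), Finset.sum_insert (by decide),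
    Finset.sum_insert (by decide), Finset.sum_insert (by decide), Finset.sum_insert (by decide),
    Finset.sum_insert (by decide), Finset.sum_insert (by decide), Finset.sum_insert (by decide),
    Finset.sum_insert (by decide), Finset.sum_insert (by decide), Finset.sum_insert (by decide),
    Finset.sum_insert (by decide), Finset.sum_insert (by decide), Finset.sum_singleton]
  ring

lemma nsq_toSkew (y : Pair → ℝ) : nsq (toSkew y) = ∑ p, y p * y p := by
  rw [sum_pair, nsq]
  rw [toSkew_of_lt y (show (0 : Fin 6) < 1 by decide), toSkew_of_lt y (show (0 : Fin 6) < 2 by decide),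
    toSkew_of_lt y (show (0 : Fin 6) < 3 by decide), toSkew_of_lt y (show (0 : Fin 6) < 4 by decide),
    toSkew_of_lt y (show (0 : Fin 6) < 5 by decide), toSkew_of_lt y (show (1 : Fin 6) < 2 by decide),
    toSkew_of_lt y (show (1 : Fin 6) < 3 by decide), toSkew_of_lt y (show (1 : Fin 6) < 4 by decide),
    toSkew_of_lt y (show (1 : Fin 6) < 5 by decide), toSkew_of_lt y (show (2 : Fin 6) < 3 by decide),
    toSkew_of_lt y (show (2 : Fin 6) < 4 by decide), toSkew_of_lt y (show (2 : Fin 6) < 5 by decide),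
    toSkew_of_lt y (show (3 : Fin 6) < 4 by decide), toSkew_of_lt y (show (3 : Fin 6) < 5 by decide),
    toSkew_of_lt y (show (4 : Fin 6) < 5 by decide)]
  ring

lemma nsq_eq {Y : T2 ℝ} (hY : ∀ i j, Y j i = -Y i j) :
    ∑ i, ∑ j, Y i j * Y i j = 2 * nsq Y := by
  have d : ∀ i, Y i i = 0 := fun i => by have := hY i i; linarith
  simp only [Fin.sum_univ_six, d, nsq]
  rw [hY 0 1, hY 0 2, hY 0 3, hY 0 4, hY 0 5, hY 1 2, hY 1 3, hY 1 4, hY 1 5, hY 2 3, hY 2 4,
    hY 2 5, hY 3 4, hY 3 5, hY 4 5]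
  ring

lemma nsq_conj {U : Matrix (Fin 6) (Fin 6) ℝ} (hU : ONRows U) {Y : T2 ℝ}
    (hY : ∀ i j, Y j i = -Y i j) : nsq (conj2 U Y) = nsq Y := by
  have h1 := nsq_eq (conj2_skew (U := U) hY)
  have h2 := nsq_eq hY
  have h3 : ∑ i, ∑ j, conj2 U Y i j * conj2 U Y i j = ∑ i, ∑ j, Y i j * Y i j := by
    have e : ∀ i j, conj2 U Y i j = ∑ a, U i a * ∑ b, U j b * Y a b := by
      intro i j
      simp only [conj2, mul_sum]
      exact sum_congr rfl fun a _ => sum_congr rfl fun b _ => by ring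
    simp only [e]
    rw [sum_comm]
    simp only [slot_iso hU]
    rw [sum_comm]
    simp only [slot_iso hU]
  linarith

/-- **The algebraic inequality.** -/
theorem alg_pos {R : Fin 6 → Fin 6 → Fin 6 → Fin 6 → ℝ} (hR : IsCurv R) (h4 : FourPos R)
    {w : T3 ℝ} (hw : Alt3 w) (hne : w ≠ 0) : 0 < curvTerm R w := by
  obtain ⟨l, u, hl, hu1, hu2⟩ := spectral (fun p q : Pair => R p.1.1 p.1.2 q.1.1 q.1.2)
    (fun p q => hR.pair _ _ _ _)
  obtain ⟨U, hU, hNF⟩ := exists_normal_form w hw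
  obtain ⟨t1, t2, t3, hcert⟩ := cert hNF
  -- the rotated eigenvectors
  set Y : Pair → T2 ℝ := fun α => conj2 U (toSkew (u α)) with hYdef
  have hY : ∀ α i j, Y α j i = -Y α i j := fun α => conj2_skew (toSkew_skew (u α))
  have hK : ∀ i j k l, ∑ α, Y α i j * Y α k l = K4 i j k l := by
    intro i j k l
    have h0 : ∀ i j k l, ∑ α, (1 : ℝ) * (toSkew (u α) i j * toSkew (u α) k l) = K4 i j k l := by
      intro i j k l
      refine sum_toSkew (fun _ => 1) u K4 ?_ ?_ ?_ i j k l
      · intro i j k l; simp only [K4]; ring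
      · intro i j k l; simp only [K4]; ring
      · intro p q
        simp only [one_mul, hu1, K4_pair]
    have h1 := sum_conj2 (fun _ => 1) (fun α => toSkew (u α)) K4 U h0 i j k l
    simp only [one_mul] at h1
    rw [K4_conj hU] at h1
    exact h1
  have hRY : ∀ i j k m, ∑ α, l α * (Y α i j * Y α k m) =
      ∑ a, ∑ b, ∑ d, ∑ e, U i a * U j b * U k d * U m e * R a b d e :=
    sum_conj2 l (fun α => toSkew (u α)) R U (sum_toSkew l u R hR.skew1 hR.skew2 hl)
  -- the curvature term in terms of the eigenvalues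
  have hF : curvTerm R w = ∑ α, l α * ip3 (act3 (Y α) (rot U w)) (act3 (Y α) (rot U w)) := by
    have h1 : ∀ α, ip3 (act3 (Y α) (rot U w)) (act3 (Y α) (rot U w)) =
        ∑ p, ∑ q, u α p * u α q * ip3 (act3 (Ep p) w) (act3 (Ep q) w) := by
      intro α
      rw [act3_rot hU, ip3_rot hU, act3_toSkew, ip3_sum]
    simp only [h1, mul_sum]
    rw [curvTerm]
    conv_rhs => rw [sum_comm]
    refine sum_congr rfl fun p _ => ?_
    conv_rhs => rw [sum_comm]
    refine sum_congr rfl fun q _ => ?_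
    rw [← hl, sum_mul]
    exact sum_congr rfl fun α _ => by ring
  -- the weights
  set P : Pair → ℝ := fun α =>
    ip3 (act3 (Y α) (rot U w)) (act3 (Y α) (rot U w)) / 6 + T4 t1 t2 t3 (Y α) with hP
  have hnsq : ∀ α, nsq (Y α) = 1 := by
    intro α
    rw [hYdef]
    simp only
    rw [nsq_conj hU (toSkew_skew _), nsq_toSkew, hu2, if_pos rfl]
  have hW : 0 < W8 (rot U w) := by
    have h1 := ip3_nf hNF
    rw [ip3_rot hU] at h1
    have h2 : 0 < ip3 w w := by
      have h3 : ∃ i j k, w i j k ≠ 0 := by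
        by_contra hcon
        push Not at hcon
        exact hne (funext fun i => funext fun j => funext fun k => hcon i j k)
      obtain ⟨i, j, k, h3⟩ := h3
      refine sum_pos' (fun i _ => sum_nonneg fun j _ => sum_nonneg fun k _ => mul_self_nonneg _)
        ⟨i, mem_univ _, sum_pos' (fun j _ => sum_nonneg fun k _ => mul_self_nonneg _)
        ⟨j, mem_univ _, sum_pos' (fun k _ => mul_self_nonneg _)
        ⟨k, mem_univ _, mul_self_pos.mpr h3⟩⟩⟩
    linarith
  have hP0 : ∀ α, 0 ≤ P α := fun α => (hcert (Y α) (hY α)).1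
  have hP1 : ∀ α, P α ≤ 9 / 4 * W8 (rot U w) := by
    intro α
    have := (hcert (Y α) (hY α)).2
    rw [hnsq, mul_one] at this
    exact this
  have hPsum : ∑ α, P α = 9 * W8 (rot U w) := by
    have h1 := trace_nf hNF Y hY hK
    have h2 : ∑ α, T4 t1 t2 t3 (Y α) = 0 := by
      simp only [T4]
      have e : ∀ α, 2 * (t3 * (Y α 0 1 * Y α 2 3 - Y α 0 2 * Y α 1 3 + Y α 0 3 * Y α 1 2) +
          t2 * (Y α 0 1 * Y α 4 5 - Y α 0 4 * Y α 1 5 + Y α 0 5 * Y α 1 4) +
          t1 * (Y α 2 3 * Y α 4 5 - Y α 2 4 * Y α 3 5 + Y α 2 5 * Y α 3 4)) =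
          2 * t3 * (Y α 0 1 * Y α 2 3) - 2 * t3 * (Y α 0 2 * Y α 1 3) +
          2 * t3 * (Y α 0 3 * Y α 1 2) +
          (2 * t2 * (Y α 0 1 * Y α 4 5) - 2 * t2 * (Y α 0 4 * Y α 1 5) +
          2 * t2 * (Y α 0 5 * Y α 1 4)) +
          (2 * t1 * (Y α 2 3 * Y α 4 5) - 2 * t1 * (Y α 2 4 * Y α 3 5) +
          2 * t1 * (Y α 2 5 * Y α 3 4)) := fun α => by ring
      simp only [e, sum_add_distrib, sum_sub_distrib, ← mul_sum, hK]
      simp [K4, dl]
    simp only [hP, sum_add_distrib, h2, ← sum_div, h1]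
    ring
  have hT : ∑ α, T4 t1 t2 t3 (Y α) * l α = 0 := by
    have e : ∀ α, T4 t1 t2 t3 (Y α) * l α =
        2 * t3 * (l α * (Y α 0 1 * Y α 2 3)) - 2 * t3 * (l α * (Y α 0 2 * Y α 1 3)) +
        2 * t3 * (l α * (Y α 0 3 * Y α 1 2)) +
        (2 * t2 * (l α * (Y α 0 1 * Y α 4 5)) - 2 * t2 * (l α * (Y α 0 4 * Y α 1 5)) +
        2 * t2 * (l α * (Y α 0 5 * Y α 1 4))) +
        (2 * t1 * (l α * (Y α 2 3 * Y α 4 5)) - 2 * t1 * (l α * (Y α 2 4 * Y α 3 5)) +
        2 * t1 * (l α * (Y α 2 5 * Y α 3 4))) := fun α => by rw [T4]; ring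
    simp only [e, sum_add_distrib, sum_sub_distrib, ← mul_sum, hRY]
    linear_combination 2 * t3 * bianchi_conj hR U 0 1 2 3 + 2 * t2 * bianchi_conj hR U 0 1 4 5 +
      2 * t1 * bianchi_conj hR U 2 3 4 5
  -- conclusion
  have hmain : 0 < ∑ α, P α * l α := by
    refine weighted_pos (k := 4) ?_ l P (μ := 9 / 4 * W8 (rot U w)) (by positivity) hP0 hP1 ?_ ?_
    · simp [Fintype.card_subtype]
      decide
    · rw [hPsum]; push_cast; linarith
    · intro S hS
      set e : Fin 4 ≃ S := (S.equivFinOfCardEq hS).symm with he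
      have h5 := h4 (fun i => u (e i)) ?_
      · have h6 : ∀ α, ∑ p : Pair, ∑ q : Pair, u α p * R p.1.1 p.1.2 q.1.1 q.1.2 * u α q = l α := by
          intro α
          have h7 : ∀ p q : Pair, u α p * R p.1.1 p.1.2 q.1.1 q.1.2 * u α q =
              ∑ β, l β * ((u β p * u α p) * (u β q * u α q)) := by
            intro p q
            rw [← hl, mul_sum, sum_mul]
            exact sum_congr rfl fun β _ => by ring
          simp only [h7]
          rw [sum_congr rfl fun p _ => sum_comm, sum_comm]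
          simp only [← mul_sum, ← sum_mul, hu2]
          simp
        simp only [h6] at h5
        have h8 : ∑ i, l (e i) = ∑ α ∈ S, l α := by
          rw [Equiv.sum_comp e (fun x : S => l x), sum_coe_sort S l]
        rwa [h8] at h5
      · intro i j
        rw [hu2]
        simp [Subtype.ext_iff]
  rw [hF]
  have : ∑ α, P α * l α =
      (∑ α, l α * ip3 (act3 (Y α) (rot U w)) (act3 (Y α) (rot U w))) / 6 := by
    have e : ∀ α, P α * l α = (l α * ip3 (act3 (Y α) (rot U w)) (act3 (Y α) (rot U w))) / 6 +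
        T4 t1 t2 t3 (Y α) * l α := fun α => by simp only [hP]; ring
    simp only [e, sum_add_distrib, hT, add_zero, ← sum_div]
  rw [this] at hmain
  linarith

end Pool.Agent.H83.Curv
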