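import Mathlib
import Pool.Agent.H83.Curv.Basic

/-! The Bochner formula for closed 3-forms, in an orthonormal frame, over an abstract ring of
functions. -/

namespace Pool.Agent.H83.Curv

open Finset

variable {ι A : Type*} [Fintype ι] [CommRing A]

/-- action on the first slot -/
def L1 (Y : ι → ι → A) (w : ι → ι → ι → A) : ι → ι → ι → A := fun i j k => ∑ e, Y i e * w e j k
/-- action on the second slot -/
def L2 (Y : ι → ι → A) (w : ι → ι → ι → A) : ι → ι → ι → A := fun i j k => ∑ e, Y j e * w i e k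
/-- action on the third slot -/
def L3 (Y : ι → ι → A) (w : ι → ι → ι → A) : ι → ι → ι → A := fun i j k => ∑ e, Y k e * w i j e

lemma act3_eq (Y : ι → ι → A) (w : ι → ι → ι → A) : act3 Y w = L1 Y w + L2 Y w + L3 Y w := by
  funext i j k
  simp only [act3, L1, L2, L3, Pi.add_apply, sum_add_distrib]

/-- commutator of matrices -/
def mcomm (Y Z : ι → ι → A) : ι → ι → A := fun i j => ∑ e, (Y i e * Z e j - Z i e * Y e j)

lemma L1_L2 (Y Z : ι → ι → A) (w : ι → ι → ι → A) : L1 Y (L2 Z w) = L2 Z (L1 Y w) := by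
  funext i j k
  simp only [L1, L2, mul_sum]
  rw [sum_comm]
  exact sum_congr rfl fun a _ => sum_congr rfl fun b _ => by ring

lemma L1_L3 (Y Z : ι → ι → A) (w : ι → ι → ι → A) : L1 Y (L3 Z w) = L3 Z (L1 Y w) := by
  funext i j k
  simp only [L1, L3, mul_sum]
  rw [sum_comm]
  exact sum_congr rfl fun a _ => sum_congr rfl fun b _ => by ring

lemma L2_L3 (Y Z : ι → ι → A) (w : ι → ι → ι → A) : L2 Y (L3 Z w) = L3 Z (L2 Y w) := by
  funext i j k
  simp only [L2, L3, mul_sum]
  rw [sum_comm]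
  exact sum_congr rfl fun a _ => sum_congr rfl fun b _ => by ring

lemma L1_add (Y : ι → ι → A) (v w : ι → ι → ι → A) : L1 Y (v + w) = L1 Y v + L1 Y w := by
  funext i j k
  simp only [L1, Pi.add_apply, mul_add, sum_add_distrib]

lemma L2_add (Y : ι → ι → A) (v w : ι → ι → ι → A) : L2 Y (v + w) = L2 Y v + L2 Y w := by
  funext i j k
  simp only [L2, Pi.add_apply, mul_add, sum_add_distrib]

lemma L3_add (Y : ι → ι → A) (v w : ι → ι → ι → A) : L3 Y (v + w) = L3 Y v + L3 Y w := by
  funext i j k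
  simp only [L3, Pi.add_apply, mul_add, sum_add_distrib]

lemma L1_comm (Y Z : ι → ι → A) (w : ι → ι → ι → A) :
    L1 Y (L1 Z w) - L1 Z (L1 Y w) = L1 (mcomm Y Z) w := by
  have h : ∀ Y Z : ι → ι → A, L1 Y (L1 Z w) =
      fun i j k => ∑ f, (∑ e, Y i e * Z e f) * w f j k := by
    intro Y Z
    funext i j k
    simp only [L1, mul_sum, sum_mul]
    rw [sum_comm]
    exact sum_congr rfl fun a _ => sum_congr rfl fun b _ => by ring
  rw [h, h]
  funext i j k
  simp only [L1, mcomm, Pi.sub_apply, ← sum_sub_distrib, ← sub_mul]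

lemma L2_comm (Y Z : ι → ι → A) (w : ι → ι → ι → A) :
    L2 Y (L2 Z w) - L2 Z (L2 Y w) = L2 (mcomm Y Z) w := by
  have h : ∀ Y Z : ι → ι → A, L2 Y (L2 Z w) =
      fun i j k => ∑ f, (∑ e, Y j e * Z e f) * w i f k := by
    intro Y Z
    funext i j k
    simp only [L2, mul_sum, sum_mul]
    rw [sum_comm]
    exact sum_congr rfl fun a _ => sum_congr rfl fun b _ => by ring
  rw [h, h]
  funext i j k
  simp only [L2, mcomm, Pi.sub_apply, ← sum_sub_distrib, ← sub_mul]

lemma L3_comm (Y Z : ι → ι → A) (w : ι → ι → ι → A) :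
    L3 Y (L3 Z w) - L3 Z (L3 Y w) = L3 (mcomm Y Z) w := by
  have h : ∀ Y Z : ι → ι → A, L3 Y (L3 Z w) =
      fun i j k => ∑ f, (∑ e, Y k e * Z e f) * w i j f := by
    intro Y Z
    funext i j k
    simp only [L3, mul_sum, sum_mul]
    rw [sum_comm]
    exact sum_congr rfl fun a _ => sum_congr rfl fun b _ => by ring
  rw [h, h]
  funext i j k
  simp only [L3, mcomm, Pi.sub_apply, ← sum_sub_distrib, ← sub_mul]

lemma act3_comm (Y Z : ι → ι → A) (w : ι → ι → ι → A) :
    act3 Y (act3 Z w) - act3 Z (act3 Y w) = act3 (mcomm Y Z) w := by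
  simp only [act3_eq, L1_add, L2_add, L3_add, ← L1_comm, ← L2_comm, ← L3_comm]
  rw [L1_L2 Y Z, L1_L2 Z Y, L1_L3 Y Z, L1_L3 Z Y, L2_L3 Y Z, L2_L3 Z Y]
  abel

section frame

variable [Algebra ℝ A] (E : ι → Derivation ℝ A A) (G : ι → ι → ι → A)

/-- derivative of a tensor, componentwise -/
def dE (D : Derivation ℝ A A) (w : ι → ι → ι → A) : ι → ι → ι → A := fun i j k => D (w i j k)

/-- covariant derivative of a 3-tensor in an orthonormal frame -/
def cD (a : ι) (w : ι → ι → ι → A) : ι → ι → ι → A := dE (E a) w + act3 (G a) w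

/-- curvature matrices -/
def Rh (C : ι → ι → ι → A) (a b : ι) : ι → ι → A := fun c d =>
  E a (G b c d) - E b (G a c d) + mcomm (G a) (G b) c d - ∑ f, C a b f * G f c d

lemma dE_act3 (D : Derivation ℝ A A) (Y : ι → ι → A) (w : ι → ι → ι → A) :
    dE D (act3 Y w) = act3 (fun i j => D (Y i j)) w + act3 Y (dE D w) := by
  funext i j k
  simp only [dE, act3, Pi.add_apply, map_sum, map_add, Derivation.leibniz, smul_eq_mul,
    ← sum_add_distrib]
  refine sum_congr rfl fun e _ => ?_
  ring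

omit [Algebra ℝ A] in
lemma act3_add_right (Y : ι → ι → A) (v w : ι → ι → ι → A) :
    act3 Y (v + w) = act3 Y v + act3 Y w := by
  simp only [act3_eq, L1_add, L2_add, L3_add]; abel

omit [Algebra ℝ A] in
lemma act3_sum_left {κ : Type*} [Fintype κ] (c : κ → A) (Y : κ → ι → ι → A)
    (w : ι → ι → ι → A) (i j k : ι) :
    act3 (fun i j => ∑ f, c f * Y f i j) w i j k = ∑ f, c f * act3 (Y f) w i j k := by
  simp only [act3, mul_sum]
  rw [sum_comm]
  refine sum_congr rfl fun e _ => ?_
  simp only [sum_mul, ← sum_add_distrib]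
  exact sum_congr rfl fun f _ => by ring

/-- The Ricci identity. -/
lemma ricci {C : ι → ι → ι → A}
    (hC : ∀ a b x, E a (E b x) - E b (E a x) = ∑ f, C a b f * E f x)
    (a b : ι) (w : ι → ι → ι → A) (i j k : ι) :
    cD E G a (cD E G b w) i j k - cD E G b (cD E G a w) i j k =
      (∑ f, C a b f * cD E G f w i j k) + act3 (Rh E G C a b) w i j k := by
  have h1 : cD E G a (cD E G b w) = dE (E a) (dE (E b) w) + act3 (fun i j => E a (G b i j)) w +
      act3 (G b) (dE (E a) w) + act3 (G a) (dE (E b) w) + act3 (G a) (act3 (G b) w) := by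
    have : dE (E a) (dE (E b) w + act3 (G b) w) =
        dE (E a) (dE (E b) w) + dE (E a) (act3 (G b) w) := by
      funext i j k; simp only [dE, Pi.add_apply, map_add]
    rw [cD, cD, this, dE_act3, act3_add_right]; abel
  have h2 : cD E G b (cD E G a w) = dE (E b) (dE (E a) w) + act3 (fun i j => E b (G a i j)) w +
      act3 (G a) (dE (E b) w) + act3 (G b) (dE (E a) w) + act3 (G b) (act3 (G a) w) := by
    have : dE (E b) (dE (E a) w + act3 (G a) w) =
        dE (E b) (dE (E a) w) + dE (E b) (act3 (G a) w) := by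
      funext i j k; simp only [dE, Pi.add_apply, map_add]
    rw [cD, cD, this, dE_act3, act3_add_right]; abel
  have h3 := congrFun (congrFun (congrFun (act3_comm (G a) (G b) w) i) j) k
  have h4 : act3 (Rh E G C a b) w i j k = act3 (fun i j => E a (G b i j)) w i j k -
      act3 (fun i j => E b (G a i j)) w i j k + act3 (mcomm (G a) (G b)) w i j k -
      ∑ f, C a b f * act3 (G f) w i j k := by
    rw [← act3_sum_left]
    simp only [act3, Rh, ← sum_sub_distrib, ← sum_add_distrib]
    exact sum_congr rfl fun e _ => by ring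
  have h5 := hC a b (w i j k)
  rw [h1, h2, h4]
  simp only [cD, Pi.add_apply, Pi.sub_apply, mul_add, sum_add_distrib, dE] at h3 h5 ⊢
  linear_combination h5 + h3

/-- partial pairing over the last two slots -/
def P1 (u v : ι → ι → ι → A) (b e : ι) : A := ∑ c, ∑ d, u b c d * v e c d

lemma P1_leibniz (hG : ∀ a i j, G a j i = -G a i j) (a : ι) (u v : ι → ι → ι → A) (b e : ι) :
    E a (P1 u v b e) = P1 (cD E G a u) v b e + P1 u (cD E G a v) b e -
      (∑ f, G a b f * P1 u v f e) - ∑ f, G a e f * P1 u v b f := by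
  have hc : ∑ c, ∑ d, ∑ f, (G a c f * u b f d * v e c d + u b c d * (G a c f * v e f d)) = 0 := by
    have h1 : ∑ c, ∑ d, ∑ f, G a c f * u b f d * v e c d =
        - ∑ c, ∑ d, ∑ f, u b c d * (G a c f * v e f d) := by
      have : ∀ F : ι → ι → ι → A, ∑ c, ∑ d, ∑ f, F c d f = ∑ f, ∑ d, ∑ c, F c d f := by
        intro F
        rw [sum_congr rfl fun c _ => sum_comm, sum_comm]
        exact sum_congr rfl fun f _ => sum_comm
      rw [this]
      simp only [← sum_neg_distrib]
      refine sum_congr rfl fun c _ => sum_congr rfl fun d _ => sum_congr rfl fun f _ => ?_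
      rw [hG a c f]; ring
    simp only [sum_add_distrib]
    rw [h1]; ring
  have hd : ∑ c, ∑ d, ∑ f, (G a d f * u b c f * v e c d + u b c d * (G a d f * v e c f)) = 0 := by
    refine sum_eq_zero fun c _ => ?_
    have h1 : ∑ d, ∑ f, G a d f * u b c f * v e c d =
        - ∑ d, ∑ f, u b c d * (G a d f * v e c f) := by
      rw [sum_comm]
      simp only [← sum_neg_distrib]
      refine sum_congr rfl fun d _ => sum_congr rfl fun f _ => ?_
      rw [hG a d f]; ring
    simp only [sum_add_distrib]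
    rw [h1]; ring
  have e1 : ∑ f, G a b f * P1 u v f e = ∑ c, ∑ d, ∑ f, G a b f * u f c d * v e c d := by
    simp only [P1, mul_sum]
    rw [sum_comm]
    refine sum_congr rfl fun c _ => ?_
    rw [sum_comm]
    exact sum_congr rfl fun d _ => sum_congr rfl fun f _ => by ring
  have e2 : ∑ f, G a e f * P1 u v b f = ∑ c, ∑ d, ∑ f, u b c d * (G a e f * v f c d) := by
    simp only [P1, mul_sum]
    rw [sum_comm]
    refine sum_congr rfl fun c _ => ?_
    rw [sum_comm]
    exact sum_congr rfl fun d _ => sum_congr rfl fun f _ => by ring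
  have e3 : P1 (cD E G a u) v b e = (∑ c, ∑ d, E a (u b c d) * v e c d) +
      (∑ c, ∑ d, ∑ f, G a b f * u f c d * v e c d) +
      (∑ c, ∑ d, ∑ f, G a c f * u b f d * v e c d) +
      (∑ c, ∑ d, ∑ f, G a d f * u b c f * v e c d) := by
    simp only [P1, cD, Pi.add_apply, dE, act3, sum_add_distrib, add_mul, sum_mul]
    ring
  have e4 : P1 u (cD E G a v) b e = (∑ c, ∑ d, u b c d * E a (v e c d)) +
      (∑ c, ∑ d, ∑ f, u b c d * (G a e f * v f c d)) +
      (∑ c, ∑ d, ∑ f, u b c d * (G a c f * v e f d)) +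
      (∑ c, ∑ d, ∑ f, u b c d * (G a d f * v e c f)) := by
    simp only [P1, cD, Pi.add_apply, dE, act3, sum_add_distrib, mul_add, mul_sum]
    ring
  have e5 : E a (P1 u v b e) = (∑ c, ∑ d, E a (u b c d) * v e c d) +
      (∑ c, ∑ d, u b c d * E a (v e c d)) := by
    simp only [P1, map_sum, Derivation.leibniz, smul_eq_mul, ← sum_add_distrib]
    exact sum_congr rfl fun c _ => sum_congr rfl fun d _ => by ring
  rw [e1, e2, e3, e4, e5]
  simp only [sum_add_distrib] at hc hd
  linear_combination - hc - hd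

/-- the vector field in Bochner's formula -/
def bV (w : ι → ι → ι → A) (e : ι) : A :=
  ∑ b, P1 w (cD E G b w) b e - ∑ b, P1 w (cD E G b w) e b

omit [Algebra ℝ A] in
lemma P1_add_right (u v w : ι → ι → ι → A) (b e : ι) : P1 u (v + w) b e = P1 u v b e + P1 u w b e := by
  simp only [P1, Pi.add_apply, mul_add, sum_add_distrib]

omit [Algebra ℝ A] in
lemma P1_sum_right {κ : Type*} [Fintype κ] (u : ι → ι → ι → A) (c : κ → A)
    (v : κ → ι → ι → ι → A) (b e : ι) :
    P1 u (fun i j k => ∑ f, c f * v f i j k) b e = ∑ f, c f * P1 u (v f) b e := by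
  simp only [P1, mul_sum]
  rw [sum_comm]
  have : ∀ F : ι → ι → κ → A, ∑ c, ∑ d, ∑ f, F c d f = ∑ d, ∑ f, ∑ c, F c d f := by
    intro F
    rw [sum_comm]
    exact sum_congr rfl fun d _ => sum_comm
  rw [sum_comm, this, sum_comm]
  refine sum_congr rfl fun f _ => ?_
  rw [sum_comm]
  exact sum_congr rfl fun c _ => sum_congr rfl fun d _ => by ring

/-- The pointwise Bochner identity (divergence form). -/
theorem bochner_div {C : ι → ι → ι → A} (hG : ∀ a i j, G a j i = -G a i j)
    (hC : ∀ a b x, E a (E b x) - E b (E a x) = ∑ f, C a b f * E f x)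
    (hT : ∀ a b f, C a b f = G b a f - G a b f) (w : ι → ι → ι → A) :
    ∑ a, (E a (bV E G w a) + ∑ f, G a a f * bV E G w f) =
      ∑ a, ∑ b, P1 (cD E G a w) (cD E G b w) b a - ∑ a, ∑ b, P1 (cD E G a w) (cD E G b w) a b +
      ∑ a, ∑ b, P1 w (act3 (Rh E G C a b) w) b a := by
  -- derivative of the two halves
  have h1 : ∀ a e, E a (∑ b, P1 w (cD E G b w) b e) + ∑ f, G a e f * (∑ b, P1 w (cD E G b w) b f) =
      ∑ b, (P1 (cD E G a w) (cD E G b w) b e + P1 w (cD E G a (cD E G b w)) b e +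
        ∑ f, G a b f * P1 w (cD E G f w) b e) := by
    intro a e
    rw [map_sum]
    simp only [P1_leibniz E G hG, mul_sum]
    have s1 : ∑ f, ∑ b, G a e f * P1 w (cD E G b w) b f =
        ∑ b, ∑ f, G a e f * P1 w (cD E G b w) b f := sum_comm
    have s2 : ∑ b, ∑ f, G a b f * P1 w (cD E G b w) f e =
        - ∑ b, ∑ f, G a b f * P1 w (cD E G f w) b e := by
      rw [sum_comm]
      simp only [← sum_neg_distrib]
      refine sum_congr rfl fun b _ => sum_congr rfl fun f _ => ?_
      rw [hG a b f]; ring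
    simp only [sum_add_distrib, sum_sub_distrib, s1, s2]
    ring
  have h2 : ∀ a e, E a (∑ b, P1 w (cD E G b w) e b) + ∑ f, G a e f * (∑ b, P1 w (cD E G b w) f b) =
      ∑ b, (P1 (cD E G a w) (cD E G b w) e b + P1 w (cD E G a (cD E G b w)) e b +
        ∑ f, G a b f * P1 w (cD E G f w) e b) := by
    intro a e
    rw [map_sum]
    simp only [P1_leibniz E G hG, mul_sum]
    have s1 : ∑ f, ∑ b, G a e f * P1 w (cD E G b w) f b =
        ∑ b, ∑ f, G a e f * P1 w (cD E G b w) f b := sum_comm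
    have s2 : ∑ b, ∑ f, G a b f * P1 w (cD E G b w) e f =
        - ∑ b, ∑ f, G a b f * P1 w (cD E G f w) e b := by
      rw [sum_comm]
      simp only [← sum_neg_distrib]
      refine sum_congr rfl fun b _ => sum_congr rfl fun f _ => ?_
      rw [hG a b f]; ring
    simp only [sum_add_distrib, sum_sub_distrib, s1, s2]
    ring
  have h3 : ∀ a, E a (bV E G w a) + ∑ f, G a a f * bV E G w f =
      (∑ b, (P1 (cD E G a w) (cD E G b w) b a + P1 w (cD E G a (cD E G b w)) b a +
        ∑ f, G a b f * P1 w (cD E G f w) b a)) -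
      ∑ b, (P1 (cD E G a w) (cD E G b w) a b + P1 w (cD E G a (cD E G b w)) a b +
        ∑ f, G a b f * P1 w (cD E G f w) a b) := by
    intro a
    rw [← h1, ← h2]
    simp only [bV, map_sub, mul_sub, sum_sub_distrib]
    ring
  have h4 : ∀ a b, P1 w (cD E G a (cD E G b w)) b a - P1 w (cD E G b (cD E G a w)) b a =
      (∑ f, C a b f * P1 w (cD E G f w) b a) + P1 w (act3 (Rh E G C a b) w) b a := by
    intro a b
    have e1 : (fun i j k => (∑ f, C a b f * cD E G f w i j k)) + act3 (Rh E G C a b) w =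
        cD E G a (cD E G b w) - cD E G b (cD E G a w) := by
      funext i j k
      simp only [Pi.add_apply, Pi.sub_apply]
      rw [ricci E G hC]
    have e2 : P1 w (cD E G a (cD E G b w) - cD E G b (cD E G a w)) b a =
        P1 w (cD E G a (cD E G b w)) b a - P1 w (cD E G b (cD E G a w)) b a := by
      simp only [P1, Pi.sub_apply, mul_sub, sum_sub_distrib]
    rw [← e2, ← e1, P1_add_right, P1_sum_right]
  simp only [h3, sum_sub_distrib, sum_add_distrib]
  have s1 : ∑ a, ∑ b, P1 w (cD E G a (cD E G b w)) a b =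
      ∑ a, ∑ b, P1 w (cD E G b (cD E G a w)) b a := sum_comm
  have s2 : ∑ a, ∑ b, ∑ f, G a b f * P1 w (cD E G f w) a b =
      ∑ a, ∑ b, ∑ f, G b a f * P1 w (cD E G f w) b a := sum_comm
  rw [s1, s2]
  have h5 : ∑ a, ∑ b, P1 w (cD E G a (cD E G b w)) b a -
      ∑ a, ∑ b, P1 w (cD E G b (cD E G a w)) b a =
      (∑ a, ∑ b, ∑ f, C a b f * P1 w (cD E G f w) b a) +
      ∑ a, ∑ b, P1 w (act3 (Rh E G C a b) w) b a := by
    simp only [← sum_sub_distrib, ← sum_add_distrib, h4]
  have h6 : ∑ a, ∑ b, ∑ f, C a b f * P1 w (cD E G f w) b a =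
      ∑ a, ∑ b, ∑ f, G b a f * P1 w (cD E G f w) b a -
      ∑ a, ∑ b, ∑ f, G a b f * P1 w (cD E G f w) b a := by
    simp only [← sum_sub_distrib, hT, sub_mul]
  linear_combination h5 + h6

end frame

end Pool.Agent.H83.Curv
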