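import Mathlib
import Pool.Agent.H83.Curv.Bochner

/-! Jacobi's formula for derivations and the divergence theorem in an orthonormal frame. -/

namespace Pool.Agent.H83.Curv

open Finset

section jacobi

variable {A : Type*} [CommRing A] [Algebra ℝ A] (D : Derivation ℝ A A)

lemma derivation_prod {κ : Type*} [DecidableEq κ] (s : Finset κ) (f : κ → A) :
    D (∏ i ∈ s, f i) = ∑ i ∈ s, D (f i) * ∏ j ∈ s.erase i, f j := by
  induction s using Finset.induction_on with
  | empty => simp
  | insert a s ha ih =>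
    rw [prod_insert ha, Derivation.leibniz, ih, sum_insert ha, erase_insert ha]
    simp only [smul_eq_mul]
    rw [add_comm, mul_comm (∏ i ∈ s, f i)]
    congr 1
    rw [mul_sum]
    refine sum_congr rfl fun i hi => ?_
    have hne : a ≠ i := fun h => ha (h ▸ hi)
    rw [erase_insert_of_ne hne, prod_insert (by simp [ha])]
    ring

lemma derivation_det {κ : Type*} [DecidableEq κ] [Fintype κ] (M : Matrix κ κ A) :
    D M.det = ∑ i, ∑ k, M.adjugate i k * D (M k i) := by
  have h1 : D M.det = ∑ i, (M.updateCol i (fun k => D (M k i))).det := by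
    rw [Matrix.det_apply, map_sum]
    have h2 : ∀ i, (M.updateCol i (fun k => D (M k i))).det =
        ∑ σ : Equiv.Perm κ, Equiv.Perm.sign σ • (D (M (σ i) i) * ∏ j ∈ univ.erase i, M (σ j) j) := by
      intro i
      rw [Matrix.det_apply]
      refine sum_congr rfl fun σ _ => ?_
      congr 1
      rw [← mul_prod_erase univ _ (mem_univ i)]
      congr 1
      · rw [Matrix.updateCol_self]
      · refine prod_congr rfl fun j hj => ?_
        rw [Matrix.updateCol_ne (ne_of_mem_erase hj)]
    simp only [h2]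
    rw [sum_comm]
    refine sum_congr rfl fun σ _ => ?_
    rw [← smul_sum, ← derivation_prod]
    rw [Units.smul_def, map_zsmul, Units.smul_def]
  rw [h1]
  refine sum_congr rfl fun i _ => ?_
  rw [← Matrix.cramer_apply, Matrix.cramer_eq_adjugate_mulVec]
  rfl

lemma derivation_det_inv {κ : Type*} [DecidableEq κ] [Fintype κ] (M N : Matrix κ κ A)
    (h : M * N = 1) : D M.det = M.det * ∑ i, ∑ k, N i k * D (M k i) := by
  have h1 : M.adjugate = M.det • N := by
    calc M.adjugate = M.adjugate * (M * N) := by rw [h, mul_one]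
      _ = (M.adjugate * M) * N := by rw [mul_assoc]
      _ = M.det • N := by rw [Matrix.adjugate_mul]; simp
  rw [derivation_det, h1, mul_sum]
  refine sum_congr rfl fun i _ => ?_
  rw [mul_sum]
  refine sum_congr rfl fun k _ => ?_
  rw [Matrix.smul_apply, smul_eq_mul, mul_assoc]

/-- The logarithmic derivative of a density. -/
lemma density_deriv {κ : Type*} [DecidableEq κ] [Fintype κ] (M N : Matrix κ κ A)
    (h : M * N = 1) {ρ : A} (hρ : ρ * ρ * (M.det * M.det) = 1) :
    D ρ = - (ρ * ∑ i, ∑ k, N i k * D (M k i)) := by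
  have h1 := derivation_det_inv D M N h
  have h2 : D (ρ * ρ * (M.det * M.det)) = 0 := by rw [hρ]; simp
  rw [Derivation.leibniz, Derivation.leibniz, Derivation.leibniz, h1] at h2
  simp only [smul_eq_mul] at h2
  -- `2 ρ det² Dρ + 2 ρ² det² T = 0`
  have h3 : (2 : A) * (D ρ + ρ * ∑ i, ∑ k, N i k * D (M k i)) = 0 := by
    linear_combination ρ * h2 - 2 * (D ρ) * hρ -
      2 * ρ * (∑ i, ∑ k, N i k * D (M k i)) * hρ
  have h4 : (algebraMap ℝ A (1 / 2)) * (2 : A) = 1 := by
    rw [← map_ofNat (algebraMap ℝ A) 2, ← map_mul]; norm_num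
  have h5 : D ρ + ρ * ∑ i, ∑ k, N i k * D (M k i) = 0 := by
    calc D ρ + ρ * ∑ i, ∑ k, N i k * D (M k i)
        = (algebraMap ℝ A (1 / 2) * 2) * (D ρ + ρ * ∑ i, ∑ k, N i k * D (M k i)) := by
          rw [h4, one_mul]
      _ = 0 := by rw [mul_assoc, h3, mul_zero]
  linear_combination h5

end jacobi

section frame

variable {ι A : Type*} [Fintype ι] [DecidableEq ι] [CommRing A] [Algebra ℝ A]
  (X : ι → Derivation ℝ A A)

/-- The derivation with given components. -/
def toDer (u : ι → A) : Derivation ℝ A A := ∑ i, u i • X i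

omit [DecidableEq ι] in
lemma toDer_apply (u : ι → A) (x : A) : toDer X u x = ∑ i, u i * X i x := by
  change Derivation.coeFnAddMonoidHom (∑ i, u i • X i) x = _
  rw [map_sum, Finset.sum_apply]
  rfl

/-- The divergence identity for an orthonormal frame `e` with connection coefficients `G`. -/
lemma div_frame (c : ι → ι → ι → A) (hc : ∀ i, ∑ j, c i j j = 0)
    (e f : Matrix ι ι A) (hef : e * f = 1) (G : ι → ι → ι → A)
    (hG : ∀ a i j, G a j i = -G a i j)
    (htor : ∀ a b k, ∑ m, (G b a m - G a b m) * e m k =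
      toDer X (e a) (e b k) - toDer X (e b) (e a k) + ∑ i, ∑ j, c i j k * e a i * e b j)
    {ρ : A} (hρ : ρ * ρ * (e.det * e.det) = 1) (a : ι) :
    ∑ i, X i (ρ * e a i) = ρ * ∑ b, G b b a := by
  have hfe : f * e = 1 := mul_eq_one_comm.mp hef
  have hef' : ∀ a b, ∑ i, e a i * f i b = if a = b then 1 else 0 := by
    intro a b
    have := congrFun (congrFun hef a) b
    rwa [Matrix.mul_apply, Matrix.one_apply] at this
  have hfe' : ∀ i j, ∑ a, f i a * e a j = if i = j then 1 else 0 := by
    intro a b
    have := congrFun (congrFun hfe a) b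
    rwa [Matrix.mul_apply, Matrix.one_apply] at this
  -- the trace of the torsion identity
  have h1 : ∑ b, ∑ k, f k b * (∑ m, (G b a m - G a b m) * e m k) = ∑ b, (G b a b - G a b b) := by
    refine sum_congr rfl fun b _ => ?_
    simp only [mul_sum]
    rw [sum_comm]
    have : ∀ m, ∑ k, f k b * ((G b a m - G a b m) * e m k) =
        (G b a m - G a b m) * (if m = b then 1 else 0) := by
      intro m
      rw [← hef' m b, mul_sum]
      exact sum_congr rfl fun k _ => by ring
    simp only [this]
    simp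
  have h2 : ∑ b, ∑ k, f k b * toDer X (e b) (e a k) = ∑ k, X k (e a k) := by
    rw [sum_comm]
    refine sum_congr rfl fun k _ => ?_
    simp only [toDer_apply, mul_sum]
    rw [sum_comm]
    have : ∀ i, ∑ b, f k b * (e b i * X i (e a k)) = (if k = i then 1 else 0) * X i (e a k) := by
      intro i
      rw [← hfe' k i, sum_mul]
      exact sum_congr rfl fun b _ => by ring
    simp only [this]
    simp
  have h3 : ∑ b, ∑ k, f k b * (∑ i, ∑ j, c i j k * e a i * e b j) = 0 := by
    have e1 : ∀ k, ∑ b, f k b * (∑ i, ∑ j, c i j k * e a i * e b j) = ∑ i, e a i * c i k k := by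
      intro k
      simp only [mul_sum]
      rw [sum_comm]
      refine sum_congr rfl fun i _ => ?_
      rw [sum_comm]
      have : ∀ j, ∑ b, f k b * (c i j k * e a i * e b j) =
          (if k = j then 1 else 0) * (c i j k * e a i) := by
        intro j
        rw [← hfe' k j, sum_mul]
        exact sum_congr rfl fun b _ => by ring
      simp only [this]
      simp only [ite_mul, one_mul, zero_mul, sum_ite_eq, mem_univ, if_true]
      ring
    rw [sum_comm]
    simp only [e1]
    rw [sum_comm]
    refine sum_eq_zero fun i _ => ?_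
    rw [← mul_sum, hc, mul_zero]
  have h4 : ∑ b, ∑ k, f k b * (toDer X (e a) (e b k) - toDer X (e b) (e a k) +
      ∑ i, ∑ j, c i j k * e a i * e b j) =
      (∑ b, ∑ k, f k b * toDer X (e a) (e b k)) - ∑ k, X k (e a k) := by
    simp only [mul_add, mul_sub, sum_add_distrib, sum_sub_distrib]
    rw [h2, h3, add_zero]
  have h5 : ∑ b, (G b a b - G a b b) =
      (∑ b, ∑ k, f k b * toDer X (e a) (e b k)) - ∑ k, X k (e a k) := by
    rw [← h1, ← h4]
    exact sum_congr rfl fun b _ => sum_congr rfl fun k _ => by rw [htor]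
  -- derivative of the density
  have h6 : toDer X (e a) ρ = - (ρ * ∑ b, ∑ k, f k b * toDer X (e a) (e b k)) := by
    have h7 : ∀ i, X i ρ = - (ρ * ∑ k, ∑ b, f k b * X i (e b k)) := fun i =>
      density_deriv (X i) e f hef hρ
    rw [density_deriv (toDer X (e a)) e f hef hρ, sum_comm]
  have h8 : ∑ i, X i (ρ * e a i) = ρ * ∑ i, X i (e a i) + toDer X (e a) ρ := by
    simp only [Derivation.leibniz, smul_eq_mul, sum_add_distrib, toDer_apply, mul_sum]
  have h9 : ∑ b, G a b b = 0 := by
    have h10 : ∑ b, G a b b = - ∑ b, G a b b := by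
      rw [← sum_neg_distrib]
      exact sum_congr rfl fun b _ => hG a b b
    have h4 : (algebraMap ℝ A (1 / 2)) * (2 : A) = 1 := by
      rw [← map_ofNat (algebraMap ℝ A) 2, ← map_mul]; norm_num
    have h11 : (2 : A) * ∑ b, G a b b = 0 := by linear_combination h10
    calc ∑ b, G a b b = (algebraMap ℝ A (1 / 2) * 2) * ∑ b, G a b b := by rw [h4, one_mul]
      _ = 0 := by rw [mul_assoc, h11, mul_zero]
  have h12 : ∑ b, G b a b = - ∑ b, G b b a := by
    rw [← sum_neg_distrib]
    exact sum_congr rfl fun b _ => hG b b a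
  rw [sum_sub_distrib, h9, h12] at h5
  rw [h8, h6]
  linear_combination ρ * h5

/-- integration by parts in an orthonormal frame -/
lemma int_frame (I : A →ₗ[ℝ] ℝ) (hI : ∀ i x, I (X i x) = 0)
    (c : ι → ι → ι → A) (hc : ∀ i, ∑ j, c i j j = 0)
    (e f : Matrix ι ι A) (hef : e * f = 1) (G : ι → ι → ι → A)
    (hG : ∀ a i j, G a j i = -G a i j)
    (htor : ∀ a b k, ∑ m, (G b a m - G a b m) * e m k =
      toDer X (e a) (e b k) - toDer X (e b) (e a k) + ∑ i, ∑ j, c i j k * e a i * e b j)
    {ρ : A} (hρ : ρ * ρ * (e.det * e.det) = 1) (V : ι → A) :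
    I (ρ * ∑ a, (toDer X (e a) (V a) + ∑ b, G a a b * V b)) = 0 := by
  have h1 : ∀ a, ρ * toDer X (e a) (V a) = (∑ i, X i (ρ * e a i * V a)) -
      (ρ * ∑ b, G b b a) * V a := by
    intro a
    rw [← div_frame X c hc e f hef G hG htor hρ a, toDer_apply]
    simp only [Derivation.leibniz (X _) (ρ * e a _) (V a), smul_eq_mul, sum_add_distrib, sum_mul,
      mul_sum]
    have : ∀ i, V a * X i (ρ * e a i) = X i (ρ * e a i) * V a := fun i => mul_comm _ _
    simp only [this]
    rw [add_sub_cancel_right]
    exact sum_congr rfl fun i _ => by ring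
  have h2 : ρ * ∑ a, (toDer X (e a) (V a) + ∑ b, G a a b * V b) =
      ∑ a, ∑ i, X i (ρ * e a i * V a) := by
    rw [sum_add_distrib, mul_add, mul_sum]
    simp only [h1, sum_sub_distrib]
    have : ρ * ∑ a, ∑ b, G a a b * V b = ∑ a, ρ * (∑ b, G b b a) * V a := by
      rw [sum_comm, mul_sum]
      refine sum_congr rfl fun a _ => ?_
      rw [← sum_mul]; ring
    rw [this]; ring
  rw [h2, map_sum]
  refine sum_eq_zero fun a _ => ?_
  rw [map_sum]
  exact sum_eq_zero fun i _ => hI _ _

end frame

end Pool.Agent.H83.Curv
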