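import Mathlib
import Pool.Agent.H83.Curv.Density

/-! Symmetries of the curvature of a torsion-free metric connection in an orthonormal frame. -/

namespace Pool.Agent.H83.Curv

open Finset

variable {ι A : Type*} [Fintype ι] [DecidableEq ι] [CommRing A] [Algebra ℝ A]
  (X : ι → Derivation ℝ A A)

omit [DecidableEq ι] in
/-- The commutation relation of the frame, on functions. -/
lemma frame_comm (c : ι → ι → ι → A)
    (hX : ∀ i j x, X i (X j x) - X j (X i x) = ∑ k, c i j k * X k x)
    (e : Matrix ι ι A) (C : ι → ι → ι → A)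
    (htor : ∀ a b k, ∑ m, C a b m * e m k =
      toDer X (e a) (e b k) - toDer X (e b) (e a k) + ∑ i, ∑ j, c i j k * e a i * e b j)
    (a b : ι) (x : A) :
    toDer X (e a) (toDer X (e b) x) - toDer X (e b) (toDer X (e a) x) =
      ∑ m, C a b m * toDer X (e m) x := by
  have h1 : ∀ a b, toDer X (e a) (toDer X (e b) x) =
      ∑ k, toDer X (e a) (e b k) * X k x + ∑ i, ∑ j, e a i * e b j * X i (X j x) := by
    intro a b
    rw [toDer_apply X (e b) x, map_sum]
    simp only [Derivation.leibniz, smul_eq_mul, sum_add_distrib]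
    rw [add_comm]
    congr 1
    · exact sum_congr rfl fun k _ => mul_comm _ _
    · rw [sum_comm]
      refine sum_congr rfl fun j _ => ?_
      rw [toDer_apply, mul_sum]
      exact sum_congr rfl fun i _ => by ring
  have h2 : ∑ m, C a b m * toDer X (e m) x = ∑ k, (∑ m, C a b m * e m k) * X k x := by
    simp only [toDer_apply, mul_sum, sum_mul]
    rw [sum_comm]
    exact sum_congr rfl fun k _ => sum_congr rfl fun m _ => by ring
  have h3 : ∑ i, ∑ j, e b i * e a j * X i (X j x) = ∑ i, ∑ j, e a i * e b j * X j (X i x) := by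
    rw [sum_comm]
    exact sum_congr rfl fun i _ => sum_congr rfl fun j _ => by ring
  have h4 : ∑ k, (∑ i, ∑ j, c i j k * e a i * e b j) * X k x =
      ∑ i, ∑ j, e a i * e b j * (X i (X j x) - X j (X i x)) := by
    simp only [sum_mul, hX, mul_sum]
    rw [sum_comm]
    refine sum_congr rfl fun i _ => ?_
    rw [sum_comm]
    exact sum_congr rfl fun j _ => sum_congr rfl fun k _ => by ring
  rw [h1, h1, h2, h3]
  simp only [htor, add_mul, sub_mul, sum_add_distrib, sum_sub_distrib]
  rw [h4]
  simp only [mul_sub, sum_sub_distrib]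
  ring

/-- Jacobi identity in terms of the structure functions of the frame. -/
lemma frame_jacobi (hind : ∀ u : ι → A, (∀ x, toDer X u x = 0) → u = 0)
    (e f : Matrix ι ι A) (hef : e * f = 1) (C : ι → ι → ι → A)
    (hC : ∀ a b x, toDer X (e a) (toDer X (e b) x) - toDer X (e b) (toDer X (e a) x) =
      ∑ m, C a b m * toDer X (e m) x) (a b d k : ι) :
    (∑ m, C a b m * C m d k - toDer X (e d) (C a b k)) +
    (∑ m, C b d m * C m a k - toDer X (e a) (C b d k)) +
    (∑ m, C d a m * C m b k - toDer X (e b) (C d a k)) = 0 := by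
  set H : ι → A := fun k =>
    (∑ m, C a b m * C m d k - toDer X (e d) (C a b k)) +
    (∑ m, C b d m * C m a k - toDer X (e a) (C b d k)) +
    (∑ m, C d a m * C m b k - toDer X (e b) (C d a k)) with hH
  have h1 : ∀ a b d x, (toDer X (e a) (toDer X (e b) (toDer X (e d) x)) -
      toDer X (e b) (toDer X (e a) (toDer X (e d) x))) -
      (toDer X (e d) (toDer X (e a) (toDer X (e b) x)) -
      toDer X (e d) (toDer X (e b) (toDer X (e a) x))) =
      ∑ k, (∑ m, C a b m * C m d k - toDer X (e d) (C a b k)) * toDer X (e k) x := by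
    intro a b d x
    rw [hC, ← map_sub, hC, map_sum]
    simp only [Derivation.leibniz, smul_eq_mul]
    have e1 : ∀ m, C a b m * toDer X (e m) (toDer X (e d) x) =
        C a b m * toDer X (e d) (toDer X (e m) x) + ∑ k, C a b m * C m d k * toDer X (e k) x := by
      intro m
      have := hC m d x
      simp only [mul_assoc, ← mul_sum, ← this]
      ring
    simp only [e1, sum_add_distrib, sub_mul, sum_sub_distrib, sum_mul]
    rw [sum_comm]
    have : ∀ m, toDer X (e m) x * toDer X (e d) (C a b m) =
      toDer X (e d) (C a b m) * toDer X (e m) x := fun m => mul_comm _ _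
    simp only [this]
    ring
  have h2 : ∀ x, ∑ k, H k * toDer X (e k) x = 0 := by
    intro x
    have h3 := h1 a b d x
    have h4 := h1 b d a x
    have h5 := h1 d a b x
    simp only [hH, add_mul, sum_add_distrib]
    rw [← h3, ← h4, ← h5]
    abel
  have h6 : (fun i => ∑ k, H k * e k i) = 0 := by
    apply hind
    intro x
    rw [← h2 x]
    simp only [toDer_apply, sum_mul, mul_sum]
    rw [sum_comm]
    exact sum_congr rfl fun k _ => sum_congr rfl fun i _ => by ring
  have h7 : H k = 0 := by
    have h8 : ∑ i, (∑ k', H k' * e k' i) * f i k = H k := by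
      simp only [sum_mul]
      rw [sum_comm]
      have : ∀ k', ∑ i, H k' * e k' i * f i k = H k' * (if k' = k then 1 else 0) := by
        intro k'
        have := congrFun (congrFun hef k') k
        rw [Matrix.mul_apply, Matrix.one_apply] at this
        rw [← this, mul_sum]
        exact sum_congr rfl fun i _ => by ring
      simp only [this]
      simp
    rw [← h8]
    refine sum_eq_zero fun i _ => ?_
    have := congrFun h6 i
    simp only [Pi.zero_apply] at this
    rw [this, zero_mul]
  exact h7

omit [DecidableEq ι] in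
/-- First Bianchi identity. -/
lemma frame_bianchi (E : ι → Derivation ℝ A A) (G C : ι → ι → ι → A)
    (hG : ∀ a i j, G a j i = -G a i j)
    (hT : ∀ a b f, C a b f = G b a f - G a b f)
    (hJ : ∀ a b d k, (∑ m, C a b m * C m d k - E d (C a b k)) +
      (∑ m, C b d m * C m a k - E a (C b d k)) +
      (∑ m, C d a m * C m b k - E b (C d a k)) = 0) (a b c d : ι) :
    Rh E G C a b c d + Rh E G C b d c a + Rh E G C d a c b = 0 := by
  have h := hJ a b d c
  have e1 : ∀ a b d, Rh E G C a b c d = (E a (G b c d) - E b (G a c d)) +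
      ∑ e, (G a c e * G b e d - G b c e * G a e d - C a b e * G e c d) := by
    intro a b d
    simp only [Rh, mcomm, sum_sub_distrib]
    ring
  rw [e1, e1, e1]
  have e2 : ∀ a b, E d (C a b c) = E d (G b a c) - E d (G a b c) := by
    intro a b; rw [hT, map_sub]
  have s : ∀ F1 F2 F3 : ι → A, (∑ m, F1 m) + (∑ m, F2 m) + (∑ m, F3 m) =
    ∑ m, (F1 m + F2 m + F3 m) := by
    intro F1 F2 F3; simp only [sum_add_distrib]
  have h' : (∑ m, (C a b m * C m d c + C b d m * C m a c + C d a m * C m b c)) =
      E d (C a b c) + E a (C b d c) + E b (C d a c) := by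
    rw [← s]; linear_combination h
  have h3 : (∑ e, (G a c e * G b e d - G b c e * G a e d - C a b e * G e c d)) +
      (∑ e, (G b c e * G d e a - G d c e * G b e a - C b d e * G e c a)) +
      (∑ e, (G d c e * G a e b - G a c e * G d e b - C d a e * G e c b)) =
      - ∑ m, (C a b m * C m d c + C b d m * C m a c + C d a m * C m b c) := by
    rw [s, ← sum_neg_distrib]
    refine sum_congr rfl fun m _ => ?_
    rw [hT m d c, hT m a c, hT m b c, hT a b m, hT b d m, hT d a m]
    rw [hG b d m, hG a d m, hG d a m, hG b a m, hG a b m, hG d b m, hG d c m, hG a c m, hG b c m,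
      hG m c d, hG m c a, hG m c b]
    ring
  rw [h'] at h3
  rw [hT a b c, hT b d c, hT d a c, hG b c a, hG a c b, hG d c b, hG b c d, hG a c d,
    hG d c a] at h3
  simp only [map_sub, map_neg] at h3
  linear_combination h3

omit [DecidableEq ι] in
/-- Skew symmetry of the curvature in the first pair. -/
lemma Rh_skew1 (E : ι → Derivation ℝ A A) (G C : ι → ι → ι → A)
    (hT : ∀ a b f, C a b f = G b a f - G a b f) (a b c d : ι) :
    Rh E G C b a c d = - Rh E G C a b c d := by
  have h1 : ∑ f, C b a f * G f c d = - ∑ f, C a b f * G f c d := by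
    rw [← sum_neg_distrib]
    exact sum_congr rfl fun f _ => by rw [hT, hT]; ring
  have h2 : mcomm (G b) (G a) c d = - mcomm (G a) (G b) c d := by
    simp only [mcomm, ← sum_neg_distrib]
    exact sum_congr rfl fun f _ => by ring
  simp only [Rh, h1, h2]; ring

omit [DecidableEq ι] in
/-- Skew symmetry of the curvature in the second pair. -/
lemma Rh_skew2 (E : ι → Derivation ℝ A A) (G C : ι → ι → ι → A)
    (hG : ∀ a i j, G a j i = -G a i j) (a b c d : ι) :
    Rh E G C a b d c = - Rh E G C a b c d := by
  have h1 : ∑ f, C a b f * G f d c = - ∑ f, C a b f * G f c d := by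
    rw [← sum_neg_distrib]
    exact sum_congr rfl fun f _ => by rw [hG f c d]; ring
  have h2 : mcomm (G a) (G b) d c = - mcomm (G a) (G b) c d := by
    simp only [mcomm, ← sum_neg_distrib]
    exact sum_congr rfl fun f _ => by rw [hG a f d, hG b c f, hG b f d, hG a c f]; ring
  simp only [Rh, h1, h2, hG b c d, hG a c d, map_neg]; ring

end Pool.Agent.H83.Curv
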