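import Mathlib
import Pool.Agent.H83.Curv.Levi

/-! Exterior derivatives in a global frame with constant structure functions, and their
expression in an orthonormal frame. -/

namespace Pool.Agent.H83.Curv

open Finset

section multilinear

variable {ι A : Type*} [Fintype ι] [CommRing A]

/-- evaluation of a 2-tensor -/
def t2 (w : ι → ι → A) (u v : ι → A) : A := ∑ i, ∑ j, u i * v j * w i j

/-- evaluation of a 3-tensor -/
def t3 (w : ι → ι → ι → A) (u v z : ι → A) : A := ∑ i, ∑ j, ∑ k, u i * v j * z k * w i j k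

/-- evaluation of a 4-tensor -/
def t4 (w : ι → ι → ι → ι → A) (u v z y : ι → A) : A :=
  ∑ i, ∑ j, ∑ k, ∑ l, u i * v j * z k * y l * w i j k l

lemma t2_swap {w : ι → ι → A} (hw : ∀ i j, w j i = -w i j) (u v : ι → A) :
    t2 w v u = - t2 w u v := by
  simp only [t2, ← sum_neg_distrib]
  rw [sum_comm]
  exact sum_congr rfl fun i _ => sum_congr rfl fun j _ => by rw [hw i j]; ring

lemma t3_swap12 {w : ι → ι → ι → A} (hw : Alt3 w) (u v z : ι → A) :
    t3 w v u z = - t3 w u v z := by
  simp only [t3, ← sum_neg_distrib]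
  rw [sum_comm]
  exact sum_congr rfl fun i _ => sum_congr rfl fun j _ => sum_congr rfl fun k _ => by
    rw [hw.1 i j k]; ring

lemma t3_swap23 {w : ι → ι → ι → A} (hw : Alt3 w) (u v z : ι → A) :
    t3 w u z v = - t3 w u v z := by
  simp only [t3, ← sum_neg_distrib]
  refine sum_congr rfl fun i _ => ?_
  rw [sum_comm]
  exact sum_congr rfl fun j _ => sum_congr rfl fun k _ => by
    rw [hw.2 i j k]; ring

lemma t2_add_left (w : ι → ι → A) (u u' v : ι → A) :
    t2 w (u + u') v = t2 w u v + t2 w u' v := by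
  simp only [t2, Pi.add_apply, add_mul, sum_add_distrib]

lemma t3_add_left (w : ι → ι → ι → A) (u u' v z : ι → A) :
    t3 w (u + u') v z = t3 w u v z + t3 w u' v z := by
  simp only [t3, Pi.add_apply, add_mul, sum_add_distrib]

lemma t2_sub_left (w : ι → ι → A) (u u' v : ι → A) :
    t2 w (u - u') v = t2 w u v - t2 w u' v := by
  simp only [t2, Pi.sub_apply, sub_mul, sum_sub_distrib]

lemma t3_sub_left (w : ι → ι → ι → A) (u u' v z : ι → A) :
    t3 w (u - u') v z = t3 w u v z - t3 w u' v z := by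
  simp only [t3, Pi.sub_apply, sub_mul, sum_sub_distrib]

lemma t2_sum_left {κ : Type*} [Fintype κ] (w : ι → ι → A) (c : κ → A) (u : κ → ι → A)
    (v : ι → A) : t2 w (fun i => ∑ m, c m * u m i) v = ∑ m, c m * t2 w (u m) v := by
  simp only [t2, mul_sum, sum_mul]
  have : ∀ F : ι → ι → κ → A, ∑ i, ∑ j, ∑ m, F i j m = ∑ m, ∑ i, ∑ j, F i j m := by
    intro F
    rw [sum_congr rfl fun i _ => sum_comm, sum_comm]
  rw [this]
  exact sum_congr rfl fun m _ => sum_congr rfl fun i _ => sum_congr rfl fun j _ => by ring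

lemma t3_sum_left {κ : Type*} [Fintype κ] (w : ι → ι → ι → A) (c : κ → A) (u : κ → ι → A)
    (v z : ι → A) : t3 w (fun i => ∑ m, c m * u m i) v z = ∑ m, c m * t3 w (u m) v z := by
  simp only [t3, mul_sum, sum_mul]
  have : ∀ F : ι → ι → ι → κ → A, ∑ i, ∑ j, ∑ k, ∑ m, F i j k m =
      ∑ m, ∑ i, ∑ j, ∑ k, F i j k m := by
    intro F
    rw [sum_congr rfl fun i _ => sum_congr rfl fun j _ => sum_comm]
    rw [sum_congr rfl fun i _ => sum_comm]
    rw [sum_comm]
  rw [this]
  exact sum_congr rfl fun m _ => sum_congr rfl fun i _ => sum_congr rfl fun j _ =>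
    sum_congr rfl fun k _ => by ring

lemma t3_12 (T : ι → ι → ι → A) (u v w : ι → A) :
    t3 (fun i j k => T j i k) u v w = t3 T v u w := by
  simp only [t3]
  rw [sum_comm]
  exact sum_congr rfl fun i _ => sum_congr rfl fun j _ => sum_congr rfl fun k _ => by ring

lemma t3_23 (T : ι → ι → ι → A) (u v w : ι → A) :
    t3 (fun i j k => T i k j) u v w = t3 T u w v := by
  simp only [t3]
  refine sum_congr rfl fun i _ => ?_
  rw [sum_comm]
  exact sum_congr rfl fun j _ => sum_congr rfl fun k _ => by ring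

lemma t4_12 (T : ι → ι → ι → ι → A) (u v w z : ι → A) :
    t4 (fun i j k l => T j i k l) u v w z = t4 T v u w z := by
  simp only [t4]
  rw [sum_comm]
  exact sum_congr rfl fun i _ => sum_congr rfl fun j _ => sum_congr rfl fun k _ =>
    sum_congr rfl fun l _ => by ring

lemma t4_23 (T : ι → ι → ι → ι → A) (u v w z : ι → A) :
    t4 (fun i j k l => T i k j l) u v w z = t4 T u w v z := by
  simp only [t4]
  refine sum_congr rfl fun i _ => ?_
  rw [sum_comm]
  exact sum_congr rfl fun j _ => sum_congr rfl fun k _ =>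
    sum_congr rfl fun l _ => by ring

lemma t4_34 (T : ι → ι → ι → ι → A) (u v w z : ι → A) :
    t4 (fun i j k l => T i j l k) u v w z = t4 T u v z w := by
  simp only [t4]
  refine sum_congr rfl fun i _ => sum_congr rfl fun j _ => ?_
  rw [sum_comm]
  exact sum_congr rfl fun k _ =>
    sum_congr rfl fun l _ => by ring

end multilinear

section frame

variable {ι A : Type*} [Fintype ι] [DecidableEq ι] [CommRing A] [Algebra ℝ A]
  (X : ι → Derivation ℝ A A) (c : ι → ι → ι → A)

/-- exterior derivative of a 2-form, in the global frame -/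
def dX2 (h : ι → ι → A) (i j k : ι) : A :=
  X i (h j k) - X j (h i k) + X k (h i j) -
    ((∑ m, c i j m * h m k) - (∑ m, c i k m * h m j) + ∑ m, c j k m * h m i)

/-- exterior derivative of a 3-form, in the global frame -/
def dX3 (w : ι → ι → ι → A) (i j k l : ι) : A :=
  X i (w j k l) - X j (w i k l) + X k (w i j l) - X l (w i j k) -
    ((∑ m, c i j m * w m k l) - (∑ m, c i k m * w m j l) + (∑ m, c i l m * w m j k) +
     (∑ m, c j k m * w m i l) - (∑ m, c j l m * w m i k) + ∑ m, c k l m * w m i j)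

/-- the bilinear bracket of the structure constants -/
def cc (u v : ι → A) : ι → A := fun m => ∑ i, ∑ j, c i j m * u i * v j

omit [DecidableEq ι] in
lemma der_t2 (D : Derivation ℝ A A) (w : ι → ι → A) (u v : ι → A) :
    D (t2 w u v) = t2 (fun i j => D (w i j)) u v + t2 w (fun i => D (u i)) v +
      t2 w u (fun i => D (v i)) := by
  simp only [t2, map_sum, Derivation.leibniz, smul_eq_mul, ← sum_add_distrib]
  exact sum_congr rfl fun i _ => sum_congr rfl fun j _ => by ring

omit [DecidableEq ι] in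
lemma der_t3 (D : Derivation ℝ A A) (w : ι → ι → ι → A) (u v z : ι → A) :
    D (t3 w u v z) = t3 (fun i j k => D (w i j k)) u v z + t3 w (fun i => D (u i)) v z +
      t3 w u (fun i => D (v i)) z + t3 w u v (fun i => D (z i)) := by
  simp only [t3, map_sum, Derivation.leibniz, smul_eq_mul, ← sum_add_distrib]
  exact sum_congr rfl fun i _ => sum_congr rfl fun j _ => sum_congr rfl fun k _ => by ring

omit [DecidableEq ι] in
lemma t2_toDer (w : ι → ι → A) (a u v : ι → A) :
    t2 (fun i j => toDer X a (w i j)) u v = t3 (fun i j k => X i (w j k)) a u v := by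
  simp only [t2, t3, toDer_apply, mul_sum]
  have : ∀ F : ι → ι → ι → A, ∑ i, ∑ j, ∑ k, F i j k = ∑ k, ∑ i, ∑ j, F i j k := by
    intro F
    rw [sum_congr rfl fun b _ => sum_comm, sum_comm]
  rw [this]
  exact sum_congr rfl fun i _ => sum_congr rfl fun j _ => sum_congr rfl fun k _ => by ring

omit [DecidableEq ι] in
lemma t3_toDer (w : ι → ι → ι → A) (a u v z : ι → A) :
    t3 (fun i j k => toDer X a (w i j k)) u v z = t4 (fun i j k l => X i (w j k l)) a u v z := by
  simp only [t3, t4, toDer_apply, mul_sum]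
  have : ∀ F : ι → ι → ι → ι → A, ∑ i, ∑ j, ∑ k, ∑ m, F i j k m =
      ∑ m, ∑ i, ∑ j, ∑ k, F i j k m := by
    intro F
    rw [sum_congr rfl fun i _ => sum_congr rfl fun j _ => sum_comm]
    rw [sum_congr rfl fun i _ => sum_comm]
    rw [sum_comm]
  rw [this]
  exact sum_congr rfl fun i _ => sum_congr rfl fun j _ => sum_congr rfl fun k _ =>
    sum_congr rfl fun l _ => by ring

omit [DecidableEq ι] [Algebra ℝ A] in
lemma t3_cc (h : ι → ι → A) (a b u : ι → A) :
    t3 (fun i j k => ∑ m, c i j m * h m k) a b u = t2 h (cc c a b) u := by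
  have e1 : t3 (fun i j k => ∑ m, c i j m * h m k) a b u =
      ∑ i, ∑ j, ∑ k, ∑ m, c i j m * a i * b j * u k * h m k := by
    simp only [t3, mul_sum]
    exact sum_congr rfl fun i _ => sum_congr rfl fun j _ => sum_congr rfl fun k _ =>
      sum_congr rfl fun m _ => by ring
  have e2 : t2 h (cc c a b) u = ∑ m, ∑ k, ∑ i, ∑ j, c i j m * a i * b j * u k * h m k := by
    simp only [t2, cc, sum_mul]
  have : ∀ F : ι → ι → ι → ι → A, ∑ m, ∑ k, ∑ i, ∑ j, F i j k m =
      ∑ i, ∑ j, ∑ k, ∑ m, F i j k m := by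
    intro F
    have s1 : ∀ m, ∑ k, ∑ i, ∑ j, F i j k m = ∑ i, ∑ j, ∑ k, F i j k m := by
      intro m
      rw [sum_comm]
      exact sum_congr rfl fun i _ => sum_comm
    simp only [s1]
    rw [sum_comm]
    refine sum_congr rfl fun i _ => ?_
    rw [sum_comm]
    exact sum_congr rfl fun j _ => sum_comm
  rw [e1, e2]
  exact (this fun i j k m => c i j m * a i * b j * u k * h m k).symm

omit [DecidableEq ι] [Algebra ℝ A] in
lemma t4_cc (w : ι → ι → ι → A) (a b u v : ι → A) :
    t4 (fun i j k l => ∑ m, c i j m * w m k l) a b u v = t3 w (cc c a b) u v := by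
  have e1 : t4 (fun i j k l => ∑ m, c i j m * w m k l) a b u v =
      ∑ i, ∑ j, ∑ k, ∑ l, ∑ m, c i j m * a i * b j * u k * v l * w m k l := by
    simp only [t4, mul_sum]
    exact sum_congr rfl fun i _ => sum_congr rfl fun j _ => sum_congr rfl fun k _ =>
      sum_congr rfl fun l _ => sum_congr rfl fun m _ => by ring
  have e2 : t3 w (cc c a b) u v =
      ∑ m, ∑ k, ∑ l, ∑ i, ∑ j, c i j m * a i * b j * u k * v l * w m k l := by
    simp only [t3, cc, sum_mul]
  have : ∀ F : ι → ι → ι → ι → ι → A, ∑ m, ∑ k, ∑ l, ∑ i, ∑ j, F i j k l m =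
      ∑ i, ∑ j, ∑ k, ∑ l, ∑ m, F i j k l m := by
    intro F
    have s1 : ∀ m k, ∑ l, ∑ i, ∑ j, F i j k l m = ∑ i, ∑ j, ∑ l, F i j k l m := by
      intro m k
      rw [sum_comm]
      exact sum_congr rfl fun i _ => sum_comm
    have s2 : ∀ m, ∑ k, ∑ i, ∑ j, ∑ l, F i j k l m = ∑ i, ∑ j, ∑ k, ∑ l, F i j k l m := by
      intro m
      rw [sum_comm]
      exact sum_congr rfl fun i _ => sum_comm
    simp only [s1, s2]
    rw [sum_comm]
    refine sum_congr rfl fun i _ => ?_
    rw [sum_comm]
    refine sum_congr rfl fun j _ => ?_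
    rw [sum_comm]
    exact sum_congr rfl fun j _ => sum_comm
  rw [e1, e2]
  exact (this fun i j k l m => c i j m * a i * b j * u k * v l * w m k l).symm

omit [DecidableEq ι] [Algebra ℝ A] in
lemma t3_sub (S T : ι → ι → ι → A) (u v z : ι → A) :
    t3 (fun i j k => S i j k - T i j k) u v z = t3 S u v z - t3 T u v z := by
  simp only [t3, mul_sub, sum_sub_distrib]

omit [DecidableEq ι] [Algebra ℝ A] in
lemma t3_add (S T : ι → ι → ι → A) (u v z : ι → A) :
    t3 (fun i j k => S i j k + T i j k) u v z = t3 S u v z + t3 T u v z := by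
  simp only [t3, mul_add, sum_add_distrib]

omit [DecidableEq ι] [Algebra ℝ A] in
lemma t4_sub (S T : ι → ι → ι → ι → A) (u v z y : ι → A) :
    t4 (fun i j k l => S i j k l - T i j k l) u v z y = t4 S u v z y - t4 T u v z y := by
  simp only [t4, mul_sub, sum_sub_distrib]

omit [DecidableEq ι] [Algebra ℝ A] in
lemma t4_add (S T : ι → ι → ι → ι → A) (u v z y : ι → A) :
    t4 (fun i j k l => S i j k l + T i j k l) u v z y = t4 S u v z y + t4 T u v z y := by
  simp only [t4, mul_add, sum_add_distrib]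

omit [DecidableEq ι] in
/-- The exterior derivative evaluated on four vector fields. -/
lemma t4_dX3 (w : ι → ι → ι → A) (u0 u1 u2 u3 : ι → A) :
    t4 (dX3 X c w) u0 u1 u2 u3 =
      t3 (fun i j k => toDer X u0 (w i j k)) u1 u2 u3 -
      t3 (fun i j k => toDer X u1 (w i j k)) u0 u2 u3 +
      t3 (fun i j k => toDer X u2 (w i j k)) u0 u1 u3 -
      t3 (fun i j k => toDer X u3 (w i j k)) u0 u1 u2 -
      (t3 w (cc c u0 u1) u2 u3 - t3 w (cc c u0 u2) u1 u3 + t3 w (cc c u0 u3) u1 u2 +
       t3 w (cc c u1 u2) u0 u3 - t3 w (cc c u1 u3) u0 u2 + t3 w (cc c u2 u3) u0 u1) := by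
  simp only [t3_toDer, ← t4_cc]
  set B : ι → ι → ι → ι → A := fun i j k l => X i (w j k l) with hB
  set B' : ι → ι → ι → ι → A := fun i j k l => ∑ m, c i j m * w m k l with hB'
  have h : dX3 X c w = fun i j k l => B i j k l - B j i k l + B k i j l - B l i j k -
      (B' i j k l - B' i k j l + B' i l j k + B' j k i l - B' j l i k + B' k l i j) := by
    funext i j k l
    simp only [dX3, hB, hB']
  rw [h]
  simp only [t4_sub, t4_add]
  have e1 : t4 (fun i j k l => B j i k l) u0 u1 u2 u3 = t4 B u1 u0 u2 u3 := t4_12 B _ _ _ _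
  have e2 : t4 (fun i j k l => B k i j l) u0 u1 u2 u3 = t4 B u2 u0 u1 u3 := by
    rw [t4_23 (fun i j k l => B j i k l), t4_12 B]
  have e3 : t4 (fun i j k l => B l i j k) u0 u1 u2 u3 = t4 B u3 u0 u1 u2 := by
    rw [t4_34 (fun i j k l => B k i j l), t4_23 (fun i j k l => B j i k l), t4_12 B]
  have e4 : t4 (fun i j k l => B' i k j l) u0 u1 u2 u3 = t4 B' u0 u2 u1 u3 := t4_23 B' _ _ _ _
  have e5 : t4 (fun i j k l => B' i l j k) u0 u1 u2 u3 = t4 B' u0 u3 u1 u2 := by
    rw [t4_34 (fun i j k l => B' i k j l), t4_23 B']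
  have e6 : t4 (fun i j k l => B' j k i l) u0 u1 u2 u3 = t4 B' u1 u2 u0 u3 := by
    rw [t4_12 (fun i j k l => B' i k j l), t4_23 B']
  have e7 : t4 (fun i j k l => B' j l i k) u0 u1 u2 u3 = t4 B' u1 u3 u0 u2 := by
    rw [t4_34 (fun i j k l => B' j k i l), t4_12 (fun i j k l => B' i k j l), t4_23 B']
  have e8 : t4 (fun i j k l => B' k l i j) u0 u1 u2 u3 = t4 B' u2 u3 u0 u1 := by
    rw [t4_23 (fun i j k l => B' j l i k), t4_34 (fun i j k l => B' j k i l),
      t4_12 (fun i j k l => B' i k j l), t4_23 B']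
  rw [e1, e2, e3, e4, e5, e6, e7, e8]

omit [DecidableEq ι] in
lemma t3_dX2 (w : ι → ι → A) (u0 u1 u2 : ι → A) :
    t3 (dX2 X c w) u0 u1 u2 =
      t2 (fun i j => toDer X u0 (w i j)) u1 u2 -
      t2 (fun i j => toDer X u1 (w i j)) u0 u2 +
      t2 (fun i j => toDer X u2 (w i j)) u0 u1 -
      (t2 w (cc c u0 u1) u2 - t2 w (cc c u0 u2) u1 + t2 w (cc c u1 u2) u0) := by
  simp only [t2_toDer, ← t3_cc]
  set B : ι → ι → ι → A := fun i j k => X i (w j k) with hB
  set B' : ι → ι → ι → A := fun i j k => ∑ m, c i j m * w m k with hB'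
  have h : dX2 X c w = fun i j k => B i j k - B j i k + B k i j -
      (B' i j k - B' i k j + B' j k i) := by
    funext i j k
    simp only [dX2, hB, hB']
  rw [h]
  simp only [t3_sub, t3_add]
  have e1 : t3 (fun i j k => B j i k) u0 u1 u2 = t3 B u1 u0 u2 := t3_12 B _ _ _
  have e2 : t3 (fun i j k => B k i j) u0 u1 u2 = t3 B u2 u0 u1 := by
    rw [t3_23 (fun i j k => B j i k), t3_12 B]
  have e4 : t3 (fun i j k => B' i k j) u0 u1 u2 = t3 B' u0 u2 u1 := t3_23 B' _ _ _
  have e6 : t3 (fun i j k => B' j k i) u0 u1 u2 = t3 B' u1 u2 u0 := by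
    rw [t3_12 (fun i j k => B' i k j), t3_23 B']
  rw [e1, e2, e4, e6]

/-- covariant derivative of a 2-tensor in an orthonormal frame -/
def cD2 (E : ι → Derivation ℝ A A) (G : ι → ι → ι → A) (a : ι) (h : ι → ι → A) (b d : ι) : A :=
  E a (h b d) + ∑ f, (G a b f * h f d + G a d f * h b f)

omit [DecidableEq ι] in
/-- The exterior derivative of a 3-form in an orthonormal frame. -/
theorem dX3_frame (e : ι → ι → A) (G : ι → ι → ι → A)
    (htor : ∀ a b k, ∑ m, (G b a m - G a b m) * e m k =
      toDer X (e a) (e b k) - toDer X (e b) (e a k) + ∑ i, ∑ j, c i j k * e a i * e b j)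
    {w : ι → ι → ι → A} (hw : Alt3 w) (a b p d : ι) :
    t4 (dX3 X c w) (e a) (e b) (e p) (e d) =
      cD (fun a => toDer X (e a)) G a (fun i j k => t3 w (e i) (e j) (e k)) b p d -
      cD (fun a => toDer X (e a)) G b (fun i j k => t3 w (e i) (e j) (e k)) a p d +
      cD (fun a => toDer X (e a)) G p (fun i j k => t3 w (e i) (e j) (e k)) a b d -
      cD (fun a => toDer X (e a)) G d (fun i j k => t3 w (e i) (e j) (e k)) a b p := by
  set O : ι → ι → ι → A := fun i j k => t3 w (e i) (e j) (e k) with hO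
  have hOalt : Alt3 O := ⟨fun i j k => t3_swap12 hw _ _ _, fun i j k => t3_swap23 hw _ _ _⟩
  -- derivative of the components
  have hder : ∀ a b p d, toDer X (e a) (O b p d) =
      t3 (fun i j k => toDer X (e a) (w i j k)) (e b) (e p) (e d) +
      t3 w (fun i => toDer X (e a) (e b i)) (e p) (e d) -
      t3 w (fun i => toDer X (e a) (e p i)) (e b) (e d) +
      t3 w (fun i => toDer X (e a) (e d i)) (e b) (e p) := by
    intro a b p d
    rw [hO]
    simp only
    rw [der_t3]
    rw [t3_swap12 hw (fun i => toDer X (e a) (e p i)) (e b) (e d)]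
    rw [t3_swap23 hw (e b) (fun i => toDer X (e a) (e d i)) (e p),
      t3_swap12 hw (fun i => toDer X (e a) (e d i)) (e b) (e p)]
    ring
  -- the torsion identity inserted in the first slot
  have htor' : ∀ a b u v, t3 w (fun i => toDer X (e a) (e b i)) u v -
      t3 w (fun i => toDer X (e b) (e a i)) u v + t3 w (cc c (e a) (e b)) u v =
      ∑ m, (G b a m - G a b m) * t3 w (e m) u v := by
    intro a b u v
    rw [← t3_sum_left, ← t3_sub_left, ← t3_add_left]
    congr 1
    funext k
    simp only [Pi.add_apply, Pi.sub_apply, cc, htor]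
  have hact : ∀ a b p d, act3 (G a) O b p d = (∑ m, G a b m * O m p d) - (∑ m, G a p m * O m b d) +
      ∑ m, G a d m * O m b p := by
    intro a b p d
    simp only [act3, ← sum_sub_distrib, ← sum_add_distrib]
    refine sum_congr rfl fun m _ => ?_
    rw [hOalt.1 m b d, hOalt.2 b m p, hOalt.1 m b p]; ring
  rw [t4_dX3]
  simp only [cD, Pi.add_apply, dE, hder, hact]
  have f1 := htor' a b (e p) (e d)
  have f2 := htor' a p (e b) (e d)
  have f3 := htor' a d (e b) (e p)
  have f4 := htor' b p (e a) (e d)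
  have f5 := htor' b d (e a) (e p)
  have f6 := htor' p d (e a) (e b)
  simp only [sub_mul, sum_sub_distrib] at f1 f2 f3 f4 f5 f6
  simp only [hO]
  linear_combination (-1 : A) * f1 + f2 - f3 - f4 + f5 - f6

omit [DecidableEq ι] in
/-- The exterior derivative of a 2-form in an orthonormal frame. -/
theorem dX2_frame (e : ι → ι → A) (G : ι → ι → ι → A)
    (htor : ∀ a b k, ∑ m, (G b a m - G a b m) * e m k =
      toDer X (e a) (e b k) - toDer X (e b) (e a k) + ∑ i, ∑ j, c i j k * e a i * e b j)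
    {w : ι → ι → A} (hw : ∀ i j, w j i = - w i j) (a b p : ι) :
    t3 (dX2 X c w) (e a) (e b) (e p) =
      cD2 (fun a => toDer X (e a)) G a (fun i j => t2 w (e i) (e j)) b p -
      cD2 (fun a => toDer X (e a)) G b (fun i j => t2 w (e i) (e j)) a p +
      cD2 (fun a => toDer X (e a)) G p (fun i j => t2 w (e i) (e j)) a b := by
  set O : ι → ι → A := fun i j => t2 w (e i) (e j) with hO
  have hOalt : ∀ i j, O j i = - O i j := fun i j => t2_swap hw _ _
  have hder : ∀ a b p, toDer X (e a) (O b p) =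
      t2 (fun i j => toDer X (e a) (w i j)) (e b) (e p) +
      t2 w (fun i => toDer X (e a) (e b i)) (e p) -
      t2 w (fun i => toDer X (e a) (e p i)) (e b) := by
    intro a b p
    rw [hO]
    simp only
    rw [der_t2]
    rw [t2_swap hw (fun i => toDer X (e a) (e p i)) (e b)]
    ring
  have htor' : ∀ a b u, t2 w (fun i => toDer X (e a) (e b i)) u -
      t2 w (fun i => toDer X (e b) (e a i)) u + t2 w (cc c (e a) (e b)) u =
      ∑ m, (G b a m - G a b m) * t2 w (e m) u := by
    intro a b u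
    rw [← t2_sum_left, ← t2_sub_left, ← t2_add_left]
    congr 1
    funext k
    simp only [Pi.add_apply, Pi.sub_apply, cc, htor]
  have hact : ∀ a b p, ∑ f, (G a b f * O f p + G a p f * O b f) =
      (∑ m, G a b m * O m p) - (∑ m, G a p m * O m b) := by
    intro a b p
    simp only [← sum_sub_distrib]
    refine sum_congr rfl fun m _ => ?_
    rw [hOalt m b]; ring
  rw [t3_dX2]
  simp only [cD2, hder, hact]
  have f1 := htor' a b (e p)
  have f2 := htor' a p (e b)
  have f4 := htor' b p (e a)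
  simp only [sub_mul, sum_sub_distrib] at f1 f2 f4
  simp only [hO]
  linear_combination (-1 : A) * f1 + f2 - f4

end frame

end Pool.Agent.H83.Curv
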