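import Mathlib
import Pool.Agent.H83.Curv.Forms

/-! `d ∘ d = 0` and alternation of exterior derivatives. -/

namespace Pool.Agent.H83.Curv

open Finset

variable {ι A : Type*} [Fintype ι] [CommRing A] [Algebra ℝ A]
  (X : ι → Derivation ℝ A A) (c : ι → ι → ι → A)

lemma dX2_alt (hc : ∀ i j k, c j i k = - c i j k) {h : ι → ι → A} (hh : ∀ i j, h j i = - h i j) :
    Alt3 (dX2 X c h) := by
  constructor
  · intro i j k
    have e1 : ∑ m, c j i m * h m k = - ∑ m, c i j m * h m k := by
      rw [← sum_neg_distrib]; exact sum_congr rfl fun m _ => by rw [hc]; ring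
    simp only [dX2, e1, hh i j, map_neg]; ring
  · intro i j k
    have e1 : ∑ m, c k j m * h m i = - ∑ m, c j k m * h m i := by
      rw [← sum_neg_distrib]; exact sum_congr rfl fun m _ => by rw [hc]; ring
    simp only [dX2, e1, hh j k, map_neg]; ring

theorem dX3_dX2 (hX : ∀ i j x, X i (X j x) - X j (X i x) = ∑ k, c i j k * X k x)
    (hcX : ∀ i j k l, X l (c i j k) = 0) (hc : ∀ i j k, c j i k = - c i j k)
    (hJ : ∀ i j k l, ∑ m, (c i j m * c m k l + c j k m * c m i l + c k i m * c m j l) = 0)
    {h : ι → ι → A} (hh : ∀ i j, h j i = - h i j) (i j k l : ι) :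
    dX3 X c (dX2 X c h) i j k l = 0 := by
  have hD : ∀ i j k l, (∑ m, ∑ p, c i j m * (c m k p * h p l)) +
      (∑ m, ∑ p, c j k m * (c m i p * h p l)) - (∑ m, ∑ p, c i k m * (c m j p * h p l)) = 0 := by
    intro i j k l
    have e1 : ∑ m, ∑ p, c i k m * (c m j p * h p l) = - ∑ m, ∑ p, c k i m * (c m j p * h p l) := by
      simp only [← sum_neg_distrib]
      exact sum_congr rfl fun m _ => sum_congr rfl fun p _ => by rw [hc i k m]; ring
    rw [e1, sub_neg_eq_add, ← sum_add_distrib, ← sum_add_distrib]
    simp only [← sum_add_distrib]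
    rw [sum_comm]
    refine sum_eq_zero fun p _ => ?_
    have := hJ i j k p
    calc _ = (∑ m, (c i j m * c m k p + c j k m * c m i p + c k i m * c m j p)) * h p l := by
            rw [sum_mul]; exact sum_congr rfl fun m _ => by ring
      _ = 0 := by rw [this, zero_mul]
  have hF : ∀ i j k l, (∑ m, ∑ p, c i j m * (c k l p * h p m)) +
      (∑ m, ∑ p, c k l m * (c i j p * h p m)) = 0 := by
    intro i j k l
    have e1 : ∑ m, ∑ p, c i j m * (c k l p * h p m) = - ∑ m, ∑ p, c k l m * (c i j p * h p m) := by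
      rw [sum_comm]
      simp only [← sum_neg_distrib]
      exact sum_congr rfl fun m _ => sum_congr rfl fun p _ => by rw [hh p m]; ring
    rw [e1]; ring
  have x1 := hX i j (h k l)
  have x2 := hX i k (h j l)
  have x3 := hX i l (h j k)
  have x4 := hX j k (h i l)
  have x5 := hX j l (h i k)
  have x6 := hX k l (h i j)
  simp only [dX3, dX2, map_sub, map_add, map_sum, Derivation.leibniz, hcX, smul_eq_mul, mul_zero,
    add_zero, mul_sub, mul_add, sum_sub_distrib, sum_add_distrib, mul_sum]
  linear_combination x1 - x2 + x3 + x4 - x5 + x6 + hD i j k l - hD i j l k + hD i k l j - hD j k l i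
    + hF i j k l - hF i k j l + hF i l j k

end Pool.Agent.H83.Curv
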