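import Mathlib
import Pool.Agent.H83.Curv.Alg
import Pool.Agent.H83.Curv.Bochner

/-! Closed forms, and the curvature term in index notation. -/

namespace Pool.Agent.H83.Curv

open Finset

section gen

variable {ι A : Type*} [Fintype ι] [CommRing A]

lemma act3_alt' {Y : ι → ι → A} {w : ι → ι → ι → A} (hw : Alt3 w) : Alt3 (act3 Y w) := by
  constructor
  · intro i j k
    simp only [act3, ← sum_neg_distrib]
    refine sum_congr rfl fun e _ => ?_
    rw [hw.1 e i k, hw.1 j e k, hw.1 i j e]; ring
  · intro i j k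
    simp only [act3, ← sum_neg_distrib]
    refine sum_congr rfl fun e _ => ?_
    rw [hw.2 e j k, hw.2 i e j, hw.2 i k e]; ring

lemma cD_alt [Algebra ℝ A] (E : ι → Derivation ℝ A A) (G : ι → ι → ι → A) (a : ι)
    {w : ι → ι → ι → A} (hw : Alt3 w) : Alt3 (cD E G a w) := by
  have h := act3_alt' (Y := G a) hw
  constructor
  · intro i j k
    simp only [cD, Pi.add_apply, dE, h.1 i j k, hw.1 i j k, map_neg]; ring
  · intro i j k
    simp only [cD, Pi.add_apply, dE, h.2 i j k, hw.2 i j k, map_neg]; ring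

/-- For a closed form the full norm of the covariant derivative is a contraction. -/
lemma closed_norm (T : ι → ι → ι → ι → A) (hT : ∀ a, Alt3 (T a))
    (hcl : ∀ a b c d, T a b c d - T b a c d + T c a b d - T d a b c = 0) :
    ∑ a, ∑ b, ∑ c, ∑ d, T a b c d * T a b c d = 3 * ∑ a, ∑ b, P1 (T a) (T b) b a := by
  have h1 : ∀ a b c d, T a b c d * T a b c d =
      T a b c d * T b a c d - T a b c d * T c a b d + T a b c d * T d a b c := by
    intro a b c d
    linear_combination T a b c d * hcl a b c d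
  have h2 : ∑ a, ∑ b, ∑ c, ∑ d, T a b c d * T c a b d =
      - ∑ a, ∑ b, ∑ c, ∑ d, T a b c d * T b a c d := by
    simp only [← sum_neg_distrib]
    refine sum_congr rfl fun a _ => ?_
    rw [sum_comm]
    refine sum_congr rfl fun b _ => sum_congr rfl fun c _ => sum_congr rfl fun d _ => ?_
    rw [(hT a).1 b c d]; ring
  have h3 : ∑ a, ∑ b, ∑ c, ∑ d, T a b c d * T d a b c =
      ∑ a, ∑ b, ∑ c, ∑ d, T a b c d * T b a c d := by
    refine sum_congr rfl fun a _ => ?_
    have : ∀ F : ι → ι → ι → A, ∑ b, ∑ c, ∑ d, F b c d = ∑ d, ∑ b, ∑ c, F b c d := by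
      intro F
      rw [sum_congr rfl fun b _ => sum_comm, sum_comm]
    rw [this]
    refine sum_congr rfl fun b _ => sum_congr rfl fun c _ => sum_congr rfl fun d _ => ?_
    have : T a c d b = T a b c d := by
      rw [(hT a).2 c b d, (hT a).1 b c d]; ring
    rw [this]
  simp only [h1, sum_add_distrib, sum_sub_distrib, h2, h3, P1]
  ring

end gen

/-- the pairing with an elementary skew matrix -/
lemma act3_Ep (p : Pair) (w : T3 ℝ) : act3 (Ep p) w =
    act3 (fun i j => dl p.1.1 i * dl p.1.2 j - dl p.1.2 i * dl p.1.1 j) w := by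
  have : Ep p = fun i j => dl p.1.1 i * dl p.1.2 j - dl p.1.2 i * dl p.1.1 j := by
    funext i j
    rcases lt_trichotomy i j with h | h | h
    · rw [Ep, toSkew_of_lt _ h]
      have h0 := K4_pair p ⟨(i, j), h⟩
      rw [K4] at h0
      simp only at h0
      rw [Pi.single_apply]
      rw [show dl p.1.2 i * dl p.1.1 j = dl p.1.1 j * dl p.1.2 i by ring, h0]
      simp only [eq_comm]
    · subst h
      have : toSkew (Pi.single p (1 : ℝ)) i i = 0 := by
        have := toSkew_skew (Pi.single p (1 : ℝ)) i i; linarith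
      rw [Ep, this]; ring
    · rw [Ep, toSkew_skew _ j i, toSkew_of_lt _ h]
      have h0 := K4_pair p ⟨(j, i), h⟩
      rw [K4] at h0
      simp only at h0
      rw [Pi.single_apply]
      have h1 : dl p.1.1 i * dl p.1.2 j - dl p.1.2 i * dl p.1.1 j =
        -(dl p.1.1 j * dl p.1.2 i - dl p.1.1 i * dl p.1.2 j) := by ring
      rw [h1, h0]
      simp only [eq_comm]
  rw [this]

/-- full elementary matrices -/
def Em (a b : Fin 6) : T2 ℝ := fun i j => dl a i * dl b j - dl b i * dl a j

lemma ip3_Em {v w : T3 ℝ} (hv : Alt3 v) (hw : Alt3 w) (a b : Fin 6) :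
    ip3 (act3 (Em a b) w) v = 3 * (P1 w v b a - P1 w v a b) := by
  have h1 : ∀ i j k, act3 (Em a b) w i j k =
      (dl a i * w b j k - dl b i * w a j k) + (dl a j * w i b k - dl b j * w i a k) +
      (dl a k * w i j b - dl b k * w i j a) := by
    intro i j k
    simp only [act3, Em, sub_mul, sum_add_distrib, sum_sub_distrib, mul_assoc, ← mul_sum, sum_dl]
  have c1 : ∀ (i j k : Fin 6), v k i j = v i j k := by
    intro i j k; rw [hv.1 i k j, hv.2 i j k]; ring
  have e1 : ∀ (x y : Fin 6), ∑ i, ∑ j, ∑ k, dl x i * w y j k * v i j k = P1 w v y x := by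
    intro x y
    simp only [mul_assoc, ← mul_sum, sum_dl, P1]
  have e2 : ∀ (x y : Fin 6), ∑ i, ∑ j, ∑ k, dl x j * w i y k * v i j k = P1 w v y x := by
    intro x y
    have : ∀ i j k, dl x j * w i y k * v i j k = dl x j * (w y i k * v j i k) := by
      intro i j k
      rw [hw.1 y i k, hv.1 j i k]; ring
    simp only [this]
    rw [sum_comm]
    simp only [← mul_sum, sum_dl, P1]
  have e3 : ∀ (x y : Fin 6), ∑ i, ∑ j, ∑ k, dl x k * w i j y * v i j k = P1 w v y x := by
    intro x y
    have : ∀ i j k, dl x k * w i j y * v i j k = dl x k * (w y i j * v k i j) := by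
      intro i j k
      have : w y i j = w i j y := by rw [hw.1 i y j, hw.2 i j y]; ring
      rw [this, c1 i j k]; ring
    simp only [this]
    have : ∀ F : Fin 6 → Fin 6 → Fin 6 → ℝ, ∑ i, ∑ j, ∑ k, F i j k = ∑ k, ∑ i, ∑ j, F i j k := by
      intro F
      rw [sum_congr rfl fun b _ => sum_comm, sum_comm]
    rw [this]
    simp only [← mul_sum, sum_dl, P1]
  simp only [ip3, h1, add_mul, sub_mul, sum_add_distrib, sum_sub_distrib, e1, e2, e3]
  ring

/-- The curvature term in index notation. -/
theorem curvTerm_eq {R : Fin 6 → Fin 6 → Fin 6 → Fin 6 → ℝ}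
    (h1 : ∀ i j k l, R j i k l = -R i j k l) (h2 : ∀ i j k l, R i j l k = -R i j k l)
    {w : T3 ℝ} (hw : Alt3 w) :
    curvTerm R w = 3 * ∑ a, ∑ b, P1 w (act3 (R a b) w) b a := by
  have e1 : ∀ p : Pair, ∑ q : Pair, R p.1.1 p.1.2 q.1.1 q.1.2 * ip3 (act3 (Ep p) w) (act3 (Ep q) w)
      = ip3 (act3 (Em p.1.1 p.1.2) w) (act3 (R p.1.1 p.1.2) w) := by
    intro p
    have h3 : R p.1.1 p.1.2 = toSkew (fun q => R p.1.1 p.1.2 q.1.1 q.1.2) := by
      funext i j
      rcases lt_trichotomy i j with h | h | h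
      · rw [toSkew_of_lt _ h]
      · subst h
        have e := h2 p.1.1 p.1.2 i i
        have e' := toSkew_skew (fun q => R p.1.1 p.1.2 q.1.1 q.1.2) i i
        linarith
      · rw [toSkew_skew _ j i, toSkew_of_lt _ h, h2]
    have h4 : act3 (R p.1.1 p.1.2) w =
        fun i j k => ∑ q : Pair, R p.1.1 p.1.2 q.1.1 q.1.2 * act3 (Ep q) w i j k := by
      conv_lhs => rw [h3]
      rw [act3_toSkew]
    have h5 : act3 (Ep p) w = fun i j k => ∑ _u : Fin 1, (1 : ℝ) * act3 (Ep p) w i j k := by
      funext i j k; simp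
    have h6 : act3 (Em p.1.1 p.1.2) w = act3 (Ep p) w := by rw [act3_Ep]; rfl
    rw [h6]
    conv_rhs => rw [h5, h4, ip3_sum]
    simp
  rw [curvTerm, sum_congr rfl fun p _ => e1 p]
  have e2 : ∀ a b : Fin 6, ip3 (act3 (Em a b) w) (act3 (R a b) w) =
      3 * (P1 w (act3 (R a b) w) b a + P1 w (act3 (R b a) w) a b) := by
    intro a b
    rw [ip3_Em (act3_alt hw) hw]
    have h3 : act3 (R b a) w = -act3 (R a b) w := by
      have : R b a = fun i j => -R a b i j := by funext i j; rw [h1 a b]
      rw [this]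
      funext i j k
      simp only [act3, Pi.neg_apply, ← sum_neg_distrib]
      exact sum_congr rfl fun e _ => by ring
    rw [h3]
    simp only [P1, Pi.neg_apply, mul_neg, sum_neg_distrib]
    ring
  simp only [e2]
  -- sum over pairs of a symmetric function
  have e3 : ∀ F : Fin 6 → Fin 6 → ℝ, (∀ a, F a a = 0) →
      ∑ p : Pair, (F p.1.1 p.1.2 + F p.1.2 p.1.1) = ∑ a, ∑ b, F a b := by
    intro F hF
    rw [sum_pair]
    simp only [Fin.sum_univ_six, hF]
    ring
  rw [← mul_sum, e3 (fun a b => P1 w (act3 (R a b) w) b a)]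
  intro a
  have h3 : act3 (R a a) w = 0 := by
    have : R a a = fun _ _ => 0 := by
      funext i j
      have := h1 a a i j
      linarith
    rw [this]
    funext i j k
    simp [act3]
  simp [P1, h3]

/-- The symmetries of a curvature tensor follow from the skew symmetries and the first Bianchi
identity. -/
lemma isCurv_of {R : Fin 6 → Fin 6 → Fin 6 → Fin 6 → ℝ}
    (h1 : ∀ i j k l, R j i k l = -R i j k l) (h2 : ∀ i j k l, R i j l k = -R i j k l)
    (h3 : ∀ a b c d, R a b c d + R b d c a + R d a c b = 0) : IsCurv R := by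
  have hB : ∀ i j k l, R i j k l + R j k i l + R k i j l = 0 := by
    intro i j k l
    have := h3 i j l k
    rw [h2 i j k l, h2 j k i l, h2 k i j l] at this
    linarith
  refine ⟨h1, h2, ?_, hB⟩
  intro i j k l
  have b1 := hB i j k l
  have b2 := hB j k l i
  have b3 := hB k l i j
  have b4 := hB l i j k
  have s1 := h2 j k i l
  have s2 := h2 k l i j
  have s3 : R i k l j = R k i j l := by rw [h1 k i l j, h2 k i j l]; ring
  have s4 : R j l i k = R l j k i := by rw [h1 l j i k, h2 l j k i]; ring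
  have s5 := h2 l i k j
  have s6 := h2 i j k l
  linarith

end Pool.Agent.H83.Curv
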