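import Mathlib
import Pool.Agent.H83.Curv.DD
import Pool.Agent.H83.Curv.Link

/-! The abstract calculus on a compact parallelised space, and its `L²` seminorm. -/

namespace Pool.Agent.H83.Curv

open Finset Filter Topology

/-- A ring of functions with an integral, a global frame of derivations with constant structure
functions, and mollifiers commuting with the frame. -/
structure Calc (M A : Type*) [TopologicalSpace M] [CommRing A] [Algebra ℝ A] where
  ev : A →ₐ[ℝ] (M → ℝ)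
  cont : ∀ f, Continuous (ev f)
  I : A →ₗ[ℝ] ℝ
  I_nonneg : ∀ f, (∀ x, 0 ≤ ev f x) → 0 ≤ I f
  X : Fin 6 → Derivation ℝ A A
  IX : ∀ i f, I (X i f) = 0
  c : Fin 6 → Fin 6 → Fin 6 → ℝ
  comm : ∀ i j x, X i (X j x) - X j (X i x) = ∑ k, algebraMap ℝ A (c i j k) * X k x
  c_skew : ∀ i j k, c j i k = - c i j k
  c_jacobi : ∀ i j k l, ∑ m, (c i j m * c m k l + c j k m * c m i l + c k i m * c m j l) = 0
  c_trace : ∀ i, ∑ j, c i j j = 0
  hind : ∀ u : Fin 6 → A, (∀ x, toDer X u x = 0) → u = 0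
  J : ℕ → A →ₗ[ℝ] A
  J_X : ∀ N i f, J N (X i f) = X i (J N f)
  J_symm : ∀ N f g, I (J N f * g) = I (f * J N g)
  J_one : ∀ N, J N 1 = 1
  J_bound : ∀ N, ∃ C, ∀ i f, I (X i (J N f) * X i (J N f)) ≤ C * I (f * f)
  J_contr : ∀ N f, I (J N f * J N f) ≤ I (f * f)
  J_comm : ∀ f, ∃ C, ∀ N i u, I (X i (f * J N u - J N (f * u)) * X i (f * J N u - J N (f * u))) ≤
    C * I (u * u)
  J_lim : ∀ f, Tendsto (fun N => I ((J N f - f) * (J N f - f))) atTop (𝓝 0)

namespace Calc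

variable {M A : Type*} [TopologicalSpace M] [CommRing A] [Algebra ℝ A] (S : Calc M A)

lemma I_mono {f g : A} (h : ∀ x, S.ev f x ≤ S.ev g x) : S.I f ≤ S.I g := by
  have := S.I_nonneg (g - f) (fun x => by rw [map_sub]; exact sub_nonneg.mpr (h x))
  rw [map_sub] at this
  linarith

lemma I_sq_nonneg (f : A) : 0 ≤ S.I (f * f) :=
  S.I_nonneg _ (fun x => by rw [map_mul]; exact mul_self_nonneg _)

/-- The `L²` seminorm. -/
noncomputable def nrm (f : A) : ℝ := Real.sqrt (S.I (f * f))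

lemma nrm_nonneg (f : A) : 0 ≤ S.nrm f := Real.sqrt_nonneg _

lemma nrm_sq (f : A) : S.nrm f ^ 2 = S.I (f * f) := Real.sq_sqrt (S.I_sq_nonneg f)

lemma cs_sq (f g : A) : S.I (f * g) ^ 2 ≤ S.I (f * f) * S.I (g * g) := by
  have h : ∀ t : ℝ, 0 ≤ S.I (g * g) * (t * t) + (2 * S.I (f * g)) * t + S.I (f * f) := by
    intro t
    have h1 := S.I_sq_nonneg (f + t • g)
    have h2 : (f + t • g) * (f + t • g) = f * f + (2 * t) • (f * g) + (t * t) • (g * g) := by
      simp only [Algebra.smul_def, map_mul, map_ofNat]; ring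
    rw [h2, map_add, map_add, map_smul, map_smul, smul_eq_mul, smul_eq_mul] at h1
    linarith
  have := discrim_le_zero (K := ℝ) h
  rw [discrim] at this
  nlinarith

lemma cs (f g : A) : |S.I (f * g)| ≤ S.nrm f * S.nrm g := by
  apply abs_le_of_sq_le_sq _ (mul_nonneg (S.nrm_nonneg f) (S.nrm_nonneg g))
  rw [mul_pow, nrm_sq, nrm_sq]
  exact S.cs_sq f g

lemma nrm_add_le (f g : A) : S.nrm (f + g) ≤ S.nrm f + S.nrm g := by
  apply le_of_sq_le_sq _ (add_nonneg (S.nrm_nonneg f) (S.nrm_nonneg g))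
  have h1 := le_of_abs_le (S.cs f g)
  have h2 : (f + g) * (f + g) = f * f + (2 : ℝ) • (f * g) + g * g := by
    simp only [Algebra.smul_def, map_ofNat]; ring
  rw [nrm_sq, h2, map_add, map_add, map_smul, smul_eq_mul, ← nrm_sq, ← nrm_sq]
  nlinarith

lemma nrm_smul (t : ℝ) (f : A) : S.nrm (t • f) = |t| * S.nrm f := by
  have h : (t • f) * (t • f) = (t * t) • (f * f) := by
    simp only [Algebra.smul_def, map_mul]; ring
  rw [nrm, h, map_smul, smul_eq_mul, Real.sqrt_mul (mul_self_nonneg t), Real.sqrt_mul_self_eq_abs]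
  rfl

lemma nrm_neg (f : A) : S.nrm (-f) = S.nrm f := by
  rw [nrm, nrm]; congr 2; ring

lemma nrm_zero : S.nrm 0 = 0 := by simp [nrm]

lemma nrm_sub_le (f g : A) : S.nrm (f - g) ≤ S.nrm f + S.nrm g := by
  rw [sub_eq_add_neg]
  calc _ ≤ _ := S.nrm_add_le _ _
    _ = _ := by rw [nrm_neg]

lemma nrm_sum_le {κ : Type*} (s : Finset κ) (f : κ → A) :
    S.nrm (∑ i ∈ s, f i) ≤ ∑ i ∈ s, S.nrm (f i) := by
  classical
  induction s using Finset.induction_on with
  | empty => simp [nrm_zero]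
  | insert a s ha ih =>
    rw [sum_insert ha, sum_insert ha]
    exact (S.nrm_add_le _ _).trans (by linarith)

lemma bdd [CompactSpace M] (f : A) : ∃ C : ℝ, 0 ≤ C ∧ ∀ x, |S.ev f x| ≤ C := by
  obtain ⟨C, hC⟩ := isCompact_univ.exists_bound_of_continuousOn (S.cont f).continuousOn
  refine ⟨max C 0, le_max_right _ _, fun x => ?_⟩
  have := hC x (Set.mem_univ x)
  rw [Real.norm_eq_abs] at this
  exact this.trans (le_max_left _ _)

lemma nrm_mul_le {C : ℝ} {f : A} (hC : 0 ≤ C) (h : ∀ x, |S.ev f x| ≤ C) (g : A) :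
    S.nrm (f * g) ≤ C * S.nrm g := by
  apply le_of_sq_le_sq _ (mul_nonneg hC (S.nrm_nonneg g))
  rw [mul_pow, nrm_sq, nrm_sq]
  have h1 : C ^ 2 * S.I (g * g) = S.I ((C ^ 2) • (g * g)) := by rw [map_smul, smul_eq_mul]
  rw [h1]
  apply S.I_mono
  intro x
  rw [map_smul]
  simp only [map_mul, Pi.mul_apply, Pi.smul_apply, smul_eq_mul]
  have h2 : S.ev f x ^ 2 ≤ C ^ 2 := sq_le_sq' (abs_le.mp (h x)).1 (abs_le.mp (h x)).2
  nlinarith [mul_self_nonneg (S.ev g x)]

/-- multiplication operators are bounded -/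
lemma exists_mul_bound [CompactSpace M] (f : A) : ∃ C : ℝ, 0 ≤ C ∧ ∀ g, S.nrm (f * g) ≤ C * S.nrm g := by
  obtain ⟨C, hC, h⟩ := S.bdd f
  exact ⟨C, hC, fun g => S.nrm_mul_le hC h g⟩

lemma nrm_J_le (N : ℕ) (f : A) : S.nrm (S.J N f) ≤ S.nrm f :=
  Real.sqrt_le_sqrt (S.J_contr N f)

lemma I_J (N : ℕ) (f : A) : S.I (S.J N f) = S.I f := by
  have := S.J_symm N f 1
  rwa [mul_one, S.J_one, mul_one] at this

lemma nrm_J_lim (f : A) : Tendsto (fun N => S.nrm (S.J N f - f)) atTop (𝓝 0) := by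
  have := (S.J_lim f).sqrt
  rwa [Real.sqrt_zero] at this

/-- the commutator of a function and a mollifier -/
def K (N : ℕ) (f u : A) : A := f * S.J N u - S.J N (f * u)

lemma K_add (N : ℕ) (f u v : A) : S.K N f (u + v) = S.K N f u + S.K N f v := by
  simp only [K, mul_add, map_add]; ring

lemma K_bound [CompactSpace M] (f : A) : ∃ C : ℝ, 0 ≤ C ∧ ∀ N u, S.nrm (S.K N f u) ≤ C * S.nrm u := by
  obtain ⟨C, hC, h⟩ := S.exists_mul_bound f
  refine ⟨2 * C, by linarith, fun N u => ?_⟩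
  calc S.nrm (S.K N f u) ≤ S.nrm (f * S.J N u) + S.nrm (S.J N (f * u)) := S.nrm_sub_le _ _
    _ ≤ C * S.nrm (S.J N u) + S.nrm (f * u) := add_le_add (h _) (S.nrm_J_le _ _)
    _ ≤ C * S.nrm u + C * S.nrm u :=
        add_le_add (mul_le_mul_of_nonneg_left (S.nrm_J_le _ _) hC) (h _)
    _ = 2 * C * S.nrm u := by ring

lemma XK_bound (f : A) : ∃ C : ℝ, 0 ≤ C ∧ ∀ N i u, S.nrm (S.X i (S.K N f u)) ≤ C * S.nrm u := by
  obtain ⟨C, h⟩ := S.J_comm f
  refine ⟨Real.sqrt (max C 0), Real.sqrt_nonneg _, fun N i u => ?_⟩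
  rw [nrm, nrm, ← Real.sqrt_mul (le_max_right _ _)]
  apply Real.sqrt_le_sqrt
  exact (h N i u).trans (mul_le_mul_of_nonneg_right (le_max_left _ _) (S.I_sq_nonneg u))

lemma K_lim [CompactSpace M] (f u : A) : Tendsto (fun N => S.nrm (S.K N f u)) atTop (𝓝 0) := by
  obtain ⟨C, hC, h⟩ := S.exists_mul_bound f
  have h1 : ∀ N, S.nrm (S.K N f u) ≤ C * S.nrm (S.J N u - u) + S.nrm (S.J N (f * u) - f * u) := by
    intro N
    have : S.K N f u = f * (S.J N u - u) - (S.J N (f * u) - f * u) := by rw [K]; ring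
    rw [this]
    exact (S.nrm_sub_le _ _).trans (add_le_add (h _) le_rfl)
  refine squeeze_zero (fun N => S.nrm_nonneg _) h1 ?_
  have := ((S.nrm_J_lim u).const_mul C).add (S.nrm_J_lim (f * u))
  simpa using this

lemma XK_lim [CompactSpace M] (f u : A) (i : Fin 6) :
    Tendsto (fun N => S.nrm (S.X i (S.K N f u))) atTop (𝓝 0) := by
  obtain ⟨C, hC, h⟩ := S.exists_mul_bound f
  obtain ⟨C', hC', h'⟩ := S.exists_mul_bound (S.X i f)
  have h1 : ∀ N, S.nrm (S.X i (S.K N f u)) ≤ C' * S.nrm (S.J N u - u) +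
      C * S.nrm (S.J N (S.X i u) - S.X i u) + S.nrm (S.J N (S.X i (f * u)) - S.X i (f * u)) := by
    intro N
    have : S.X i (S.K N f u) = S.X i f * (S.J N u - u) + f * (S.J N (S.X i u) - S.X i u) -
        (S.J N (S.X i (f * u)) - S.X i (f * u)) := by
      rw [K, map_sub, Derivation.leibniz, ← S.J_X, ← S.J_X, Derivation.leibniz]
      simp only [smul_eq_mul, map_add]; ring
    rw [this]
    exact (S.nrm_sub_le _ _).trans (add_le_add ((S.nrm_add_le _ _).trans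
      (add_le_add (h' _) (h _))) le_rfl)
  refine squeeze_zero (fun N => S.nrm_nonneg _) h1 ?_
  have := (((S.nrm_J_lim u).const_mul C').add ((S.nrm_J_lim (S.X i u)).const_mul C)).add
    (S.nrm_J_lim (S.X i (f * u)))
  simpa using this

end Calc

end Pool.Agent.H83.Curv
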