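import Mathlib
import Pool.Agent.H83.Curv.Calc

/-! Orthonormal frame data; the integrated Weitzenböck formula. -/

namespace Pool.Agent.H83.Curv

open Finset Filter Topology

variable {M A : Type*} [TopologicalSpace M] [CommRing A] [Algebra ℝ A]

namespace Calc

/-- the structure constants as elements of the ring -/
def cA (S : Calc M A) (i j k : Fin 6) : A := algebraMap ℝ A (S.c i j k)

end Calc

/-- An orthonormal frame with its Levi-Civita connection coefficients and volume density. -/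
structure Frame (S : Calc M A) where
  e : Fin 6 → Fin 6 → A
  f : Fin 6 → Fin 6 → A
  hef : ∀ a b, ∑ i, e a i * f i b = if a = b then 1 else 0
  G : Fin 6 → Fin 6 → Fin 6 → A
  hG : ∀ a i j, G a j i = -G a i j
  htor : ∀ a b k, ∑ m, (G b a m - G a b m) * e m k =
    toDer S.X (e a) (e b k) - toDer S.X (e b) (e a k) + ∑ i, ∑ j, S.cA i j k * e a i * e b j
  ρ : A
  hρ : ρ * ρ * (Matrix.det (Matrix.of e) * Matrix.det (Matrix.of e)) = 1
  hρpos : ∀ x, 0 < S.ev ρ x

namespace Frame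

variable {S : Calc M A} (F : Frame S)

/-- the frame as derivations -/
def E (a : Fin 6) : Derivation ℝ A A := toDer S.X (F.e a)

/-- structure functions of the frame -/
def C (a b m : Fin 6) : A := F.G b a m - F.G a b m

/-- curvature components -/
def R (a b c d : Fin 6) : A := Rh F.E F.G F.C a b c d

lemma hef' : (Matrix.of F.e) * (Matrix.of F.f) = 1 := by
  ext a b
  rw [Matrix.mul_apply, Matrix.one_apply]
  exact F.hef a b

lemma hfe (i j : Fin 6) : ∑ a, F.f i a * F.e a j = if i = j then 1 else 0 := by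
  have h : (Matrix.of F.f) * (Matrix.of F.e) = 1 := mul_eq_one_comm.mp F.hef'
  have := congrFun (congrFun h i) j
  rwa [Matrix.mul_apply, Matrix.one_apply] at this

lemma hcomm (a b : Fin 6) (x : A) : F.E a (F.E b x) - F.E b (F.E a x) =
    ∑ m, F.C a b m * F.E m x :=
  frame_comm S.X S.cA S.comm (Matrix.of F.e) F.C F.htor a b x

lemma int_div (V : Fin 6 → A) :
    S.I (F.ρ * ∑ a, (F.E a (V a) + ∑ b, F.G a a b * V b)) = 0 :=
  int_frame S.X S.I S.IX S.cA (fun i => by
    simp only [Calc.cA, ← map_sum, S.c_trace, map_zero]) (Matrix.of F.e) (Matrix.of F.f) F.hef' F.G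
    F.hG F.htor F.hρ V

/-- the curvature is an algebraic curvature tensor at every point -/
lemma isCurv (x : M) : IsCurv (fun a b c d => S.ev (F.R a b c d) x) := by
  have hT : ∀ a b f, F.C a b f = F.G b a f - F.G a b f := fun _ _ _ => rfl
  have hJ := frame_jacobi S.X S.hind (Matrix.of F.e) (Matrix.of F.f) F.hef' F.C F.hcomm
  apply isCurv_of
  · intro i j k l
    rw [R, Rh_skew1 F.E F.G F.C hT i j k l, map_neg, Pi.neg_apply]; rfl
  · intro i j k l
    rw [R, Rh_skew2 F.E F.G F.C F.hG i j k l, map_neg, Pi.neg_apply]; rfl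
  · intro a b c d
    have h := frame_bianchi F.E F.G F.C F.hG hT hJ a b c d
    have h2 := congrFun (congrArg S.ev h) x
    simp only [map_add, map_zero, Pi.add_apply, Pi.zero_apply] at h2
    exact h2

/-- components of a 3-tensor in the orthonormal frame -/
def fr (w : Fin 6 → Fin 6 → Fin 6 → A) : Fin 6 → Fin 6 → Fin 6 → A :=
  fun i j k => t3 w (F.e i) (F.e j) (F.e k)

/-- components of a 2-tensor in the orthonormal frame -/
def fr2 (w : Fin 6 → Fin 6 → A) : Fin 6 → Fin 6 → A := fun i j => t2 w (F.e i) (F.e j)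

lemma fr_alt {w : Fin 6 → Fin 6 → Fin 6 → A} (hw : Alt3 w) : Alt3 (F.fr w) :=
  ⟨fun _ _ _ => t3_swap12 hw _ _ _, fun _ _ _ => t3_swap23 hw _ _ _⟩

lemma fr2_skew {w : Fin 6 → Fin 6 → A} (hw : ∀ i j, w j i = - w i j) (i j : Fin 6) :
    F.fr2 w j i = - F.fr2 w i j := t2_swap hw _ _

/-- the divergence of a 3-form (in frame components) -/
def dv (w : Fin 6 → Fin 6 → Fin 6 → A) (c d : Fin 6) : A :=
  ∑ a, cD F.E F.G a (F.fr w) a c d

lemma dv_skew {w : Fin 6 → Fin 6 → Fin 6 → A} (hw : Alt3 w) (i j : Fin 6) :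
    F.dv w j i = - F.dv w i j := by
  simp only [dv, ← sum_neg_distrib]
  exact sum_congr rfl fun a _ => (cD_alt F.E F.G a (F.fr_alt hw)).2 a i j

/-- The integrated Weitzenböck formula for closed forms, as an inequality. -/
theorem weitzenboeck {w : Fin 6 → Fin 6 → Fin 6 → A} (hw : Alt3 w)
    (hcl : ∀ i j k l, dX3 S.X S.cA w i j k l = 0) :
    S.I (F.ρ * (3 * ∑ a, ∑ b, P1 (F.fr w) (act3 (F.R a b) (F.fr w)) b a)) ≤
      3 * S.I (F.ρ * ∑ c, ∑ d, F.dv w c d * F.dv w c d) := by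
  have hT : ∀ a b f, F.C a b f = F.G b a f - F.G a b f := fun _ _ _ => rfl
  have h1 := bochner_div F.E F.G F.hG F.hcomm hT (F.fr w)
  have h2 := F.int_div (bV F.E F.G (F.fr w))
  rw [h1] at h2
  have hclosed : ∀ a b c d, cD F.E F.G a (F.fr w) b c d - cD F.E F.G b (F.fr w) a c d +
      cD F.E F.G c (F.fr w) a b d - cD F.E F.G d (F.fr w) a b c = 0 := by
    intro a b c d
    have h3 := dX3_frame S.X S.cA F.e F.G F.htor hw a b c d
    have h4 : t4 (dX3 S.X S.cA w) (F.e a) (F.e b) (F.e c) (F.e d) = 0 := by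
      simp only [t4, hcl, mul_zero, sum_const_zero]
    rw [h4] at h3
    exact h3.symm
  have h5 := closed_norm (fun a => cD F.E F.G a (F.fr w)) (fun a => cD_alt F.E F.G a (F.fr_alt hw))
    hclosed
  have h6 : ∑ a, ∑ b, P1 (cD F.E F.G a (F.fr w)) (cD F.E F.G b (F.fr w)) a b =
      ∑ c, ∑ d, F.dv w c d * F.dv w c d := by
    simp only [dv, sum_mul_sum, P1]
    have : ∀ H : Fin 6 → Fin 6 → Fin 6 → Fin 6 → A, ∑ a, ∑ b, ∑ c, ∑ d, H a b c d =
        ∑ c, ∑ d, ∑ a, ∑ b, H a b c d := by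
      intro H
      have s1 : ∀ a, ∑ b, ∑ c, ∑ d, H a b c d = ∑ c, ∑ d, ∑ b, H a b c d := by
        intro a
        rw [sum_comm]
        exact sum_congr rfl fun c _ => sum_comm
      simp only [s1]
      rw [sum_comm]
      exact sum_congr rfl fun c _ => sum_comm
    rw [this]
  set S1 := ∑ a, ∑ b, P1 (cD F.E F.G a (F.fr w)) (cD F.E F.G b (F.fr w)) b a with hS1
  have h7 : 0 ≤ S.I (F.ρ * (3 * S1)) := by
    rw [← h5]
    apply S.I_nonneg
    intro x
    rw [map_mul, Pi.mul_apply]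
    refine mul_nonneg (F.hρpos x).le ?_
    simp only [map_sum, Finset.sum_apply, map_mul, Pi.mul_apply]
    exact sum_nonneg fun a _ => sum_nonneg fun b _ => sum_nonneg fun c _ => sum_nonneg fun d _ =>
      mul_self_nonneg _
  rw [h6] at h2
  have h8 : F.ρ * (3 * ∑ a, ∑ b, P1 (F.fr w) (act3 (F.R a b) (F.fr w)) b a) =
      (3 : ℝ) • (F.ρ * (S1 - ∑ c, ∑ d, F.dv w c d * F.dv w c d +
        ∑ a, ∑ b, P1 (F.fr w) (act3 (F.R a b) (F.fr w)) b a)) -
      F.ρ * (3 * S1) + (3 : ℝ) • (F.ρ * ∑ c, ∑ d, F.dv w c d * F.dv w c d) := by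
    simp only [Algebra.smul_def, map_ofNat]; ring
  have h9 : S.I (F.ρ * (S1 - ∑ c, ∑ d, F.dv w c d * F.dv w c d +
        ∑ a, ∑ b, P1 (F.fr w) (act3 (F.R a b) (F.fr w)) b a)) = 0 := h2
  rw [h8, map_add, map_sub, map_smul, map_smul, h9, smul_zero, smul_eq_mul]
  linarith

/-- The adjoint of the exterior derivative. -/
theorem adjoint {w : Fin 6 → Fin 6 → Fin 6 → A} (hw : Alt3 w) {h : Fin 6 → Fin 6 → A}
    (hh : ∀ i j, h j i = - h i j) :
    S.I (F.ρ * ip3 (F.fr w) (F.fr (dX2 S.X S.cA h))) =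
      - (3 * S.I (F.ρ * ∑ c, ∑ d, F.dv w c d * F.fr2 h c d)) := by
  set O := F.fr w with hO
  set η := F.fr2 h with hη
  have hOa : Alt3 O := F.fr_alt hw
  have hηa : ∀ i j, η j i = - η i j := F.fr2_skew hh
  -- Leibniz rule for the contraction
  have hL : ∀ a b, F.E a (∑ c, ∑ d, O b c d * η c d) =
      (∑ c, ∑ d, cD F.E F.G a O b c d * η c d) + (∑ c, ∑ d, O b c d * cD2 F.E F.G a η c d) -
      ∑ f, F.G a b f * (∑ c, ∑ d, O f c d * η c d) := by
    intro a b
    have h1 := P1_leibniz F.E F.G F.hG a O (fun _ c d => η c d) b 0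
    have h2 : P1 O (cD F.E F.G a (fun _ c d => η c d)) b 0 =
        (∑ c, ∑ d, O b c d * cD2 F.E F.G a η c d) +
        ∑ f, F.G a 0 f * P1 O (fun _ c d => η c d) b f := by
      have h3 : ∀ c d, cD F.E F.G a (fun _ c d => η c d) 0 c d = cD2 F.E F.G a η c d +
          (∑ f, F.G a 0 f) * η c d := by
        intro c d
        simp only [cD, Pi.add_apply, dE, act3, cD2, sum_add_distrib, sum_mul]; ring
      simp only [P1, h3, mul_add, sum_add_distrib]
      congr 1
      simp only [mul_sum, sum_mul]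
      have : ∀ H : Fin 6 → Fin 6 → Fin 6 → A, ∑ c, ∑ d, ∑ f, H c d f = ∑ f, ∑ c, ∑ d, H c d f := by
        intro H
        rw [sum_congr rfl fun b _ => sum_comm, sum_comm]
      rw [this]
      exact sum_congr rfl fun f _ => sum_congr rfl fun c _ => sum_congr rfl fun d _ => by ring
    rw [h2] at h1
    have h4 : ∀ u v : Fin 6 → Fin 6 → Fin 6 → A, ∀ b e, P1 u v b e = ∑ c, ∑ d, u b c d * v e c d :=
      fun _ _ _ _ => rfl
    simp only [h4] at h1
    rw [h1]; ring
  have h1 := F.int_div (fun b => ∑ c, ∑ d, O b c d * η c d)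
  have h2 : ∑ a, (F.E a (∑ c, ∑ d, O a c d * η c d) +
      ∑ b, F.G a a b * (∑ c, ∑ d, O b c d * η c d)) =
      (∑ c, ∑ d, F.dv w c d * η c d) + ∑ a, ∑ c, ∑ d, O a c d * cD2 F.E F.G a η c d := by
    simp only [hL]
    have h3 : ∑ c, ∑ d, F.dv w c d * η c d = ∑ a, ∑ c, ∑ d, cD F.E F.G a O a c d * η c d := by
      simp only [dv, sum_mul]
      have : ∀ H : Fin 6 → Fin 6 → Fin 6 → A, ∑ c, ∑ d, ∑ f, H c d f = ∑ f, ∑ c, ∑ d, H c d f := by
        intro H
        rw [sum_congr rfl fun b _ => sum_comm, sum_comm]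
      rw [this]
    rw [h3, ← sum_add_distrib]
    exact sum_congr rfl fun a _ => by ring
  have h3 : ∀ a b c, F.fr (dX2 S.X S.cA h) a b c =
      cD2 F.E F.G a η b c - cD2 F.E F.G b η a c + cD2 F.E F.G c η a b :=
    fun a b c => dX2_frame S.X S.cA F.e F.G F.htor hh a b c
  have h4 : ip3 O (F.fr (dX2 S.X S.cA h)) = 3 * ∑ a, ∑ c, ∑ d, O a c d * cD2 F.E F.G a η c d := by
    simp only [ip3, h3, mul_add, mul_sub, sum_add_distrib, sum_sub_distrib]
    have e1 : ∑ a, ∑ b, ∑ c, O a b c * cD2 F.E F.G b η a c =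
        - ∑ a, ∑ c, ∑ d, O a c d * cD2 F.E F.G a η c d := by
      rw [sum_comm]
      simp only [← sum_neg_distrib]
      exact sum_congr rfl fun a _ => sum_congr rfl fun b _ => sum_congr rfl fun c _ => by
        rw [hOa.1 a b c]; ring
    have e2 : ∑ a, ∑ b, ∑ c, O a b c * cD2 F.E F.G c η a b =
        ∑ a, ∑ c, ∑ d, O a c d * cD2 F.E F.G a η c d := by
      have : ∀ H : Fin 6 → Fin 6 → Fin 6 → A, ∑ c, ∑ d, ∑ f, H c d f = ∑ f, ∑ c, ∑ d, H c d f := by
        intro H
        rw [sum_congr rfl fun b _ => sum_comm, sum_comm]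
      rw [this]
      exact sum_congr rfl fun a _ => sum_congr rfl fun b _ => sum_congr rfl fun c _ => by
        rw [hOa.2 b a c, hOa.1 a b c]; ring
    rw [e1, e2]; ring
  rw [h4]
  have h5 : F.ρ * (3 * ∑ a, ∑ c, ∑ d, O a c d * cD2 F.E F.G a η c d) =
      (3 : ℝ) • (F.ρ * ∑ a, (F.E a (∑ c, ∑ d, O a c d * η c d) +
        ∑ b, F.G a a b * (∑ c, ∑ d, O b c d * η c d))) -
      (3 : ℝ) • (F.ρ * ∑ c, ∑ d, F.dv w c d * η c d) := by
    rw [h2]
    simp only [Algebra.smul_def, map_ofNat]; ring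
  rw [h5, map_sub, map_smul, map_smul, h1]
  simp

end Frame

end Pool.Agent.H83.Curv
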