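import Mathlib
import Pool.Agent.H83.Curv.CoreA

/-! Coercivity: the curvature term is bounded below. -/

namespace Pool.Agent.H83.Curv

open Finset Filter Topology

variable {M A : Type*} [TopologicalSpace M] [CommRing A] [Algebra ℝ A]

lemma act3_smul (Y : T2 ℝ) (s : ℝ) (w : T3 ℝ) :
    act3 Y (fun i j k => s * w i j k) = fun i j k => s * act3 Y w i j k := by
  funext i j k
  simp only [act3, mul_sum]
  exact sum_congr rfl fun e _ => by ring

lemma ip3_smul (s : ℝ) (v w : T3 ℝ) :
    ip3 (fun i j k => s * v i j k) (fun i j k => s * w i j k) = s * s * ip3 v w := by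
  simp only [ip3, mul_sum]
  exact sum_congr rfl fun i _ => sum_congr rfl fun j _ => sum_congr rfl fun k _ => by ring

lemma curvTerm_smul (R : Fin 6 → Fin 6 → Fin 6 → Fin 6 → ℝ) (s : ℝ) (w : T3 ℝ) :
    curvTerm R (fun i j k => s * w i j k) = s * s * curvTerm R w := by
  simp only [curvTerm, act3_smul, ip3_smul, mul_sum]
  exact sum_congr rfl fun p _ => sum_congr rfl fun q _ => by ring

lemma ip3_self_nonneg (w : T3 ℝ) : 0 ≤ ip3 w w :=
  sum_nonneg fun _ _ => sum_nonneg fun _ _ => sum_nonneg fun _ _ => mul_self_nonneg _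

lemma sq_le_ip3 (w : T3 ℝ) (i j k : Fin 6) : w i j k * w i j k ≤ ip3 w w := by
  have h1 : w i j k * w i j k ≤ ∑ k, w i j k * w i j k :=
    single_le_sum (f := fun k => w i j k * w i j k) (fun _ _ => mul_self_nonneg _) (mem_univ k)
  have h2 : ∑ k, w i j k * w i j k ≤ ∑ j, ∑ k, w i j k * w i j k :=
    single_le_sum (f := fun j => ∑ k, w i j k * w i j k)
      (fun _ _ => sum_nonneg fun _ _ => mul_self_nonneg _) (mem_univ j)
  have h3 : ∑ j, ∑ k, w i j k * w i j k ≤ ip3 w w :=
    single_le_sum (f := fun i => ∑ j, ∑ k, w i j k * w i j k)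
      (fun _ _ => sum_nonneg fun _ _ => sum_nonneg fun _ _ => mul_self_nonneg _) (mem_univ i)
  linarith

lemma curvTerm_continuous {R : M → Fin 6 → Fin 6 → Fin 6 → Fin 6 → ℝ}
    (hR : ∀ a b c d, Continuous fun x => R x a b c d) :
    Continuous fun p : M × T3 ℝ => curvTerm (R p.1) p.2 := by
  unfold curvTerm ip3 act3
  refine continuous_finsetSum _ fun p _ => continuous_finsetSum _ fun q _ => ?_
  refine ((hR _ _ _ _).comp continuous_fst).mul ?_
  fun_prop

/-- uniform positivity of the curvature term -/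
lemma curv_coercive [CompactSpace M] {R : M → Fin 6 → Fin 6 → Fin 6 → Fin 6 → ℝ}
    (hR : ∀ a b c d, Continuous fun x => R x a b c d) (hc : ∀ x, IsCurv (R x))
    (h4 : ∀ x, FourPos (R x)) :
    ∃ c : ℝ, 0 < c ∧ ∀ x (w : T3 ℝ), Alt3 w → c * ip3 w w ≤ curvTerm (R x) w := by
  set K : Set (M × T3 ℝ) := {p | Alt3 p.2 ∧ ip3 p.2 p.2 = 1} with hK
  have hKc : IsCompact K := by
    have hsub : K ⊆ Set.univ ×ˢ (Set.pi Set.univ fun _ => Set.pi Set.univ fun _ =>
        Set.pi Set.univ fun _ => Set.Icc (-1 : ℝ) 1) := by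
      rintro ⟨x, w⟩ ⟨_, hw⟩
      refine ⟨Set.mem_univ _, fun i _ j _ k _ => ?_⟩
      have := sq_le_ip3 w i j k
      simp only at hw
      rw [hw] at this
      exact abs_le.mp (abs_le_one_iff_mul_self_le_one.mpr this)
    refine IsCompact.of_isClosed_subset (isCompact_univ.prod (isCompact_univ_pi fun _ =>
      isCompact_univ_pi fun _ => isCompact_univ_pi fun _ => isCompact_Icc)) ?_ hsub
    have e : K = {p : M × T3 ℝ | ∀ i j k, p.2 j i k = - p.2 i j k} ∩
        {p : M × T3 ℝ | ∀ i j k, p.2 i k j = - p.2 i j k} ∩ {p | ip3 p.2 p.2 = 1} := by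
      ext p; simp only [hK, Alt3, Set.mem_ofPred_eq, Set.mem_inter_iff]
    rw [e]
    refine (IsClosed.inter ?_ ?_).inter ?_
    · simp only [Set.ofPred_forall]
      refine isClosed_iInter fun i => isClosed_iInter fun j => isClosed_iInter fun k => ?_
      exact isClosed_eq (by fun_prop) (by fun_prop)
    · simp only [Set.ofPred_forall]
      refine isClosed_iInter fun i => isClosed_iInter fun j => isClosed_iInter fun k => ?_
      exact isClosed_eq (by fun_prop) (by fun_prop)
    · exact isClosed_eq (by unfold ip3; fun_prop) continuous_const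
  have hpos : ∀ p ∈ K, 0 < curvTerm (R p.1) p.2 := by
    rintro ⟨x, w⟩ ⟨hw, hw1⟩
    refine alg_pos (hc x) (h4 x) hw ?_
    rintro rfl
    simp [ip3] at hw1
  obtain ⟨c, hc0, hc1⟩ : ∃ c : ℝ, 0 < c ∧ ∀ p ∈ K, c ≤ curvTerm (R p.1) p.2 := by
    rcases K.eq_empty_or_nonempty with h | h
    · exact ⟨1, one_pos, fun p hp => by rw [h] at hp; exact absurd hp (Set.notMem_empty _)⟩
    · obtain ⟨p, hp, hmin⟩ := hKc.exists_isMinOn h (curvTerm_continuous hR).continuousOn
      exact ⟨_, hpos p hp, fun q hq => hmin hq⟩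
  refine ⟨c, hc0, fun x w hw => ?_⟩
  rcases (ip3_self_nonneg w).eq_or_lt with h | h
  · have hw0 : w = fun i j k => 0 * (0 : T3 ℝ) i j k := by
      funext i j k
      have h1 := sq_le_ip3 w i j k
      rw [← h] at h1
      have : w i j k = 0 := by
        have := le_antisymm h1 (mul_self_nonneg _)
        exact mul_self_eq_zero.mp this
      rw [this]; simp
    rw [hw0, curvTerm_smul, ip3_smul]; simp
  · set s := Real.sqrt (ip3 w w) with hs
    have hs0 : 0 < s := Real.sqrt_pos.mpr h
    have hs2 : s * s = ip3 w w := Real.mul_self_sqrt h.le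
    set w' : T3 ℝ := fun i j k => s⁻¹ * w i j k with hw'
    have hww : w = fun i j k => s * w' i j k := by
      funext i j k
      rw [hw']; field_simp
    have hi : ip3 w' w' = 1 := by
      rw [hw', ip3_smul, ← hs2]; field_simp
    have ha : Alt3 w' := ⟨fun i j k => by simp only [hw', hw.1 i j k]; ring,
      fun i j k => by simp only [hw', hw.2 i j k]; ring⟩
    have := hc1 (x, w') ⟨ha, hi⟩
    rw [hww, curvTerm_smul, ip3_smul, hi]
    simp only at this
    nlinarith [mul_self_pos.mpr hs0.ne']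

namespace Frame

variable {S : Calc M A} (F : Frame S)

/-- Coercivity for closed 3-forms. -/
theorem coercive [CompactSpace M] (h4 : ∀ x, FourPos (fun a b c d => S.ev (F.R a b c d) x)) :
    ∃ c : ℝ, 0 < c ∧ ∀ w : Fin 6 → Fin 6 → Fin 6 → A, Alt3 w →
      (∀ i j k l, dX3 S.X S.cA w i j k l = 0) →
      c * S.I (F.ρ * ip3 (F.fr w) (F.fr w)) ≤
        S.I (F.ρ * ∑ c, ∑ d, F.dv w c d * F.dv w c d) := by
  obtain ⟨c, hc, h⟩ := curv_coercive (R := fun x a b c d => S.ev (F.R a b c d) x)
    (fun a b c d => S.cont _) F.isCurv h4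
  refine ⟨c / 3, by positivity, fun w hw hcl => ?_⟩
  have h1 := F.weitzenboeck hw hcl
  have h2 : S.I (c • (F.ρ * ip3 (F.fr w) (F.fr w))) ≤
      S.I (F.ρ * (3 * ∑ a, ∑ b, P1 (F.fr w) (act3 (F.R a b) (F.fr w)) b a)) := by
    apply S.I_mono
    intro x
    rw [map_smul, Pi.smul_apply, smul_eq_mul, map_mul, map_mul, Pi.mul_apply, Pi.mul_apply]
    have hx := h x (fun i j k => S.ev (F.fr w i j k) x) (by
      have ha := F.fr_alt hw
      constructor
      · intro i j k
        have := congrFun (congrArg S.ev (ha.1 i j k)) x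
        rwa [map_neg] at this
      · intro i j k
        have := congrFun (congrArg S.ev (ha.2 i j k)) x
        rwa [map_neg] at this)
    rw [curvTerm_eq (F.isCurv x).skew1 (F.isCurv x).skew2 (by
      have ha := F.fr_alt hw
      constructor
      · intro i j k
        have := congrFun (congrArg S.ev (ha.1 i j k)) x
        rwa [map_neg] at this
      · intro i j k
        have := congrFun (congrArg S.ev (ha.2 i j k)) x
        rwa [map_neg] at this)] at hx
    have e1 : S.ev (ip3 (F.fr w) (F.fr w)) x =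
        ip3 (fun i j k => S.ev (F.fr w i j k) x) (fun i j k => S.ev (F.fr w i j k) x) := by
      simp only [ip3, map_sum, Finset.sum_apply, map_mul, Pi.mul_apply]
    have e2 : S.ev (3 * ∑ a, ∑ b, P1 (F.fr w) (act3 (F.R a b) (F.fr w)) b a) x =
        3 * ∑ a, ∑ b, P1 (fun i j k => S.ev (F.fr w i j k) x)
          (act3 (fun c d => S.ev (F.R a b c d) x) (fun i j k => S.ev (F.fr w i j k) x)) b a := by
      simp only [P1, act3, map_sum, Finset.sum_apply, map_mul, Pi.mul_apply, map_add, Pi.add_apply,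
        map_ofNat, Pi.ofNat_apply]
    rw [e1, e2]
    have := mul_le_mul_of_nonneg_left hx (F.hρpos x).le
    linarith
  rw [map_smul, smul_eq_mul] at h2
  linarith

end Frame

end Pool.Agent.H83.Curv
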