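import Mathlib
import Pool.Agent.H83.Curv.CoreB

/-! The `L²` pairing of 3-forms, norm comparisons and the Friedrichs estimate. -/

namespace Pool.Agent.H83.Curv

open Finset Filter Topology

variable {M A : Type*} [TopologicalSpace M] [CommRing A] [Algebra ℝ A]

/-- index triples -/
abbrev Tr := Fin 6 × Fin 6 × Fin 6

/-- triple products -/
def E3 (e : Fin 6 → Fin 6 → A) (P I : Tr) : A := e P.1 I.1 * e P.2.1 I.2.1 * e P.2.2 I.2.2

/-- uncurrying -/
def uc (w : Fin 6 → Fin 6 → Fin 6 → A) (I : Tr) : A := w I.1 I.2.1 I.2.2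

omit [Algebra ℝ A] in
lemma t3_uc (e : Fin 6 → Fin 6 → A) (w : Fin 6 → Fin 6 → Fin 6 → A) (P : Tr) :
    t3 w (e P.1) (e P.2.1) (e P.2.2) = ∑ I, E3 e P I * uc w I := by
  simp only [t3, E3, uc, Fintype.sum_prod_type]

omit [Algebra ℝ A] in
lemma ip3_uc (v w : Fin 6 → Fin 6 → Fin 6 → A) : ip3 v w = ∑ P, uc v P * uc w P := by
  simp only [ip3, uc, Fintype.sum_prod_type]

omit [Algebra ℝ A] in
/-- inverse frames -/
lemma E3_inv {e f : Fin 6 → Fin 6 → A} (h : ∀ i j, ∑ a, f i a * e a j = if i = j then 1 else 0)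
    (I K : Tr) : ∑ P, E3 f I P * E3 e P K = if I = K then 1 else 0 := by
  obtain ⟨i, j, k⟩ := I
  obtain ⟨l, m, n⟩ := K
  have h1 : ∑ P : Tr, E3 f (i, j, k) P * E3 e P (l, m, n) =
      (∑ a, f i a * e a l) * ((∑ a, f j a * e a m) * (∑ a, f k a * e a n)) := by
    have h2 : ∑ P : Tr, E3 f (i, j, k) P * E3 e P (l, m, n) =
        ∑ a, ∑ b, ∑ c, (f i a * e a l) * ((f j b * e b m) * (f k c * e c n)) := by
      simp only [Fintype.sum_prod_type, E3]
      exact sum_congr rfl fun a _ => sum_congr rfl fun b _ => sum_congr rfl fun c _ => by ring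
    rw [h2]
    simp only [← mul_sum, ← sum_mul]
  rw [h1, h, h, h]
  by_cases h2 : i = l <;> by_cases h3 : j = m <;> by_cases h4 : k = n <;> simp [h2, h3, h4]

namespace Calc

variable (S : Calc M A)

/-- sum of the norms of the components -/
noncomputable def n3 (w : Fin 6 → Fin 6 → Fin 6 → A) : ℝ := ∑ I : Tr, S.nrm (uc w I)

/-- sum of the norms of the components -/
noncomputable def n2 (h : Fin 6 → Fin 6 → A) : ℝ := ∑ i, ∑ j, S.nrm (h i j)

lemma n3_nonneg (w : Fin 6 → Fin 6 → Fin 6 → A) : 0 ≤ S.n3 w := sum_nonneg fun _ _ => S.nrm_nonneg _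

lemma n2_nonneg (h : Fin 6 → Fin 6 → A) : 0 ≤ S.n2 h :=
  sum_nonneg fun _ _ => sum_nonneg fun _ _ => S.nrm_nonneg _

lemma le_n2 (h : Fin 6 → Fin 6 → A) (i j : Fin 6) : S.nrm (h i j) ≤ S.n2 h := by
  have h1 : S.nrm (h i j) ≤ ∑ j, S.nrm (h i j) :=
    single_le_sum (f := fun j => S.nrm (h i j)) (fun _ _ => S.nrm_nonneg _) (mem_univ j)
  exact h1.trans (single_le_sum (f := fun i => ∑ j, S.nrm (h i j))
    (fun _ _ => sum_nonneg fun _ _ => S.nrm_nonneg _) (mem_univ i))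

lemma le_n3 (w : Fin 6 → Fin 6 → Fin 6 → A) (I : Tr) : S.nrm (uc w I) ≤ S.n3 w :=
  single_le_sum (f := fun I => S.nrm (uc w I)) (fun _ _ => S.nrm_nonneg _) (mem_univ I)

/-- mollification of a 3-tensor -/
def J3 (N : ℕ) (w : Fin 6 → Fin 6 → Fin 6 → A) : Fin 6 → Fin 6 → Fin 6 → A :=
  fun i j k => S.J N (w i j k)

/-- mollification of a 2-tensor -/
def J2 (N : ℕ) (h : Fin 6 → Fin 6 → A) : Fin 6 → Fin 6 → A := fun i j => S.J N (h i j)

lemma J_cA (N : ℕ) (i j k : Fin 6) (x : A) : S.J N (S.cA i j k * x) = S.cA i j k * S.J N x := by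
  rw [cA, ← Algebra.smul_def, map_smul, Algebra.smul_def]

lemma dX2_J (N : ℕ) (h : Fin 6 → Fin 6 → A) : dX2 S.X S.cA (S.J2 N h) = S.J3 N (dX2 S.X S.cA h) := by
  funext i j k
  simp only [dX2, J2, J3, map_sub, map_add, map_sum, J_cA, S.J_X]

lemma dX3_J (N : ℕ) (w : Fin 6 → Fin 6 → Fin 6 → A) (i j k l : Fin 6) :
    dX3 S.X S.cA (S.J3 N w) i j k l = S.J N (dX3 S.X S.cA w i j k l) := by
  simp only [dX3, J3, map_sub, map_add, map_sum, J_cA, S.J_X]

lemma J3_alt (N : ℕ) {w : Fin 6 → Fin 6 → Fin 6 → A} (hw : Alt3 w) : Alt3 (S.J3 N w) :=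
  ⟨fun i j k => by simp only [J3, hw.1 i j k, map_neg],
   fun i j k => by simp only [J3, hw.2 i j k, map_neg]⟩

lemma X_cA (i j k l : Fin 6) : S.X l (S.cA i j k) = 0 := by
  rw [cA]; exact Derivation.map_algebraMap _ _

/-- total size of the structure constants -/
noncomputable def cS : ℝ := ∑ i, ∑ j, ∑ k, |S.c i j k|

lemma cS_nonneg : 0 ≤ S.cS := sum_nonneg fun _ _ => sum_nonneg fun _ _ => sum_nonneg fun _ _ =>
  abs_nonneg _

lemma sum_c_le (i j : Fin 6) : ∑ k, |S.c i j k| ≤ S.cS := by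
  have h1 : ∑ k, |S.c i j k| ≤ ∑ j, ∑ k, |S.c i j k| :=
    single_le_sum (f := fun j => ∑ k, |S.c i j k|) (fun _ _ => sum_nonneg fun _ _ => abs_nonneg _)
      (mem_univ j)
  exact h1.trans (single_le_sum (f := fun i => ∑ j, ∑ k, |S.c i j k|)
    (fun _ _ => sum_nonneg fun _ _ => sum_nonneg fun _ _ => abs_nonneg _) (mem_univ i))

/-- integration by parts estimate -/
lemma I_mul_X_le (k g : A) (i : Fin 6) : |S.I (k * S.X i g)| ≤ S.nrm (S.X i k) * S.nrm g := by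
  have h1 := S.IX i (k * g)
  rw [Derivation.leibniz, map_add] at h1
  simp only [smul_eq_mul] at h1
  have h2 : S.I (k * S.X i g) = - S.I (S.X i k * g) := by rw [mul_comm (S.X i k)]; linarith
  rw [h2, abs_neg]
  exact S.cs _ _

lemma I_mul_sum_le (k : A) (h : Fin 6 → Fin 6 → A) (i j l : Fin 6) :
    |S.I (k * ∑ m, S.cA i j m * h m l)| ≤ S.cS * S.nrm k * S.n2 h := by
  have h1 : S.I (k * ∑ m, S.cA i j m * h m l) = ∑ m, S.c i j m * S.I (k * h m l) := by
    rw [mul_sum, map_sum]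
    refine sum_congr rfl fun m _ => ?_
    have : k * (S.cA i j m * h m l) = S.c i j m • (k * h m l) := by
      rw [Algebra.smul_def, cA]; ring
    rw [this, map_smul, smul_eq_mul]
  rw [h1]
  calc |∑ m, S.c i j m * S.I (k * h m l)| ≤ ∑ m, |S.c i j m * S.I (k * h m l)| :=
        abs_sum_le_sum_abs _ _
    _ ≤ ∑ m, |S.c i j m| * (S.nrm k * S.n2 h) := by
        refine sum_le_sum fun m _ => ?_
        rw [abs_mul]
        refine mul_le_mul_of_nonneg_left ?_ (abs_nonneg _)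
        exact (S.cs _ _).trans (mul_le_mul_of_nonneg_left (S.le_n2 h m l) (S.nrm_nonneg _))
    _ = (∑ m, |S.c i j m|) * (S.nrm k * S.n2 h) := by rw [sum_mul]
    _ ≤ S.cS * (S.nrm k * S.n2 h) := mul_le_mul_of_nonneg_right (S.sum_c_le i j)
        (mul_nonneg (S.nrm_nonneg _) (S.n2_nonneg _))
    _ = S.cS * S.nrm k * S.n2 h := by ring

/-- size of a coefficient together with its first derivatives -/
noncomputable def sz (k : A) : ℝ := ∑ i, S.nrm (S.X i k) + S.cS * S.nrm k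

lemma sz_nonneg (k : A) : 0 ≤ S.sz k :=
  add_nonneg (sum_nonneg fun _ _ => S.nrm_nonneg _) (mul_nonneg S.cS_nonneg (S.nrm_nonneg _))

lemma nrmX_le_sz (k : A) (i : Fin 6) : S.nrm (S.X i k) ≤ ∑ i, S.nrm (S.X i k) :=
  single_le_sum (f := fun i => S.nrm (S.X i k)) (fun _ _ => S.nrm_nonneg _) (mem_univ i)

/-- pairing with an exact form -/
lemma I_mul_dX2_le (k : A) (h : Fin 6 → Fin 6 → A) (i j l : Fin 6) :
    |S.I (k * dX2 S.X S.cA h i j l)| ≤ 3 * S.sz k * S.n2 h := by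
  have h1 : S.I (k * dX2 S.X S.cA h i j l) =
      S.I (k * S.X i (h j l)) - S.I (k * S.X j (h i l)) + S.I (k * S.X l (h i j)) -
      (S.I (k * ∑ m, S.cA i j m * h m l) - S.I (k * ∑ m, S.cA i l m * h m j) +
      S.I (k * ∑ m, S.cA j l m * h m i)) := by
    rw [dX2]
    simp only [← map_sub, ← map_add]
    congr 1; ring
  have b : ∀ (a b c : Fin 6), |S.I (k * S.X a (h b c))| ≤ (∑ i, S.nrm (S.X i k)) * S.n2 h := by
    intro a b c
    refine (S.I_mul_X_le k (h b c) a).trans ?_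
    exact mul_le_mul (S.nrmX_le_sz k a) (S.le_n2 h b c) (S.nrm_nonneg _)
      (sum_nonneg fun _ _ => S.nrm_nonneg _)
  rw [h1]
  have a1 := abs_le.mp (b i j l)
  have a2 := abs_le.mp (b j i l)
  have a3 := abs_le.mp (b l i j)
  have a4 := abs_le.mp (S.I_mul_sum_le k h i j l)
  have a5 := abs_le.mp (S.I_mul_sum_le k h i l j)
  have a6 := abs_le.mp (S.I_mul_sum_le k h j l i)
  rw [abs_le, sz]
  constructor <;> nlinarith [a1.1, a1.2, a2.1, a2.2, a3.1, a3.2, a4.1, a4.2, a5.1, a5.2, a6.1, a6.2]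

/-- bound on the size of the exterior derivative of a mollified form -/
lemma dX2_J_bound (N : ℕ) : ∃ C : ℝ, 0 ≤ C ∧ ∀ h, S.n3 (dX2 S.X S.cA (S.J2 N h)) ≤ C * S.n2 h := by
  obtain ⟨C, hC⟩ := S.J_bound N
  set D := Real.sqrt (max C 0) with hD
  have hD0 : 0 ≤ D := Real.sqrt_nonneg _
  have hX : ∀ i f, S.nrm (S.X i (S.J N f)) ≤ D * S.nrm f := by
    intro i f
    rw [nrm, nrm, hD, ← Real.sqrt_mul (le_max_right _ _)]
    exact Real.sqrt_le_sqrt ((hC i f).trans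
      (mul_le_mul_of_nonneg_right (le_max_left _ _) (S.I_sq_nonneg f)))
  refine ⟨∑ _I : Tr, (3 * D + 3 * S.cS), sum_nonneg fun _ _ => by
    have := S.cS_nonneg; positivity, fun h => ?_⟩
  rw [n3, sum_mul]
  refine sum_le_sum fun I _ => ?_
  obtain ⟨i, j, k⟩ := I
  have hc : ∀ a b d, S.nrm (∑ m, S.cA a b m * S.J N (h m d)) ≤ S.cS * S.n2 h := by
    intro a b d
    refine (S.nrm_sum_le _ _).trans ?_
    calc ∑ m, S.nrm (S.cA a b m * S.J N (h m d)) ≤ ∑ m, |S.c a b m| * S.n2 h := by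
          refine sum_le_sum fun m _ => ?_
          rw [cA, ← Algebra.smul_def, S.nrm_smul]
          exact mul_le_mul_of_nonneg_left ((S.nrm_J_le _ _).trans (S.le_n2 h m d)) (abs_nonneg _)
      _ = (∑ m, |S.c a b m|) * S.n2 h := by rw [sum_mul]
      _ ≤ S.cS * S.n2 h := mul_le_mul_of_nonneg_right (S.sum_c_le a b) (S.n2_nonneg _)
  have hx : ∀ a b d, S.nrm (S.X a (S.J N (h b d))) ≤ D * S.n2 h := fun a b d =>
    (hX a _).trans (mul_le_mul_of_nonneg_left (S.le_n2 h b d) hD0)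
  have e : uc (dX2 S.X S.cA (S.J2 N h)) (i, j, k) =
    S.X i (S.J N (h j k)) - S.X j (S.J N (h i k)) + S.X k (S.J N (h i j)) -
    ((∑ m, S.cA i j m * S.J N (h m k)) - (∑ m, S.cA i k m * S.J N (h m j)) +
      ∑ m, S.cA j k m * S.J N (h m i)) := rfl
  rw [e]
  refine (S.nrm_sub_le _ _).trans ?_
  have e1 := (S.nrm_add_le (S.X i (S.J N (h j k)) - S.X j (S.J N (h i k)))
    (S.X k (S.J N (h i j))))
  have e2 := S.nrm_sub_le (S.X i (S.J N (h j k))) (S.X j (S.J N (h i k)))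
  have e3 := S.nrm_add_le ((∑ m, S.cA i j m * S.J N (h m k)) - (∑ m, S.cA i k m * S.J N (h m j)))
    (∑ m, S.cA j k m * S.J N (h m i))
  have e4 := S.nrm_sub_le (∑ m, S.cA i j m * S.J N (h m k)) (∑ m, S.cA i k m * S.J N (h m j))
  have f1 := hx i j k
  have f2 := hx j i k
  have f3 := hx k i j
  have f4 := hc i j k
  have f5 := hc i k j
  have f6 := hc j k i
  linarith

end Calc

namespace Frame

variable {S : Calc M A} (F : Frame S)

/-- the `L²` pairing of 3-forms -/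
noncomputable def q (v w : Fin 6 → Fin 6 → Fin 6 → A) : ℝ := S.I (F.ρ * ip3 (F.fr v) (F.fr w))

/-- the coefficients of the pairing -/
def H (I K : Tr) : A := F.ρ * ∑ P, E3 F.e P I * E3 F.e P K

lemma fr_uc (w : Fin 6 → Fin 6 → Fin 6 → A) (P : Tr) : uc (F.fr w) P = ∑ I, E3 F.e P I * uc w I :=
  t3_uc F.e w P

lemma q_eq (v w : Fin 6 → Fin 6 → Fin 6 → A) :
    F.q v w = ∑ I, ∑ K, S.I (F.H I K * uc v I * uc w K) := by
  rw [q, ip3_uc]
  simp only [fr_uc, ← map_sum]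
  congr 1
  have h1 : ∀ P : Tr, (∑ I, E3 F.e P I * uc v I) * (∑ K, E3 F.e P K * uc w K) =
      ∑ I, ∑ K, (E3 F.e P I * E3 F.e P K) * (uc v I * uc w K) := by
    intro P
    rw [sum_mul_sum]
    exact sum_congr rfl fun I _ => sum_congr rfl fun K _ => by ring
  simp only [h1]
  rw [sum_comm, mul_sum]
  refine sum_congr rfl fun I _ => ?_
  rw [sum_comm, mul_sum]
  refine sum_congr rfl fun K _ => ?_
  rw [← sum_mul, H]; ring

lemma ρ_lower [CompactSpace M] : ∃ r : ℝ, 0 < r ∧ ∀ x, r ≤ S.ev F.ρ x := by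
  rcases isEmpty_or_nonempty M with h | h
  · exact ⟨1, one_pos, fun x => (h.false x).elim⟩
  · obtain ⟨x, _, hx⟩ := isCompact_univ.exists_isMinOn Set.univ_nonempty (S.cont F.ρ).continuousOn
    exact ⟨_, F.hρpos x, fun y => hx (Set.mem_univ y)⟩

/-- an `L²` function is controlled by its weighted square -/
lemma nrm_le_weighted [CompactSpace M] : ∃ C : ℝ, 0 ≤ C ∧ ∀ (g G : A),
    (∀ x, S.ev (g * g) x ≤ S.ev G x) → S.nrm g ≤ C * Real.sqrt (S.I (F.ρ * G)) := by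
  obtain ⟨r, hr, h⟩ := F.ρ_lower
  refine ⟨Real.sqrt (1 / r), Real.sqrt_nonneg _, fun g G hg => ?_⟩
  rw [Calc.nrm, ← Real.sqrt_mul (by positivity)]
  apply Real.sqrt_le_sqrt
  have h1 : S.I (r • (g * g)) ≤ S.I (F.ρ * G) := by
    apply S.I_mono
    intro x
    rw [map_smul, Pi.smul_apply, smul_eq_mul, map_mul S.ev F.ρ, Pi.mul_apply]
    have h2 : 0 ≤ S.ev (g * g) x := by rw [map_mul]; exact mul_self_nonneg _
    exact mul_le_mul (h x) (hg x) h2 (F.hρpos x).le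
  rw [map_smul, smul_eq_mul] at h1
  rw [div_mul_eq_mul_div, one_mul, le_div_iff₀ hr]
  linarith

/-- norm comparison for 3-forms, lower bound -/
lemma n3_le [CompactSpace M] : ∃ C : ℝ, 0 ≤ C ∧ ∀ w, S.n3 w ≤ C * Real.sqrt (F.q w w) := by
  obtain ⟨C1, hC1, h1⟩ := F.nrm_le_weighted
  choose B hB0 hB using fun IP : Tr × Tr => S.exists_mul_bound (E3 F.f IP.1 IP.2)
  refine ⟨∑ I, ∑ P, B (I, P) * C1, sum_nonneg fun I _ => sum_nonneg fun P _ =>
    mul_nonneg (hB0 _) hC1, fun w => ?_⟩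
  have h2 : ∀ I, uc w I = ∑ P, E3 F.f I P * uc (F.fr w) P := by
    intro I
    simp only [fr_uc, mul_sum]
    rw [sum_comm]
    have : ∀ K, ∑ P, E3 F.f I P * (E3 F.e P K * uc w K) = (if I = K then 1 else 0) * uc w K := by
      intro K
      rw [← E3_inv F.hfe I K, sum_mul]
      exact sum_congr rfl fun P _ => by ring
    simp only [this]
    simp
  have h3 : ∀ P, S.nrm (uc (F.fr w) P) ≤ C1 * Real.sqrt (F.q w w) := by
    intro P
    apply h1
    intro x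
    rw [ip3_uc, map_sum, Finset.sum_apply]
    exact single_le_sum (f := fun P => S.ev (uc (F.fr w) P * uc (F.fr w) P) x)
      (fun P _ => by rw [map_mul]; exact mul_self_nonneg _) (mem_univ P)
  rw [Calc.n3, sum_mul]
  refine sum_le_sum fun I _ => ?_
  rw [h2 I, sum_mul]
  refine (S.nrm_sum_le _ _).trans (sum_le_sum fun P _ => ?_)
  calc S.nrm (E3 F.f I P * uc (F.fr w) P) ≤ B (I, P) * S.nrm (uc (F.fr w) P) := hB (I, P) _
    _ ≤ B (I, P) * (C1 * Real.sqrt (F.q w w)) := mul_le_mul_of_nonneg_left (h3 P) (hB0 _)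
    _ = _ := by ring

/-- norm comparison for 3-forms, upper bound -/
lemma q_le [CompactSpace M] : ∃ C : ℝ, 0 ≤ C ∧ ∀ w, F.q w w ≤ C * (S.n3 w * S.n3 w) := by
  choose B hB0 hB using fun IP : Tr × Tr => S.exists_mul_bound (F.H IP.1 IP.2)
  refine ⟨∑ I, ∑ K, B (I, K), sum_nonneg fun I _ => sum_nonneg fun K _ => hB0 _, fun w => ?_⟩
  rw [q_eq, sum_mul]
  refine sum_le_sum fun I _ => ?_
  rw [sum_mul]
  refine sum_le_sum fun K _ => ?_
  have h1 := le_of_abs_le (S.cs (F.H I K * uc w I) (uc w K))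
  refine h1.trans ?_
  calc S.nrm (F.H I K * uc w I) * S.nrm (uc w K) ≤ (B (I, K) * S.nrm (uc w I)) * S.nrm (uc w K) :=
        mul_le_mul_of_nonneg_right (hB (I, K) _) (S.nrm_nonneg _)
    _ ≤ (B (I, K) * S.n3 w) * S.n3 w := mul_le_mul (mul_le_mul_of_nonneg_left (S.le_n3 w I) (hB0 _))
        (S.le_n3 w K) (S.nrm_nonneg _) (mul_nonneg (hB0 _) (S.n3_nonneg w))
    _ = _ := by ring

/-- the error in Friedrichs' estimate -/
noncomputable def err (N : ℕ) (w : Fin 6 → Fin 6 → Fin 6 → A) : ℝ :=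
  ∑ I : Tr, ∑ K : Tr, 3 * S.sz (S.K N (F.H I K) (uc w I))

/-- Friedrichs' estimate. -/
theorem friedrichs (N : ℕ) (w : Fin 6 → Fin 6 → Fin 6 → A) (h : Fin 6 → Fin 6 → A) :
    |F.q (S.J3 N w) (dX2 S.X S.cA h) - F.q w (dX2 S.X S.cA (S.J2 N h))| ≤
      F.err N w * S.n2 h := by
  have h1 : F.q (S.J3 N w) (dX2 S.X S.cA h) - F.q w (dX2 S.X S.cA (S.J2 N h)) =
      ∑ I : Tr, ∑ K : Tr, S.I (S.K N (F.H I K) (uc w I) * uc (dX2 S.X S.cA h) K) := by
    rw [S.dX2_J, q_eq, q_eq, ← sum_sub_distrib]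
    refine sum_congr rfl fun I _ => ?_
    rw [← sum_sub_distrib]
    refine sum_congr rfl fun K _ => ?_
    have e1 : uc (S.J3 N (dX2 S.X S.cA h)) K = S.J N (uc (dX2 S.X S.cA h) K) := rfl
    have e2 : uc (S.J3 N w) I = S.J N (uc w I) := rfl
    rw [e1, e2, ← S.J_symm, Calc.K, sub_mul, map_sub]
  rw [h1, err, sum_mul]
  refine (abs_sum_le_sum_abs _ _).trans (sum_le_sum fun I _ => ?_)
  rw [sum_mul]
  refine (abs_sum_le_sum_abs _ _).trans (sum_le_sum fun K _ => ?_)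
  exact S.I_mul_dX2_le _ _ _ _ _

lemma sz_add (k l : A) : S.sz (k + l) ≤ S.sz k + S.sz l := by
  simp only [Calc.sz, map_add]
  have h1 : ∑ i, S.nrm (S.X i k + S.X i l) ≤ ∑ i, S.nrm (S.X i k) + ∑ i, S.nrm (S.X i l) := by
    rw [← sum_add_distrib]
    exact sum_le_sum fun i _ => S.nrm_add_le _ _
  have h2 := mul_le_mul_of_nonneg_left (S.nrm_add_le k l) S.cS_nonneg
  linarith

lemma err_add (N : ℕ) (v w : Fin 6 → Fin 6 → Fin 6 → A) :
    F.err N (v + w) ≤ F.err N v + F.err N w := by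
  simp only [err, ← sum_add_distrib]
  refine sum_le_sum fun I _ => sum_le_sum fun K _ => ?_
  have : S.K N (F.H I K) (uc (v + w) I) = S.K N (F.H I K) (uc v I) + S.K N (F.H I K) (uc w I) :=
    S.K_add _ _ _ _
  rw [this]
  have := sz_add (S := S) (S.K N (F.H I K) (uc v I)) (S.K N (F.H I K) (uc w I))
  linarith

lemma err_bound [CompactSpace M] : ∃ C : ℝ, 0 ≤ C ∧ ∀ N w, F.err N w ≤ C * S.n3 w := by
  choose B hB0 hB using fun IP : Tr × Tr => S.K_bound (F.H IP.1 IP.2)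
  choose D hD0 hD using fun IP : Tr × Tr => S.XK_bound (F.H IP.1 IP.2)
  refine ⟨∑ I, ∑ K, 3 * (6 * D (I, K) + S.cS * B (I, K)), sum_nonneg fun I _ =>
    sum_nonneg fun K _ => mul_nonneg (by norm_num) (add_nonneg (mul_nonneg (by norm_num) (hD0 _))
      (mul_nonneg S.cS_nonneg (hB0 _))), fun N w => ?_⟩
  rw [err, sum_mul]
  refine sum_le_sum fun I _ => ?_
  rw [sum_mul]
  refine sum_le_sum fun K _ => ?_
  have h1 : ∑ i, S.nrm (S.X i (S.K N (F.H I K) (uc w I))) ≤ 6 * (D (I, K) * S.n3 w) := by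
    calc _ ≤ ∑ _i : Fin 6, D (I, K) * S.n3 w := by
          refine sum_le_sum fun i _ => (hD (I, K) N i _).trans ?_
          exact mul_le_mul_of_nonneg_left (S.le_n3 w I) (hD0 _)
      _ = _ := by simp
  have h2 : S.cS * S.nrm (S.K N (F.H I K) (uc w I)) ≤ S.cS * (B (I, K) * S.n3 w) :=
    mul_le_mul_of_nonneg_left ((hB (I, K) N _).trans
      (mul_le_mul_of_nonneg_left (S.le_n3 w I) (hB0 _))) S.cS_nonneg
  rw [Calc.sz]
  linarith

lemma err_lim [CompactSpace M] (w : Fin 6 → Fin 6 → Fin 6 → A) :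
    Tendsto (fun N => F.err N w) atTop (𝓝 0) := by
  have : Tendsto (fun N => F.err N w) atTop (𝓝 (∑ I : Tr, ∑ K : Tr, 3 * (∑ i : Fin 6, (0 : ℝ) + S.cS * 0))) := by
    unfold err Calc.sz
    refine tendsto_finsetSum _ fun I _ => tendsto_finsetSum _ fun K _ => ?_
    refine Tendsto.const_mul _ (Tendsto.add (tendsto_finsetSum _ fun i _ => ?_)
      (Tendsto.const_mul _ ?_))
    · exact S.XK_lim _ _ _
    · exact S.K_lim _ _
  simpa using this

end Frame

end Pool.Agent.H83.Curv
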