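import Mathlib
import Pool.Agent.H83.Curv.CoreC

/-! The minimising sequence and the final contradiction. -/

namespace Pool.Agent.H83.Curv

open Finset Filter Topology

variable {M A : Type*} [TopologicalSpace M] [CommRing A] [Algebra ℝ A]

omit [Algebra ℝ A] in
lemma t2_inv {e f : Fin 6 → Fin 6 → A} (h : ∀ i j, ∑ a, f i a * e a j = if i = j then 1 else 0)
    (D : Fin 6 → Fin 6 → A) (i j : Fin 6) :
    t2 (fun a b => t2 D (e a) (e b)) (f i) (f j) = D i j := by
  have h1 : t2 (fun a b => t2 D (e a) (e b)) (f i) (f j) =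
      ∑ c, ∑ d, (∑ a, f i a * e a c) * ((∑ b, f j b * e b d) * D c d) := by
    have e1 : t2 (fun a b => t2 D (e a) (e b)) (f i) (f j) =
        ∑ a, ∑ b, ∑ c, ∑ d, (f i a * e a c) * ((f j b * e b d) * D c d) := by
      simp only [t2, mul_sum]
      exact sum_congr rfl fun a _ => sum_congr rfl fun b _ => sum_congr rfl fun c _ =>
        sum_congr rfl fun d _ => by ring
    have e2 : ∀ H : Fin 6 → Fin 6 → Fin 6 → Fin 6 → A, ∑ a, ∑ b, ∑ c, ∑ d, H a b c d =
        ∑ c, ∑ d, ∑ a, ∑ b, H a b c d := by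
      intro H
      have s1 : ∀ a, ∑ b, ∑ c, ∑ d, H a b c d = ∑ c, ∑ d, ∑ b, H a b c d := by
        intro a
        rw [sum_comm]
        exact sum_congr rfl fun c _ => sum_comm
      simp only [s1]
      rw [sum_comm]
      exact sum_congr rfl fun c _ => sum_comm
    rw [e1, e2]
    refine sum_congr rfl fun c _ => sum_congr rfl fun d _ => ?_
    simp only [← mul_sum, ← sum_mul]
  rw [h1]
  simp [h]

lemma dX2_add (X : Fin 6 → Derivation ℝ A A) (c : Fin 6 → Fin 6 → Fin 6 → A)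
    (g h : Fin 6 → Fin 6 → A) : dX2 X c (g + h) = dX2 X c g + dX2 X c h := by
  funext i j k
  simp only [dX2, Pi.add_apply, map_add, mul_add, sum_add_distrib]; ring

lemma dX2_smul (X : Fin 6 → Derivation ℝ A A) (c : Fin 6 → Fin 6 → Fin 6 → A)
    (t : ℝ) (h : Fin 6 → Fin 6 → A) : dX2 X c (t • h) = t • dX2 X c h := by
  funext i j k
  simp only [dX2, Pi.smul_apply, Derivation.map_smul, mul_smul_comm, ← smul_sum, smul_sub, smul_add]

lemma dX3_add (X : Fin 6 → Derivation ℝ A A) (c : Fin 6 → Fin 6 → Fin 6 → A)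
    (v w : Fin 6 → Fin 6 → Fin 6 → A) (i j k l : Fin 6) :
    dX3 X c (v + w) i j k l = dX3 X c v i j k l + dX3 X c w i j k l := by
  simp only [dX3, Pi.add_apply, map_add, mul_add, sum_add_distrib]; ring

namespace Frame

variable {S : Calc M A} (F : Frame S)

lemma fr_add (v w : Fin 6 → Fin 6 → Fin 6 → A) : F.fr (v + w) = F.fr v + F.fr w := by
  funext i j k
  simp only [fr, t3, Pi.add_apply, mul_add, sum_add_distrib]

lemma fr_smul (t : ℝ) (w : Fin 6 → Fin 6 → Fin 6 → A) : F.fr (t • w) = t • F.fr w := by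
  funext i j k
  simp only [fr, t3, Pi.smul_apply, mul_smul_comm, ← smul_sum]

lemma q_add_left (u v w : Fin 6 → Fin 6 → Fin 6 → A) : F.q (u + v) w = F.q u w + F.q v w := by
  simp only [q, fr_add, ← map_add]
  congr 1
  simp only [ip3, Pi.add_apply, add_mul, sum_add_distrib]; ring

lemma q_comm (v w : Fin 6 → Fin 6 → Fin 6 → A) : F.q v w = F.q w v := by
  simp only [q, ip3]
  congr 2
  exact sum_congr rfl fun i _ => sum_congr rfl fun j _ => sum_congr rfl fun k _ => mul_comm _ _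

lemma q_smul_left (t : ℝ) (v w : Fin 6 → Fin 6 → Fin 6 → A) : F.q (t • v) w = t * F.q v w := by
  have : F.ρ * ip3 (F.fr (t • v)) (F.fr w) = t • (F.ρ * ip3 (F.fr v) (F.fr w)) := by
    rw [fr_smul]
    simp only [ip3, Pi.smul_apply, smul_mul_assoc, ← smul_sum, mul_smul_comm]
  rw [q, this, map_smul, smul_eq_mul, q]

lemma q_nonneg (w : Fin 6 → Fin 6 → Fin 6 → A) : 0 ≤ F.q w w := by
  apply S.I_nonneg
  intro x
  rw [map_mul, Pi.mul_apply]
  refine mul_nonneg (F.hρpos x).le ?_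
  rw [ip3_uc, map_sum, Finset.sum_apply]
  exact sum_nonneg fun P _ => by rw [map_mul]; exact mul_self_nonneg _

lemma q_expand (t : ℝ) (v w : Fin 6 → Fin 6 → Fin 6 → A) :
    F.q (v + t • w) (v + t • w) = F.q v v + 2 * t * F.q v w + t * t * F.q w w := by
  rw [q_add_left, q_comm, q_add_left, q_smul_left, q_comm F (t • w) (v + t • w), q_add_left,
    q_comm F v (t • w), q_smul_left, q_smul_left, q_comm F w (t • w), q_smul_left, q_comm F w v]
  ring

/-- a primitive for the test form -/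
def prim (D : Fin 6 → Fin 6 → A) : Fin 6 → Fin 6 → A := fun i j => t2 D (F.f i) (F.f j)

lemma prim_skew {D : Fin 6 → Fin 6 → A} (hD : ∀ i j, D j i = - D i j) (i j : Fin 6) :
    F.prim D j i = - F.prim D i j := t2_swap hD _ _

lemma fr2_prim (D : Fin 6 → Fin 6 → A) : F.fr2 (F.prim D) = D := by
  funext a b
  exact t2_inv F.hef D a b

lemma n2_prim [CompactSpace M] : ∃ C : ℝ, 0 ≤ C ∧ ∀ D : Fin 6 → Fin 6 → A,
    S.n2 (F.prim D) ≤ C * Real.sqrt (S.I (F.ρ * ∑ c, ∑ d, D c d * D c d)) := by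
  obtain ⟨C1, hC1, h1⟩ := F.nrm_le_weighted
  choose B hB0 hB using fun p : (Fin 6 × Fin 6) × (Fin 6 × Fin 6) =>
    S.exists_mul_bound (F.f p.1.1 p.2.1 * F.f p.1.2 p.2.2)
  refine ⟨∑ i, ∑ j, ∑ c, ∑ d, B ((i, j), (c, d)) * C1, sum_nonneg fun i _ => sum_nonneg fun j _ =>
    sum_nonneg fun c _ => sum_nonneg fun d _ => mul_nonneg (hB0 _) hC1, fun D => ?_⟩
  have h3 : ∀ c d, S.nrm (D c d) ≤ C1 * Real.sqrt (S.I (F.ρ * ∑ c, ∑ d, D c d * D c d)) := by
    intro c d
    apply h1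
    intro x
    simp only [map_sum, Finset.sum_apply]
    have e1 : S.ev (D c d * D c d) x ≤ ∑ d, S.ev (D c d * D c d) x :=
      single_le_sum (f := fun d => S.ev (D c d * D c d) x)
        (fun d _ => by rw [map_mul]; exact mul_self_nonneg _) (mem_univ d)
    have e2 : ∑ d, S.ev (D c d * D c d) x ≤ ∑ c, ∑ d, S.ev (D c d * D c d) x :=
      single_le_sum (f := fun c => ∑ d, S.ev (D c d * D c d) x)
        (fun c _ => sum_nonneg fun d _ => by rw [map_mul]; exact mul_self_nonneg _) (mem_univ c)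
    exact e1.trans e2
  rw [Calc.n2, sum_mul]
  refine sum_le_sum fun i _ => ?_
  rw [sum_mul]
  refine sum_le_sum fun j _ => ?_
  rw [sum_mul, prim, t2]
  refine (S.nrm_sum_le _ _).trans (sum_le_sum fun c _ => ?_)
  rw [sum_mul]
  refine (S.nrm_sum_le _ _).trans (sum_le_sum fun d _ => ?_)
  calc S.nrm (F.f i c * F.f j d * D c d) ≤ B ((i, j), (c, d)) * S.nrm (D c d) :=
        hB ((i, j), (c, d)) _
    _ ≤ B ((i, j), (c, d)) * (C1 * Real.sqrt (S.I (F.ρ * ∑ c, ∑ d, D c d * D c d))) :=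
        mul_le_mul_of_nonneg_left (h3 c d) (hB0 _)
    _ = _ := by ring

/-- **The core theorem**: a 4-positive curvature operator is incompatible with a closed 3-form
having a non-zero period. -/
theorem core [CompactSpace M] (h4 : ∀ x, FourPos (fun a b c d => S.ev (F.R a b c d) x))
    (α : Fin 6 → Fin 6 → Fin 6 → A) (hα : Alt3 α)
    (hαcl : ∀ i j k l, dX3 S.X S.cA α i j k l = 0)
    (hL : ∀ h : Fin 6 → Fin 6 → A, (∀ i j, h j i = - h i j) → S.I (dX2 S.X S.cA h 0 1 2) = 0)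
    (hα0 : S.I (α 0 1 2) ≠ 0) : False := by
  -- constants
  obtain ⟨c0, hc0, hcoer⟩ := F.coercive h4
  obtain ⟨Cn, hCn, hn3⟩ := F.n3_le
  obtain ⟨Cq, hCq, hq⟩ := F.q_le
  obtain ⟨Cz, hCz, hz⟩ := F.n2_prim
  obtain ⟨Ce, hCe, herr⟩ := F.err_bound
  choose CN hCN0 hCN using S.dX2_J_bound
  -- infimum
  let SK := {h : Fin 6 → Fin 6 → A // ∀ i j, h j i = - h i j}
  let Q : SK → ℝ := fun h => F.q (α + dX2 S.X S.cA h.1) (α + dX2 S.X S.cA h.1)
  have hbdd : BddBelow (Set.range Q) := ⟨0, by rintro _ ⟨h, rfl⟩; exact F.q_nonneg _⟩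
  have hne : Nonempty SK := ⟨⟨0, fun i j => by simp⟩⟩
  set m := ⨅ h, Q h with hm
  have hmle : ∀ h : SK, m ≤ Q h := fun h => ciInf_le hbdd h
  have hseq : ∀ n : ℕ, ∃ h : SK, Q h < m + 1 / ((n : ℝ) + 1) := fun n =>
    exists_lt_of_ciInf_lt (by rw [← hm]; linarith [show (0 : ℝ) < 1 / ((n : ℝ) + 1) by positivity])
  choose hn hhn using hseq
  set w : ℕ → Fin 6 → Fin 6 → Fin 6 → A := fun n => α + dX2 S.X S.cA (hn n).1 with hw
  have hcskew : ∀ i j k, S.cA j i k = - S.cA i j k := fun i j k => by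
    rw [Calc.cA, Calc.cA, S.c_skew i j k, map_neg]
  have hwalt : ∀ n, Alt3 (w n) := by
    intro n
    have h1 := dX2_alt S.X S.cA hcskew (hn n).2
    exact ⟨fun i j k => by simp only [hw, Pi.add_apply, hα.1 i j k, h1.1 i j k]; ring,
      fun i j k => by simp only [hw, Pi.add_apply, hα.2 i j k, h1.2 i j k]; ring⟩
  have hwcl : ∀ n i j k l, dX3 S.X S.cA (w n) i j k l = 0 := by
    intro n i j k l
    rw [hw]
    simp only
    rw [dX3_add, hαcl, zero_add]
    apply dX3_dX2 S.X S.cA S.comm (fun i j k l => S.X_cA i j k l) hcskew _ (hn n).2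
    intro i j k l
    have := congrArg (algebraMap ℝ A) (S.c_jacobi i j k l)
    simpa [Calc.cA, map_sum] using this
  -- almost orthogonality
  have horth : ∀ n (ζ : SK), F.q (w n) (dX2 S.X S.cA ζ.1) ^ 2 ≤
      1 / ((n : ℝ) + 1) * F.q (dX2 S.X S.cA ζ.1) (dX2 S.X S.cA ζ.1) := by
    intro n ζ
    have h1 : ∀ t : ℝ, 0 ≤ F.q (dX2 S.X S.cA ζ.1) (dX2 S.X S.cA ζ.1) * (t * t) +
        (2 * F.q (w n) (dX2 S.X S.cA ζ.1)) * t + 1 / ((n : ℝ) + 1) := by
      intro t
      have h2 := hmle ⟨(hn n).1 + t • ζ.1, fun i j => by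
        simp only [Pi.add_apply, Pi.smul_apply, (hn n).2 i j, ζ.2 i j, smul_neg]; ring⟩
      have h3 : α + dX2 S.X S.cA ((hn n).1 + t • ζ.1) = w n + t • dX2 S.X S.cA ζ.1 := by
        rw [dX2_add, dX2_smul, ← add_assoc]
      simp only [Q] at h2
      rw [h3, q_expand] at h2
      have h4 := (hhn n).le
      simp only [Q] at h4
      linarith
    have := discrim_le_zero (K := ℝ) h1
    rw [discrim] at this
    nlinarith
  -- Cauchy property
  have hcauchy : ∀ n k : ℕ, F.q (w n + (-1 : ℝ) • w k) (w n + (-1 : ℝ) • w k) ≤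
      2 * (1 / ((n : ℝ) + 1)) + 2 * (1 / ((k : ℝ) + 1)) := by
    intro n k
    have h1 := hmle ⟨(1 / 2 : ℝ) • ((hn n).1 + (hn k).1), fun i j => by
      simp only [Pi.add_apply, Pi.smul_apply, (hn n).2 i j, (hn k).2 i j, ← smul_neg]
      congr 1; ring⟩
    have h2 : α + dX2 S.X S.cA ((1 / 2 : ℝ) • ((hn n).1 + (hn k).1)) =
        (1 / 2 : ℝ) • (w n + (1 : ℝ) • w k) := by
      rw [dX2_smul, dX2_add, hw, one_smul]
      have : α = (1 / 2 : ℝ) • (α + α) := by
        rw [smul_add, ← add_smul]; norm_num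
      conv_lhs => rw [this]
      rw [← smul_add]
      congr 1
      simp only
      abel
    simp only [Q] at h1
    rw [h2, q_smul_left, q_comm, q_smul_left, q_expand] at h1
    rw [q_expand]
    have h3 := (hhn n).le
    have h4 := (hhn k).le
    simp only [Q] at h3 h4
    change F.q (w n) (w n) ≤ _ at h3
    change F.q (w k) (w k) ≤ _ at h4
    linarith
  -- the main estimate
  set L0 := |S.I (α 0 1 2)| with hL0
  have hL0pos : 0 < L0 := abs_pos.mpr hα0
  set Cf : ℝ := S.nrm 1 * (Cn * (Real.sqrt (1 / c0) * Cz)) with hCf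
  have hCf0 : 0 ≤ Cf := mul_nonneg (S.nrm_nonneg _) (mul_nonneg hCn (mul_nonneg
    (Real.sqrt_nonneg _) hCz))
  have hmain : ∀ N n : ℕ, L0 ≤ Cf * (Real.sqrt (1 / ((n : ℝ) + 1)) * (Real.sqrt Cq * CN N) +
      F.err N (w n)) := by
    intro N n
    set v := S.J3 N (w n) with hv
    have hvalt : Alt3 v := S.J3_alt N (hwalt n)
    have hvcl : ∀ i j k l, dX3 S.X S.cA v i j k l = 0 := by
      intro i j k l
      rw [hv, S.dX3_J, hwcl, map_zero]
    set Δ := S.I (F.ρ * ∑ c, ∑ d, F.dv v c d * F.dv v c d) with hΔ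
    have hΔ0 : 0 ≤ Δ := by
      apply S.I_nonneg
      intro x
      rw [map_mul, Pi.mul_apply]
      refine mul_nonneg (F.hρpos x).le ?_
      simp only [map_sum, Finset.sum_apply]
      exact sum_nonneg fun c _ => sum_nonneg fun d _ => by rw [map_mul]; exact mul_self_nonneg _
    -- the test form
    set D : Fin 6 → Fin 6 → A := fun c d => - F.dv v c d with hD
    have hDs : ∀ i j, D j i = - D i j := fun i j => by simp only [hD, F.dv_skew hvalt i j]
    set ζ := F.prim D with hζ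
    have hζs : ∀ i j, ζ j i = - ζ i j := F.prim_skew hDs
    have h1 : F.q v (dX2 S.X S.cA ζ) = 3 * Δ := by
      rw [q, F.adjoint hvalt hζs, hζ, F.fr2_prim, hΔ]
      have : F.ρ * ∑ c, ∑ d, F.dv v c d * D c d = - (F.ρ * ∑ c, ∑ d, F.dv v c d * F.dv v c d) := by
        simp only [hD, mul_neg, sum_neg_distrib]
      rw [this, map_neg]; ring
    have h2 := F.friedrichs N (w n) ζ
    have h3 : S.n2 ζ ≤ Cz * Real.sqrt Δ := by
      have := hz D
      have e : ∑ c, ∑ d, D c d * D c d = ∑ c, ∑ d, F.dv v c d * F.dv v c d := by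
        simp only [hD, neg_mul_neg]
      rwa [e] at this
    have h5 : |F.q (w n) (dX2 S.X S.cA (S.J2 N ζ))| ≤
        Real.sqrt (1 / ((n : ℝ) + 1)) * (Real.sqrt Cq * CN N) * S.n2 ζ := by
      have h6 := horth n ⟨S.J2 N ζ, fun i j => by simp only [Calc.J2, hζs i j, map_neg]⟩
      simp only at h6
      have h7 := hq (dX2 S.X S.cA (S.J2 N ζ))
      have h8 := hCN N ζ
      apply abs_le_of_sq_le_sq _ (mul_nonneg (mul_nonneg (Real.sqrt_nonneg _)
        (mul_nonneg (Real.sqrt_nonneg _) (hCN0 N))) (S.n2_nonneg _))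
      have h9 : S.n3 (dX2 S.X S.cA (S.J2 N ζ)) * S.n3 (dX2 S.X S.cA (S.J2 N ζ)) ≤
          (CN N * S.n2 ζ) * (CN N * S.n2 ζ) :=
        mul_le_mul h8 h8 (S.n3_nonneg _) (mul_nonneg (hCN0 N) (S.n2_nonneg _))
      calc _ ≤ _ := h6
        _ ≤ 1 / ((n : ℝ) + 1) * (Cq * ((CN N * S.n2 ζ) * (CN N * S.n2 ζ))) := by
            refine mul_le_mul_of_nonneg_left (h7.trans (mul_le_mul_of_nonneg_left h9 hCq)) ?_
            positivity
        _ = Real.sqrt (1 / ((n : ℝ) + 1)) ^ 2 * (Real.sqrt Cq ^ 2 * ((CN N * S.n2 ζ) *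
            (CN N * S.n2 ζ))) := by
            rw [Real.sq_sqrt (by positivity), Real.sq_sqrt hCq]
        _ = _ := by ring
    set B := Real.sqrt (1 / ((n : ℝ) + 1)) * (Real.sqrt Cq * CN N) + F.err N (w n) with hB
    have herr0 : 0 ≤ F.err N (w n) := sum_nonneg fun I _ => sum_nonneg fun K _ =>
      mul_nonneg (by norm_num) (S.sz_nonneg _)
    have hB0 : 0 ≤ B := add_nonneg (mul_nonneg (Real.sqrt_nonneg _)
        (mul_nonneg (Real.sqrt_nonneg _) (hCN0 N))) herr0
    have h10 : 3 * Δ ≤ B * (Cz * Real.sqrt Δ) := by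
      rw [← h1]
      have h11 := (abs_le.mp h2).2
      have h12 := (abs_le.mp h5).2
      have h13 : F.q v (dX2 S.X S.cA ζ) ≤ B * S.n2 ζ := by rw [hB, add_mul]; linarith
      exact h13.trans (mul_le_mul_of_nonneg_left h3 hB0)
    have h14 : Real.sqrt Δ ≤ Cz * B := by
      have h15 : Real.sqrt Δ * Real.sqrt Δ = Δ := Real.mul_self_sqrt hΔ0
      rcases (Real.sqrt_nonneg Δ).eq_or_lt with h | h
      · rw [← h]; exact mul_nonneg hCz hB0
      · have : Real.sqrt Δ * Real.sqrt Δ ≤ (Cz * B) * Real.sqrt Δ := by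
          rw [h15]; nlinarith
        exact le_of_mul_le_mul_right this h
    have h16 : F.q v v ≤ (1 / c0) * Δ := by
      have := hcoer v hvalt hvcl
      rw [one_div, ← div_eq_inv_mul, le_div_iff₀ hc0, mul_comm]
      exact this
    have h17 : S.I (v 0 1 2) = S.I (α 0 1 2) := by
      have : v 0 1 2 = S.J N (w n 0 1 2) := rfl
      rw [this, S.I_J, hw]
      simp only [Pi.add_apply, map_add]
      rw [hL _ (hn n).2, add_zero]
    have h18 : |S.I (v 0 1 2)| ≤ S.nrm 1 * S.nrm (v 0 1 2) := by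
      have := S.cs 1 (v 0 1 2)
      rwa [one_mul] at this
    have h19 : S.nrm (v 0 1 2) ≤ S.n3 v := S.le_n3 v (0, 1, 2)
    have h20 := hn3 v
    have h21 : Real.sqrt (F.q v v) ≤ Real.sqrt (1 / c0) * Real.sqrt Δ := by
      rw [← Real.sqrt_mul (by positivity)]
      exact Real.sqrt_le_sqrt h16
    rw [hL0, ← h17]
    calc |S.I (v 0 1 2)| ≤ S.nrm 1 * S.nrm (v 0 1 2) := h18
      _ ≤ S.nrm 1 * (Cn * (Real.sqrt (1 / c0) * (Cz * B))) := by
          refine mul_le_mul_of_nonneg_left (h19.trans (h20.trans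
            (mul_le_mul_of_nonneg_left (h21.trans
              (mul_le_mul_of_nonneg_left h14 (Real.sqrt_nonneg _))) hCn))) (S.nrm_nonneg _)
      _ = _ := by rw [hCf]; ring
  -- choice of parameters
  have hε : 0 < L0 / (4 * (Cf + 1)) := by positivity
  set ε := L0 / (4 * (Cf + 1)) with hεdef
  have hseq0 : Tendsto (fun n : ℕ => Real.sqrt (1 / ((n : ℝ) + 1))) atTop (𝓝 0) := by
    have := (tendsto_one_div_add_atTop_nhds_zero_nat (𝕜 := ℝ)).sqrt
    rwa [Real.sqrt_zero] at this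
  -- first n0
  have h1 : ∀ᶠ n0 : ℕ in atTop, Ce * (Cn * (2 * Real.sqrt (1 / ((n0 : ℝ) + 1)))) < ε := by
    have := (((hseq0.const_mul 2).const_mul Cn).const_mul Ce)
    simp only [mul_zero] at this
    exact (this.eventually (gt_mem_nhds hε))
  obtain ⟨n0, hn0⟩ := h1.exists
  obtain ⟨N, hN⟩ := ((F.err_lim (w n0)).eventually (gt_mem_nhds hε)).exists
  have h2 : ∀ᶠ n : ℕ in atTop, Real.sqrt (1 / ((n : ℝ) + 1)) * (Real.sqrt Cq * CN N) < ε := by
    have := hseq0.mul_const (Real.sqrt Cq * CN N)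
    rw [zero_mul] at this
    exact this.eventually (gt_mem_nhds hε)
  obtain ⟨n, hnε, hnn⟩ := (h2.and (eventually_ge_atTop n0)).exists
  have h3 : F.err N (w n) ≤ 2 * ε := by
    have e1 : w n = w n0 + (w n + (-1 : ℝ) • w n0) := by
      rw [neg_one_smul]; abel
    rw [e1]
    refine (F.err_add N _ _).trans ?_
    have e2 : F.err N (w n + (-1 : ℝ) • w n0) ≤ ε := by
      refine (herr N _).trans (le_trans ?_ hn0.le)
      refine mul_le_mul_of_nonneg_left ((hn3 _).trans (mul_le_mul_of_nonneg_left ?_ hCn)) hCe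
      have e3 := hcauchy n n0
      have e4 : 1 / ((n : ℝ) + 1) ≤ 1 / ((n0 : ℝ) + 1) := by
        apply one_div_le_one_div_of_le (by positivity)
        have : (n0 : ℝ) ≤ n := by exact_mod_cast hnn
        linarith
      calc Real.sqrt (F.q (w n + (-1 : ℝ) • w n0) (w n + (-1 : ℝ) • w n0))
          ≤ Real.sqrt (2 ^ 2 * (1 / ((n0 : ℝ) + 1))) := Real.sqrt_le_sqrt (by linarith)
        _ = 2 * Real.sqrt (1 / ((n0 : ℝ) + 1)) := by
            rw [Real.sqrt_mul (by norm_num), Real.sqrt_sq (by norm_num)]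
    linarith
  have h4 := hmain N n
  have h5 : L0 ≤ Cf * (3 * ε) := h4.trans (mul_le_mul_of_nonneg_left (by linarith) hCf0)
  have h6 : ε * (4 * (Cf + 1)) = L0 := by rw [hεdef]; field_simp
  nlinarith

end Frame

end Pool.Agent.H83.Curv
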