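import Mathlib

/-! Abstract mollifiers from invariant symmetric kernels of finite rank. -/

namespace Pool.Agent.H83.Curv

open Finset Filter Topology

/-- A ring of functions with an integral and derivations of integral zero. -/
structure PreCalc (ι M A : Type*) [CommRing A] [Algebra ℝ A] where
  ev : A →ₐ[ℝ] (M → ℝ)
  ev_inj : ∀ f g : A, (∀ x, ev f x = ev g x) → f = g
  I : A →ₗ[ℝ] ℝ
  I_nonneg : ∀ f, (∀ x, 0 ≤ ev f x) → 0 ≤ I f
  X : ι → Derivation ℝ A A
  IX : ∀ i f, I (X i f) = 0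

namespace PreCalc

variable {ι M A : Type*} [CommRing A] [Algebra ℝ A] (P : PreCalc ι M A)

lemma I_mono {f g : A} (h : ∀ x, P.ev f x ≤ P.ev g x) : P.I f ≤ P.I g := by
  have := P.I_nonneg (g - f) (fun x => by rw [map_sub]; exact sub_nonneg.mpr (h x))
  rw [map_sub] at this
  linarith

lemma ev_mul (f g : A) (x : M) : P.ev (f * g) x = P.ev f x * P.ev g x := by
  rw [map_mul]; rfl

lemma ev_smul (r : ℝ) (f : A) (x : M) : P.ev (r • f) x = r * P.ev f x := by
  rw [map_smul]; rfl

lemma ev_add (f g : A) (x : M) : P.ev (f + g) x = P.ev f x + P.ev g x := by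
  rw [map_add]; rfl

lemma ev_sub (f g : A) (x : M) : P.ev (f - g) x = P.ev f x - P.ev g x := by
  rw [map_sub]; rfl

lemma ev_one (x : M) : P.ev 1 x = 1 := by
  rw [map_one]; rfl

lemma ev_sum {κ : Type*} (s : Finset κ) (f : κ → A) (x : M) :
    P.ev (∑ j ∈ s, f j) x = ∑ j ∈ s, P.ev (f j) x := by
  rw [map_sum, Finset.sum_apply]

lemma I_sq_nonneg (f : A) : 0 ≤ P.I (f * f) :=
  P.I_nonneg _ (fun x => by rw [map_mul]; exact mul_self_nonneg _)

/-- integration by parts -/
lemma ibp (i : ι) (f g : A) : P.I (f * P.X i g) = - P.I (P.X i f * g) := by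
  have h1 := P.IX i (f * g)
  rw [Derivation.leibniz, map_add] at h1
  simp only [smul_eq_mul] at h1
  rw [mul_comm (P.X i f)]; linarith

/-- weighted Cauchy–Schwarz inequality -/
lemma wcs {a m : A} (h : ∀ x, |P.ev a x| ≤ P.ev m x) (u : A) :
    P.I (a * u) ^ 2 ≤ P.I m * P.I (m * (u * u)) := by
  have h1 : ∀ t : ℝ, 0 ≤ P.I m * (t * t) + (2 * P.I (a * u)) * t + P.I (m * (u * u)) := by
    intro t
    have h2 := P.I_nonneg ((t * t) • m + (2 * t) • (a * u) + m * (u * u)) (fun x => by
      rw [ev_add, ev_add, ev_smul, ev_smul, ev_mul, ev_mul, ev_mul]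
      have hx := h x
      set A1 := P.ev a x
      set M1 := P.ev m x
      set U := P.ev u x
      have h3 : |2 * t * (A1 * U)| ≤ 2 * |t| * (M1 * |U|) := by
        rw [abs_mul, abs_mul, abs_mul, abs_two]
        exact mul_le_mul_of_nonneg_left (mul_le_mul_of_nonneg_right hx (abs_nonneg _))
          (by positivity)
      have h4 := (abs_le.mp h3).1
      have h5 : 0 ≤ M1 := (abs_nonneg _).trans hx
      have h6 : 0 ≤ M1 * (|t| - |U|) ^ 2 := mul_nonneg h5 (sq_nonneg _)
      have h7 : |t| * |t| = t * t := abs_mul_abs_self t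
      have h8 : |U| * |U| = U * U := abs_mul_abs_self U
      nlinarith)
    rw [map_add, map_add, map_smul, map_smul, smul_eq_mul, smul_eq_mul] at h2
    linarith
  have := discrim_le_zero (K := ℝ) h1
  rw [discrim] at this
  nlinarith

lemma cs_sq (f g : A) : P.I (f * g) ^ 2 ≤ P.I (f * f) * P.I (g * g) := by
  have h : ∀ t : ℝ, 0 ≤ P.I (g * g) * (t * t) + (2 * P.I (f * g)) * t + P.I (f * f) := by
    intro t
    have h1 := P.I_sq_nonneg (f + t • g)
    have h2 : (f + t • g) * (f + t • g) = f * f + (2 * t) • (f * g) + (t * t) • (g * g) := by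
      simp only [Algebra.smul_def, map_mul, map_ofNat]; ring
    rw [h2, map_add, map_add, map_smul, map_smul, smul_eq_mul, smul_eq_mul] at h1
    linarith
  have := discrim_le_zero (K := ℝ) h
  rw [discrim] at this
  nlinarith

/-- Symmetric kernels of finite rank that are invariant under the derivations. -/
def Good (k : M → A) : Prop :=
  ∃ (κ : Type) (_ : Fintype κ) (c : κ → ℝ) (p : κ → A),
    (∀ x, k x = ∑ j, (c j * P.ev (p j) x) • p j) ∧
    (∀ i x, ∑ j, (c j * P.ev (P.X i (p j)) x) • p j = - P.X i (k x))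

lemma good_one : P.Good (fun _ => 1) := by
  refine ⟨Unit, inferInstance, fun _ => 1, fun _ => 1, fun x => ?_, fun i x => ?_⟩
  · simp
  · simp

lemma good_smul (r : ℝ) {k : M → A} (hk : P.Good k) : P.Good (fun x => r • k x) := by
  obtain ⟨κ, hκ, c, p, h1, h2⟩ := hk
  refine ⟨κ, hκ, fun j => r * c j, p, fun x => ?_, fun i x => ?_⟩
  · simp only [h1, smul_sum, smul_smul, mul_assoc]
  · rw [Derivation.map_smul, ← smul_neg, ← h2]
    simp only [smul_sum, smul_smul, mul_assoc]

lemma good_add {k l : M → A} (hk : P.Good k) (hl : P.Good l) : P.Good (fun x => k x + l x) := by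
  obtain ⟨κ, hκ, c, p, h1, h2⟩ := hk
  obtain ⟨κ', hκ', c', p', h1', h2'⟩ := hl
  refine ⟨κ ⊕ κ', inferInstance, Sum.elim c c', Sum.elim p p', fun x => ?_, fun i x => ?_⟩
  · simp only [Fintype.sum_sum_type, Sum.elim_inl, Sum.elim_inr, ← h1, ← h1']
  · simp only [Fintype.sum_sum_type, Sum.elim_inl, Sum.elim_inr, h2, h2', map_add]; abel

lemma good_mul {k l : M → A} (hk : P.Good k) (hl : P.Good l) : P.Good (fun x => k x * l x) := by
  obtain ⟨κ, hκ, c, p, h1, h2⟩ := hk
  obtain ⟨κ', hκ', c', p', h1', h2'⟩ := hl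
  refine ⟨κ × κ', inferInstance, fun j => c j.1 * c' j.2, fun j => p j.1 * p' j.2,
    fun x => ?_, fun i x => ?_⟩
  · beta_reduce
    rw [h1, h1', sum_mul_sum, Fintype.sum_prod_type]
    refine sum_congr rfl fun j _ => sum_congr rfl fun j' _ => ?_
    rw [ev_mul]
    simp only [Algebra.smul_def, map_mul]; ring
  · beta_reduce
    have e1 : - P.X i (k x * l x) = (∑ j, (c j * P.ev (P.X i (p j)) x) • p j) * l x +
        k x * ∑ j, (c' j * P.ev (P.X i (p' j)) x) • p' j := by
      rw [h2, h2', Derivation.leibniz]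
      simp only [smul_eq_mul]; ring
    rw [e1]
    conv_rhs => rw [h1, h1', sum_mul_sum, sum_mul_sum]
    rw [Fintype.sum_prod_type, ← sum_add_distrib]
    refine sum_congr rfl fun j _ => ?_
    rw [← sum_add_distrib]
    refine sum_congr rfl fun j' _ => ?_
    simp only [Derivation.leibniz, smul_eq_mul, ev_add, ev_mul]
    simp only [Algebra.smul_def, map_mul, map_add]; ring

lemma good_pow {k : M → A} (hk : P.Good k) (n : ℕ) : P.Good (fun x => k x ^ n) := by
  induction n with
  | zero => simpa using P.good_one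
  | succ n ih => simpa [pow_succ] using P.good_mul ih hk

/-- the operator with a given good kernel -/
theorem good_op [Fintype ι] {k : M → A} (hk : P.Good k) : ∃ T : A →ₗ[ℝ] A,
    (∀ f x, P.ev (T f) x = P.I (k x * f)) ∧ (∀ f g, P.I (T f * g) = P.I (f * T g)) ∧
    (∀ i f, T (P.X i f) = P.X i (T f)) ∧
    (∃ C, ∀ i f, P.I (P.X i (T f) * P.X i (T f)) ≤ C * P.I (f * f)) := by
  obtain ⟨κ, hκ, c, p, h1, h2⟩ := hk
  let T : A →ₗ[ℝ] A :=
    { toFun := fun f => ∑ j, (c j * P.I (p j * f)) • p j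
      map_add' := by
        intro f g
        simp only [mul_add, map_add, add_smul, sum_add_distrib]
      map_smul' := by
        intro r f
        simp only [mul_smul_comm, map_smul, smul_eq_mul, RingHom.id_apply, smul_sum, smul_smul]
        exact sum_congr rfl fun j _ => by congr 1; ring }
  have hT : ∀ f, T f = ∑ j, (c j * P.I (p j * f)) • p j := fun f => rfl
  have hTe : ∀ f x, P.ev (T f) x = P.I (k x * f) := by
    intro f x
    rw [hT, ev_sum, h1, sum_mul, map_sum]
    refine sum_congr rfl fun j _ => ?_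
    rw [ev_smul, smul_mul_assoc, map_smul, smul_eq_mul]; ring
  have hXe : ∀ i f x, P.ev (P.X i (T f)) x = P.I (k x * P.X i f) := by
    intro i f x
    rw [ibp, ← P.I.map_neg, ← neg_mul, ← h2, hT, map_sum, ev_sum, sum_mul, map_sum]
    refine sum_congr rfl fun j _ => ?_
    rw [Derivation.map_smul, ev_smul, smul_mul_assoc, map_smul, smul_eq_mul]; ring
  refine ⟨T, hTe, ?_, ?_, ?_⟩
  · intro f g
    rw [hT, hT, sum_mul, mul_sum, map_sum, map_sum]
    refine sum_congr rfl fun j _ => ?_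
    rw [smul_mul_assoc, mul_smul_comm, map_smul, map_smul, smul_eq_mul, smul_eq_mul, mul_comm f (p j)]
    ring
  · intro i f
    apply P.ev_inj
    intro x
    rw [hTe, hXe]
  · refine ⟨∑ i, ∑ j, (Fintype.card κ : ℝ) * (c j ^ 2 * P.I (p j * p j) *
      P.I (P.X i (p j) * P.X i (p j))), fun i f => ?_⟩
    have h3 : P.I (P.X i (T f) * P.X i (T f)) ≤
        P.I (∑ j, ((Fintype.card κ : ℝ) * (c j * P.I (p j * f)) ^ 2) •
          (P.X i (p j) * P.X i (p j))) := by
      apply P.I_mono
      intro x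
      rw [hT, map_sum, ev_mul, ev_sum, ev_sum, ← sq]
      refine (sq_sum_le_card_mul_sum_sq (s := univ)).trans ?_
      rw [mul_sum]
      refine sum_le_sum fun j _ => le_of_eq ?_
      rw [Derivation.map_smul, ev_smul, ev_smul, ev_mul, card_univ]; ring
    refine h3.trans ?_
    rw [map_sum]
    have h4 : ∀ j, P.I (((Fintype.card κ : ℝ) * (c j * P.I (p j * f)) ^ 2) •
        (P.X i (p j) * P.X i (p j))) ≤ (Fintype.card κ : ℝ) * (c j ^ 2 * P.I (p j * p j) *
          P.I (P.X i (p j) * P.X i (p j))) * P.I (f * f) := by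
      intro j
      rw [map_smul, smul_eq_mul]
      have h5 := P.cs_sq (p j) f
      have h6 := P.I_sq_nonneg (P.X i (p j))
      have h7 : (c j * P.I (p j * f)) ^ 2 ≤ c j ^ 2 * (P.I (p j * p j) * P.I (f * f)) := by
        rw [mul_pow]
        exact mul_le_mul_of_nonneg_left h5 (sq_nonneg _)
      calc (Fintype.card κ : ℝ) * (c j * P.I (p j * f)) ^ 2 * P.I (P.X i (p j) * P.X i (p j))
          ≤ (Fintype.card κ : ℝ) * (c j ^ 2 * (P.I (p j * p j) * P.I (f * f))) *
            P.I (P.X i (p j) * P.X i (p j)) :=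
            mul_le_mul_of_nonneg_right (mul_le_mul_of_nonneg_left h7 (by positivity)) h6
        _ = _ := by ring
    refine (sum_le_sum fun j _ => h4 j).trans ?_
    rw [← sum_mul]
    refine mul_le_mul_of_nonneg_right ?_ (P.I_sq_nonneg f)
    exact single_le_sum (f := fun i => ∑ j, (Fintype.card κ : ℝ) * (c j ^ 2 * P.I (p j * p j) *
      P.I (P.X i (p j) * P.X i (p j)))) (fun i _ => sum_nonneg fun j _ =>
        mul_nonneg (by positivity) (mul_nonneg (mul_nonneg (sq_nonneg _) (P.I_sq_nonneg _))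
          (P.I_sq_nonneg _))) (mem_univ i)

/-- **Mollifiers from kernels.** -/
theorem mollifiers [Fintype ι] (k m d : ℕ → M → A)
    (hk : ∀ N, P.Good (k N)) (hm : ∀ N, P.Good (m N))
    (hk0 : ∀ N x z, 0 ≤ P.ev (k N x) z) (hm0 : ∀ N x z, 0 ≤ P.ev (m N x) z)
    (hk1 : ∀ N x, P.I (k N x) = 1)
    (hmC : ∃ C, 0 ≤ C ∧ ∀ N x, P.I (m N x) ≤ C)
    (hdL : ∃ δ : ℕ → ℝ, Tendsto δ atTop (𝓝 0) ∧ ∀ N x, P.I (d N x) ≤ δ N)
    (hlip1 : ∀ f : A, ∃ L, 0 ≤ L ∧ ∀ N i x z,
      |P.ev (P.X i (k N x)) z| * |P.ev f x - P.ev f z| ≤ L * P.ev (m N x) z)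
    (hlip2 : ∀ f : A, ∃ L, 0 ≤ L ∧ ∀ N x z,
      P.ev (k N x) z * (P.ev f x - P.ev f z) ^ 2 ≤ L * P.ev (d N x) z)
    (hbdd : ∀ f : A, ∃ C, 0 ≤ C ∧ ∀ x, |P.ev f x| ≤ C) :
    ∃ J : ℕ → A →ₗ[ℝ] A,
      (∀ N i f, J N (P.X i f) = P.X i (J N f)) ∧
      (∀ N f g, P.I (J N f * g) = P.I (f * J N g)) ∧
      (∀ N, J N 1 = 1) ∧
      (∀ N, ∃ C, ∀ i f, P.I (P.X i (J N f) * P.X i (J N f)) ≤ C * P.I (f * f)) ∧
      (∀ N f, P.I (J N f * J N f) ≤ P.I (f * f)) ∧
      (∀ f, ∃ C, ∀ N i u, P.I (P.X i (f * J N u - J N (f * u)) * P.X i (f * J N u - J N (f * u))) ≤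
        C * P.I (u * u)) ∧
      (∀ f, Tendsto (fun N => P.I ((J N f - f) * (J N f - f))) atTop (𝓝 0)) := by
  choose J hJe hJs hJX hJb using fun N => P.good_op (hk N)
  choose T hTe hTs _ _ using fun N => P.good_op (hm N)
  have hJ1 : ∀ N, J N 1 = 1 := by
    intro N
    apply P.ev_inj
    intro x
    rw [hJe, mul_one, hk1, ev_one]
  have hpt : ∀ N f x, P.ev (J N f) x ^ 2 ≤ P.ev (J N (f * f)) x := by
    intro N f x
    rw [hJe, hJe]
    have := P.wcs (a := k N x) (m := k N x) (fun z => by rw [abs_of_nonneg (hk0 N x z)]) f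
    rwa [hk1, one_mul] at this
  have hcontr : ∀ N f, P.I (J N f * J N f) ≤ P.I (f * f) := by
    intro N f
    have h1 : P.I (J N f * J N f) ≤ P.I (J N (f * f)) := by
      apply P.I_mono
      intro x
      rw [ev_mul, ← sq]
      exact hpt N f x
    have h2 := hJs N (f * f) 1
    rw [mul_one, hJ1, mul_one] at h2
    rwa [h2] at h1
  refine ⟨J, hJX, hJs, hJ1, hJb, hcontr, ?_, ?_⟩
  · intro f
    obtain ⟨L, hL0, hL⟩ := hlip1 f
    obtain ⟨Cm, hCm0, hCm⟩ := hmC
    choose B hB0 hB using fun i => hbdd (P.X i f)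
    set Bs := ∑ i, B i with hBs
    have hBi : ∀ i, B i ≤ Bs := fun i => single_le_sum (f := B) (fun i _ => hB0 i) (mem_univ i)
    have hBs0 : 0 ≤ Bs := sum_nonneg fun i _ => hB0 i
    refine ⟨2 * Bs ^ 2 + 2 * (L ^ 2 * Cm * Cm), fun N i u => ?_⟩
    -- pointwise formula
    have h1 : ∀ x, P.ev (P.X i (f * J N u - J N (f * u))) x =
        P.ev (P.X i f) x * P.ev (J N u) x -
          P.I (P.X i (k N x) * (algebraMap ℝ A (P.ev f x) - f) * u) := by
      intro x
      have e1 : P.X i (f * J N u - J N (f * u)) =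
          P.X i f * J N u + f * J N (P.X i u) - J N (P.X i (f * u)) := by
        rw [map_sub, Derivation.leibniz, hJX, hJX]
        simp only [smul_eq_mul]; ring
      rw [e1, ev_sub, ev_add, ev_mul, ev_mul, hJe, hJe, hJe, ibp, ibp]
      have e2 : P.X i (k N x) * (algebraMap ℝ A (P.ev f x) - f) * u =
          (P.ev f x) • (P.X i (k N x) * u) - P.X i (k N x) * (f * u) := by
        rw [Algebra.smul_def]; ring
      rw [e2, map_sub, map_smul, smul_eq_mul]; ring
    have h2 : ∀ x, P.I (P.X i (k N x) * (algebraMap ℝ A (P.ev f x) - f) * u) ^ 2 ≤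
        L ^ 2 * Cm * P.ev (T N (u * u)) x := by
      intro x
      have h3 := P.wcs (a := P.X i (k N x) * (algebraMap ℝ A (P.ev f x) - f)) (m := L • m N x)
        (fun z => by
          rw [ev_mul, ev_sub, ev_smul, abs_mul, AlgHom.commutes]
          exact hL N i x z) u
      refine h3.trans ?_
      rw [hTe, smul_mul_assoc L (m N x), map_smul, map_smul, smul_eq_mul, smul_eq_mul]
      have h4 : 0 ≤ P.I (m N x * (u * u)) := P.I_nonneg _ (fun z => by
        rw [ev_mul, ev_mul]; exact mul_nonneg (hm0 N x z) (mul_self_nonneg _))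
      have h5 := hCm N x
      have h6 : L * P.I (m N x) * (L * P.I (m N x * (u * u))) =
        L ^ 2 * P.I (m N x) * P.I (m N x * (u * u)) := by ring
      rw [h6]
      exact mul_le_mul_of_nonneg_right (mul_le_mul_of_nonneg_left h5 (sq_nonneg _)) h4
    have h7 : P.I (P.X i (f * J N u - J N (f * u)) * P.X i (f * J N u - J N (f * u))) ≤
        P.I ((2 * Bs ^ 2) • (J N u * J N u) + (2 * (L ^ 2 * Cm)) • T N (u * u)) := by
      apply P.I_mono
      intro x
      rw [ev_mul, h1, ev_add, ev_smul, ev_smul, ev_mul]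
      have h8 := h2 x
      have h9 := hB i x
      have h10 : P.ev (P.X i f) x ^ 2 ≤ Bs ^ 2 :=
        sq_le_sq' (by linarith [(abs_le.mp h9).1, hBi i]) ((abs_le.mp h9).2.trans (hBi i))
      set a := P.ev (P.X i f) x
      set b := P.ev (J N u) x
      set c := P.I (P.X i (k N x) * (algebraMap ℝ A (P.ev f x) - f) * u)
      have h11 : (a * b - c) * (a * b - c) ≤ 2 * (a ^ 2 * b ^ 2) + 2 * c ^ 2 := by
        nlinarith [sq_nonneg (a * b + c)]
      have h12 : a ^ 2 * b ^ 2 ≤ Bs ^ 2 * b ^ 2 := mul_le_mul_of_nonneg_right h10 (sq_nonneg _)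
      nlinarith
    refine h7.trans ?_
    rw [map_add, map_smul, map_smul, smul_eq_mul, smul_eq_mul]
    have h13 : P.I (T N (u * u)) ≤ Cm * P.I (u * u) := by
      have e := hTs N (u * u) 1
      rw [mul_one] at e
      rw [e]
      have : P.I (u * u * T N 1) ≤ P.I (Cm • (u * u)) := by
        apply P.I_mono
        intro x
        rw [ev_mul, ev_smul, hTe, mul_one, ev_mul]
        have := hCm N x
        have h14 : 0 ≤ P.ev u x * P.ev u x := mul_self_nonneg _
        nlinarith
      rwa [map_smul, smul_eq_mul] at this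
    have h15 := hcontr N u
    have h16 : 0 ≤ 2 * Bs ^ 2 := by positivity
    have h17 : 0 ≤ 2 * (L ^ 2 * Cm) := by positivity
    have h18 := mul_le_mul_of_nonneg_left h15 h16
    have h19 := mul_le_mul_of_nonneg_left h13 h17
    linarith
  · intro f
    obtain ⟨L, hL0, hL⟩ := hlip2 f
    obtain ⟨δ, hδ, hd⟩ := hdL
    have h1 : ∀ N, P.I ((J N f - f) * (J N f - f)) ≤ L * δ N * P.I 1 := by
      intro N
      have : P.I ((J N f - f) * (J N f - f)) ≤ P.I ((L * δ N) • (1 : A)) := by
        apply P.I_mono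
        intro x
        rw [ev_mul, ev_sub, ev_smul, ev_one, mul_one, hJe, ← sq]
        have e1 : P.I (k N x * f) - P.ev f x =
            P.I (k N x * (f - algebraMap ℝ A (P.ev f x))) := by
          rw [mul_sub, map_sub]
          have : k N x * algebraMap ℝ A (P.ev f x) = (P.ev f x) • k N x := by
            rw [Algebra.smul_def]; ring
          rw [this, map_smul, smul_eq_mul, hk1, mul_one]
        rw [e1]
        have h2 := P.wcs (a := k N x) (m := k N x) (fun z => by rw [abs_of_nonneg (hk0 N x z)])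
          (f - algebraMap ℝ A (P.ev f x))
        rw [hk1, one_mul] at h2
        refine h2.trans ?_
        have h3 : P.I (k N x * ((f - algebraMap ℝ A (P.ev f x)) *
            (f - algebraMap ℝ A (P.ev f x)))) ≤ P.I (L • d N x) := by
          apply P.I_mono
          intro z
          rw [ev_mul, ev_mul, ev_sub, ev_smul, AlgHom.commutes]
          have := hL N x z
          change P.ev (k N x) z * ((P.ev f z - P.ev f x) * (P.ev f z - P.ev f x)) ≤ _
          nlinarith
        rw [map_smul, smul_eq_mul] at h3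
        exact h3.trans (mul_le_mul_of_nonneg_left (hd N x) hL0)
      rwa [map_smul, smul_eq_mul] at this
    refine squeeze_zero (fun N => P.I_sq_nonneg _) h1 ?_
    have := (hδ.const_mul L).mul_const (P.I 1)
    simpa using this

end PreCalc

end Pool.Agent.H83.Curv
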