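import Mathlib

/-! The ring of smooth functions on a compact subset of a normed space, and the derivations given
by linear vector fields whose flow preserves the subset. -/

namespace Pool.Agent.H83.Curv

open Finset Filter Topology
open scoped ContDiff

variable {E : Type*} [NormedAddCommGroup E] [NormedSpace ℝ E]

/-- `F` is a smooth extension of `f` near `K`. -/
def IsExt (K : Set E) (f : K → ℝ) (F : E → ℝ) : Prop :=
  (∀ x ∈ K, ContDiffAt ℝ ∞ F x) ∧ ∀ x : K, F x = f x

/-- The algebra of smooth functions on `K`. -/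
def SA (K : Set E) : Subalgebra ℝ (K → ℝ) where
  carrier := {f | ∃ F : E → ℝ, IsExt K f F}
  mul_mem' := by
    rintro f g ⟨F, hF, hF'⟩ ⟨G, hG, hG'⟩
    exact ⟨fun x => F x * G x, fun x hx => (hF x hx).mul (hG x hx), fun x => by
      simp [hF' x, hG' x]⟩
  add_mem' := by
    rintro f g ⟨F, hF, hF'⟩ ⟨G, hG, hG'⟩
    exact ⟨fun x => F x + G x, fun x hx => (hF x hx).add (hG x hx), fun x => by
      simp [hF' x, hG' x]⟩
  algebraMap_mem' := by
    intro r
    exact ⟨fun _ => r, fun x _ => contDiffAt_const, fun x => rfl⟩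

variable {K : Set E}

/-- a chosen extension -/
noncomputable def ext (f : SA K) : E → ℝ := Classical.choose f.2

lemma isExt_ext (f : SA K) : IsExt K f.1 (ext f) := Classical.choose_spec f.2

lemma ext_contDiffAt (f : SA K) {x : E} (hx : x ∈ K) : ContDiffAt ℝ ∞ (ext f) x :=
  (isExt_ext f).1 x hx

lemma ext_apply (f : SA K) (x : K) : ext f x = f.1 x := (isExt_ext f).2 x

/-- A flow of maps preserving `K` with linear generator `T`. -/
structure LFlow (K : Set E) (T : E →L[ℝ] E) where
  φ : ℝ → E → E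
  zero : ∀ x, φ 0 x = x
  maps : ∀ t, ∀ x ∈ K, φ t x ∈ K
  der : ∀ x t, HasDerivAt (fun s => φ s x) (T (φ t x)) t

/-- derivative along the flow -/
lemma hasDerivAt_flow {T : E →L[ℝ] E} (Φ : LFlow K T) {f : K → ℝ} {F : E → ℝ} (hF : IsExt K f F)
    (x : K) (t : ℝ) :
    HasDerivAt (fun s => f ⟨Φ.φ s x, Φ.maps s x x.2⟩) (fderiv ℝ F (Φ.φ t x) (T (Φ.φ t x))) t := by
  have h1 : (fun s => f ⟨Φ.φ s x, Φ.maps s x x.2⟩) = fun s => F (Φ.φ s x) := by
    funext s; exact (hF.2 ⟨Φ.φ s x, Φ.maps s x x.2⟩).symm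
  rw [h1]
  have h2 : HasFDerivAt F (fderiv ℝ F (Φ.φ t x)) (Φ.φ t x) :=
    ((hF.1 _ (Φ.maps t x x.2)).differentiableAt (by simp)).hasFDerivAt
  exact h2.comp_hasDerivAt t (Φ.der x t)

lemma fderiv_wd {T : E →L[ℝ] E} (Φ : LFlow K T) {f : K → ℝ} {F F' : E → ℝ} (hF : IsExt K f F)
    (hF' : IsExt K f F') (x : K) : fderiv ℝ F x (T x) = fderiv ℝ F' x (T x) := by
  have h1 := hasDerivAt_flow Φ hF x 0
  have h2 := hasDerivAt_flow Φ hF' x 0
  rw [Φ.zero] at h1 h2
  exact h1.unique h2

lemma contDiffAt_dir {F : E → ℝ} {x : E} (T : E →L[ℝ] E) (hF : ContDiffAt ℝ ∞ F x) :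
    ContDiffAt ℝ ∞ (fun y => fderiv ℝ F y (T y)) x := by
  have h1 : ContDiffAt ℝ ∞ (fderiv ℝ F) x := hF.fderiv_right (by simp)
  exact h1.clm_apply T.contDiff.contDiffAt

/-- the derivative of a smooth function along a linear vector field -/
noncomputable def dirF (T : E →L[ℝ] E) (f : SA K) : SA K :=
  ⟨fun x => fderiv ℝ (ext f) x (T x), fun y => fderiv ℝ (ext f) y (T y),
    fun _ hx => contDiffAt_dir T (ext_contDiffAt f hx), fun _ => rfl⟩

lemma dirF_eq {T : E →L[ℝ] E} (Φ : LFlow K T) (f : SA K) {F : E → ℝ} (hF : IsExt K f.1 F) (x : K) :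
    (dirF T f).1 x = fderiv ℝ F x (T x) := fderiv_wd Φ (isExt_ext f) hF x

/-- The derivation associated with a flow. -/
noncomputable def dirD {T : E →L[ℝ] E} (Φ : LFlow K T) : Derivation ℝ (SA K) (SA K) :=
  Derivation.mk'
    { toFun := dirF T
      map_add' := by
        intro f g
        apply Subtype.ext
        funext x
        have hF : IsExt K (f + g : SA K).1 (fun y => ext f y + ext g y) :=
          ⟨fun y hy => (ext_contDiffAt f hy).add (ext_contDiffAt g hy), fun y => by
            simp [ext_apply]⟩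
        rw [dirF_eq Φ _ hF]
        have h1 : fderiv ℝ (fun y => ext f y + ext g y) x = fderiv ℝ (ext f) x + fderiv ℝ (ext g) x :=
          fderiv_fun_add ((ext_contDiffAt f x.2).differentiableAt (by simp))
            ((ext_contDiffAt g x.2).differentiableAt (by simp))
        rw [h1]
        rfl
      map_smul' := by
        intro r f
        apply Subtype.ext
        funext x
        have hF : IsExt K (r • f : SA K).1 (fun y => r * ext f y) :=
          ⟨fun y hy => contDiffAt_const.mul (ext_contDiffAt f hy), fun y => by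
            simp [ext_apply]⟩
        rw [dirF_eq Φ _ hF]
        have h1 : fderiv ℝ (fun y => r * ext f y) x = r • fderiv ℝ (ext f) x :=
          fderiv_const_mul ((ext_contDiffAt f x.2).differentiableAt (by simp)) r
        rw [h1]
        rfl }
    (by
      intro f g
      apply Subtype.ext
      funext x
      have hF : IsExt K (f * g : SA K).1 (fun y => ext f y * ext g y) :=
        ⟨fun y hy => (ext_contDiffAt f hy).mul (ext_contDiffAt g hy), fun y => by
          simp [ext_apply]⟩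
      change (dirF T (f * g)).1 x = _
      rw [dirF_eq Φ _ hF]
      have h1 : fderiv ℝ (fun y => ext f y * ext g y) x =
          ext f x • fderiv ℝ (ext g) x + ext g x • fderiv ℝ (ext f) x :=
        fderiv_fun_mul ((ext_contDiffAt f x.2).differentiableAt (by simp))
          ((ext_contDiffAt g x.2).differentiableAt (by simp))
      rw [h1, ext_apply, ext_apply]
      rfl)

lemma dirD_apply {T : E →L[ℝ] E} (Φ : LFlow K T) (f : SA K) {F : E → ℝ} (hF : IsExt K f.1 F)
    (x : K) : (dirD Φ f).1 x = fderiv ℝ F x (T x) := dirF_eq Φ f hF x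

lemma dirD_hasDerivAt {T : E →L[ℝ] E} (Φ : LFlow K T) (f : SA K) (x : K) (t : ℝ) :
    HasDerivAt (fun s => f.1 ⟨Φ.φ s x, Φ.maps s x x.2⟩)
      ((dirD Φ f).1 ⟨Φ.φ t x, Φ.maps t x x.2⟩) t := by
  have := hasDerivAt_flow Φ (isExt_ext f) x t
  rwa [dirD_apply Φ f (isExt_ext f)]

/-- commutator of two derivations -/
lemma dirD_comm {S T : E →L[ℝ] E} (Φ : LFlow K S) (Ψ : LFlow K T) (f : SA K) (x : K) :
    (dirD Φ (dirD Ψ f)).1 x - (dirD Ψ (dirD Φ f)).1 x =
      fderiv ℝ (ext f) x (T (S x) - S (T x)) := by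
  have hF1 : IsExt K (dirD Ψ f).1 (fun y => fderiv ℝ (ext f) y (T y)) :=
    ⟨fun y hy => contDiffAt_dir T (ext_contDiffAt f hy), fun y => rfl⟩
  have hF2 : IsExt K (dirD Φ f).1 (fun y => fderiv ℝ (ext f) y (S y)) :=
    ⟨fun y hy => contDiffAt_dir S (ext_contDiffAt f hy), fun y => rfl⟩
  rw [dirD_apply Φ _ hF1, dirD_apply Ψ _ hF2]
  have hd : ContDiffAt ℝ ∞ (fderiv ℝ (ext f)) x := (ext_contDiffAt f x.2).fderiv_right (by simp)
  have hd' : DifferentiableAt ℝ (fderiv ℝ (ext f)) x := hd.differentiableAt (by simp)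
  have key : ∀ U V : E →L[ℝ] E, fderiv ℝ (fun y => fderiv ℝ (ext f) y (U y)) x (V x) =
      fderiv ℝ (fderiv ℝ (ext f)) x (V x) (U x) + fderiv ℝ (ext f) x (U (V x)) := by
    intro U V
    have h1 : HasFDerivAt (fun y => fderiv ℝ (ext f) y (U y))
        ((fderiv ℝ (ext f) x).comp U + (fderiv ℝ (fderiv ℝ (ext f)) x).flip (U x)) x :=
      hd'.hasFDerivAt.clm_apply U.hasFDerivAt
    rw [h1.fderiv]
    simp only [_root_.add_apply, ContinuousLinearMap.comp_apply,
      ContinuousLinearMap.flip_apply]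
    ring
  rw [key, key]
  have hsymm : fderiv ℝ (fderiv ℝ (ext f)) x (S x) (T x) =
      fderiv ℝ (fderiv ℝ (ext f)) x (T x) (S x) := by
    have := (ext_contDiffAt f x.2).isSymmSndFDerivAt (by
      rw [minSmoothness_of_isRCLikeNormedField]
      exact ENat.LEInfty.out)
    exact this (S x) (T x)
  rw [hsymm, map_sub]
  ring

/-- smooth functions are Lipschitz on compact sets -/
lemma SA_lipschitz (hK : IsCompact K) (f : SA K) :
    ∃ L : ℝ, 0 ≤ L ∧ ∀ x z : K, |f.1 x - f.1 z| ≤ L * ‖(x : E) - z‖ := by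
  have h1 : LocallyLipschitzOn K (ext f) := by
    intro x hx
    have h2 : ContDiffAt ℝ 1 (ext f) x := (ext_contDiffAt f hx).of_le (by simp)
    obtain ⟨C, t, ht, hC⟩ := h2.exists_lipschitzOnWith
    exact ⟨C, t, mem_nhdsWithin_of_mem_nhds ht, hC⟩
  obtain ⟨L, hL⟩ := h1.exists_lipschitzOnWith_of_compact hK
  refine ⟨L, L.2, fun x z => ?_⟩
  have := hL.dist_le_mul x x.2 z z.2
  rw [Real.dist_eq, dist_eq_norm, ext_apply, ext_apply] at this
  exact this

lemma SA_continuous (f : SA K) : Continuous f.1 := by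
  have h : f.1 = fun x : K => ext f x := by funext x; exact (ext_apply f x).symm
  rw [h, continuous_iff_continuousAt]
  intro x
  exact (ext_contDiffAt f x.2).continuousAt.comp continuous_subtype_val.continuousAt

end Pool.Agent.H83.Curv
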