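import Mathlib
import Pool.Agent.H83.Curv.Ring
import Pool.Agent.H83.Curv.Moll

/-! Right multiplication by the quaternion units on `ℝ⁴`, and the product of two 3-spheres. -/

namespace Pool.Agent.H83.Curv

open Finset Filter Topology
open scoped ContDiff

/-- `ℝ⁴` -/
abbrev E4 := EuclideanSpace ℝ (Fin 4)

/-- `ℝ⁴ × ℝ⁴` -/
abbrev E8 := E4 × E4

/-- right multiplication by the quaternion units, as matrices -/
def qM : Fin 3 → Matrix (Fin 4) (Fin 4) ℝ :=
  ![!![0, -1, 0, 0; 1, 0, 0, 0; 0, 0, 0, 1; 0, 0, -1, 0],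
    !![0, 0, -1, 0; 0, 0, 0, -1; 1, 0, 0, 0; 0, 1, 0, 0],
    !![0, 0, 0, -1; 0, 0, 1, 0; 0, -1, 0, 0; 1, 0, 0, 0]]

/-- right multiplication by the quaternion units -/
noncomputable def Q (i : Fin 3) : E4 →L[ℝ] E4 :=
  LinearMap.toContinuousLinearMap (Matrix.toEuclideanLin (qM i))

lemma Q_apply (i : Fin 3) (x : E4) (j : Fin 4) : Q i x j = ∑ k, qM i j k * x k := by
  simp [Q, Matrix.toLpLin_apply, Matrix.mulVec, dotProduct]

lemma inner4 (x y : E4) : inner ℝ x y = x 0 * y 0 + x 1 * y 1 + x 2 * y 2 + x 3 * y 3 := by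
  rw [PiLp.inner_apply, Fin.sum_univ_four]
  simp only [RCLike.inner_apply, conj_trivial]; ring

lemma Q_skew (i : Fin 3) (x y : E4) : inner ℝ (Q i x) y = - inner ℝ x (Q i y) := by
  rw [inner4, inner4]
  simp only [Q_apply, Fin.sum_univ_four]
  fin_cases i <;> simp [qM] <;> ring

lemma Q_sq (i : Fin 3) (x : E4) : Q i (Q i x) = - x := by
  ext j
  simp only [Q_apply, Fin.sum_univ_four, PiLp.neg_apply]
  fin_cases i <;> fin_cases j <;> simp [qM]

lemma Q_complete (x z : E4) : inner ℝ x z ^ 2 + ∑ i, inner ℝ (Q i x) z ^ 2 =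
    inner ℝ x x * inner ℝ z z := by
  simp only [inner4, Fin.sum_univ_three, Q_apply, Fin.sum_univ_four]
  simp [qM]; ring

lemma Q_orth (i j : Fin 3) (x : E4) : inner ℝ (Q i x) (Q j x) = if i = j then inner ℝ x x else 0 := by
  simp only [inner4, Q_apply, Fin.sum_univ_four]
  fin_cases i <;> fin_cases j <;> simp [qM] <;> ring

/-- structure constants of `su(2)` with respect to the unit quaternions -/
def eps : Fin 3 → Fin 3 → Fin 3 → ℤ :=
  ![![![0, 0, 0], ![0, 0, 2], ![0, -2, 0]],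
    ![![0, 0, -2], ![0, 0, 0], ![2, 0, 0]],
    ![![0, 2, 0], ![-2, 0, 0], ![0, 0, 0]]]

lemma Q_comm (i j : Fin 3) (x : E4) : Q j (Q i x) - Q i (Q j x) = ∑ k, (eps i j k : ℝ) • Q k x := by
  ext l
  simp only [PiLp.sub_apply, Fin.sum_univ_three, PiLp.add_apply, PiLp.smul_apply, smul_eq_mul,
    Q_apply, Fin.sum_univ_four]
  fin_cases i <;> fin_cases j <;> fin_cases l <;> simp [qM, eps] <;> ring

end Pool.Agent.H83.Curv
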