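import Mathlib
import Pool.Agent.H83.Curv.Quat

/-! The product of two unit 3-spheres in `ℝ⁴ × ℝ⁴` with its six flows. -/

namespace Pool.Agent.H83.Curv

open Finset Filter Topology MeasureTheory
open scoped ContDiff

/-- the product of two unit 3-spheres -/
def KS : Set E8 := {x | ‖x.1‖ = 1 ∧ ‖x.2‖ = 1}

lemma isCompact_KS : IsCompact KS := by
  have : KS = Metric.sphere (0 : E4) 1 ×ˢ Metric.sphere (0 : E4) 1 := by
    ext x; simp [KS, Set.mem_prod]
  rw [this]
  exact (isCompact_sphere _ _).prod (isCompact_sphere _ _)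

/-- index decoding -/
def fstIdx (i : Fin 6) : Prop := (i : ℕ) < 3

instance (i : Fin 6) : Decidable (fstIdx i) := inferInstanceAs (Decidable ((i : ℕ) < 3))

/-- index in `Fin 3` -/
def loc (i : Fin 6) : Fin 3 := ⟨(i : ℕ) % 3, Nat.mod_lt _ (by norm_num)⟩

/-- the six linear vector fields -/
noncomputable def TT (i : Fin 6) : E8 →L[ℝ] E8 :=
  if fstIdx i then (((Q (loc i)).comp (ContinuousLinearMap.fst ℝ E4 E4)).prod 0)
  else ((0 : E8 →L[ℝ] E4).prod ((Q (loc i)).comp (ContinuousLinearMap.snd ℝ E4 E4)))

lemma TT_fst (i : Fin 6) (x : E8) : (TT i x).1 = if fstIdx i then Q (loc i) x.1 else 0 := by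
  unfold TT; split_ifs <;> simp

lemma TT_snd (i : Fin 6) (x : E8) : (TT i x).2 = if fstIdx i then 0 else Q (loc i) x.2 := by
  unfold TT; split_ifs <;> simp

/-- rotation of `ℝ⁴` -/
noncomputable def rotQ (i : Fin 3) (t : ℝ) (x : E4) : E4 := Real.cos t • x + Real.sin t • Q i x

lemma inner_Q_self (i : Fin 3) (x : E4) : inner ℝ x (Q i x) = 0 := by
  have h1 := Q_skew i x x
  rw [real_inner_comm] at h1
  linarith

lemma norm_Q (i : Fin 3) (x : E4) : ‖Q i x‖ = ‖x‖ := by
  have h1 := Q_orth i i x
  rw [if_pos rfl, real_inner_self_eq_norm_sq, real_inner_self_eq_norm_sq] at h1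
  exact (sq_eq_sq₀ (norm_nonneg _) (norm_nonneg _)).mp h1

lemma norm_rotQ (i : Fin 3) (t : ℝ) (x : E4) : ‖rotQ i t x‖ = ‖x‖ := by
  have h1 : ‖rotQ i t x‖ ^ 2 = ‖x‖ ^ 2 := by
    rw [rotQ, norm_add_sq_real, inner_smul_left, inner_smul_right, inner_Q_self, norm_smul,
      norm_smul, norm_Q]
    simp only [Real.norm_eq_abs, mul_pow, sq_abs, mul_zero, add_zero]
    nlinarith [Real.sin_sq_add_cos_sq t]
  exact (sq_eq_sq₀ (norm_nonneg _) (norm_nonneg _)).mp h1

lemma rotQ_der (i : Fin 3) (x : E4) (t : ℝ) :
    HasDerivAt (fun s => rotQ i s x) (Q i (rotQ i t x)) t := by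
  have h1 : HasDerivAt (fun s => Real.cos s • x) ((-Real.sin t) • x) t :=
    (Real.hasDerivAt_cos t).smul_const x
  have h2 : HasDerivAt (fun s => Real.sin s • Q i x) (Real.cos t • Q i x) t :=
    (Real.hasDerivAt_sin t).smul_const _
  have h3 := h1.add h2
  have h4 : Q i (rotQ i t x) = (-Real.sin t) • x + Real.cos t • Q i x := by
    rw [rotQ, map_add, map_smul, map_smul, Q_sq]
    module
  rw [h4]
  exact h3

/-- the six flows -/
noncomputable def flowS (i : Fin 6) (t : ℝ) (x : E8) : E8 :=
  if fstIdx i then (rotQ (loc i) t x.1, x.2) else (x.1, rotQ (loc i) t x.2)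

noncomputable def FS (i : Fin 6) : LFlow KS (TT i) where
  φ := flowS i
  zero := by
    intro x
    unfold flowS rotQ
    split_ifs <;> simp
  maps := by
    intro t x hx
    unfold flowS
    split_ifs
    · exact ⟨by rw [norm_rotQ]; exact hx.1, hx.2⟩
    · exact ⟨hx.1, by rw [norm_rotQ]; exact hx.2⟩
  der := by
    intro x t
    by_cases h : fstIdx i
    · have e1 : (fun s => flowS i s x) = fun s => (rotQ (loc i) s x.1, x.2) := by
        funext s; simp [flowS, h]
      have e2 : TT i (flowS i t x) = (Q (loc i) (rotQ (loc i) t x.1), 0) := by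
        apply Prod.ext
        · rw [TT_fst, if_pos h, flowS, if_pos h]
        · rw [TT_snd, if_pos h]
      rw [e1, e2]
      exact (rotQ_der _ _ _).prodMk (hasDerivAt_const _ _)
    · have e1 : (fun s => flowS i s x) = fun s => (x.1, rotQ (loc i) s x.2) := by
        funext s; simp [flowS, h]
      have e2 : TT i (flowS i t x) = (0, Q (loc i) (rotQ (loc i) t x.2)) := by
        apply Prod.ext
        · rw [TT_fst, if_neg h]
        · rw [TT_snd, if_neg h, flowS, if_neg h]
      rw [e1, e2]
      exact (hasDerivAt_const _ _).prodMk (rotQ_der _ _ _)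

/-- the ring of smooth functions on the product of spheres -/
noncomputable abbrev AS := SA KS

/-- the six derivations -/
noncomputable def XS (i : Fin 6) : Derivation ℝ AS AS := dirD (FS i)

/-- linear functions -/
noncomputable def lin (v : E8) : AS :=
  ⟨fun x => inner ℝ v.1 x.1.1 + inner ℝ v.2 x.1.2,
    fun y => inner ℝ v.1 y.1 + inner ℝ v.2 y.2,
    fun _ _ => ((contDiffAt_const.inner ℝ contDiffAt_fst).add
      (contDiffAt_const.inner ℝ contDiffAt_snd)), fun _ => rfl⟩

lemma lin_apply (v : E8) (x : KS) : (lin v).1 x = inner ℝ v.1 x.1.1 + inner ℝ v.2 x.1.2 := rfl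

lemma XS_lin (i : Fin 6) (v : E8) : XS i (lin v) = - lin (TT i v) := by
  apply Subtype.ext
  funext x
  set L : E8 →L[ℝ] ℝ := ((innerSL ℝ v.1).comp (ContinuousLinearMap.fst ℝ E4 E4)) +
    ((innerSL ℝ v.2).comp (ContinuousLinearMap.snd ℝ E4 E4)) with hL
  have hF : IsExt KS (lin v).1 L := ⟨fun x _ => L.contDiff.contDiffAt, fun x => rfl⟩
  rw [XS, dirD_apply (FS i) (lin v) hF, L.fderiv]
  have e1 : L (TT i x) = inner ℝ v.1 (TT i x).1 + inner ℝ v.2 (TT i x).2 := rfl
  have e2 : (- lin (TT i v) : AS).1 x =
      - (inner ℝ (TT i v).1 x.1.1 + inner ℝ (TT i v).2 x.1.2) := rfl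
  rw [e1, e2, TT_fst, TT_snd, TT_fst, TT_snd]
  by_cases h : fstIdx i
  · simp only [if_pos h, Q_skew, inner_zero_left, inner_zero_right]; ring
  · simp only [if_neg h, Q_skew, inner_zero_left, inner_zero_right]; ring

/-- integer structure constants -/
def cZ (i j k : Fin 6) : ℤ :=
  if (fstIdx i ∧ fstIdx j ∧ fstIdx k) ∨ (¬ fstIdx i ∧ ¬ fstIdx j ∧ ¬ fstIdx k) then
    eps (loc i) (loc j) (loc k) else 0

lemma XS_comm (i j : Fin 6) (f : AS) :
    XS i (XS j f) - XS j (XS i f) = ∑ k, algebraMap ℝ AS (cZ i j k : ℝ) * XS k f := by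
  apply Subtype.ext
  funext x
  have h1 := dirD_comm (FS i) (FS j) f x
  have h2 : TT j (TT i x) - TT i (TT j x) = ∑ k, (cZ i j k : ℝ) • TT k x := by
    apply Prod.ext
    · rw [Prod.fst_sub, Prod.fst_sum]
      simp only [Prod.smul_fst, TT_fst]
      by_cases hi : fstIdx i
      · by_cases hj : fstIdx j
        · simp only [hi, hj, if_true]
          rw [Q_comm]
          rw [Fin.sum_univ_three, Fin.sum_univ_six]
          have e0 : fstIdx 0 := by decide
          have e1 : fstIdx 1 := by decide
          have e2 : fstIdx 2 := by decide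
          have e3 : ¬ fstIdx 3 := by decide
          have e4 : ¬ fstIdx 4 := by decide
          have e5 : ¬ fstIdx 5 := by decide
          simp only [e0, e1, e2, e3, e4, e5, if_true, if_false, smul_zero, add_zero, cZ, hi, hj,
            true_and, not_true, false_and, or_false, if_true]
          rfl
        · simp only [hi, hj, if_true, if_false, map_zero, sub_zero]
          symm
          refine sum_eq_zero fun k _ => ?_
          simp [cZ, hi, hj]
      · by_cases hj : fstIdx j
        · simp only [hi, hj, if_true, if_false, map_zero, sub_zero]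
          symm
          refine sum_eq_zero fun k _ => ?_
          simp [cZ, hi, hj]
        · simp only [hi, hj, if_false, sub_zero]
          symm
          refine sum_eq_zero fun k _ => ?_
          by_cases hk : fstIdx k
          · simp [cZ, hi, hj, hk]
          · simp [hk]
    · rw [Prod.snd_sub, Prod.snd_sum]
      simp only [Prod.smul_snd, TT_snd]
      by_cases hi : fstIdx i
      · by_cases hj : fstIdx j
        · simp only [hi, hj, if_true, sub_zero]
          symm
          refine sum_eq_zero fun k _ => ?_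
          by_cases hk : fstIdx k
          · simp [hk]
          · simp [cZ, hi, hj, hk]
        · simp only [hi, hj, if_true, if_false, map_zero, sub_zero]
          symm
          refine sum_eq_zero fun k _ => ?_
          simp [cZ, hi, hj]
      · by_cases hj : fstIdx j
        · simp only [hi, hj, if_true, if_false, map_zero, sub_zero]
          symm
          refine sum_eq_zero fun k _ => ?_
          simp [cZ, hi, hj]
        · simp only [hi, hj, if_false]
          rw [Q_comm]
          rw [Fin.sum_univ_three, Fin.sum_univ_six]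
          have e0 : fstIdx 0 := by decide
          have e1 : fstIdx 1 := by decide
          have e2 : fstIdx 2 := by decide
          have e3 : ¬ fstIdx 3 := by decide
          have e4 : ¬ fstIdx 4 := by decide
          have e5 : ¬ fstIdx 5 := by decide
          simp only [e0, e1, e2, e3, e4, e5, if_true, if_false, smul_zero, zero_add, cZ, hi, hj,
            true_and, not_false_iff, false_and, false_or, not_true]
          rfl
  have h3 : (XS i (XS j f) - XS j (XS i f)).1 x = (XS i (XS j f)).1 x - (XS j (XS i f)).1 x := rfl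
  rw [h3]
  refine h1.trans ?_
  rw [h2, map_sum]
  have h4 : (∑ k, algebraMap ℝ AS (cZ i j k : ℝ) * XS k f).1 x =
      ∑ k, (cZ i j k : ℝ) * (XS k f).1 x := by
    have : (∑ k, algebraMap ℝ AS (cZ i j k : ℝ) * XS k f).1 =
        ∑ k, (algebraMap ℝ AS (cZ i j k : ℝ) * XS k f).1 := by
      have h5 := map_sum (SA KS).val (fun k => algebraMap ℝ AS (cZ i j k : ℝ) * XS k f) univ
      exact h5
    rw [this, Finset.sum_apply]
    rfl
  rw [h4]
  refine sum_congr rfl fun k _ => ?_
  rw [map_smul, smul_eq_mul]
  rfl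

end Pool.Agent.H83.Curv
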