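import Mathlib

/-! Invariance of the spherical measure under linear isometries. -/

namespace Pool.Agent.H83.Curv

open MeasureTheory Metric Set
open scoped Pointwise

variable {E : Type*} [NormedAddCommGroup E] [InnerProductSpace ℝ E] [FiniteDimensional ℝ E]
  [MeasurableSpace E] [BorelSpace E]

omit [FiniteDimensional ℝ E] [MeasurableSpace E] [BorelSpace E] in
lemma sph_mem (L : E ≃ₗᵢ[ℝ] E) (x : sphere (0 : E) 1) : L x ∈ sphere (0 : E) 1 := by
  have := x.2
  simp only [mem_sphere_iff_norm, sub_zero, LinearIsometryEquiv.norm_map] at this ⊢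
  exact this

/-- action of a linear isometry on the sphere -/
def sphMap (L : E ≃ₗᵢ[ℝ] E) (x : sphere (0 : E) 1) : sphere (0 : E) 1 := ⟨L x, sph_mem L x⟩

omit [FiniteDimensional ℝ E] [MeasurableSpace E] [BorelSpace E] in
lemma continuous_sphMap (L : E ≃ₗᵢ[ℝ] E) : Continuous (sphMap L) :=
  (L.continuous.comp continuous_subtype_val).subtype_mk _

lemma sphMap_mp (L : E ≃ₗᵢ[ℝ] E) : MeasurePreserving (sphMap L)
    (volume : Measure E).toSphere (volume : Measure E).toSphere := by
  refine ⟨(continuous_sphMap L).measurable, ?_⟩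
  ext s hs
  rw [Measure.map_apply (continuous_sphMap L).measurable hs, Measure.toSphere_apply' _ hs,
    Measure.toSphere_apply' _ ((continuous_sphMap L).measurable hs)]
  congr 1
  have h1 : (Ioo (0 : ℝ) 1 • (Subtype.val '' (sphMap L ⁻¹' s)) : Set E) =
      L ⁻¹' (Ioo (0 : ℝ) 1 • (Subtype.val '' s)) := by
    ext x
    simp only [mem_smul, mem_preimage, mem_image, Subtype.exists, exists_and_right, exists_eq_right]
    constructor
    · rintro ⟨a, ha, y, ⟨hy, hy'⟩, rfl⟩
      refine ⟨a, ha, L y, ⟨sph_mem L ⟨y, hy⟩, hy'⟩, ?_⟩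
      rw [map_smul]
    · rintro ⟨a, ha, y, ⟨hy, hy'⟩, h⟩
      refine ⟨a, ha, L.symm y, ⟨sph_mem L.symm ⟨y, hy⟩, ?_⟩, ?_⟩
      · have : sphMap L ⟨L.symm y, sph_mem L.symm ⟨y, hy⟩⟩ = ⟨y, hy⟩ := by
          apply Subtype.ext
          simp [sphMap]
        change sphMap L ⟨L.symm y, sph_mem L.symm ⟨y, hy⟩⟩ ∈ s
        rw [this]; exact hy'
      · apply L.injective
        rw [← h, map_smul, LinearIsometryEquiv.apply_symm_apply]
  rw [h1]
  exact (LinearIsometryEquiv.measurePreserving L).measure_preimage_emb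
    L.toHomeomorph.measurableEmbedding _

end Pool.Agent.H83.Curv
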