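import Mathlib
import Pool.Agent.H83.Curv.S3Prod
import Pool.Agent.H83.Curv.SphMeas

/-! The normalised invariant integral on the product of two 3-spheres. -/

namespace Pool.Agent.H83.Curv

open Finset Filter Topology MeasureTheory Metric
open scoped ContDiff

/-- the unit 3-sphere -/
abbrev Sph3 := sphere (0 : E4) 1

/-- the invariant measure of the 3-sphere -/
noncomputable abbrev sgm : Measure Sph3 := (volume : Measure E4).toSphere

/-- the invariant measure of the product -/
noncomputable abbrev sg2 : Measure (Sph3 × Sph3) := sgm.prod sgm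

/-- pairs of points of the sphere as points of the product -/
def mkS (p : Sph3 × Sph3) : KS := ⟨(p.1.1, p.2.1), by
  have h1 := p.1.2
  have h2 := p.2.2
  rw [mem_sphere_iff_norm, sub_zero] at h1 h2
  exact ⟨h1, h2⟩⟩

lemma continuous_mkS : Continuous mkS :=
  Continuous.subtype_mk ((continuous_subtype_val.comp continuous_fst).prodMk
    (continuous_subtype_val.comp continuous_snd)) _

instance : CompactSpace KS := isCompact_iff_compactSpace.mp isCompact_KS

lemma integrable_S {g : KS → ℝ} (hg : Continuous g) : Integrable (fun p => g (mkS p)) sg2 :=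
  (hg.comp continuous_mkS).integrable_of_hasCompactSupport (HasCompactSupport.of_compactSpace _)

lemma vol_pos : 0 < sg2.real Set.univ := by
  rw [measureReal_def]
  refine ENNReal.toReal_pos ?_ (measure_ne_top _ _)
  rw [← Set.univ_prod_univ, Measure.prod_prod]
  have h : sgm Set.univ ≠ 0 := by
    rw [Measure.measure_univ_ne_zero]
    exact Measure.toSphere_ne_zero _
  exact mul_ne_zero h h

/-- the normalised integral of a function -/
noncomputable def avg (g : KS → ℝ) : ℝ := (sg2.real Set.univ)⁻¹ * ∫ p, g (mkS p) ∂sg2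

lemma avg_add {f g : KS → ℝ} (hf : Continuous f) (hg : Continuous g) :
    avg (f + g) = avg f + avg g := by
  unfold avg
  rw [← mul_add, ← integral_add (integrable_S hf) (integrable_S hg)]
  rfl

lemma avg_smul (r : ℝ) (f : KS → ℝ) : avg (r • f) = r * avg f := by
  unfold avg
  have : ∫ p, (r • f) (mkS p) ∂sg2 = r * ∫ p, f (mkS p) ∂sg2 := by
    rw [← integral_const_mul]; rfl
  rw [this]; ring

lemma avg_one : avg 1 = 1 := by
  unfold avg
  simp only [Pi.one_apply, integral_const, smul_eq_mul, mul_one]
  exact inv_mul_cancel₀ vol_pos.ne'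

lemma avg_nonneg {f : KS → ℝ} (hf : ∀ x, 0 ≤ f x) : 0 ≤ avg f :=
  mul_nonneg (inv_nonneg.mpr vol_pos.le) (integral_nonneg fun _ => hf _)

/-- the integral as a linear map -/
noncomputable def IS : AS →ₗ[ℝ] ℝ where
  toFun f := avg f.1
  map_add' f g := avg_add (SA_continuous f) (SA_continuous g)
  map_smul' r f := avg_smul r f.1

lemma IS_apply (f : AS) : IS f = avg f.1 := rfl

lemma IS_one : IS 1 = 1 := avg_one

/-- action of two isometries -/
noncomputable def actS (L₁ L₂ : E4 ≃ₗᵢ[ℝ] E4) (x : KS) : KS := ⟨(L₁ x.1.1, L₂ x.1.2), by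
  have h := x.2
  exact ⟨by rw [L₁.norm_map]; exact h.1, by rw [L₂.norm_map]; exact h.2⟩⟩

lemma avg_inv (L₁ L₂ : E4 ≃ₗᵢ[ℝ] E4) {f : KS → ℝ} (hf : Continuous f) :
    avg (fun x => f (actS L₁ L₂ x)) = avg f := by
  unfold avg
  congr 1
  have mp := (sphMap_mp L₁).prod (sphMap_mp L₂)
  have h1 := integral_map (μ := sg2) (f := fun p => f (mkS p)) mp.measurable.aemeasurable
    ((hf.comp continuous_mkS).aestronglyMeasurable)
  rw [mp.map_eq] at h1
  exact h1.symm

/-- the rotations as linear isometries -/
noncomputable def rotI (i : Fin 3) (t : ℝ) : E4 →ₗᵢ[ℝ] E4 where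
  toFun := rotQ i t
  map_add' x y := by simp only [rotQ, map_add, smul_add]; abel
  map_smul' r x := by
    simp only [rotQ, map_smul, RingHom.id_apply, smul_add, smul_comm r]
  norm_map' := norm_rotQ i t

/-- the rotations as isometries -/
noncomputable def rotL (i : Fin 3) (t : ℝ) : E4 ≃ₗᵢ[ℝ] E4 :=
  (rotI i t).toLinearIsometryEquiv rfl

lemma rotL_apply (i : Fin 3) (t : ℝ) (x : E4) : rotL i t x = rotQ i t x := rfl

lemma avg_flow (i : Fin 6) (t : ℝ) {f : KS → ℝ} (hf : Continuous f) :
    avg (fun x => f ⟨flowS i t x, (FS i).maps t x x.2⟩) = avg f := by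
  by_cases h : fstIdx i
  · have := avg_inv (rotL (loc i) t) (LinearIsometryEquiv.refl ℝ E4) hf
    rw [← this]
    congr 1
    funext x
    congr 1
    apply Subtype.ext
    simp [flowS, h, actS, rotL_apply]
  · have := avg_inv (LinearIsometryEquiv.refl ℝ E4) (rotL (loc i) t) hf
    rw [← this]
    congr 1
    funext x
    congr 1
    apply Subtype.ext
    simp [flowS, h, actS, rotL_apply]

lemma IS_X (i : Fin 6) (f : AS) : IS (XS i f) = 0 := by
  obtain ⟨C, hC⟩ := (isCompact_univ (X := KS)).exists_bound_of_continuousOn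
    (SA_continuous (XS i f)).continuousOn
  have hder : HasDerivAt (fun t => ∫ p, f.1 ⟨flowS i t (mkS p), (FS i).maps t _ (mkS p).2⟩ ∂sg2)
      (∫ p, (XS i f).1 ⟨flowS i 0 (mkS p), (FS i).maps 0 _ (mkS p).2⟩ ∂sg2) 0 := by
    have hc : ∀ (t : ℝ) (g : AS),
        Continuous fun x : KS => g.1 ⟨flowS i t x, (FS i).maps t x x.2⟩ := by
      intro t g
      refine (SA_continuous g).comp (Continuous.subtype_mk ?_ _)
      by_cases h : fstIdx i
      · have e : (fun x : KS => flowS i t x) = fun x : KS => (rotL (loc i) t x.1.1, x.1.2) := by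
          funext x; simp [flowS, h, rotL_apply]
        rw [e]
        exact ((rotL (loc i) t).continuous.comp (continuous_fst.comp continuous_subtype_val)).prodMk
          (continuous_snd.comp continuous_subtype_val)
      · have e : (fun x : KS => flowS i t x) = fun x : KS => (x.1.1, rotL (loc i) t x.1.2) := by
          funext x; simp [flowS, h, rotL_apply]
        rw [e]
        exact (continuous_fst.comp continuous_subtype_val).prodMk
          ((rotL (loc i) t).continuous.comp (continuous_snd.comp continuous_subtype_val))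
    exact (hasDerivAt_integral_of_dominated_loc_of_deriv_le (μ := sg2) (s := Set.univ)
      (F := fun t p => f.1 ⟨flowS i t (mkS p), (FS i).maps t _ (mkS p).2⟩)
      (F' := fun t p => (XS i f).1 ⟨flowS i t (mkS p), (FS i).maps t _ (mkS p).2⟩)
      (bound := fun _ => C) Filter.univ_mem
      (Eventually.of_forall fun t => ((hc t f).comp continuous_mkS).aestronglyMeasurable)
      (integrable_S (hc 0 f))
      (((hc 0 (XS i f)).comp continuous_mkS).aestronglyMeasurable)
      (Eventually.of_forall fun p t _ => hC _ (Set.mem_univ _))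
      (integrable_const C)
      (Eventually.of_forall fun p t _ => dirD_hasDerivAt (FS i) f (mkS p) t)).2
  have hconst : (fun t => ∫ p, f.1 ⟨flowS i t (mkS p), (FS i).maps t _ (mkS p).2⟩ ∂sg2) =
      fun _ => ∫ p, f.1 (mkS p) ∂sg2 := by
    funext t
    have := avg_flow i t (SA_continuous f)
    unfold avg at this
    exact mul_left_cancel₀ (inv_ne_zero vol_pos.ne') this
  rw [hconst] at hder
  have h0 := hder.unique (hasDerivAt_const _ _)
  rw [IS_apply, avg]
  have h1 : ∫ p, (XS i f).1 (mkS p) ∂sg2 =
      ∫ p, (XS i f).1 ⟨flowS i 0 (mkS p), (FS i).maps 0 _ (mkS p).2⟩ ∂sg2 := by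
    congr 1
    funext p
    have h2 : mkS p = ⟨flowS i 0 (mkS p), (FS i).maps 0 _ (mkS p).2⟩ :=
      Subtype.ext ((FS i).zero _).symm
    exact congrArg _ h2
  rw [h1, h0, mul_zero]

/-- there is an isometry taking a unit vector to another -/
lemma exists_isom {x y : E4} (h : ‖x‖ = ‖y‖) : ∃ L : E4 ≃ₗᵢ[ℝ] E4, L x = y :=
  ⟨(ℝ ∙ (x - y))ᗮ.reflection, Submodule.reflection_sub h⟩

end Pool.Agent.H83.Curv
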