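import Mathlib
import Pool.Agent.H83.Curv.S3Int

/-! Concentration of the kernels on the product of two 3-spheres. -/

namespace Pool.Agent.H83.Curv

open Finset Filter Topology MeasureTheory Metric
open scoped ContDiff

/-- the pre-calculus of the product of two 3-spheres -/
noncomputable def PS : PreCalc (Fin 6) KS AS where
  ev := (SA KS).val
  ev_inj := fun _ _ h => Subtype.ext (funext h)
  I := IS
  I_nonneg := fun _ hf => avg_nonneg hf
  X := XS
  IX := IS_X

lemma PS_ev (f : AS) (x : KS) : PS.ev f x = f.1 x := rfl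

lemma lin_add (v w : E8) : lin (v + w) = lin v + lin w := by
  apply Subtype.ext
  funext x
  change inner ℝ (v.1 + w.1) x.1.1 + inner ℝ (v.2 + w.2) x.1.2 =
    (inner ℝ v.1 x.1.1 + inner ℝ v.2 x.1.2) + (inner ℝ w.1 x.1.1 + inner ℝ w.2 x.1.2)
  rw [inner_add_left, inner_add_left]; ring

lemma lin_smul (r : ℝ) (v : E8) : lin (r • v) = r • lin v := by
  apply Subtype.ext
  funext x
  change inner ℝ (r • v.1) x.1.1 + inner ℝ (r • v.2) x.1.2 =
    r * (inner ℝ v.1 x.1.1 + inner ℝ v.2 x.1.2)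
  rw [real_inner_smul_left, real_inner_smul_left]; ring

/-- linear functions, linearly -/
noncomputable def linL : E8 →ₗ[ℝ] AS where
  toFun := lin
  map_add' := lin_add
  map_smul' := lin_smul

lemma linL_apply (v : E8) : linL v = lin v := rfl

lemma XS_lin_apply (i : Fin 6) (v : E8) (z : KS) :
    (XS i (lin v)).1 z = inner ℝ v.1 (TT i z).1 + inner ℝ v.2 (TT i z).2 := by
  rw [XS_lin]
  change - (inner ℝ (TT i v).1 z.1.1 + inner ℝ (TT i v).2 z.1.2) = _
  rw [TT_fst, TT_snd, TT_fst, TT_snd]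
  by_cases h : fstIdx i
  · simp only [if_pos h, Q_skew, inner_zero_left, inner_zero_right]; ring
  · simp only [if_neg h, Q_skew, inner_zero_left, inner_zero_right]; ring

lemma TT_TT_sum (v : E8) : ∑ i, TT i (TT i v) = (-3 : ℝ) • v := by
  have e0 : fstIdx 0 := by decide
  have e1 : fstIdx 1 := by decide
  have e2 : fstIdx 2 := by decide
  have e3 : ¬ fstIdx 3 := by decide
  have e4 : ¬ fstIdx 4 := by decide
  have e5 : ¬ fstIdx 5 := by decide
  rw [Fin.sum_univ_six]
  apply Prod.ext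
  · simp only [Prod.fst_add, TT_fst, e0, e1, e2, e3, e4, e5, if_true, if_false, Q_sq, Prod.smul_fst]
    module
  · simp only [Prod.snd_add, TT_snd, e0, e1, e2, e3, e4, e5, if_true, if_false, Q_sq, Prod.smul_snd]
    module

lemma XX_lin_sum (v : E8) : ∑ i, XS i (XS i (lin v)) = (-3 : ℝ) • lin v := by
  have h : ∀ i, XS i (XS i (lin v)) = linL (TT i (TT i v)) := by
    intro i
    rw [XS_lin, map_neg, XS_lin, neg_neg]; rfl
  rw [sum_congr rfl fun i _ => h i, ← map_sum, TT_TT_sum, map_smul]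
  rfl

/-- the height functions -/
noncomputable def hA (x : KS) : AS := lin (x.1.1, 0)
/-- the height functions -/
noncomputable def hB (x : KS) : AS := lin (0, x.1.2)

lemma hA_apply (x z : KS) : (hA x).1 z = inner ℝ x.1.1 z.1.1 := by
  rw [hA, lin_apply]; simp

lemma hB_apply (x z : KS) : (hB x).1 z = inner ℝ x.1.2 z.1.2 := by
  rw [hB, lin_apply]; simp

lemma XhA (i : Fin 6) (x z : KS) : (XS i (hA x)).1 z =
    if fstIdx i then inner ℝ x.1.1 (Q (loc i) z.1.1) else 0 := by
  rw [hA, XS_lin_apply, TT_fst]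
  split_ifs <;> simp

lemma XhB (i : Fin 6) (x z : KS) : (XS i (hB x)).1 z =
    if fstIdx i then 0 else inner ℝ x.1.2 (Q (loc i) z.1.2) := by
  rw [hB, XS_lin_apply, TT_snd]
  split_ifs <;> simp

lemma XhAB (i : Fin 6) (x : KS) : XS i (hA x) * XS i (hB x) = 0 := by
  apply Subtype.ext
  funext z
  change (XS i (hA x)).1 z * (XS i (hB x)).1 z = 0
  rw [XhA, XhB]
  split_ifs <;> simp

lemma Q_unit (x z : E4) (hx : ‖x‖ = 1) (hz : ‖z‖ = 1) :
    ∑ i, inner ℝ x (Q i z) ^ 2 = 1 - inner ℝ x z ^ 2 := by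
  have h1 := Q_complete x z
  rw [real_inner_self_eq_norm_sq, real_inner_self_eq_norm_sq, hx, hz] at h1
  have h2 : ∀ i, inner ℝ (Q i x) z ^ 2 = inner ℝ x (Q i z) ^ 2 := by
    intro i; rw [Q_skew, neg_sq]
  rw [sum_congr rfl fun i _ => h2 i] at h1
  linarith

lemma sum_six (f : Fin 6 → ℝ) (g h : Fin 3 → ℝ)
    (hf : ∀ i, f i = if fstIdx i then g (loc i) else h (loc i)) :
    ∑ i, f i = ∑ i, g i + ∑ i, h i := by
  rw [Fin.sum_univ_six, Fin.sum_univ_three, Fin.sum_univ_three]
  simp only [hf]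
  have e0 : fstIdx 0 := by decide
  have e1 : fstIdx 1 := by decide
  have e2 : fstIdx 2 := by decide
  have e3 : ¬ fstIdx 3 := by decide
  have e4 : ¬ fstIdx 4 := by decide
  have e5 : ¬ fstIdx 5 := by decide
  have l0 : loc 0 = 0 := by decide
  have l1 : loc 1 = 1 := by decide
  have l2 : loc 2 = 2 := by decide
  have l3 : loc 3 = 0 := by decide
  have l4 : loc 4 = 1 := by decide
  have l5 : loc 5 = 2 := by decide
  simp only [e0, e1, e2, e3, e4, e5, l0, l1, l2, l3, l4, l5, if_true, if_false]; ring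

lemma XhA_sq (x : KS) : ∑ i, XS i (hA x) * XS i (hA x) = 1 - hA x * hA x := by
  apply Subtype.ext
  funext z
  have e1 : (∑ i, XS i (hA x) * XS i (hA x) : AS).1 z = ∑ i, (XS i (hA x)).1 z ^ 2 := by
    have := PS.ev_sum univ (fun i => XS i (hA x) * XS i (hA x)) z
    simp only [PS_ev] at this
    rw [this]
    exact sum_congr rfl fun i _ => (sq _).symm
  rw [e1, sum_six _ (fun i => inner ℝ x.1.1 (Q i z.1.1) ^ 2) (fun _ => 0), Q_unit _ _ x.2.1 z.2.1]
  · change _ = 1 - (hA x).1 z * (hA x).1 z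
    rw [hA_apply]; simp [sq]
  · intro i
    rw [XhA]
    split_ifs <;> simp

lemma XhB_sq (x : KS) : ∑ i, XS i (hB x) * XS i (hB x) = 1 - hB x * hB x := by
  apply Subtype.ext
  funext z
  have e1 : (∑ i, XS i (hB x) * XS i (hB x) : AS).1 z = ∑ i, (XS i (hB x)).1 z ^ 2 := by
    have := PS.ev_sum univ (fun i => XS i (hB x) * XS i (hB x)) z
    simp only [PS_ev] at this
    rw [this]
    exact sum_congr rfl fun i _ => (sq _).symm
  rw [e1, sum_six _ (fun _ => 0) (fun i => inner ℝ x.1.2 (Q i z.1.2) ^ 2), Q_unit _ _ x.2.2 z.2.2]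
  · change _ = 1 - (hB x).1 z * (hB x).1 z
    rw [hB_apply]; simp [sq]
  · intro i
    rw [XhB]
    split_ifs <;> simp

/-- The concentration identity. -/
lemma conc (h g : AS) (h1 : ∑ i, XS i (XS i h) = (-3 : ℝ) • h)
    (h2 : ∑ i, XS i h * XS i h = 1 - h * h) (h3 : ∀ i, XS i h * XS i g = 0) (p : ℕ) :
    p * IS (((1 / 2 : ℝ) • (1 + h)) ^ p * g * (1 - h)) =
      3 * IS (((1 / 2 : ℝ) • (1 + h)) ^ p * g * h) := by
  set ψ : AS := (1 / 2 : ℝ) • (1 + h) with hψ
  have hX : ∀ i, XS i ψ = (1 / 2 : ℝ) • XS i h := by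
    intro i
    rw [hψ, Derivation.map_smul, map_add, Derivation.map_one_eq_zero, zero_add]
  have key : ∑ i, XS i (ψ ^ p * g * XS i h) =
      (p : ℝ) • (ψ ^ p * g * (1 - h)) - (3 : ℝ) • (ψ ^ p * g * h) := by
    have e1 : ∀ i, XS i (ψ ^ p * g * XS i h) =
        (p * ψ ^ (p - 1) * g * algebraMap ℝ AS (1 / 2)) * (XS i h * XS i h) +
          ψ ^ p * g * XS i (XS i h) := by
      intro i
      rw [Derivation.leibniz, Derivation.leibniz, Derivation.leibniz_pow, hX]
      have := h3 i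
      simp only [smul_eq_mul, nsmul_eq_mul] at this ⊢
      simp only [Algebra.smul_def]
      linear_combination ψ ^ p * this
    rw [sum_congr rfl fun i _ => e1 i, sum_add_distrib, ← mul_sum, ← mul_sum, h1, h2]
    have e2 : (1 - h * h : AS) = algebraMap ℝ AS 2 * ψ * (1 - h) := by
      have h22 : algebraMap ℝ AS 2 * algebraMap ℝ AS (1/2) = 1 := by
        rw [← map_mul]; norm_num
      rw [hψ, Algebra.smul_def]
      linear_combination (-(1 + h) * (1 - h)) * h22
    rw [e2]
    rcases Nat.eq_zero_or_pos p with hp | hp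
    · subst hp
      simp only [Algebra.smul_def, map_neg]
      push_cast
      ring
    · obtain ⟨q, rfl⟩ := Nat.exists_eq_succ_of_ne_zero hp.ne'
      have h22 : algebraMap ℝ AS (1/2) * algebraMap ℝ AS 2 = 1 := by
        rw [← map_mul]; norm_num
      simp only [Nat.succ_eq_add_one, Nat.add_sub_cancel, Algebra.smul_def, map_neg, pow_succ,
        map_natCast]
      linear_combination ((↑(q + 1) : AS) * ψ ^ q * g * ψ * (1 - h)) * h22
  have h5 : IS (∑ i, XS i (ψ ^ p * g * XS i h)) = 0 := by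
    rw [map_sum]
    exact sum_eq_zero fun i _ => IS_X i _
  rw [key, map_sub, map_smul, map_smul, smul_eq_mul, smul_eq_mul] at h5
  linarith

end Pool.Agent.H83.Curv
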