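import Mathlib
import Pool.Agent.H83.Curv.S3Conc

/-! Mollifiers on the product of two 3-spheres. -/

namespace Pool.Agent.H83.Curv

open Finset Filter Topology MeasureTheory Metric
open scoped ContDiff

/-- kernels -/
noncomputable def psA (x : KS) : AS := (1 / 2 : ℝ) • (1 + hA x)
/-- kernels -/
noncomputable def psB (x : KS) : AS := (1 / 2 : ℝ) • (1 + hB x)

lemma exp_linA (w : E4) :
    ∑ j, (inner ℝ (EuclideanSpace.basisFun (Fin 4) ℝ j) w) •
      lin (EuclideanSpace.basisFun (Fin 4) ℝ j, 0) = lin (w, 0) := by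
  have h1 : ∀ j, (inner ℝ (EuclideanSpace.basisFun (Fin 4) ℝ j) w) •
      lin (EuclideanSpace.basisFun (Fin 4) ℝ j, 0) =
      linL.comp (LinearMap.inl ℝ E4 E4) ((inner ℝ (EuclideanSpace.basisFun (Fin 4) ℝ j) w) •
        EuclideanSpace.basisFun (Fin 4) ℝ j) := by
    intro j; rw [map_smul]; rfl
  rw [sum_congr rfl fun j _ => h1 j, ← map_sum, OrthonormalBasis.sum_repr']
  rfl

lemma exp_linB (w : E4) :
    ∑ j, (inner ℝ (EuclideanSpace.basisFun (Fin 4) ℝ j) w) •
      lin (0, EuclideanSpace.basisFun (Fin 4) ℝ j) = lin (0, w) := by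
  have h1 : ∀ j, (inner ℝ (EuclideanSpace.basisFun (Fin 4) ℝ j) w) •
      lin (0, EuclideanSpace.basisFun (Fin 4) ℝ j) =
      linL.comp (LinearMap.inr ℝ E4 E4) ((inner ℝ (EuclideanSpace.basisFun (Fin 4) ℝ j) w) •
        EuclideanSpace.basisFun (Fin 4) ℝ j) := by
    intro j; rw [map_smul]; rfl
  rw [sum_congr rfl fun j _ => h1 j, ← map_sum, OrthonormalBasis.sum_repr']
  rfl

lemma good_hA : PS.Good hA := by
  refine ⟨Fin 4, inferInstance, fun _ => 1,
    fun j => lin (EuclideanSpace.basisFun (Fin 4) ℝ j, 0), fun x => ?_, fun i x => ?_⟩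
  · rw [hA, ← exp_linA]
    refine sum_congr rfl fun j _ => ?_
    rw [one_mul, PS_ev, lin_apply]
    simp
  · have e1 : - PS.X i (hA x) = lin ((TT i x).1, 0) := by
      change - XS i (lin (x.1.1, 0)) = _
      rw [XS_lin, neg_neg]
      congr 1
      apply Prod.ext
      · rw [TT_fst, TT_fst]
      · rw [TT_snd]; split_ifs <;> simp
    rw [e1, ← exp_linA]
    refine sum_congr rfl fun j _ => ?_
    congr 1
    rw [one_mul, PS_ev]
    change (XS i (lin _)).1 x = _
    rw [XS_lin_apply]; simp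

lemma good_hB : PS.Good hB := by
  refine ⟨Fin 4, inferInstance, fun _ => 1,
    fun j => lin (0, EuclideanSpace.basisFun (Fin 4) ℝ j), fun x => ?_, fun i x => ?_⟩
  · rw [hB, ← exp_linB]
    refine sum_congr rfl fun j _ => ?_
    rw [one_mul, PS_ev, lin_apply]
    simp
  · have e1 : - PS.X i (hB x) = lin (0, (TT i x).2) := by
      change - XS i (lin (0, x.1.2)) = _
      rw [XS_lin, neg_neg]
      congr 1
      apply Prod.ext
      · rw [TT_fst]; split_ifs <;> simp
      · rw [TT_snd, TT_snd]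
    rw [e1, ← exp_linB]
    refine sum_congr rfl fun j _ => ?_
    congr 1
    rw [one_mul, PS_ev]
    change (XS i (lin _)).1 x = _
    rw [XS_lin_apply]; simp

lemma good_psA : PS.Good psA := PS.good_smul _ (PS.good_add PS.good_one good_hA)
lemma good_psB : PS.Good psB := PS.good_smul _ (PS.good_add PS.good_one good_hB)

/-- distance kernel -/
noncomputable def dd (x : KS) : AS := (1 - hA x) + (1 - hB x)

lemma good_dd : PS.Good dd := by
  have h := PS.good_add (PS.good_add PS.good_one (PS.good_smul (-1) good_hA))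
    (PS.good_add PS.good_one (PS.good_smul (-1) good_hB))
  have : dd = fun x => (1 + (-1 : ℝ) • hA x) + (1 + (-1 : ℝ) • hB x) := by
    funext x
    rw [dd]
    simp only [neg_smul, one_smul]; ring
  rw [this]; exact h

lemma h_bound {x z : E4} (hx : ‖x‖ = 1) (hz : ‖z‖ = 1) : |inner ℝ x z| ≤ 1 := by
  have := abs_real_inner_le_norm x z
  rwa [hx, hz, mul_one] at this

lemma psA_apply (x z : KS) : (psA x).1 z = (1 + inner ℝ x.1.1 z.1.1) / 2 := by
  have : (psA x).1 z = 1 / 2 * (1 + (hA x).1 z) := rfl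
  rw [this, hA_apply]; ring

lemma psB_apply (x z : KS) : (psB x).1 z = (1 + inner ℝ x.1.2 z.1.2) / 2 := by
  have : (psB x).1 z = 1 / 2 * (1 + (hB x).1 z) := rfl
  rw [this, hB_apply]; ring

lemma psA_nonneg (x z : KS) : 0 ≤ (psA x).1 z := by
  rw [psA_apply]
  have := (abs_le.mp (h_bound x.2.1 z.2.1)).1
  linarith

lemma psB_nonneg (x z : KS) : 0 ≤ (psB x).1 z := by
  rw [psB_apply]
  have := (abs_le.mp (h_bound x.2.2 z.2.2)).1
  linarith

lemma dd_apply (x z : KS) : (dd x).1 z = (1 - inner ℝ x.1.1 z.1.1) + (1 - inner ℝ x.1.2 z.1.2) := by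
  have : (dd x).1 z = (1 - (hA x).1 z) + (1 - (hB x).1 z) := rfl
  rw [this, hA_apply, hB_apply]

lemma dd_nonneg (x z : KS) : 0 ≤ (dd x).1 z := by
  rw [dd_apply]
  have h1 := (abs_le.mp (h_bound x.2.1 z.2.1)).2
  have h2 := (abs_le.mp (h_bound x.2.2 z.2.2)).2
  linarith

/-- normalising constants -/
noncomputable def aa : ℕ → ℝ
  | 0 => 1
  | p + 1 => (2 * p + 3) / (2 * p + 6) * aa p

lemma aa_pos (p : ℕ) : 0 < aa p := by
  induction p with
  | zero => simp [aa]
  | succ p ih => rw [aa]; positivity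

lemma aa_le (p : ℕ) : aa p ≤ 2 * aa (p + 1) := by
  rw [aa]
  have h1 := aa_pos p
  have h2 : (1 : ℝ) / 2 ≤ (2 * p + 3) / (2 * p + 6) := by
    rw [div_le_div_iff₀ (by norm_num) (by positivity)]
    have : (0 : ℝ) ≤ p := Nat.cast_nonneg p
    linarith
  nlinarith

/-- recursion for moments -/
lemma rec_moment (h g : AS) (h1 : ∑ i, XS i (XS i h) = (-3 : ℝ) • h)
    (h2 : ∑ i, XS i h * XS i h = 1 - h * h) (h3 : ∀ i, XS i h * XS i g = 0) (p : ℕ) :
    IS (((1 / 2 : ℝ) • (1 + h)) ^ (p + 1) * g) =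
      (2 * p + 3) / (2 * p + 6) * IS (((1 / 2 : ℝ) • (1 + h)) ^ p * g) := by
  have h4 := conc h g h1 h2 h3 p
  set ψ : AS := (1 / 2 : ℝ) • (1 + h) with hψ
  have e1 : h = (2 : ℝ) • ψ - 1 := by
    rw [hψ, smul_smul]; norm_num
  have e2 : ψ ^ p * g * (1 - h) = (2 : ℝ) • (ψ ^ p * g) - (2 : ℝ) • (ψ ^ (p + 1) * g) := by
    rw [e1, pow_succ]
    simp only [Algebra.smul_def, map_ofNat]; ring
  have e3 : ψ ^ p * g * h = (2 : ℝ) • (ψ ^ (p + 1) * g) - ψ ^ p * g := by
    rw [e1, pow_succ]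
    simp only [Algebra.smul_def, map_ofNat]; ring
  rw [e2, e3] at h4
  simp only [map_sub, map_smul, smul_eq_mul] at h4
  have h5 : (2 * (p : ℝ) + 6) ≠ 0 := by positivity
  field_simp
  linarith

lemma XpsB (i : Fin 6) (x : KS) : XS i (psB x) = (1 / 2 : ℝ) • XS i (hB x) := by
  rw [psB, Derivation.map_smul, map_add, Derivation.map_one_eq_zero, zero_add]

lemma XpsA (i : Fin 6) (x : KS) : XS i (psA x) = (1 / 2 : ℝ) • XS i (hA x) := by
  rw [psA, Derivation.map_smul, map_add, Derivation.map_one_eq_zero, zero_add]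

lemma Z_eq (x : KS) (p q : ℕ) : IS (psA x ^ p * psB x ^ q) = aa p * aa q := by
  induction p with
  | zero =>
    induction q with
    | zero => simp [aa, IS_one]
    | succ q ih =>
      have h := rec_moment (hB x) 1 (XX_lin_sum _) (XhB_sq x) (fun i => by simp) q
      simp only [mul_one] at h
      simp only [pow_zero, one_mul] at ih ⊢
      rw [show psB x ^ (q + 1) = ((1 / 2 : ℝ) • (1 + hB x)) ^ (q + 1) from rfl, h,
        show ((1 / 2 : ℝ) • (1 + hB x)) ^ q = psB x ^ q from rfl, ih, aa]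
      simp only [aa]; ring
  | succ p ih =>
    have h := rec_moment (hA x) (psB x ^ q) (XX_lin_sum _) (XhA_sq x) (fun i => by
      rw [Derivation.leibniz_pow, XpsB]
      have h3 := XhAB i x
      simp only [smul_eq_mul, nsmul_eq_mul]
      simp only [Algebra.smul_def]
      linear_combination ((q : AS) * psB x ^ (q - 1) * algebraMap ℝ AS (1 / 2)) * h3) p
    rw [show psA x ^ (p + 1) = ((1 / 2 : ℝ) • (1 + hA x)) ^ (p + 1) from rfl, h,
        show ((1 / 2 : ℝ) • (1 + hA x)) ^ p = psA x ^ p from rfl, ih, aa]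
    ring

lemma Z_dd (x : KS) (p q : ℕ) : IS (psA x ^ p * psB x ^ q * dd x) =
    (3 / (p + 3) + 3 / (q + 3)) * (aa p * aa q) := by
  have e1 : hA x = (2 : ℝ) • psA x - 1 := by
    rw [psA, smul_smul]; norm_num
  have e2 : hB x = (2 : ℝ) • psB x - 1 := by
    rw [psB, smul_smul]; norm_num
  have e3 : psA x ^ p * psB x ^ q * dd x = (4 : ℝ) • (psA x ^ p * psB x ^ q) -
      (2 : ℝ) • (psA x ^ (p + 1) * psB x ^ q) - (2 : ℝ) • (psA x ^ p * psB x ^ (q + 1)) := by
    rw [dd, e1, e2, pow_succ, pow_succ]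
    simp only [Algebra.smul_def, map_ofNat]; ring
  rw [e3]
  simp only [map_sub, map_smul, smul_eq_mul, Z_eq, aa]
  have h5 : (2 * (p : ℝ) + 6) ≠ 0 := by positivity
  have h6 : (2 * (q : ℝ) + 6) ≠ 0 := by positivity
  have h7 : ((p : ℝ) + 3) ≠ 0 := by positivity
  have h8 : ((q : ℝ) + 3) ≠ 0 := by positivity
  field_simp
  ring

end Pool.Agent.H83.Curv
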