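import Mathlib
import Pool.Agent.H83.Curv.S3Moll
import Pool.Agent.H83.Curv.CoreD

/-! The calculus on the product of two 3-spheres. -/

namespace Pool.Agent.H83.Curv

open Finset Filter Topology MeasureTheory Metric
open scoped ContDiff

/-- the mollifying kernels -/
noncomputable def kN (N : ℕ) (x : KS) : AS :=
  (aa (N + 1) * aa (N + 1))⁻¹ • (psA x ^ (N + 1) * psB x ^ (N + 1))

/-- majorants -/
noncomputable def mN (N : ℕ) (x : KS) : AS :=
  ((aa (N + 1) * aa (N + 1))⁻¹ * (N + 1)) •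
    ((psA x ^ N * psB x ^ (N + 1) + psA x ^ (N + 1) * psB x ^ N) * dd x)

/-- majorants -/
noncomputable def dN (N : ℕ) (x : KS) : AS := (2 : ℝ) • (kN N x * dd x)

lemma pow_ev (f : AS) (n : ℕ) (z : KS) : (f ^ n).1 z = (f.1 z) ^ n := rfl
lemma mul_ev (f g : AS) (z : KS) : (f * g).1 z = f.1 z * g.1 z := rfl
lemma add_ev (f g : AS) (z : KS) : (f + g).1 z = f.1 z + g.1 z := rfl
lemma smul_ev (r : ℝ) (f : AS) (z : KS) : (r • f).1 z = r * f.1 z := rfl

lemma X_hA_le (i : Fin 6) (x z : KS) : (XS i (hA x)).1 z ^ 2 ≤ 2 * (dd x).1 z := by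
  have hb := abs_le.mp (h_bound x.2.1 z.2.1)
  have hb' := abs_le.mp (h_bound x.2.2 z.2.2)
  have h1 : (XS i (hA x)).1 z ^ 2 ≤ 1 - inner ℝ x.1.1 z.1.1 ^ 2 := by
    rw [← Q_unit _ _ x.2.1 z.2.1, XhA]
    split_ifs with h
    · exact single_le_sum (f := fun j => inner ℝ x.1.1 (Q j z.1.1) ^ 2)
        (fun _ _ => sq_nonneg _) (mem_univ _)
    · rw [zero_pow two_ne_zero]
      exact sum_nonneg fun _ _ => sq_nonneg _
  rw [dd_apply]
  nlinarith

lemma X_hB_le (i : Fin 6) (x z : KS) : (XS i (hB x)).1 z ^ 2 ≤ 2 * (dd x).1 z := by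
  have hb := abs_le.mp (h_bound x.2.1 z.2.1)
  have hb' := abs_le.mp (h_bound x.2.2 z.2.2)
  have h1 : (XS i (hB x)).1 z ^ 2 ≤ 1 - inner ℝ x.1.2 z.1.2 ^ 2 := by
    rw [← Q_unit _ _ x.2.2 z.2.2, XhB]
    split_ifs with h
    · rw [zero_pow two_ne_zero]
      exact sum_nonneg fun _ _ => sq_nonneg _
    · exact single_le_sum (f := fun j => inner ℝ x.1.2 (Q j z.1.2) ^ 2)
        (fun _ _ => sq_nonneg _) (mem_univ _)
  rw [dd_apply]
  nlinarith

lemma dist_le (x z : KS) : ‖(x : E8) - z‖ ^ 2 ≤ 2 * (dd x).1 z := by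
  have hb := abs_le.mp (h_bound x.2.1 z.2.1)
  have hb' := abs_le.mp (h_bound x.2.2 z.2.2)
  have h1 : ‖x.1.1 - z.1.1‖ ^ 2 = 2 * (1 - inner ℝ x.1.1 z.1.1) := by
    rw [norm_sub_sq_real, x.2.1, z.2.1]; ring
  have h2 : ‖x.1.2 - z.1.2‖ ^ 2 = 2 * (1 - inner ℝ x.1.2 z.1.2) := by
    rw [norm_sub_sq_real, x.2.2, z.2.2]; ring
  rw [Prod.norm_def, dd_apply]
  rcases max_choice ‖((x : E8) - z).1‖ ‖((x : E8) - z).2‖ with h | h
  · rw [h]
    change ‖x.1.1 - z.1.1‖ ^ 2 ≤ _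
    rw [h1]; linarith
  · rw [h]
    change ‖x.1.2 - z.1.2‖ ^ 2 ≤ _
    rw [h2]; linarith

lemma lip_S (f : AS) : ∃ L : ℝ, 0 ≤ L ∧ ∀ x z : KS,
    |f.1 x - f.1 z| ≤ L * Real.sqrt (2 * (dd x).1 z) := by
  obtain ⟨L, hL, h⟩ := SA_lipschitz isCompact_KS f
  refine ⟨L, hL, fun x z => (h x z).trans (mul_le_mul_of_nonneg_left ?_ hL)⟩
  exact Real.le_sqrt_of_sq_le (dist_le x z)

lemma abs_aux {P R a b D : ℝ} (hP0 : 0 ≤ P) (hR0 : 0 ≤ R) (ha : |a| ≤ D) (hb : |b| ≤ D) :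
    |P * (1 / 2 * a) + R * (1 / 2 * b)| ≤ (P + R) / 2 * D := by
  refine (abs_add_le _ _).trans ?_
  rw [abs_mul, abs_mul, abs_mul, abs_mul, abs_of_nonneg hP0, abs_of_nonneg hR0,
    abs_of_pos (by norm_num : (0 : ℝ) < 1 / 2)]
  nlinarith [mul_le_mul_of_nonneg_left ha hP0, mul_le_mul_of_nonneg_left hb hR0]

/-- existence of mollifiers -/
theorem moll_S : ∃ J : ℕ → AS →ₗ[ℝ] AS,
      (∀ N i f, J N (PS.X i f) = PS.X i (J N f)) ∧
      (∀ N f g, PS.I (J N f * g) = PS.I (f * J N g)) ∧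
      (∀ N, J N 1 = 1) ∧
      (∀ N, ∃ C, ∀ i f, PS.I (PS.X i (J N f) * PS.X i (J N f)) ≤ C * PS.I (f * f)) ∧
      (∀ N f, PS.I (J N f * J N f) ≤ PS.I (f * f)) ∧
      (∀ f, ∃ C, ∀ N i u, PS.I (PS.X i (f * J N u - J N (f * u)) *
        PS.X i (f * J N u - J N (f * u))) ≤ C * PS.I (u * u)) ∧
      (∀ f, Tendsto (fun N => PS.I ((J N f - f) * (J N f - f))) atTop (𝓝 0)) := by
  have hZ : ∀ N, 0 < (aa (N + 1) * aa (N + 1))⁻¹ := fun N =>
    inv_pos.mpr (mul_pos (aa_pos _) (aa_pos _))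
  refine PS.mollifiers kN mN dN ?_ ?_ ?_ ?_ ?_ ?_ ?_ ?_ ?_ ?_
  · intro N
    exact PS.good_smul _ (PS.good_mul (PS.good_pow good_psA _) (PS.good_pow good_psB _))
  · intro N
    exact PS.good_smul _ (PS.good_mul (PS.good_add
      (PS.good_mul (PS.good_pow good_psA _) (PS.good_pow good_psB _))
      (PS.good_mul (PS.good_pow good_psA _) (PS.good_pow good_psB _))) good_dd)
  · intro N x z
    rw [PS_ev, kN, smul_ev, mul_ev, pow_ev, pow_ev]
    exact mul_nonneg (hZ N).le (mul_nonneg (pow_nonneg (psA_nonneg _ _) _)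
      (pow_nonneg (psB_nonneg _ _) _))
  · intro N x z
    rw [PS_ev, mN, smul_ev, mul_ev, add_ev, mul_ev, mul_ev, pow_ev, pow_ev, pow_ev, pow_ev]
    have ha := psA_nonneg x z
    have hb := psB_nonneg x z
    have hd := dd_nonneg x z
    have := hZ N
    positivity
  · intro N x
    change IS (kN N x) = 1
    rw [kN, map_smul, Z_eq, smul_eq_mul]
    exact inv_mul_cancel₀ (mul_pos (aa_pos _) (aa_pos _)).ne'
  · refine ⟨24, by norm_num, fun N x => ?_⟩
    change IS (mN N x) ≤ 24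
    rw [mN, map_smul, add_mul, map_add, Z_dd, Z_dd, smul_eq_mul]
    have h1 := aa_le N
    have h2 := aa_pos N
    have h3 := aa_pos (N + 1)
    have hN : (0 : ℝ) ≤ N := Nat.cast_nonneg N
    push_cast
    set a := aa N
    set b := aa (N + 1)
    have e1 : (b * b)⁻¹ * ((N : ℝ) + 1) * ((3 / (N + 3) + 3 / (N + 1 + 3)) * (a * b) +
        (3 / (N + 1 + 3) + 3 / (N + 3)) * (b * a)) =
        (a / b) * (2 * ((N + 1) * (3 / (N + 3) + 3 / (N + 1 + 3)))) := by
      field_simp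
      ring
    rw [e1]
    have h4 : a / b ≤ 2 := by rw [div_le_iff₀ h3]; exact h1
    have h5 : ((N : ℝ) + 1) * (3 / (N + 3) + 3 / (N + 1 + 3)) ≤ 6 := by
      have h6 : (3 : ℝ) / (N + 3) ≤ 3 / (N + 1) := by
        apply div_le_div_of_nonneg_left (by norm_num) (by positivity); linarith
      have h7 : (3 : ℝ) / (N + 1 + 3) ≤ 3 / (N + 1) := by
        apply div_le_div_of_nonneg_left (by norm_num) (by positivity); linarith
      have h8 : ((N : ℝ) + 1) * (3 / (N + 1) + 3 / (N + 1)) = 6 := by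
        field_simp; ring
      calc _ ≤ ((N : ℝ) + 1) * (3 / (N + 1) + 3 / (N + 1)) :=
            mul_le_mul_of_nonneg_left (add_le_add h6 h7) (by positivity)
        _ = 6 := h8
    have h9 : 0 ≤ ((N : ℝ) + 1) * (3 / (N + 3) + 3 / (N + 1 + 3)) := by positivity
    calc a / b * (2 * (((N : ℝ) + 1) * (3 / (N + 3) + 3 / (N + 1 + 3)))) ≤ 2 * (2 * 6) :=
          mul_le_mul h4 (by linarith) (by positivity) (by norm_num)
      _ = 24 := by norm_num
  · refine ⟨fun N => 12 * (1 / ((N : ℝ) + 1)), ?_, fun N x => ?_⟩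
    · have := (tendsto_one_div_add_atTop_nhds_zero_nat (𝕜 := ℝ)).const_mul 12
      simpa using this
    · change IS (dN N x) ≤ _
      rw [dN, kN, smul_mul_assoc, map_smul, map_smul, Z_dd, smul_eq_mul, smul_eq_mul]
      have h3 := aa_pos (N + 1)
      have hN : (0 : ℝ) ≤ N := Nat.cast_nonneg N
      push_cast
      set b := aa (N + 1)
      have e1 : 2 * ((b * b)⁻¹ * ((3 / ((N : ℝ) + 1 + 3) + 3 / (N + 1 + 3)) * (b * b))) =
          12 * (1 / ((N : ℝ) + 1 + 3)) := by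
        field_simp
        ring
      rw [e1]
      apply mul_le_mul_of_nonneg_left _ (by norm_num)
      apply div_le_div_of_nonneg_left (by norm_num) (by positivity); linarith
  · intro f
    obtain ⟨L, hL, h⟩ := lip_S f
    refine ⟨L, hL, fun N i x z => ?_⟩
    set D := Real.sqrt (2 * (dd x).1 z) with hD
    have hDD : D * D = 2 * (dd x).1 z := Real.mul_self_sqrt (by
      have := dd_nonneg x z; linarith)
    have hD0 : 0 ≤ D := Real.sqrt_nonneg _
    have ha : |(XS i (hA x)).1 z| ≤ D := Real.abs_le_sqrt (X_hA_le i x z)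
    have hb : |(XS i (hB x)).1 z| ≤ D := Real.abs_le_sqrt (X_hB_le i x z)
    have hf := h x z
    have e1 : (XS i (kN N x)).1 z = (aa (N + 1) * aa (N + 1))⁻¹ * ((N + 1) *
        (((psA x).1 z) ^ N * ((psB x).1 z) ^ (N + 1) * (1 / 2 * (XS i (hA x)).1 z) +
        ((psA x).1 z) ^ (N + 1) * ((psB x).1 z) ^ N * (1 / 2 * (XS i (hB x)).1 z))) := by
      have e2 : XS i (kN N x) = (aa (N + 1) * aa (N + 1))⁻¹ • (((N : ℝ) + 1) •
          (psA x ^ N * psB x ^ (N + 1) * ((1 / 2 : ℝ) • XS i (hA x)) +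
            psA x ^ (N + 1) * psB x ^ N * ((1 / 2 : ℝ) • XS i (hB x)))) := by
        rw [kN, Derivation.map_smul, Derivation.leibniz, Derivation.leibniz_pow,
          Derivation.leibniz_pow, XpsA, XpsB]
        congr 1
        simp only [smul_eq_mul, nsmul_eq_mul, Nat.add_sub_cancel]
        simp only [Algebra.smul_def, map_add, map_one, map_natCast]
        push_cast
        ring
      rw [e2]
      rfl
    have hA0 := psA_nonneg x z
    have hB0 := psB_nonneg x z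
    change |(XS i (kN N x)).1 z| * |f.1 x - f.1 z| ≤ L * (mN N x).1 z
    have e3 : (mN N x).1 z = ((aa (N + 1) * aa (N + 1))⁻¹ * (N + 1)) *
        ((((psA x).1 z) ^ N * ((psB x).1 z) ^ (N + 1) +
          ((psA x).1 z) ^ (N + 1) * ((psB x).1 z) ^ N) * (dd x).1 z) := rfl
    rw [e1, e3]
    have hz := hZ N
    have hN : (0 : ℝ) ≤ N := Nat.cast_nonneg N
    set Z := (aa (N + 1) * aa (N + 1))⁻¹
    set P := ((psA x).1 z) ^ N * ((psB x).1 z) ^ (N + 1) with hP
    set R := ((psA x).1 z) ^ (N + 1) * ((psB x).1 z) ^ N with hR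
    have hP0 : 0 ≤ P := by positivity
    have hR0 : 0 ≤ R := by positivity
    set a := (XS i (hA x)).1 z
    set b := (XS i (hB x)).1 z
    have h1 : |P * (1 / 2 * a) + R * (1 / 2 * b)| ≤ (P + R) / 2 * D :=
      abs_aux hP0 hR0 ha hb
    rw [abs_mul, abs_mul, abs_of_pos hz, abs_of_nonneg (by positivity : (0 : ℝ) ≤ (N : ℝ) + 1)]
    calc Z * ((N + 1) * |P * (1 / 2 * a) + R * (1 / 2 * b)|) * |f.1 x - f.1 z|
        ≤ Z * ((N + 1) * ((P + R) / 2 * D)) * (L * D) := by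
          apply mul_le_mul _ hf (abs_nonneg _) (by positivity)
          apply mul_le_mul_of_nonneg_left _ hz.le
          exact mul_le_mul_of_nonneg_left h1 (by positivity)
      _ = Z * (N + 1) * ((P + R) / 2) * L * (D * D) := by ring
      _ = L * (Z * (N + 1) * ((P + R) * (dd x).1 z)) := by rw [hDD]; ring
  · intro f
    obtain ⟨L, hL, h⟩ := lip_S f
    refine ⟨L ^ 2, sq_nonneg _, fun N x z => ?_⟩
    have h1 := h x z
    have h0 := dd_nonneg x z
    have h2 : (f.1 x - f.1 z) ^ 2 ≤ L ^ 2 * (2 * (dd x).1 z) := by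
      have h3 := sq_le_sq' (by linarith [neg_abs_le (f.1 x - f.1 z), abs_nonneg (f.1 x - f.1 z)] :
        -(L * Real.sqrt (2 * (dd x).1 z)) ≤ |f.1 x - f.1 z|) h1
      rwa [sq_abs, mul_pow, Real.sq_sqrt (by linarith)] at h3
    have hk : 0 ≤ (kN N x).1 z := by
      rw [kN, smul_ev, mul_ev, pow_ev, pow_ev]
      exact mul_nonneg (hZ N).le (mul_nonneg (pow_nonneg (psA_nonneg _ _) _)
        (pow_nonneg (psB_nonneg _ _) _))
    change (kN N x).1 z * (f.1 x - f.1 z) ^ 2 ≤ L ^ 2 * (2 * ((kN N x).1 z * (dd x).1 z))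
    calc (kN N x).1 z * (f.1 x - f.1 z) ^ 2 ≤ (kN N x).1 z * (L ^ 2 * (2 * (dd x).1 z)) :=
          mul_le_mul_of_nonneg_left h2 hk
      _ = _ := by ring
  · intro f
    obtain ⟨C, hC⟩ := (isCompact_univ (X := KS)).exists_bound_of_continuousOn
      (SA_continuous f).continuousOn
    exact ⟨max C 0, le_max_right _ _, fun x => (hC x (Set.mem_univ x)).trans (le_max_left _ _)⟩

end Pool.Agent.H83.Curv
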