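import Mathlib
import Pool.Agent.H83.Curv.S3Calc

/-! No orthonormal frame data with 4-positive curvature on the product of two 3-spheres. -/

namespace Pool.Agent.H83.Curv

open Finset Filter Topology MeasureTheory Metric
open scoped ContDiff

lemma cZ_skew (i j k : Fin 6) : cZ j i k = - cZ i j k := by
  revert i j k; decide +kernel

lemma cZ_jacobi (i j k l : Fin 6) :
    ∑ m, (cZ i j m * cZ m k l + cZ j k m * cZ m i l + cZ k i m * cZ m j l) = 0 := by
  revert i j k l; decide +kernel

lemma cZ_trace (i : Fin 6) : ∑ j, cZ i j j = 0 := by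
  revert i; decide +kernel

lemma XS_ind (u : Fin 6 → AS) (h : ∀ x, toDer XS u x = 0) : u = 0 := by
  funext j
  apply Subtype.ext
  funext z
  change (u j).1 z = 0
  have h1 : ∀ v : E8, ∑ i, (u i).1 z * (inner ℝ v.1 (TT i z).1 + inner ℝ v.2 (TT i z).2) = 0 := by
    intro v
    have h2 := h (lin v)
    rw [toDer_apply] at h2
    have h3 : (∑ i, u i * XS i (lin v) : AS).1 z = (0 : AS).1 z := congrArg (fun f : AS => f.1 z) h2
    have h4 := PS.ev_sum univ (fun i => u i * XS i (lin v)) z
    simp only [PS_ev] at h4
    rw [h4] at h3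
    refine Eq.trans (sum_congr rfl fun i _ => ?_) h3
    rw [mul_ev, XS_lin_apply]
  by_cases hj : fstIdx j
  · have h2 := h1 (Q (loc j) z.1.1, 0)
    rw [sum_eq_single j] at h2
    · rw [TT_fst, if_pos hj, Q_orth, if_pos rfl, real_inner_self_eq_norm_sq, z.2.1] at h2
      simpa using h2
    · intro i _ hij
      rw [TT_fst]
      by_cases hi : fstIdx i
      · rw [if_pos hi, Q_orth, if_neg, inner_zero_left, add_zero, mul_zero]
        intro he
        apply hij
        revert he hi hj; clear h1 h2 hij; revert i j; decide +kernel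
      · rw [if_neg hi, inner_zero_right, inner_zero_left, add_zero, mul_zero]
    · intro hh; exact absurd (mem_univ _) hh
  · have h2 := h1 (0, Q (loc j) z.1.2)
    rw [sum_eq_single j] at h2
    · rw [TT_snd, if_neg hj, Q_orth, if_pos rfl, real_inner_self_eq_norm_sq, z.2.2] at h2
      simpa using h2
    · intro i _ hij
      rw [TT_snd]
      by_cases hi : fstIdx i
      · rw [if_pos hi, inner_zero_right, inner_zero_left, add_zero, mul_zero]
      · rw [if_neg hi, Q_orth, if_neg, inner_zero_left, zero_add, mul_zero]
        intro he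
        apply hij
        revert he hi hj; clear h1 h2 hij; revert i j; decide +kernel
    · intro hh; exact absurd (mem_univ _) hh

/-- the calculus of the product of two 3-spheres -/
noncomputable def CS : Calc KS AS where
  ev := (SA KS).val
  cont := fun f => SA_continuous f
  I := IS
  I_nonneg := PS.I_nonneg
  X := XS
  IX := IS_X
  c := fun i j k => (cZ i j k : ℝ)
  comm := XS_comm
  c_skew := fun i j k => by rw [cZ_skew i j k]; push_cast; ring
  c_jacobi := fun i j k l => by
    have := cZ_jacobi i j k l
    exact_mod_cast congrArg (Int.cast : ℤ → ℝ) this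
  c_trace := fun i => by
    have := cZ_trace i
    exact_mod_cast congrArg (Int.cast : ℤ → ℝ) this
  hind := XS_ind
  J := Classical.choose moll_S
  J_X := (Classical.choose_spec moll_S).1
  J_symm := (Classical.choose_spec moll_S).2.1
  J_one := (Classical.choose_spec moll_S).2.2.1
  J_bound := (Classical.choose_spec moll_S).2.2.2.1
  J_contr := (Classical.choose_spec moll_S).2.2.2.2.1
  J_comm := (Classical.choose_spec moll_S).2.2.2.2.2.1
  J_lim := (Classical.choose_spec moll_S).2.2.2.2.2.2

/-- integer coefficients of the volume form of the first factor -/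
def aZ (i j k : Fin 6) : ℤ :=
  if fstIdx i ∧ fstIdx j ∧ fstIdx k then eps (loc i) (loc j) (loc k) / 2 else 0

lemma aZ_alt1 (i j k : Fin 6) : aZ j i k = - aZ i j k := by
  revert i j k; decide +kernel

lemma aZ_alt2 (i j k : Fin 6) : aZ i k j = - aZ i j k := by
  revert i j k; decide +kernel

lemma aZ_closed (i j k l : Fin 6) :
    (∑ m, cZ i j m * aZ m k l) - (∑ m, cZ i k m * aZ m j l) + (∑ m, cZ i l m * aZ m j k) +
     (∑ m, cZ j k m * aZ m i l) - (∑ m, cZ j l m * aZ m i k) + ∑ m, cZ k l m * aZ m i j = 0 := by
  revert i j k l; decide +kernel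

/-- **Main theorem, frame version**: there is no orthonormal frame with 4-positive curvature
operator over the product of two 3-spheres. -/
theorem no_frame (F : Frame CS) : ¬ ∀ x, FourPos (fun a b c d => CS.ev (F.R a b c d) x) := by
  intro h4
  have halg : ∀ (i : Fin 6) (r : ℝ), CS.X i (algebraMap ℝ AS r) = 0 :=
    fun i r => Derivation.map_algebraMap _ _
  refine F.core h4 (fun i j k => algebraMap ℝ AS (aZ i j k : ℝ)) ⟨?_, ?_⟩ ?_ ?_ ?_
  · intro i j k
    beta_reduce
    rw [aZ_alt1 i j k, Int.cast_neg, map_neg]
  · intro i j k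
    beta_reduce
    rw [aZ_alt2 i j k, Int.cast_neg, map_neg]
  · intro i j k l
    have h1 := congrArg (Int.cast : ℤ → ℝ) (aZ_closed i j k l)
    push_cast at h1
    have h2 := congrArg (algebraMap ℝ AS) h1
    simp only [map_add, map_sub, map_sum, map_mul, map_zero] at h2
    simp only [dX3, halg]
    have h3 : (0 : AS) - 0 + 0 - 0 = 0 := by ring
    rw [h3, zero_sub, neg_eq_zero]
    exact h2
  · intro h hh
    have hd : ∀ i, h i i = 0 := by
      intro i
      have h1 := hh i i
      apply Subtype.ext
      funext z
      have h2 := congrArg (fun f : AS => f.1 z) h1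
      change (h i i).1 z = - (h i i).1 z at h2
      change (h i i).1 z = 0
      linarith
    have e1 : dX2 CS.X CS.cA h 0 1 2 = CS.X 0 (h 1 2) - CS.X 1 (h 0 2) + CS.X 2 (h 0 1) := by
      rw [dX2]
      have z1 : ∀ m, m ≠ 2 → CS.cA 0 1 m = 0 := by
        intro m hm
        have : cZ 0 1 m = 0 := by revert hm; revert m; decide +kernel
        change algebraMap ℝ AS (cZ 0 1 m : ℝ) = 0
        rw [this]; simp
      have z2 : ∀ m, m ≠ 1 → CS.cA 0 2 m = 0 := by
        intro m hm
        have : cZ 0 2 m = 0 := by revert hm; revert m; decide +kernel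
        change algebraMap ℝ AS (cZ 0 2 m : ℝ) = 0
        rw [this]; simp
      have z3 : ∀ m, m ≠ 0 → CS.cA 1 2 m = 0 := by
        intro m hm
        have : cZ 1 2 m = 0 := by revert hm; revert m; decide +kernel
        change algebraMap ℝ AS (cZ 1 2 m : ℝ) = 0
        rw [this]; simp
      rw [sum_eq_zero (f := fun m => CS.cA 0 1 m * h m 2), sum_eq_zero (f := fun m => CS.cA 0 2 m * h m 1),
        sum_eq_zero (f := fun m => CS.cA 1 2 m * h m 0)]
      · ring
      · intro m _
        by_cases hm : m = 0
        · subst hm; rw [hd, mul_zero]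
        · rw [z3 m hm, zero_mul]
      · intro m _
        by_cases hm : m = 1
        · subst hm; rw [hd, mul_zero]
        · rw [z2 m hm, zero_mul]
      · intro m _
        by_cases hm : m = 2
        · subst hm; rw [hd, mul_zero]
        · rw [z1 m hm, zero_mul]
    rw [e1, map_add, map_sub, CS.IX, CS.IX, CS.IX]; ring
  · have : aZ 0 1 2 = 1 := by decide +kernel
    change IS (algebraMap ℝ AS (aZ 0 1 2 : ℝ)) ≠ 0
    rw [this, Int.cast_one, map_one, IS_one]
    exact one_ne_zero

end Pool.Agent.H83.Curv
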